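import Mathlib

/-! Project GY: elementary tools (additive large sieve, Ramanujan sums, Vaughan identity, divisor
bound, summation by parts). -/

set_option autoImplicit false

namespace Pool.Agent.MP_678834_nt.gy

open Finset ComplexConjugate ArithmeticFunction
open scoped ArithmeticFunction.Moebius ArithmeticFunction.zeta

noncomputable section

theorem sum_inj {α β : Type*} {s : Finset α} {t : Finset β} (e : α → β) {f : α → ℝ} {g : β → ℝ}
    (hinj : ∀ a ∈ s, ∀ a' ∈ s, e a = e a' → a = a') (hm : ∀ a ∈ s, e a ∈ t)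
    (hle : ∀ a ∈ s, f a ≤ g (e a)) (g0 : ∀ b ∈ t, 0 ≤ g b) : ∑ a ∈ s, f a ≤ ∑ b ∈ t, g b := by
  classical
  calc ∑ a ∈ s, f a ≤ ∑ a ∈ s, g (e a) := sum_le_sum hle
    _ = ∑ b ∈ s.image e, g b := (sum_image hinj).symm
    _ ≤ ∑ b ∈ t, g b := sum_le_sum_of_subset_of_nonneg
        (fun b hb => by obtain ⟨a, ha, rfl⟩ := mem_image.1 hb; exact hm a ha) fun b hb _ => g0 b hb

theorem harm (N : ℕ) : ∑ m ∈ Icc 1 N, (1 : ℝ) / m ≤ 1 + Real.log N := by
  refine le_trans (le_of_eq ?_) (harmonic_le_one_add_log N)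
  simp [harmonic_eq_sum_Icc]

theorem harm' (s : Finset ℕ) (N : ℕ) (hs : s ⊆ Icc 1 N) :
    ∑ m ∈ s, (1 : ℝ) / m ≤ 1 + Real.log N :=
  (sum_le_sum_of_subset_of_nonneg hs fun _ _ _ => by positivity).trans (harm N)

/-- the additive character -/
def ee (t : ℝ) : ℂ := Complex.exp (Complex.I * ((2 * Real.pi * t : ℝ) : ℂ))

theorem ee_add (s t : ℝ) : ee (s + t) = ee s * ee t := by
  unfold ee; rw [← Complex.exp_add]; congr 1; push_cast; ring

theorem ee_zero : ee 0 = 1 := by simp [ee]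

theorem ee_int (r : ℤ) : ee r = 1 := by
  unfold ee
  rw [← Complex.exp_int_mul_two_pi_mul_I r]; congr 1; push_cast; ring

theorem ee_nat (r : ℕ) : ee r = 1 := by exact_mod_cast ee_int r

theorem norm_ee (t : ℝ) : ‖ee t‖ = 1 := by
  unfold ee; rw [mul_comm]; exact Complex.norm_exp_ofReal_mul_I _

theorem conj_ee (t : ℝ) : conj (ee t) = ee (-t) := by
  unfold ee
  rw [← Complex.exp_conj, map_mul, Complex.conj_I, Complex.conj_ofReal]; congr 1; push_cast; ring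

theorem ee_nat_mul (n : ℕ) (t : ℝ) : ee (n * t) = ee t ^ n := by
  unfold ee; rw [← Complex.exp_nat_mul]; congr 1; push_cast; ring

theorem ee_sub_int (t : ℝ) (r : ℤ) : ee (t - r) = ee t := by
  rw [sub_eq_add_neg, ee_add, ← Int.cast_neg, ee_int, mul_one]

theorem ee_sub_one {t : ℝ} (ht : |t| ≤ 1 / 2) : 4 * |t| ≤ ‖ee t - 1‖ := by
  unfold ee
  rw [Complex.norm_exp_I_mul_ofReal_sub_one, show 2 * Real.pi * t / 2 = Real.pi * t by ring,
    Real.norm_eq_abs, abs_mul, abs_two]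
  have hp := Real.pi_pos
  have h := Real.mul_abs_le_abs_sin (x := Real.pi * t) (by
    rw [abs_mul, abs_of_pos hp]; nlinarith)
  rw [abs_mul, abs_of_pos hp, ← mul_assoc, div_mul_cancel₀ _ hp.ne'] at h
  linarith

theorem geo_le (A B : ℕ) (t : ℝ) (r : ℤ) (h0 : t - r ≠ 0) (ht : |t - r| ≤ 1 / 2) :
    ‖∑ n ∈ Ico A B, ee (n * t)‖ ≤ 1 / (2 * |t - r|) := by
  have p0 : 0 < |t - r| := abs_pos.2 h0
  rcases le_or_gt A B with hAB | hAB
  · have h1 := geom_sum_Ico_mul (ee t) hAB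
    have h2 : ‖∑ n ∈ Ico A B, ee t ^ n‖ * ‖ee t - 1‖ ≤ 2 := by
      rw [← norm_mul, h1]
      refine (norm_sub_le _ _).trans ?_
      rw [norm_pow, norm_pow, norm_ee]; norm_num
    have h3 := ee_sub_one ht
    rw [ee_sub_int] at h3
    simp_rw [ee_nat_mul]
    rw [le_div_iff₀ (by positivity)]
    nlinarith [mul_le_mul_of_nonneg_left h3 (norm_nonneg (∑ n ∈ Ico A B, ee t ^ n))]
  · rw [Ico_eq_empty_of_le hAB.le, sum_empty, norm_zero]; positivity

theorem orth {d : ℕ} (hd : 0 < d) (k : ℤ) :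
    ∑ h ∈ range d, ee (h * (k / d)) = if (d : ℤ) ∣ k then (d : ℂ) else 0 := by
  have d0 : (d : ℝ) ≠ 0 := by positivity
  split_ifs with hk
  · obtain ⟨c, rfl⟩ := hk
    have : ∀ h ∈ range d, ee (h * (((d * c : ℤ) : ℝ) / d)) = 1 := fun h _ => by
      rw [← ee_int (h * c)]; congr 1; push_cast; field_simp
    rw [sum_congr rfl this]; simp
  · simp_rw [ee_nat_mul]
    have h1 := geom_sum_mul (ee (k / d)) d
    rw [← ee_nat_mul, mul_div_cancel₀ _ d0, ee_int, sub_self] at h1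
    refine (mul_eq_zero.1 h1).resolve_right fun h2 => hk ?_
    have h3 := ee_sub_one (abs_sub_round ((k : ℝ) / d))
    rw [ee_sub_int, h2, norm_zero] at h3
    have h4 : (k : ℝ) / d - round ((k : ℝ) / d) = 0 :=
      abs_eq_zero.1 (le_antisymm (by linarith) (abs_nonneg _))
    refine ⟨round ((k : ℝ) / d), ?_⟩
    have : (k : ℝ) = d * round ((k : ℝ) / d) := by
      rw [← sub_eq_zero.1 h4]; field_simp
    exact_mod_cast this

variable {ι : Type*}

theorem spaced (J : Finset ι) (t : ι → ℝ) {K : ℕ} (hK : 1 ≤ K)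
    (h1 : ∀ j ∈ J, 1 / (K : ℝ) ≤ t j ∧ t j ≤ 1)
    (h2 : ∀ j ∈ J, ∀ l ∈ J, j ≠ l → 1 / (K : ℝ) ≤ |t j - t l|) :
    ∑ j ∈ J, 1 / (2 * t j) ≤ K / 2 * (1 + Real.log K) := by
  have K0 : (0 : ℝ) < K := by exact_mod_cast hK
  have h3 : ∀ j ∈ J, 1 ≤ K * t j := fun j hj => by
    have := (h1 j hj).1
    rwa [div_le_iff₀' K0] at this
  have h4 : ∑ j ∈ J, 1 / (2 * t j) ≤ ∑ k ∈ Icc 1 K, (K : ℝ) / 2 * (1 / k) := by
    refine sum_inj (fun j => ⌊K * t j⌋₊) (fun j hj l hl e => ?_) (fun j hj => ?_)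
      (fun j hj => ?_) fun _ _ => by positivity
    · by_contra hne
      have h5 := h2 j hj l hl hne
      rw [div_le_iff₀' K0, ← abs_of_pos K0, ← abs_mul, mul_sub] at h5
      have a1 := Nat.floor_le (show 0 ≤ K * t j by linarith [h3 j hj])
      have a2 := Nat.lt_floor_add_one (K * t j)
      have a3 := Nat.floor_le (show 0 ≤ K * t l by linarith [h3 l hl])
      have a4 := Nat.lt_floor_add_one (K * t l)
      have e' : ⌊K * t j⌋₊ = ⌊K * t l⌋₊ := e
      rw [e'] at a1 a2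
      have : |K * t j - K * t l| < 1 := abs_lt.2 ⟨by linarith, by linarith⟩
      linarith
    · refine mem_Icc.2 ⟨Nat.le_floor (by simpa using h3 j hj), Nat.floor_le_of_le ?_⟩
      nlinarith [(h1 j hj).2]
    · have a1 := Nat.floor_le (show 0 ≤ K * t j by linarith [h3 j hj])
      have a2 : (1 : ℝ) ≤ ⌊K * t j⌋₊ := by
        exact_mod_cast Nat.le_floor (show ((1 : ℕ) : ℝ) ≤ K * t j by simpa using h3 j hj)
      have t0 : 0 < t j := lt_of_lt_of_le (by positivity) (h1 j hj).1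
      rw [div_mul_div_comm, mul_one, div_le_div_iff₀ (by positivity) (by positivity)]
      nlinarith
  refine h4.trans ?_
  rw [← mul_sum]
  exact mul_le_mul_of_nonneg_left (harm K) (by positivity)

theorem row_sum [DecidableEq ι] (I : Finset ι) (θ : ι → ℝ) {K : ℕ} (hK : 1 ≤ K)
    (h : ∀ i ∈ I, ∀ j ∈ I, i ≠ j → ∀ r : ℤ, 1 / (K : ℝ) ≤ |θ i - θ j - r|) (N : ℕ) {i : ι}
    (hi : i ∈ I) :
    ∑ j ∈ I, ‖∑ n ∈ range N, ee (n * (θ i - θ j))‖ ≤ N + K * (1 + Real.log K) := by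
  have K0 : (0 : ℝ) < K := by exact_mod_cast hK
  rw [← add_sum_erase _ _ hi]
  refine add_le_add ?_ ?_
  · simp [ee_zero]
  set t : ι → ℝ := fun j => θ i - θ j - round (θ i - θ j) with ht
  have t1 : ∀ j ∈ I.erase i, 1 / (K : ℝ) ≤ |t j| := fun j hj =>
    h i hi j (mem_of_mem_erase hj) (ne_of_mem_erase hj).symm _
  have t2 : ∀ j, |t j| ≤ 1 / 2 := fun j => abs_sub_round _
  have t3 : ∀ j ∈ I.erase i, ∀ l ∈ I.erase i, j ≠ l → 1 / (K : ℝ) ≤ |t j - t l| := by
    intro j hj l hl hne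
    have := h l (mem_of_mem_erase hl) j (mem_of_mem_erase hj) hne.symm
      (round (θ i - θ j) - round (θ i - θ l))
    refine this.trans (le_of_eq ?_)
    congr 1
    simp only [ht]; push_cast; ring
  have h1 : ∑ j ∈ I.erase i, ‖∑ n ∈ range N, ee (n * (θ i - θ j))‖ ≤
      ∑ j ∈ I.erase i, 1 / (2 * |t j|) := by
    refine sum_le_sum fun j hj => ?_
    rw [range_eq_Ico]
    refine geo_le 0 N _ _ (fun h0 => ?_) (t2 j)
    have := t1 j hj
    rw [show t j = 0 from h0, abs_zero] at this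
    have : 0 < 1 / (K : ℝ) := by positivity
    linarith
  refine h1.trans ?_
  rw [← sum_filter_add_sum_filter_not _ (fun j => 0 ≤ t j)]
  have h2 := spaced ((I.erase i).filter fun j => 0 ≤ t j) (fun j => |t j|) hK
    (fun j hj => ⟨t1 j (mem_filter.1 hj).1, by linarith [t2 j]⟩) fun j hj l hl hne => by
      rw [abs_of_nonneg (mem_filter.1 hj).2, abs_of_nonneg (mem_filter.1 hl).2]
      exact t3 j (mem_filter.1 hj).1 l (mem_filter.1 hl).1 hne
  have h3 := spaced ((I.erase i).filter fun j => ¬ 0 ≤ t j) (fun j => |t j|) hK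
    (fun j hj => ⟨t1 j (mem_filter.1 hj).1, by linarith [t2 j]⟩) fun j hj l hl hne => by
      rw [abs_of_neg (not_le.1 (mem_filter.1 hj).2), abs_of_neg (not_le.1 (mem_filter.1 hl).2),
        show -t j - -t l = -(t j - t l) by ring, abs_neg]
      exact t3 j (mem_filter.1 hj).1 l (mem_filter.1 hl).1 hne
  linarith

theorem ls_dual [DecidableEq ι] (I : Finset ι) (θ : ι → ℝ) {K : ℕ} (hK : 1 ≤ K)
    (h : ∀ i ∈ I, ∀ j ∈ I, i ≠ j → ∀ r : ℤ, 1 / (K : ℝ) ≤ |θ i - θ j - r|) (N : ℕ) (b : ι → ℂ) :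
    ∑ n ∈ range N, ‖∑ i ∈ I, b i * ee (n * θ i)‖ ^ 2 ≤
      (N + K * (1 + Real.log K)) * ∑ i ∈ I, ‖b i‖ ^ 2 := by
  set D : ι → ι → ℂ := fun i j => ∑ n ∈ range N, ee (n * (θ i - θ j)) with hD
  have e : ((∑ n ∈ range N, ‖∑ i ∈ I, b i * ee (n * θ i)‖ ^ 2 : ℝ) : ℂ) =
      ∑ i ∈ I, ∑ j ∈ I, b i * conj (b j) * D i j := by
    push_cast
    simp_rw [← Complex.mul_conj', map_sum, sum_mul_sum, hD, mul_sum]
    rw [sum_comm]
    refine sum_congr rfl fun i _ => ?_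
    rw [sum_comm]
    refine sum_congr rfl fun j _ => sum_congr rfl fun n _ => ?_
    rw [map_mul, conj_ee, show (n : ℝ) * (θ i - θ j) = n * θ i + -(n * θ j) by ring, ee_add]
    ring
  have hs : ∀ i j, ‖D j i‖ = ‖D i j‖ := fun i j => by
    rw [← Complex.norm_conj, hD, map_sum]
    congr 1
    exact sum_congr rfl fun n _ => by rw [conj_ee]; congr 1; ring
  have h0 : 0 ≤ ∑ n ∈ range N, ‖∑ i ∈ I, b i * ee (n * θ i)‖ ^ 2 :=
    sum_nonneg fun _ _ => sq_nonneg _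
  rw [← abs_of_nonneg h0, ← Real.norm_eq_abs, ← Complex.norm_real, e]
  have h1 : ‖∑ i ∈ I, ∑ j ∈ I, b i * conj (b j) * D i j‖ ≤
      ∑ i ∈ I, ∑ j ∈ I, (‖b i‖ ^ 2 / 2 * ‖D i j‖ + ‖b j‖ ^ 2 / 2 * ‖D j i‖) := by
    refine (norm_sum_le _ _).trans (sum_le_sum fun i _ => (norm_sum_le _ _).trans
      (sum_le_sum fun j _ => ?_))
    rw [norm_mul, norm_mul, Complex.norm_conj, hs i j, ← add_mul]
    exact mul_le_mul_of_nonneg_right (by nlinarith [sq_nonneg (‖b i‖ - ‖b j‖)]) (norm_nonneg _)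
  refine h1.trans ?_
  simp_rw [sum_add_distrib]
  rw [sum_comm (f := fun i j => ‖b j‖ ^ 2 / 2 * ‖D j i‖), ← sum_add_distrib, mul_sum]
  refine sum_le_sum fun i hi => ?_
  rw [← mul_sum]
  have := mul_le_mul_of_nonneg_left (row_sum I θ hK h N hi) (sq_nonneg ‖b i‖)
  simp only [hD]
  linarith

theorem ls [DecidableEq ι] (I : Finset ι) (θ : ι → ℝ) {K : ℕ} (hK : 1 ≤ K)
    (h : ∀ i ∈ I, ∀ j ∈ I, i ≠ j → ∀ r : ℤ, 1 / (K : ℝ) ≤ |θ i - θ j - r|) (N : ℕ) (c : ℕ → ℂ) :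
    ∑ i ∈ I, ‖∑ n ∈ range N, c n * ee (n * θ i)‖ ^ 2 ≤
      (N + K * (1 + Real.log K)) * ∑ n ∈ range N, ‖c n‖ ^ 2 := by
  set B : ι → ℂ := fun i => ∑ n ∈ range N, c n * ee (n * θ i) with hB
  set T := ∑ i ∈ I, ‖B i‖ ^ 2 with hT
  have hT0 : 0 ≤ T := sum_nonneg fun _ _ => sq_nonneg _
  have e : (T : ℂ) = ∑ n ∈ range N, c n * ∑ i ∈ I, conj (B i) * ee (n * θ i) := by
    rw [hT]
    push_cast
    simp_rw [mul_sum]
    rw [sum_comm]
    refine sum_congr rfl fun i _ => ?_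
    rw [← Complex.mul_conj']
    nth_rewrite 1 [hB]
    rw [sum_mul]
    exact sum_congr rfl fun n _ => by ring
  have h1 : T ≤ ∑ n ∈ range N, ‖c n‖ * ‖∑ i ∈ I, conj (B i) * ee (n * θ i)‖ := by
    rw [← abs_of_nonneg hT0, ← Real.norm_eq_abs, ← Complex.norm_real, e]
    exact (norm_sum_le _ _).trans (le_of_eq (sum_congr rfl fun n _ => norm_mul _ _))
  have h2 := sum_mul_sq_le_sq_mul_sq (range N) (fun n => ‖c n‖)
    (fun n => ‖∑ i ∈ I, conj (B i) * ee (n * θ i)‖)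
  have h3 := ls_dual I θ hK h N (fun i => conj (B i))
  simp only [Complex.norm_conj] at h3
  have h4 : 0 ≤ ∑ n ∈ range N, ‖c n‖ ^ 2 := sum_nonneg fun _ _ => sq_nonneg _
  have h5 : T ^ 2 ≤ (∑ n ∈ range N, ‖c n‖ ^ 2) * ((N + K * (1 + Real.log K)) * T) :=
    (pow_le_pow_left₀ hT0 h1 2).trans (h2.trans (mul_le_mul_of_nonneg_left h3 h4))
  have h6 : 0 ≤ ((N : ℝ) + K * (1 + Real.log K)) * ∑ n ∈ range N, ‖c n‖ ^ 2 := by
    have := Real.log_natCast_nonneg K; positivity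
  rcases hT0.eq_or_lt with h7 | h7
  · rw [← h7]; exact h6
  · refine le_of_mul_le_mul_right ?_ h7
    nlinarith

/-- reduced fractions `b / q` with `0 ≤ b < q ≤ Q`, as pairs `(q, b)` -/
def Far (Q : ℕ) : Finset (ℕ × ℕ) :=
  (Icc 1 Q ×ˢ range Q).filter fun z => z.2 < z.1 ∧ z.2.Coprime z.1

theorem far_sep {Q : ℕ} : ∀ z ∈ Far Q, ∀ w ∈ Far Q, z ≠ w → ∀ r : ℤ,
    1 / ((Q ^ 2 : ℕ) : ℝ) ≤ |(z.2 : ℝ) / z.1 - (w.2 : ℝ) / w.1 - r| := by
  intro z hz w hw hne r
  obtain ⟨q, b⟩ := z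
  obtain ⟨q', b'⟩ := w
  simp only [Far, mem_filter, mem_product, mem_Icc, mem_range] at hz hw
  obtain ⟨⟨⟨q1, q2⟩, -⟩, b1, b2⟩ := hz
  obtain ⟨⟨⟨q1', q2'⟩, -⟩, b1', b2'⟩ := hw
  have q0 : (0 : ℝ) < q := by exact_mod_cast q1
  have q0' : (0 : ℝ) < q' := by exact_mod_cast q1'
  set m : ℤ := b * q' - b' * q - r * (q * q') with hm
  have e : (b : ℝ) / q - b' / q' - r = m / (q * q') := by
    rw [hm]; push_cast; field_simp
  have m0 : m ≠ 0 := by
    intro h0
    have d1 : (q : ℤ) ∣ b * q' := ⟨b' + r * q', by linarith⟩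
    have d2 : (q' : ℤ) ∣ b' * q := ⟨b - r * q, by linarith⟩
    have d3 : q ∣ q' := b2.symm.dvd_of_dvd_mul_left (by exact_mod_cast d1)
    have d4 : q' ∣ q := b2'.symm.dvd_of_dvd_mul_left (by exact_mod_cast d2)
    obtain rfl := Nat.dvd_antisymm d3 d4
    have z0 : (0 : ℤ) < q := by exact_mod_cast q1
    have h5 : (b : ℤ) - b' = r * q := by
      refine mul_right_cancel₀ z0.ne' ?_
      linarith
    have h6 : r = 0 := by
      have a1 : (b : ℤ) < q := by exact_mod_cast b1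
      have a2 : (b' : ℤ) < q := by exact_mod_cast b1'
      have a3 : r < 1 := by by_contra hh; push Not at hh; nlinarith
      have a4 : -1 < r := by by_contra hh; push Not at hh; nlinarith
      omega
    refine hne ?_
    rw [h6] at h5
    have : b = b' := by omega
    rw [this]
  show 1 / ((Q ^ 2 : ℕ) : ℝ) ≤ |(b : ℝ) / q - b' / q' - r|
  rw [e, abs_div, abs_of_pos (mul_pos q0 q0')]
  have m1 : (1 : ℝ) ≤ |(m : ℝ)| := by exact_mod_cast Int.one_le_abs m0
  refine div_le_div₀ (by positivity) m1 (by positivity) ?_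
  push_cast
  rw [sq]
  exact mul_le_mul (by exact_mod_cast q2) (by exact_mod_cast q2') q0'.le (by positivity)

/-- the large sieve for Farey fractions -/
theorem ls_far {Q : ℕ} (hQ : 1 ≤ Q) (N : ℕ) (c : ℕ → ℂ) :
    ∑ z ∈ Far Q, ‖∑ n ∈ range N, c n * ee (n * ((z.2 : ℝ) / z.1))‖ ^ 2 ≤
      (N + (Q : ℝ) ^ 2 * (1 + 2 * Real.log Q)) * ∑ n ∈ range N, ‖c n‖ ^ 2 := by
  simpa using ls (Far Q) (fun z => (z.2 : ℝ) / z.1) (K := Q ^ 2) (Nat.one_le_pow _ _ hQ)
    far_sep N c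

/-- the dual large sieve for any set of Farey fractions -/
theorem ls_far_dual {Q : ℕ} (hQ : 1 ≤ Q) (I : Finset (ℕ × ℕ)) (hI : I ⊆ Far Q) (N : ℕ)
    (b : ℕ × ℕ → ℂ) :
    ∑ n ∈ range N, ‖∑ z ∈ I, b z * ee (n * ((z.2 : ℝ) / z.1))‖ ^ 2 ≤
      (N + (Q : ℝ) ^ 2 * (1 + 2 * Real.log Q)) * ∑ z ∈ I, ‖b z‖ ^ 2 := by
  simpa using ls_dual I (fun z => (z.2 : ℝ) / z.1) (K := Q ^ 2) (Nat.one_le_pow _ _ hQ)
    (fun z hz w hw => far_sep z (hI hz) w (hI hw)) N b

theorem sum_mu (n : ℕ) : ∑ d ∈ n.divisors, (μ d : ℂ) = if n = 1 then 1 else 0 := by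
  have h := congrArg (fun f : ArithmeticFunction ℂ => f n)
    (ArithmeticFunction.coe_moebius_mul_coe_zeta (R := ℂ))
  simp only [ArithmeticFunction.coe_mul_zeta_apply, ArithmeticFunction.one_apply,
    ArithmeticFunction.intCoe_apply] at h
  exact h

/-- the formula of Kluyver for Ramanujan sums -/
theorem ram_formula (a : ℤ) {q : ℕ} (hq : 1 ≤ q) :
    ∑ b ∈ (range q).filter (fun b => Nat.Coprime b q), ee (b * (a / q)) =
      ∑ d ∈ q.divisors, (μ d : ℂ) * if ((q / d : ℕ) : ℤ) ∣ a then ((q / d : ℕ) : ℂ) else 0 := by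
  have h1 : ∀ b ∈ range q, (if Nat.Coprime b q then ee (b * (a / q)) else 0) =
      ∑ d ∈ q.divisors, if d ∣ b then (μ d : ℂ) * ee (b * (a / q)) else 0 := fun b _ => by
    rw [← sum_filter, ← sum_mul]
    have : q.divisors.filter (fun d => d ∣ b) = (Nat.gcd b q).divisors := by
      ext d
      simp only [mem_filter, Nat.mem_divisors, Nat.dvd_gcd_iff, ne_eq, Nat.gcd_eq_zero_iff]
      constructor
      · exact fun h => ⟨⟨h.2, h.1.1⟩, fun h' => h.1.2 h'.2⟩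
      · exact fun h => ⟨⟨h.1.2, by omega⟩, h.1.1⟩
    rw [this, sum_mu]
    by_cases h : Nat.Coprime b q
    · rw [if_pos h, if_pos h, one_mul]
    · rw [if_neg h, if_neg h, zero_mul]
  rw [sum_filter, sum_congr rfl h1, sum_comm]
  refine sum_congr rfl fun d hd => ?_
  obtain ⟨r, rfl⟩ := Nat.dvd_of_mem_divisors hd
  have hd0 : 0 < d := Nat.pos_of_mul_pos_right hq |> fun h => by
    rcases Nat.eq_zero_or_pos d with rfl | h'
    · simp at hq
    · exact h'
  have hr : 1 ≤ r := by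
    rcases Nat.eq_zero_or_pos r with rfl | h'
    · simp at hq
    · exact h'
  rw [Nat.mul_div_cancel_left r hd0, ← orth hr a, ← sum_filter, mul_sum]
  symm
  refine sum_bij (fun c _ => d * c) (fun c hc => ?_) (fun c _ c' _ h => ?_) (fun b hb => ?_)
    fun c _ => ?_
  · exact mem_filter.2 ⟨mem_range.2 (Nat.mul_lt_mul_of_pos_left (mem_range.1 hc) hd0),
      dvd_mul_right _ _⟩
  · exact Nat.eq_of_mul_eq_mul_left hd0 h
  · obtain ⟨h1, c, rfl⟩ := mem_filter.1 hb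
    exact ⟨c, mem_range.2 (Nat.lt_of_mul_lt_mul_left (mem_range.1 h1)), rfl⟩
  · congr 2
    have : (d : ℝ) ≠ 0 := by positivity
    have : (r : ℝ) ≠ 0 := by positivity
    push_cast; field_simp

/-- The sum of `Λ` over the divisors above `U`. -/
def aU (U : ℝ) (m : ℕ) : ℝ := ∑ e ∈ m.divisors, if U < e then Λ e else 0

theorem aU_nonneg (U : ℝ) (m : ℕ) : 0 ≤ aU U m :=
  sum_nonneg fun _ _ => by split_ifs; exacts [vonMangoldt_nonneg, le_rfl]

theorem aU_eq (U : ℝ) (m : ℕ) :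
    aU U m = Real.log m - ∑ e ∈ m.divisors, if U < e then 0 else Λ e := by
  rw [← vonMangoldt_sum, ← sum_sub_distrib]
  exact sum_congr rfl fun e _ => by split_ifs <;> simp

theorem aU_le (U : ℝ) (m : ℕ) : aU U m ≤ Real.log m := by
  rw [aU_eq]
  exact sub_le_self _ (sum_nonneg fun _ _ => by split_ifs; exacts [le_rfl, vonMangoldt_nonneg])

theorem aU_zero {U : ℝ} {m : ℕ} (h : (m : ℝ) ≤ U) : aU U m = 0 :=
  sum_eq_zero fun e he => if_neg (not_lt.2 (le_trans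
    (by exact_mod_cast Nat.divisor_le he) h))

theorem vaughan {U : ℝ} {n : ℕ} (h : U < n) :
    Λ n = ∑ p ∈ n.divisorsAntidiagonal, (μ p.1 : ℝ) * aU U p.2 := by
  let f : ArithmeticFunction ℝ := ⟨fun e => if U < e then Λ e else 0, by simp⟩
  have e : ((μ : ArithmeticFunction ℝ) * (f * (ζ : ArithmeticFunction ℝ))) = f := by
    rw [mul_comm f, ← mul_assoc, coe_moebius_mul_coe_zeta, one_mul]
  have e2 := congrArg (fun g : ArithmeticFunction ℝ => g n) e
  simp only [mul_apply (f := (μ : ArithmeticFunction ℝ)), coe_mul_zeta_apply] at e2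
  have e3 : f n = Λ n := if_pos h
  rw [← e3, ← e2]
  rfl

theorem tau_pow {k : ℕ} (hk : k ≠ 0) (n : ℕ) : n.divisors.card ^ k ≤ (k ^ k) ^ 2 ^ k * n := by
  rcases eq_or_ne n 0 with rfl | hn
  · simp [hk]
  have h0 : ∀ e : ℕ, (e + 1) ^ k ≤ k ^ k * 2 ^ e := fun e => by
    have h1 : e + 1 ≤ k * (e / k + 1) := Nat.lt_mul_div_succ e (by omega)
    have h2 : e / k + 1 ≤ 2 ^ (e / k) := Nat.lt_two_pow_self
    refine (Nat.pow_le_pow_left (h1.trans (Nat.mul_le_mul_left _ h2)) k).trans ?_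
    rw [mul_pow, ← pow_mul]
    exact Nat.mul_le_mul_left _ (Nat.pow_le_pow_right two_pos (Nat.div_mul_le_self _ _))
  rw [Nat.card_divisors hn, ← prod_pow]
  have h1 : ∀ p ∈ n.primeFactors, (n.factorization p + 1) ^ k
      ≤ (if p < 2 ^ k then k ^ k else 1) * p ^ n.factorization p := by
    intro p hp
    have hp2 : 2 ≤ p := (Nat.prime_of_mem_primeFactors hp).two_le
    split_ifs with h
    · exact (h0 _).trans (Nat.mul_le_mul_left _ (Nat.pow_le_pow_left hp2 _))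
    · have h2 : n.factorization p + 1 ≤ 2 ^ n.factorization p := Nat.lt_two_pow_self
      refine (Nat.pow_le_pow_left h2 k).trans ?_
      rw [← pow_mul, mul_comm, pow_mul, one_mul]
      exact Nat.pow_le_pow_left (by omega) _
  refine (prod_le_prod' h1).trans ?_
  rw [prod_mul_distrib, show ∏ p ∈ n.primeFactors, p ^ n.factorization p = n from
    Nat.prod_factorization_pow_eq_self hn, prod_ite, prod_const_one, mul_one, prod_const]
  refine Nat.mul_le_mul_right _ (Nat.pow_le_pow_right (by positivity) ?_)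
  exact (card_le_card fun p hp => mem_range.2 (mem_filter.1 hp).2).trans (card_range _).le

theorem divisor_bound {η : ℝ} (hη : 0 < η) :
    ∃ C : ℝ, 1 ≤ C ∧ ∀ n : ℕ, (n.divisors.card : ℝ) ≤ C * (n : ℝ) ^ η := by
  obtain ⟨k, hk⟩ := exists_nat_gt (1 / η)
  have hk0 : k ≠ 0 := by
    rintro rfl
    have : 0 < 1 / η := by positivity
    simp only [Nat.cast_zero] at hk; linarith
  have hkp : (0 : ℝ) < k := by positivity
  have hA : (1 : ℝ) ≤ ((k ^ k) ^ 2 ^ k : ℕ) := by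
    exact_mod_cast Nat.one_le_iff_ne_zero.2 (by positivity)
  refine ⟨_, hA, fun n => ?_⟩
  rcases eq_or_ne n 0 with rfl | hn
  · simp only [Nat.divisors_zero, card_empty, Nat.cast_zero]; positivity
  have hn1 : (1 : ℝ) ≤ n := by exact_mod_cast Nat.one_le_iff_ne_zero.2 hn
  have h1 : (n.divisors.card : ℝ) ^ k ≤ ((k ^ k) ^ 2 ^ k : ℕ) * n := by
    exact_mod_cast tau_pow hk0 n
  refine le_of_pow_le_pow_left₀ hk0 (by positivity) (h1.trans ?_)
  rw [mul_pow]
  refine mul_le_mul (le_self_pow₀ hA hk0) ?_ (by positivity) (by positivity)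
  rw [← Real.rpow_natCast, ← Real.rpow_mul (by positivity)]
  refine (Real.rpow_one _).ge.trans (Real.rpow_le_rpow_of_exponent_le hn1 ?_)
  rw [div_lt_iff₀ hη] at hk; linarith


/-- summation by parts -/
theorem abel (a : ℕ → ℂ) (g : ℕ → ℝ) (N : ℕ) {K : ℝ}
    (ha : ∀ y, y ≤ N → ‖∑ k ∈ Icc 1 y, a k‖ ≤ K) :
    ‖∑ k ∈ Icc 1 N, a k * g k‖ ≤ K * (|g N| + ∑ k ∈ Ico 1 N, |g (k + 1) - g k|) := by
  have key : ∀ M, M ≤ N → ‖∑ k ∈ Icc 1 M, a k * g k - (∑ k ∈ Icc 1 M, a k) * g M‖ ≤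
      K * ∑ k ∈ Ico 1 M, |g (k + 1) - g k| := by
    intro M
    induction M with
    | zero => simp
    | succ M ih =>
      intro hM
      rcases Nat.eq_zero_or_pos M with rfl | h0
      · simp
      have e : ∑ k ∈ Icc 1 (M + 1), a k * g k - (∑ k ∈ Icc 1 (M + 1), a k) * g (M + 1) =
          (∑ k ∈ Icc 1 M, a k * g k - (∑ k ∈ Icc 1 M, a k) * g M) -
            (∑ k ∈ Icc 1 M, a k) * ((g (M + 1) - g M : ℝ) : ℂ) := by
        rw [sum_Icc_succ_top (by omega), sum_Icc_succ_top (by omega)]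
        push_cast; ring
      rw [e, sum_Ico_succ_top h0, mul_add]
      refine (norm_sub_le _ _).trans (add_le_add (ih (by omega)) ?_)
      rw [norm_mul, Complex.norm_real, Real.norm_eq_abs]
      exact mul_le_mul_of_nonneg_right (ha _ (by omega)) (abs_nonneg _)
  have h1 := key N le_rfl
  have h2 : ‖(∑ k ∈ Icc 1 N, a k) * g N‖ ≤ K * |g N| := by
    rw [norm_mul, Complex.norm_real, Real.norm_eq_abs]
    exact mul_le_mul_of_nonneg_right (ha _ le_rfl) (abs_nonneg _)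
  have h3 := norm_add_le (∑ k ∈ Icc 1 N, a k * g k - (∑ k ∈ Icc 1 N, a k) * g N)
    ((∑ k ∈ Icc 1 N, a k) * g N)
  rw [sub_add_cancel] at h3
  linarith

theorem log_tele (N : ℕ) :
    ∑ k ∈ Ico 1 N, |Real.log ((k + 1 : ℕ) : ℝ) - Real.log k| = Real.log N := by
  rcases Nat.eq_zero_or_pos N with rfl | h0
  · simp
  induction N, h0 using Nat.le_induction with
  | base => simp
  | succ M hM ih =>
    rw [sum_Ico_succ_top hM, ih, abs_of_nonneg]
    · ring
    · exact sub_nonneg.2 (Real.log_le_log (by exact_mod_cast hM) (by push_cast; linarith))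

/-- initial sums with a logarithm -/
theorem abel_log (a : ℕ → ℂ) (N : ℕ) {K : ℝ} (ha : ∀ y, y ≤ N → ‖∑ k ∈ Icc 1 y, a k‖ ≤ K)
    (y : ℕ) (hy : y ≤ N) :
    ‖∑ k ∈ Icc 1 y, a k * (Real.log k : ℝ)‖ ≤ 2 * K * Real.log N := by
  have hK : 0 ≤ K := (norm_nonneg _).trans (ha 0 (Nat.zero_le _))
  have h := abel a (fun k => Real.log k) y fun z hz => ha z (hz.trans hy)
  rw [log_tele, abs_of_nonneg (Real.log_natCast_nonneg y)] at h
  have h2 : Real.log y ≤ Real.log N := by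
    rcases Nat.eq_zero_or_pos y with rfl | hk
    · simpa using Real.log_natCast_nonneg N
    · exact Real.log_le_log (by exact_mod_cast hk) (by exact_mod_cast hy)
  nlinarith

theorem prod_le_card (s : Finset ℕ) (hs : ∀ p ∈ s, 2 ≤ p) :
    ∏ p ∈ s, (p : ℝ) ≤ (s.card + 1) * ∏ p ∈ s, ((p : ℝ) - 1) := by
  induction s using Finset.induction_on_max with
  | empty => simp
  | insert a s ha ih =>
    have has : a ∉ s := fun h => lt_irrefl _ (ha a h)
    have h2 : ∀ p ∈ s, 2 ≤ p := fun p hp => hs p (mem_insert_of_mem hp)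
    have hc : s.card + 2 ≤ a := by
      have h3 : s ⊆ Ico 2 a := fun p hp => mem_Ico.2 ⟨h2 p hp, ha p hp⟩
      have h4 := card_le_card h3
      have h5 := hs a (mem_insert_self _ _)
      rw [Nat.card_Ico] at h4
      omega
    have hc' : (s.card : ℝ) + 2 ≤ a := by exact_mod_cast hc
    have hP : 0 ≤ ∏ p ∈ s, ((p : ℝ) - 1) := prod_nonneg fun p hp => by
      have : (2 : ℝ) ≤ p := by exact_mod_cast h2 p hp
      linarith
    rw [prod_insert has, prod_insert has, card_insert_of_notMem has]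
    push_cast
    have h6 := mul_le_mul_of_nonneg_left (ih h2) (Nat.cast_nonneg a : (0 : ℝ) ≤ a)
    have h7 : (a : ℝ) * (s.card + 1) ≤ (s.card + 1 + 1) * (a - 1) := by nlinarith
    nlinarith [mul_le_mul_of_nonneg_right h7 hP]

/-- a crude lower bound for the totient -/
theorem tot_ge (n : ℕ) : (n : ℝ) ≤ n.totient * (1 + 2 * Real.log n) := by
  rcases Nat.eq_zero_or_pos n with rfl | hn
  · simp
  have h2 : ∀ p ∈ n.primeFactors, 2 ≤ p := fun p hp => (Nat.prime_of_mem_primeFactors hp).two_le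
  have h1 := prod_le_card n.primeFactors h2
  have h3 : (n.totient : ℝ) * ∏ p ∈ n.primeFactors, (p : ℝ) =
      n * ∏ p ∈ n.primeFactors, ((p : ℝ) - 1) := by
    have h := congrArg (Nat.cast (R := ℝ)) (Nat.totient_mul_prod_primeFactors n)
    push_cast at h
    rw [h]
    congr 1
    exact prod_congr rfl fun p hp => by rw [Nat.cast_sub (by have := h2 p hp; omega)]; simp
  have hP : 0 < ∏ p ∈ n.primeFactors, (p : ℝ) := prod_pos fun p hp => by
    have := h2 p hp; positivity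
  have h4 : (2 : ℝ) ^ n.primeFactors.card ≤ n := by
    have h5 : 2 ^ n.primeFactors.card ≤ ∏ p ∈ n.primeFactors, p :=
      pow_card_le_prod _ _ _ h2
    exact_mod_cast h5.trans (Nat.le_of_dvd hn (Nat.prod_primeFactors_dvd n))
  have h6 : (n.primeFactors.card : ℝ) * Real.log 2 ≤ Real.log n := by
    rw [← Real.log_pow]; exact Real.log_le_log (by positivity) h4
  have h7 : (n.primeFactors.card : ℝ) ≤ 2 * Real.log n := by
    nlinarith [Real.log_two_gt_d9, (Nat.cast_nonneg n.primeFactors.card : (0 : ℝ) ≤ _)]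
  have hP' : 0 < ∏ p ∈ n.primeFactors, ((p : ℝ) - 1) := prod_pos fun p hp => by
    have : (2 : ℝ) ≤ p := by exact_mod_cast h2 p hp
    linarith
  refine le_of_mul_le_mul_right ?_ hP'
  rw [← h3]
  have h8 : (0 : ℝ) ≤ n.totient := Nat.cast_nonneg _
  nlinarith [mul_le_mul_of_nonneg_left h1 h8,
    mul_le_mul_of_nonneg_right (mul_le_mul_of_nonneg_left h7 h8) hP'.le]

end

end Pool.Agent.MP_678834_nt.gy
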