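import Pool.Agent.MP_678834_nt.gy.Spec

/-! One dyadic block of moduli. -/

set_option autoImplicit false

namespace Pool.Agent.MP_678834_nt.gy

open Finset Filter ComplexConjugate ArithmeticFunction
open scoped ArithmeticFunction.Moebius

namespace Blk

theorem first {x R l U σ ρ K D M N : ℝ} (hx : 0 ≤ x) (hR : 0 ≤ R) (hl : 1 ≤ l) (hρ : 0 ≤ ρ)
    (hK : K ^ 2 ≤ 2 * R * l ^ 2) (D0 : 0 ≤ D) (hD : D ≤ 9 * R ^ 2 * l) (M0 : 0 ≤ M) (N0 : 0 ≤ N)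
    (h1 : M * N ≤ 4 * x) (h2 : M * U ≤ 4 * x) (h3 : N * U ≤ 4 * x) (h4 : R ≤ U * σ ^ 2)
    (h5 : R ^ 3 ≤ x * σ ^ 2) (h6 : 1 ≤ R * ρ ^ 2) (h7 : σ ^ 2 ≤ ρ ^ 2) :
    K * √((M + D) * M * ((N + D) * N)) ≤ 36 * (R * x * l ^ 2 * ρ) := by
  have l0 : 0 ≤ l := by linarith
  have l2 : l ≤ l ^ 2 := by nlinarith
  have a1 : M * N ≤ 4 * (R * x * l ^ 2 * ρ ^ 2) := by
    have : 1 ≤ R * ρ ^ 2 * l ^ 2 := one_le_mul_of_one_le_of_one_le h6 (hl.trans l2)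
    nlinarith
  have a2 : R * (M + N) ≤ 8 * x * ρ ^ 2 := by
    calc R * (M + N) ≤ U * σ ^ 2 * (M + N) := mul_le_mul_of_nonneg_right h4 (by positivity)
      _ = (M * U + N * U) * σ ^ 2 := by ring
      _ ≤ 8 * x * ρ ^ 2 := mul_le_mul (by linarith) h7 (by positivity) (by positivity)
  have a3 : D * (M + N) ≤ 72 * (R * x * l ^ 2 * ρ ^ 2) := by
    calc D * (M + N) ≤ 9 * R ^ 2 * l * (M + N) := mul_le_mul_of_nonneg_right hD (by positivity)
      _ = 9 * R * l * (R * (M + N)) := by ring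
      _ ≤ 9 * R * l ^ 2 * (8 * x * ρ ^ 2) := by gcongr
      _ = _ := by ring
  have a4 : D ^ 2 ≤ 81 * (R * x * l ^ 2 * ρ ^ 2) := by
    calc D ^ 2 ≤ (9 * R ^ 2 * l) ^ 2 := by gcongr
      _ = 81 * R * l ^ 2 * R ^ 3 := by ring
      _ ≤ 81 * R * l ^ 2 * (x * ρ ^ 2) :=
        mul_le_mul_of_nonneg_left (h5.trans (by gcongr)) (by positivity)
      _ = _ := by ring
  refine (abs_le_of_sq_le_sq' ?_ (by positivity)).2
  rw [mul_pow, Real.sq_sqrt (by positivity)]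
  calc K ^ 2 * ((M + D) * M * ((N + D) * N))
      = K ^ 2 * ((M * N + D * (M + N) + D ^ 2) * (M * N)) := by ring
    _ ≤ 2 * R * l ^ 2 * (157 * (R * x * l ^ 2 * ρ ^ 2) * (4 * x)) := by
        gcongr
        linarith
    _ = 1256 * (R * x * l ^ 2 * ρ) ^ 2 := by ring
    _ ≤ _ := by nlinarith [sq_nonneg (R * x * l ^ 2 * ρ)]

theorem second {x R l U σ D M N y h T C : ℝ} (hx : 0 ≤ x) (hR : 0 ≤ R) (hl : 1 ≤ l) (hσ : 0 ≤ σ)
    (D0 : 0 ≤ D) (hD : D ≤ 9 * R ^ 2 * l) (M0 : 0 ≤ M) (N0 : 0 ≤ N) (y0 : 0 ≤ y) (hy : y ≤ h)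
    (T0 : 0 ≤ T) (hT : T * σ ≤ C) (hC : 1 ≤ C) (h1 : M * N ≤ 4 * x) (h3 : N * U ≤ 4 * x)
    (h4 : h ^ 2 ≤ R ^ 2 * σ ^ 3) (h5 : h ^ 2 * M ≤ 2 * x * σ ^ 3) (h6 : h ≤ U * σ ^ 3)
    (h7 : h * R ^ 2 ≤ x * σ ^ 3) :
    √((y * M + D) * (T * y * M) * ((N + D) * N)) ≤ 24 * C * (R * x * l * σ) := by
  have l0 : 0 ≤ l := by linarith
  have l2 : l ≤ l ^ 2 := by nlinarith
  have h0 : 0 ≤ h := y0.trans hy
  have a1 : h ^ 2 * (M * N) ≤ 4 * (R ^ 2 * x * σ ^ 3 * l ^ 2) := by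
    calc h ^ 2 * (M * N) ≤ R ^ 2 * σ ^ 3 * (4 * x) * 1 := by rw [mul_one]; gcongr
      _ ≤ R ^ 2 * σ ^ 3 * (4 * x) * l ^ 2 := by gcongr; linarith
      _ = _ := by ring
  have a2 : h ^ 2 * M * D ≤ 18 * (R ^ 2 * x * σ ^ 3 * l ^ 2) := by
    calc h ^ 2 * M * D ≤ 2 * x * σ ^ 3 * (9 * R ^ 2 * l ^ 2) := by
          gcongr
          exact hD.trans (by gcongr)
      _ = _ := by ring
  have a3 : h * N * D ≤ 36 * (R ^ 2 * x * σ ^ 3 * l ^ 2) := by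
    have : h * N ≤ 4 * x * σ ^ 3 := by
      calc h * N ≤ U * σ ^ 3 * N := by gcongr
        _ = N * U * σ ^ 3 := by ring
        _ ≤ _ := by gcongr
    calc h * N * D ≤ 4 * x * σ ^ 3 * (9 * R ^ 2 * l ^ 2) := by
          gcongr
          exact hD.trans (by gcongr)
      _ = _ := by ring
  have a4 : h * D ^ 2 ≤ 81 * (R ^ 2 * x * σ ^ 3 * l ^ 2) := by
    calc h * D ^ 2 ≤ h * (9 * R ^ 2 * l) ^ 2 := by gcongr
      _ = 81 * R ^ 2 * l ^ 2 * (h * R ^ 2) := by ring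
      _ ≤ 81 * R ^ 2 * l ^ 2 * (x * σ ^ 3) := by gcongr
      _ = _ := by ring
  refine Real.sqrt_le_iff.2 ⟨by positivity, ?_⟩
  calc (y * M + D) * (T * y * M) * ((N + D) * N)
      ≤ (h * M + D) * (T * h * M) * ((N + D) * N) := by gcongr
    _ = T * (M * N) * (h ^ 2 * (M * N) + h ^ 2 * M * D + h * N * D + h * D ^ 2) := by ring
    _ ≤ T * (4 * x) * (139 * (R ^ 2 * x * σ ^ 3 * l ^ 2)) := by
        gcongr
        linarith
    _ = 556 * (T * σ) * 1 * (R * x * l * σ) ^ 2 := by ring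
    _ ≤ 576 * C * C * (R * x * l * σ) ^ 2 := by gcongr; norm_num
    _ = _ := by ring

/-- The choice of the parameter. -/
theorem par {η : ℝ} (h0 : 0 < η) {X h Q R : ℕ} (hX : 1 ≤ X) (hA : Adm η X h Q) (hRQ : R ≤ Q)
    {σ : ℝ} (hσ : σ = (X : ℝ) ^ (-(η / 20))) : ∃ U : ℝ, 1 ≤ U ∧ U ^ 3 ≤ X ∧
      (R : ℝ) ^ 2 * U ≤ X * σ ∧ (((R : ℝ) ≤ U * σ ^ 2 ∧ (R : ℝ) ^ 3 ≤ X * σ ^ 2) ∨
        ((h : ℝ) ^ 2 ≤ R ^ 2 * σ ^ 3 ∧ (h : ℝ) ^ 4 ≤ X * σ ^ 6 ∧ (h : ℝ) ≤ U * σ ^ 3 ∧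
          (h : ℝ) * R ^ 2 ≤ X * σ ^ 3)) := by
  have x1 : (1 : ℝ) ≤ X := by exact_mod_cast hX
  have x0 : (0 : ℝ) < X := by linarith
  have q : (R : ℝ) ≤ Q := by exact_mod_cast hRQ
  have h1 : (1 : ℝ) ≤ h := by exact_mod_cast hA.h1
  have mo : ∀ {a b : ℝ}, a ≤ b → (X : ℝ) ^ a ≤ (X : ℝ) ^ b := fun h =>
    Real.rpow_le_rpow_of_exponent_le x1 h
  have ad : ∀ a b : ℝ, (X : ℝ) ^ a * (X : ℝ) ^ b = (X : ℝ) ^ (a + b) := fun a b =>
    (Real.rpow_add x0 a b).symm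
  have pw : ∀ (a : ℝ) (n : ℕ), ((X : ℝ) ^ a) ^ n = (X : ℝ) ^ (a * n) := fun a n =>
    (Real.rpow_mul_natCast x0.le a n).symm
  have on : ∀ a : ℝ, (X : ℝ) * (X : ℝ) ^ a = (X : ℝ) ^ (1 + a) := fun a => by
    rw [← ad, Real.rpow_one]
  have ge : ∀ {a : ℝ}, 0 ≤ a → 1 ≤ (X : ℝ) ^ a := fun h => Real.one_le_rpow x1 h
  have hq : (h : ℝ) * R ^ 2 ≤ (X : ℝ) ^ (1 - η) := le_trans (by gcongr) hA.hQQ
  subst hσ
  rcases hA.alt with c | c
  · have c' := q.trans c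
    refine ⟨(X : ℝ) ^ (1 / 3 : ℝ), ge (by norm_num), ?_, ?_, Or.inl ⟨?_, ?_⟩⟩
    · rw [pw]; norm_num
    · refine le_trans (b := ((X : ℝ) ^ (1 / 3 - η)) ^ 2 * (X : ℝ) ^ (1 / 3 : ℝ)) (by gcongr) ?_
      rw [pw, ad, on]
      exact mo (by push_cast; linarith)
    · rw [pw, ad]
      exact c'.trans (mo (by push_cast; linarith))
    · refine le_trans (b := ((X : ℝ) ^ (1 / 3 - η)) ^ 3) (by gcongr) ?_
      rw [pw, pw, on]
      exact mo (by push_cast; linarith)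
  refine ⟨h * (X : ℝ) ^ (η / 2), one_le_mul_of_one_le_of_one_le h1 (ge (by linarith)), ?_, ?_, ?_⟩
  · refine le_trans (b := ((X : ℝ) ^ (1 / 4 - η) * (X : ℝ) ^ (η / 2)) ^ 3) (by gcongr) ?_
    rw [ad, pw]
    exact (mo (by push_cast; linarith)).trans_eq (Real.rpow_one _)
  · rw [← mul_assoc, mul_comm _ (h : ℝ)]
    refine le_trans (b := (X : ℝ) ^ (1 - η) * (X : ℝ) ^ (η / 2)) (by gcongr) ?_
    rw [ad, on]
    exact mo (by linarith)
  rcases le_total (R : ℝ) (h * (X : ℝ) ^ (η / 4)) with d | d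
  · refine Or.inl ⟨d.trans ?_, ?_⟩
    · rw [pw, mul_assoc, ad]
      exact mul_le_mul_of_nonneg_left (mo (by push_cast; linarith)) (by linarith)
    · refine le_trans (b := ((X : ℝ) ^ (1 / 4 - η) * (X : ℝ) ^ (η / 4)) ^ 3)
        (pow_le_pow_left₀ (by positivity) (d.trans (by gcongr)) _) ?_
      rw [ad, pw, pw, on]
      exact mo (by push_cast; linarith)
  · refine Or.inr ⟨?_, ?_, ?_, ?_⟩
    · refine le_trans ?_ (mul_le_mul_of_nonneg_right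
        (pow_le_pow_left₀ (by positivity) d 2) (by positivity))
      rw [mul_pow, pw, pw, mul_assoc, ad]
      exact le_mul_of_one_le_right (by positivity) (ge (by push_cast; linarith))
    · refine le_trans (b := ((X : ℝ) ^ (1 / 4 - η)) ^ 4) (by gcongr) ?_
      rw [pw, pw, on]
      exact mo (by push_cast; linarith)
    · rw [pw, mul_assoc, ad]
      exact le_mul_of_one_le_right (by positivity) (ge (by push_cast; linarith))
    · rw [pw, on]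
      exact hq.trans (mo (by push_cast; linarith))

end Blk

theorem blk : FAMStmt → IIStmt → VAUStmt → BLKStmt := by
  intro hF hI hV V L hW η h0 _
  obtain ⟨C, C1, hC⟩ := divisor_bound (η := η / 40) (by linarith)
  have L0 : 0 ≤ L := by linarith [hW.one]
  refine ⟨100 * L * (18 + 36 * C), by positivity, (eventually_ge_atTop 2).mono
    fun X hX h Q y R S hA hy R1 hRQ hS => ?_⟩
  have x2 : (2 : ℝ) ≤ X := by exact_mod_cast hX
  have x0 : (0 : ℝ) < X := by linarith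
  have r1 : (1 : ℝ) ≤ R := by exact_mod_cast R1
  have l1 := ell_one (X := X) (by omega)
  set l := ell X with hl
  set σ := (X : ℝ) ^ (-(η / 20)) with hσ
  set ρ := 1 / √(R : ℝ) + σ with hρ
  have s0 : 0 < σ := by positivity
  have s1 : σ ≤ 1 := Real.rpow_le_one_of_one_le_of_nonpos (by linarith) (by linarith)
  have sρ : σ ≤ ρ := le_add_of_nonneg_left (by positivity)
  have ρ0 : 0 ≤ ρ := s0.le.trans sρ
  have rρ : 1 ≤ R * ρ ^ 2 := by
    calc (1 : ℝ) = R * (1 / √(R : ℝ)) ^ 2 := by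
          rw [div_pow, Real.sq_sqrt (by positivity)]; field_simp
      _ ≤ _ := by gcongr; exact le_add_of_nonneg_right s0.le
  have rx : (R : ℝ) ≤ X := by
    have h1 : (1 : ℝ) ≤ h := by exact_mod_cast hA.h1
    have q : (R : ℝ) ≤ Q := by exact_mod_cast hRQ
    have h2 := hA.hQQ.trans ((Real.rpow_le_rpow_of_exponent_le (by linarith)
      (by linarith : 1 - η ≤ 1)).trans_eq (Real.rpow_one _))
    have q1 : (1 : ℝ) ≤ Q := r1.trans q
    calc (R : ℝ) ≤ 1 * (Q * 1) := by linarith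
      _ ≤ h * (Q * Q) := by gcongr
      _ ≤ _ := by rwa [← sq]
  have hfam := hF (2 * R) S (by omega) hS
  push_cast at hfam
  have lg0 : 0 ≤ Real.log (2 * R) := Real.log_nonneg (by linarith)
  have lg : 1 + Real.log (2 * R) ≤ l := by
    have := Real.log_le_log (by linarith : (0 : ℝ) < 2 * R) (by linarith : 2 * (R : ℝ) ≤ 2 * X)
    rw [hl, ell]; linarith
  set K := √(2 * R : ℝ) * (1 + Real.log (2 * R))
  set D := 1 + (2 * R : ℝ) ^ 2 * (1 + 2 * Real.log (2 * R))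
  have hK : K ^ 2 ≤ 2 * R * l ^ 2 := by
    rw [mul_pow, Real.sq_sqrt (by positivity)]; gcongr
  have D0 : 0 ≤ D := by positivity
  have hD : D ≤ 9 * R ^ 2 * l := by
    have a1 : 1 ≤ (R : ℝ) ^ 2 * l := one_le_mul_of_one_le_of_one_le (one_le_pow₀ r1) l1
    have a2 : (2 * R : ℝ) ^ 2 * (1 + 2 * Real.log (2 * R)) ≤ (2 * R) ^ 2 * (2 * l) := by
      gcongr; linarith
    have a3 : (2 * R : ℝ) ^ 2 * (2 * l) = 8 * (R ^ 2 * l) := by ring
    rw [mul_assoc]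
    linarith
  obtain ⟨U, U1, U3, u1, u2⟩ := Blk.par h0 (by omega) hA hRQ hσ
  have hB : ∀ (M N : ℕ) (a b : ℕ → ℂ), M * N ≤ 4 * X → M * U ≤ 4 * X → N * U ≤ 4 * X →
      (∀ m, ‖a m‖ ≤ 1) → (∀ n, ‖b n‖ ≤ 1) → M ≤ N →
      ∑ i ∈ S, ‖pp (cv i) y‖ * (‖lf a (cv i) M‖ * ‖lf b (cv i) N‖) ≤
        36 * C * (R * X * l ^ 2 * ρ) := by
    intro M N a b m1 m2 m3 ha hb hMN
    have m1' : (M : ℝ) * N ≤ 4 * X := by exact_mod_cast m1
    obtain ⟨i1, i2⟩ := hI _ S cv K D hfam y M N a b ha hb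
    rcases u2 with ⟨c1, c2⟩ | ⟨c1, c2, c3, c4⟩
    · refine (i1.trans (Blk.first x0.le (by positivity) l1 ρ0 hK D0 hD (by positivity)
        (by positivity) m1' m2 m3 c1 c2 rρ (by gcongr))).trans ?_
      exact mul_le_mul_of_nonneg_right (by linarith) (by positivity)
    have mm : (M : ℝ) ^ 2 ≤ 4 * X := by
      have : (M : ℝ) ≤ N := by exact_mod_cast hMN
      rw [sq]
      exact le_trans (by gcongr) m1'
    have yh : (y : ℝ) ≤ h := by exact_mod_cast hy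
    have hM : (h : ℝ) ^ 2 * M ≤ 2 * X * σ ^ 3 := by
      refine (abs_le_of_sq_le_sq' ?_ (by positivity)).2
      calc ((h : ℝ) ^ 2 * M) ^ 2 = h ^ 4 * M ^ 2 := by ring
        _ ≤ X * σ ^ 6 * (4 * X) := by gcongr
        _ = _ := by ring
    refine ((i2 (C * (X : ℝ) ^ (η / 20)) fun k hk => (hC k).trans ?_).trans
      (Blk.second x0.le (by positivity) l1 s0.le D0 hD (by positivity) (by positivity)
        (by positivity) yh (by positivity) (le_of_eq ?_) C1 m1' m3 c1 hM c3 c4)).trans ?_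
    · have h1 : (1 : ℝ) ≤ h := by exact_mod_cast hA.h1
      have a1 : (k : ℝ) ≤ (X : ℝ) ^ (2 : ℝ) := by
        have a2 : (k : ℝ) ≤ y * M := by exact_mod_cast hk
        have a3 : (y : ℝ) * M ≤ h ^ 2 * M := by
          gcongr
          exact yh.trans (le_self_pow₀ h1 two_ne_zero)
        have a4 : 2 * X * σ ^ 3 ≤ X * X * 1 := by gcongr; exact pow_le_one₀ s0.le s1
        rw [Real.rpow_two, sq]
        linarith
      refine mul_le_mul_of_nonneg_left ((Real.rpow_le_rpow (by positivity) a1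
        (by linarith)).trans_eq ?_) (by linarith)
      rw [← Real.rpow_mul x0.le]
      congr 1; ring
    · rw [mul_assoc, hσ, ← Real.rpow_add x0, add_neg_cancel, Real.rpow_zero, mul_one]
    · have : l ≤ l ^ 2 := le_self_pow₀ l1 two_ne_zero
      gcongr; norm_num
  refine (hV V L hW _ S cv K D (fun i => ‖pp (cv i) y‖) X U (36 * C * (R * X * l ^ 2 * ρ)) hfam
    (fun _ _ => norm_nonneg _) U1 U3 (by positivity) fun M N a b m1 m2 m3 ha hb => ?_).trans ?_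
  · rcases le_total M N with c | c
    · exact hB M N a b m1 m2 m3 ha hb c
    · simpa only [mul_comm ‖lf b _ N‖] using hB N M b a (by rwa [mul_comm]) m3 m2 hb ha c
  have w1 : ∑ i ∈ S, ‖pp (cv i) y‖ ≤ D * K :=
    (sum_le_card_nsmul _ _ _ fun i hi => hfam.pv i hi y).trans
      (by rw [nsmul_eq_mul]; exact mul_le_mul_of_nonneg_right hfam.card hfam.K0)
  have w2 : K * U * ∑ i ∈ S, ‖pp (cv i) y‖ ≤ 18 * (R * X * l ^ 3 * ρ) := by
    have := hfam.K0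
    calc K * U * ∑ i ∈ S, ‖pp (cv i) y‖ ≤ K * U * (D * K) := by gcongr
      _ = K ^ 2 * D * U := by ring
      _ ≤ 2 * R * l ^ 2 * (9 * R ^ 2 * l) * U := by gcongr
      _ = 18 * R * l ^ 3 * (R ^ 2 * U) := by ring
      _ ≤ 18 * R * l ^ 3 * (X * ρ) := mul_le_mul_of_nonneg_left
        (u1.trans (mul_le_mul_of_nonneg_left sρ x0.le)) (by positivity)
      _ = _ := by ring
  have w3 : l ^ 2 ≤ l ^ 3 := pow_le_pow_right₀ l1 (by norm_num)
  calc _ ≤ 100 * L * l ^ 3 * (18 * (R * X * l ^ 3 * ρ) + 36 * C * (R * X * l ^ 3 * ρ)) := by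
        gcongr
    _ = _ := by ring

end Pool.Agent.MP_678834_nt.gy
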