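import Pool.Agent.MP_678834_nt.gy.Spec3
import Pool.Agent.MP_678834_nt.gy.Blk

/-! One dyadic block of moduli, second stage. -/

set_option autoImplicit false

namespace Pool.Agent.MP_678834_nt.gy

open Finset Filter ComplexConjugate ArithmeticFunction
open scoped ArithmeticFunction.Moebius

namespace Blk2

theorem third {x R s l U σ D M N a m h T C : ℝ} (hx : 0 ≤ x) (hs : 0 ≤ s) (hR : s ^ 2 = R)
    (hl : 1 ≤ l) (hσ : 0 ≤ σ) (D0 : 0 ≤ D) (hD : D ≤ 9 * R ^ 2 * l) (M0 : 0 ≤ M) (N0 : 0 ≤ N)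
    (a0 : 0 < a) (m0 : 0 ≤ m) (mh : m ≤ h) (ma : m * a ≤ 2 * R) (T0 : 0 ≤ T) (hT : T * σ ≤ C)
    (hC : 1 ≤ C) (h1 : M * N ≤ 4 * x) (h3 : N * U ≤ 4 * x) (h4 : 1 ≤ R * σ ^ 3)
    (h5 : R * M ≤ 2 * x * σ ^ 3) (h6 : h ≤ U * σ ^ 3) (h7 : h * R ^ 2 ≤ x * σ ^ 3) :
    m ^ 2 * √((a * M + D) * (T * a * M) * ((N + D) * N)) ≤
      72 * C * (R ^ 2 * s * x * l * σ) * (1 / a) := by
  have l0 : 0 ≤ l := by linarith
  have l2 : l ≤ l ^ 2 := by nlinarith
  have h0 : 0 ≤ h := m0.trans mh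
  have R0 : 0 ≤ R := hR ▸ sq_nonneg s
  have a1 : (m * a) ^ 4 * (M * N) ≤ 64 * (R ^ 5 * x * σ ^ 3 * l ^ 2) := by
    calc (m * a) ^ 4 * (M * N) ≤ (2 * R) ^ 4 * (4 * x) * 1 * 1 := by
          rw [mul_one, mul_one]; gcongr
      _ ≤ (2 * R) ^ 4 * (4 * x) * (R * σ ^ 3) * l ^ 2 := by gcongr; linarith
      _ = _ := by ring
  have a2 : (m * a) ^ 4 * (M * D) ≤ 288 * (R ^ 5 * x * σ ^ 3 * l ^ 2) := by
    calc (m * a) ^ 4 * (M * D) ≤ (2 * R) ^ 4 * (M * (9 * R ^ 2 * l ^ 2)) := by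
          gcongr
          exact hD.trans (by gcongr)
      _ = 144 * R ^ 5 * l ^ 2 * (R * M) := by ring
      _ ≤ 144 * R ^ 5 * l ^ 2 * (2 * x * σ ^ 3) := by gcongr
      _ = _ := by ring
  have a3 : (m * a) ^ 3 * (m * N * D) ≤ 288 * (R ^ 5 * x * σ ^ 3 * l ^ 2) := by
    have : m * N ≤ 4 * x * σ ^ 3 := by
      calc m * N ≤ U * σ ^ 3 * N := by gcongr; exact mh.trans h6
        _ = N * U * σ ^ 3 := by ring
        _ ≤ _ := by gcongr
    calc (m * a) ^ 3 * (m * N * D) ≤ (2 * R) ^ 3 * (4 * x * σ ^ 3 * (9 * R ^ 2 * l ^ 2)) := by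
          gcongr
          exact hD.trans (by gcongr)
      _ = _ := by ring
  have a4 : (m * a) ^ 3 * (m * D ^ 2) ≤ 648 * (R ^ 5 * x * σ ^ 3 * l ^ 2) := by
    calc (m * a) ^ 3 * (m * D ^ 2) ≤ (2 * R) ^ 3 * (h * (9 * R ^ 2 * l) ^ 2) := by gcongr
      _ = 648 * R ^ 5 * l ^ 2 * (h * R ^ 2) := by ring
      _ ≤ 648 * R ^ 5 * l ^ 2 * (x * σ ^ 3) := by gcongr
      _ = _ := by ring
  rw [mul_one_div, le_div_iff₀ a0]
  refine (abs_le_of_sq_le_sq' ?_ (by positivity)).2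
  rw [mul_pow, mul_pow, Real.sq_sqrt (by positivity)]
  calc (m ^ 2) ^ 2 * ((a * M + D) * (T * a * M) * ((N + D) * N)) * a ^ 2
      = T * (M * N) * ((m * a) ^ 4 * (M * N) + (m * a) ^ 4 * (M * D) +
          (m * a) ^ 3 * (m * N * D) + (m * a) ^ 3 * (m * D ^ 2)) := by ring
    _ ≤ T * (4 * x) * (1288 * (R ^ 5 * x * σ ^ 3 * l ^ 2)) := by
        gcongr
        linarith
    _ = 5152 * (T * σ) * 1 * (R ^ 4 * R * (x * l * σ) ^ 2) := by ring
    _ ≤ 5184 * C * C * (R ^ 4 * s ^ 2 * (x * l * σ) ^ 2) := by rw [hR]; gcongr; norm_num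
    _ = _ := by ring

/-- The choice of the parameter. -/
theorem par {η : ℝ} (h0 : 0 < η) (h9 : η ≤ 1 / 100) {X h Q R : ℕ} (hX : 1 ≤ X)
    (hA : Adm2 η X h Q) (hRQ : R ≤ Q) {σ : ℝ} (hσ : σ = (X : ℝ) ^ (-(η / 20))) :
    ∃ U : ℝ, 1 ≤ U ∧ U ^ 3 ≤ X ∧ (R : ℝ) ^ 2 * U ≤ X * σ ∧ (h : ℝ) ≤ U * σ ^ 3 ∧
      (h : ℝ) * R ^ 2 ≤ X * σ ^ 6 ∧
      (((R : ℝ) ≤ U * σ ^ 2 ∧ (R : ℝ) ^ 3 ≤ X * σ ^ 2) ∨ 1 ≤ (R : ℝ) * σ ^ 3) := by
  have x1 : (1 : ℝ) ≤ X := by exact_mod_cast hX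
  have x0 : (0 : ℝ) < X := by linarith
  have q : (R : ℝ) ≤ Q := by exact_mod_cast hRQ
  have h1 : (1 : ℝ) ≤ h := by exact_mod_cast hA.h1
  have mo : ∀ {a b : ℝ}, a ≤ b → (X : ℝ) ^ a ≤ (X : ℝ) ^ b := fun h =>
    Real.rpow_le_rpow_of_exponent_le x1 h
  have ad : ∀ a b : ℝ, (X : ℝ) ^ a * (X : ℝ) ^ b = (X : ℝ) ^ (a + b) := fun a b =>
    (Real.rpow_add x0 a b).symm
  have pw : ∀ (a : ℝ) (n : ℕ), ((X : ℝ) ^ a) ^ n = (X : ℝ) ^ (a * n) := fun a n =>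
    (Real.rpow_mul_natCast x0.le a n).symm
  have on : ∀ a : ℝ, (X : ℝ) * (X : ℝ) ^ a = (X : ℝ) ^ (1 + a) := fun a => by
    rw [← ad, Real.rpow_one]
  have ge : ∀ {a : ℝ}, 0 ≤ a → 1 ≤ (X : ℝ) ^ a := fun h => Real.one_le_rpow x1 h
  have hq : (h : ℝ) * R ^ 2 ≤ (X : ℝ) ^ (1 - η) := le_trans (by gcongr) hA.hQQ
  have c := hA.h3
  subst hσ
  refine ⟨h * (X : ℝ) ^ (η / 2), one_le_mul_of_one_le_of_one_le h1 (ge (by linarith)), ?_, ?_, ?_,
    ?_, ?_⟩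
  · refine le_trans (b := ((X : ℝ) ^ (1 / 3 - η) * (X : ℝ) ^ (η / 2)) ^ 3) (by gcongr) ?_
    rw [ad, pw]
    exact (mo (by push_cast; linarith)).trans_eq (Real.rpow_one _)
  · rw [← mul_assoc, mul_comm _ (h : ℝ)]
    refine le_trans (b := (X : ℝ) ^ (1 - η) * (X : ℝ) ^ (η / 2)) (by gcongr) ?_
    rw [ad, on]
    exact mo (by linarith)
  · rw [pw, mul_assoc, ad]
    exact le_mul_of_one_le_right (by positivity) (ge (by push_cast; linarith))
  · rw [pw, on]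
    exact hq.trans (mo (by push_cast; linarith))
  rcases le_total (R : ℝ) ((X : ℝ) ^ (η / 4)) with d | d
  · refine Or.inl ⟨d.trans ?_, ?_⟩
    · rw [pw, mul_assoc, ad]
      exact (mo (by push_cast; linarith)).trans (le_mul_of_one_le_left (by positivity) h1)
    · refine le_trans (pow_le_pow_left₀ (by positivity) d 3) ?_
      rw [pw, pw, on]
      exact mo (by push_cast; linarith)
  · refine Or.inr (le_trans ?_ (mul_le_mul_of_nonneg_right d (by positivity)))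
    rw [pw, ad]
    exact ge (by push_cast; linarith)

/-- Cauchy-Schwarz and the large sieve -/
theorem cs {ι : Type} {S : Finset ι} {χ : ι → ℕ → ℂ} {K D : ℝ} (hF : Fam S χ K D) (D0 : 0 ≤ D)
    (M N : ℕ) (a b : ℕ → ℂ) (ha : ∀ m, ‖a m‖ ≤ 1) (hb : ∀ n, ‖b n‖ ≤ 1) :
    ∑ i ∈ S, ‖lf a (χ i) M‖ * ‖lf b (χ i) N‖ ≤ √((M + D) * M * ((N + D) * N)) := by
  have k : ∀ (M : ℕ) (a : ℕ → ℂ), (∀ m, ‖a m‖ ≤ 1) →
      ∑ i ∈ S, ‖lf a (χ i) M‖ ^ 2 ≤ (M + D) * M := fun M a ha =>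
    (hF.ls M a).trans (mul_le_mul_of_nonneg_left (by
      simpa using sum_le_card_nsmul (Icc 1 M) _ (1 : ℝ) fun m _ =>
        pow_le_one₀ (n := 2) (norm_nonneg _) (ha m)) (by positivity))
  exact Real.le_sqrt_of_sq_le ((sum_mul_sq_le_sq_mul_sq _ _ _).trans
    (mul_le_mul (k M a ha) (k N b hb) (sum_nonneg fun _ _ => sq_nonneg _) (by positivity)))

/-- the dual bound, uniformly in a dyadic block -/
theorem dual' (hD : DUALStmt) {R : ℕ} (R1 : 1 ≤ R) {z : Ch} (h1 : 1 < z.1) (h2 : z.1 ≤ 2 * R)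
    (h3 : z.2.IsPrimitive) (h4 : R ≤ z.1) (y : ℕ) :
    ‖wz z y‖ ≤ 60 * (y / (R * √R)) *
      ∑ a ∈ Icc 1 (2 * R), min (y : ℝ) (2 * R / a) ^ 2 * ‖pp (cv z) a‖ := by
  have r0 : (0 : ℝ) < R := by exact_mod_cast R1
  have q1 : (R : ℝ) ≤ z.1 := by exact_mod_cast h4
  have q2 : (z.1 : ℝ) ≤ 2 * R := by exact_mod_cast h2
  refine (hD z h1 h3 y).trans (mul_le_mul (by gcongr) ?_ (by positivity) (by positivity))
  refine le_trans (sum_le_sum fun a _ => ?_) (sum_le_sum_of_subset_of_nonneg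
    (Icc_subset_Icc_right h2) fun _ _ _ => by positivity)
  gcongr

end Blk2

theorem blk2 : FAMStmt → IIStmt → VAUStmt → DUALStmt → BLK2Stmt := by
  intro hF hI hV hU V L hW η h0 h9
  obtain ⟨C, C1, hC⟩ := divisor_bound (η := η / 40) (by linarith)
  have L0 : 0 ≤ L := by linarith [hW.one]
  refine ⟨100 * L * (36 + 4320 * C), by positivity, (eventually_ge_atTop 4).mono
    fun X hX h Q y R S hA hy R1 hRQ hS hS' => ?_⟩
  have x2 : (4 : ℝ) ≤ X := by exact_mod_cast hX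
  have x0 : (0 : ℝ) < X := by linarith
  have r1 : (1 : ℝ) ≤ R := by exact_mod_cast R1
  have h1 : (1 : ℝ) ≤ h := by exact_mod_cast hA.h1
  have l1 := ell_one (X := X) (by omega)
  set l := ell X with hl
  set σ := (X : ℝ) ^ (-(η / 20)) with hσ
  set ρ := 1 / √(R : ℝ) + σ with hρ
  have s0 : 0 < σ := by positivity
  have s1 : σ ≤ 1 := Real.rpow_le_one_of_one_le_of_nonpos (by linarith) (by linarith)
  have sρ : σ ≤ ρ := le_add_of_nonneg_left (by positivity)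
  have ρ0 : 0 ≤ ρ := s0.le.trans sρ
  have rρ : 1 ≤ R * ρ ^ 2 := by
    calc (1 : ℝ) = R * (1 / √(R : ℝ)) ^ 2 := by
          rw [div_pow, Real.sq_sqrt (by positivity)]; field_simp
      _ ≤ _ := by gcongr; exact le_add_of_nonneg_right s0.le
  obtain ⟨U, U1, U3, u1, u3, u4, u2⟩ := Blk2.par h0 h9 (by omega) hA hRQ hσ
  have u5 : (R : ℝ) ^ 2 ≤ X * σ ^ 6 := (le_mul_of_one_le_left (by positivity) h1).trans u4
  have rx : (R : ℝ) ≤ X := ((le_self_pow₀ r1 two_ne_zero).trans u5).trans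
    (mul_le_of_le_one_right x0.le (pow_le_one₀ s0.le s1))
  have hfam := hF (2 * R) S (by omega) hS
  push_cast at hfam
  have lg0 : 0 ≤ Real.log (2 * R) := Real.log_nonneg (by linarith)
  have lg : 1 + Real.log (2 * R) ≤ l := by
    have := Real.log_le_log (by linarith : (0 : ℝ) < 2 * R) (by linarith : 2 * (R : ℝ) ≤ 2 * X)
    rw [hl, ell]; linarith
  set K := √(2 * R : ℝ) * (1 + Real.log (2 * R))
  set D := 1 + (2 * R : ℝ) ^ 2 * (1 + 2 * Real.log (2 * R))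
  have K0 := hfam.K0
  have hK : K ^ 2 ≤ 2 * R * l ^ 2 := by
    rw [mul_pow, Real.sq_sqrt (by positivity)]; gcongr
  have D0 : 0 ≤ D := by positivity
  have hD : D ≤ 9 * R ^ 2 * l := by
    have a1 : 1 ≤ (R : ℝ) ^ 2 * l := one_le_mul_of_one_le_of_one_le (one_le_pow₀ r1) l1
    have a2 : (2 * R : ℝ) ^ 2 * (1 + 2 * Real.log (2 * R)) ≤ (2 * R) ^ 2 * (2 * l) := by
      gcongr; linarith
    have a3 : (2 * R : ℝ) ^ 2 * (2 * l) = 8 * (R ^ 2 * l) := by ring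
    rw [mul_assoc]
    linarith
  have hw : ∀ i ∈ S, ‖wz i y‖ ≤ 2 * (y * K) := fun i hi => wz_le i y (hfam.pv i hi)
  have hB : ∀ (M N : ℕ) (a b : ℕ → ℂ), M * N ≤ 4 * X → M * U ≤ 4 * X → N * U ≤ 4 * X →
      (∀ m, ‖a m‖ ≤ 1) → (∀ n, ‖b n‖ ≤ 1) → M ≤ N →
      ∑ i ∈ S, ‖wz i y‖ * (‖lf a (cv i) M‖ * ‖lf b (cv i) N‖) ≤
        4320 * C * (y * (R * X * l ^ 2 * ρ)) := by
    intro M N a b m1 m2 m3 ha hb hMN
    have m1' : (M : ℝ) * N ≤ 4 * X := by exact_mod_cast m1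
    rcases u2 with ⟨c1, c2⟩ | c1
    · have f := Blk.first x0.le (by positivity) l1 ρ0 hK D0 hD (by positivity)
        (by positivity) m1' m2 m3 c1 c2 rρ (by gcongr)
      calc _ ≤ ∑ i ∈ S, 2 * (y * K) * (‖lf a (cv i) M‖ * ‖lf b (cv i) N‖) :=
            sum_le_sum fun i hi => mul_le_mul_of_nonneg_right (hw i hi) (by positivity)
        _ ≤ 2 * (y * K) * √((M + D) * M * ((N + D) * N)) := by
            rw [← mul_sum]
            exact mul_le_mul_of_nonneg_left (Blk2.cs hfam D0 M N a b ha hb) (by positivity)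
        _ = 2 * y * (K * √((M + D) * M * ((N + D) * N))) := by ring
        _ ≤ 2 * y * (36 * (R * X * l ^ 2 * ρ)) := mul_le_mul_of_nonneg_left f (by positivity)
        _ = 72 * (y * (R * X * l ^ 2 * ρ)) := by ring
        _ ≤ _ := mul_le_mul_of_nonneg_right (by linarith) (by positivity)
    have mm : (M : ℝ) ^ 2 ≤ 4 * X := by
      have : (M : ℝ) ≤ N := by exact_mod_cast hMN
      rw [sq]
      exact le_trans (by gcongr) m1'
    have yh : (y : ℝ) ≤ h := by exact_mod_cast hy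
    have hM : (R : ℝ) * M ≤ 2 * X * σ ^ 3 := by
      refine (abs_le_of_sq_le_sq' ?_ (by positivity)).2
      calc ((R : ℝ) * M) ^ 2 = R ^ 2 * M ^ 2 := by ring
        _ ≤ X * σ ^ 6 * (4 * X) := by gcongr
        _ = _ := by ring
    have sr : 0 < √(R : ℝ) := by positivity
    have one : ∀ e ∈ Icc 1 (2 * R), min (y : ℝ) (2 * R / e) ^ 2 *
        ∑ i ∈ S, ‖pp (cv i) e‖ * (‖lf a (cv i) M‖ * ‖lf b (cv i) N‖) ≤
        72 * C * (R ^ 2 * √(R : ℝ) * X * l * σ) * (1 / e) := by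
      intro e he
      obtain ⟨e1, e2⟩ := mem_Icc.1 he
      have e0 : (0 : ℝ) < e := by exact_mod_cast e1
      refine (mul_le_mul_of_nonneg_left ((hI _ S cv K D hfam e M N a b ha hb).2
        (C * (X : ℝ) ^ (η / 20)) fun k hk => (hC k).trans ?_) (sq_nonneg _)).trans
        (Blk2.third x0.le sr.le (Real.sq_sqrt (by positivity)) l1 s0.le D0 hD (by positivity)
          (by positivity) e0 (by positivity) ((min_le_left _ _).trans yh)
          ((le_div_iff₀ e0).1 (min_le_right _ _)) (by positivity) (le_of_eq ?_) C1 m1' m3 c1 hM u3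
          (u4.trans (mul_le_mul_of_nonneg_left (pow_le_pow_of_le_one s0.le s1 (by norm_num))
            x0.le)))
      · have a1 : (k : ℝ) ≤ (X : ℝ) ^ (2 : ℝ) := by
          have a2 : (k : ℝ) ≤ 2 * R * M := by
            exact_mod_cast hk.trans (Nat.mul_le_mul_right _ e2)
          have a4 : 4 * X * σ ^ 3 ≤ X * X * 1 := by gcongr; exact pow_le_one₀ s0.le s1
          rw [Real.rpow_two, sq]
          linarith
        refine mul_le_mul_of_nonneg_left ((Real.rpow_le_rpow (by positivity) a1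
          (by linarith)).trans_eq ?_) (by linarith)
        rw [← Real.rpow_mul x0.le]
        congr 1; ring
      · rw [mul_assoc, hσ, ← Real.rpow_add x0, add_neg_cancel, Real.rpow_zero, mul_one]
    have hh := harm (2 * R)
    push_cast at hh
    calc _ ≤ ∑ i ∈ S, 60 * (y / (R * √R)) * (∑ e ∈ Icc 1 (2 * R),
          min (y : ℝ) (2 * R / e) ^ 2 * ‖pp (cv i) e‖) * (‖lf a (cv i) M‖ * ‖lf b (cv i) N‖) :=
          sum_le_sum fun i hi => mul_le_mul_of_nonneg_right (Blk2.dual' hU R1 (hS i hi).1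
            (hS i hi).2.1 (hS i hi).2.2 (hS' i hi) y) (by positivity)
      _ = 60 * (y / (R * √R)) * ∑ e ∈ Icc 1 (2 * R), min (y : ℝ) (2 * R / e) ^ 2 *
          ∑ i ∈ S, ‖pp (cv i) e‖ * (‖lf a (cv i) M‖ * ‖lf b (cv i) N‖) := by
          simp only [mul_sum, sum_mul]
          rw [sum_comm]
          exact sum_congr rfl fun _ _ => sum_congr rfl fun _ _ => by ring
      _ ≤ 60 * (y / (R * √R)) * (72 * C * (R ^ 2 * √(R : ℝ) * X * l * σ) * l) := by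
          refine mul_le_mul_of_nonneg_left ((sum_le_sum one).trans ?_) (by positivity)
          rw [← mul_sum]
          exact mul_le_mul_of_nonneg_left (hh.trans lg) (by positivity)
      _ = 4320 * C * (y * (R * X * l ^ 2 * σ)) := by field_simp; ring
      _ ≤ _ := by gcongr
  refine (hV V L hW _ S cv K D (fun i => ‖wz i y‖) X U (4320 * C * (y * (R * X * l ^ 2 * ρ))) hfam
    (fun _ _ => norm_nonneg _) U1 U3 (by positivity) fun M N a b m1 m2 m3 ha hb => ?_).trans ?_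
  · rcases le_total M N with c | c
    · exact hB M N a b m1 m2 m3 ha hb c
    · simpa only [mul_comm ‖lf b _ N‖] using hB N M b a (by rwa [mul_comm]) m3 m2 hb ha c
  have w1 : ∑ i ∈ S, ‖wz i y‖ ≤ D * (2 * (y * K)) :=
    (sum_le_card_nsmul _ _ _ hw).trans
      (by rw [nsmul_eq_mul]; exact mul_le_mul_of_nonneg_right hfam.card (by positivity))
  have w3 : l ^ 3 ≤ l ^ 4 := pow_le_pow_right₀ l1 (by norm_num)
  have w4 : l ^ 2 ≤ l ^ 4 := pow_le_pow_right₀ l1 (by norm_num)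
  have w2 : K * U * ∑ i ∈ S, ‖wz i y‖ ≤ 36 * (y * (R * X * l ^ 4 * ρ)) := by
    calc K * U * ∑ i ∈ S, ‖wz i y‖ ≤ K * U * (D * (2 * (y * K))) := by gcongr
      _ = 2 * y * (K ^ 2 * D * U) := by ring
      _ ≤ 2 * y * (2 * R * l ^ 2 * (9 * R ^ 2 * l) * U) := by gcongr
      _ = 36 * y * R * l ^ 3 * (R ^ 2 * U) := by ring
      _ ≤ 36 * y * R * l ^ 4 * (X * ρ) := mul_le_mul (by gcongr)
          (u1.trans (mul_le_mul_of_nonneg_left sρ x0.le)) (by positivity) (by positivity)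
      _ = _ := by ring
  calc _ ≤ 100 * L * l ^ 3 * (36 * (y * (R * X * l ^ 4 * ρ)) +
        4320 * C * (y * (R * X * l ^ 4 * ρ))) := by gcongr
    _ = _ := by ring

end Pool.Agent.MP_678834_nt.gy
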