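import Pool.Agent.MP_678834_nt.gy.Spec2

/-! Project GY: from the variance to prime pairs. -/

set_option autoImplicit false

namespace Pool.Agent.MP_678834_nt.gy

open Finset Filter ComplexConjugate ArithmeticFunction
open scoped ArithmeticFunction.Moebius

namespace CorRow

theorem step (g : ℕ → ℝ) {a b : ℕ} (h : a ≤ b) :
    ∑ n ∈ Ioc a b, g (n + 1) = ∑ n ∈ Ioc a b, g n + g (b + 1) - g (a + 1) := by
  induction b, h using Nat.le_induction with
  | base => simp
  | succ b hb ih =>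
    rw [sum_Ioc_succ_top hb, sum_Ioc_succ_top hb, ih]
    ring

theorem shift (f : ℕ → ℝ) (M : ℝ) {a b : ℕ} (h : a ≤ b) (h0 : ∀ n, 0 ≤ f n) (j : ℕ)
    (hM : ∀ n ≤ b + j, f n ≤ M) :
    ∑ n ∈ Ioc a b, f (n + j) ≤ ∑ n ∈ Ioc a b, f n + j * M ∧
      ∑ n ∈ Ioc a b, f n - j * M ≤ ∑ n ∈ Ioc a b, f (n + j) := by
  induction j with
  | zero => simp
  | succ j ih =>
    obtain ⟨i1, i2⟩ := ih fun n hn => hM n (by omega)
    have e := step (fun n => f (n + j)) h
    have e1 : ∑ n ∈ Ioc a b, f (n + (j + 1)) = ∑ n ∈ Ioc a b, f (n + 1 + j) :=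
      sum_congr rfl fun n _ => by rw [add_assoc, add_comm 1 j]
    have a1 := h0 (b + 1 + j)
    have a2 := h0 (a + 1 + j)
    have a3 := hM (b + 1 + j) (by omega)
    have a4 := hM (a + 1 + j) (by omega)
    rw [e1, e]
    push_cast
    constructor <;> linarith

theorem dbl (T : ℕ → ℕ → ℝ) (P : ℕ → ℝ) (E : ℝ) (hs : ∀ j k, T j k = T k j) (h : ℕ)
    (hT : ∀ j k, j ≤ k → k ≤ h → T j k ≤ P (k - j) + E) :
    ∑ j ∈ Icc 1 h, ∑ k ∈ Icc 1 h, T j k ≤
      h * P 0 + 2 * ∑ d ∈ Icc 1 h, ((h : ℝ) - d) * P d + (h : ℝ) ^ 2 * E := by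
  induction h with
  | zero => simp
  | succ h ih =>
    have i1 := ih fun j k hj hk => hT j k hj (by omega)
    have e1 : ∑ j ∈ Icc 1 (h + 1), ∑ k ∈ Icc 1 (h + 1), T j k =
        ∑ j ∈ Icc 1 h, ∑ k ∈ Icc 1 h, T j k + 2 * ∑ j ∈ Icc 1 h, T j (h + 1) +
          T (h + 1) (h + 1) := by
      rw [sum_Icc_succ_top (by omega), sum_Icc_succ_top (by omega),
        sum_congr rfl fun j _ => sum_Icc_succ_top (by omega) (T j), sum_add_distrib,
        sum_congr rfl fun k _ => hs (h + 1) k]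
      ring
    have e2 : ∑ j ∈ Icc 1 h, P (h + 1 - j) = ∑ d ∈ Icc 1 h, P d := by
      refine sum_nbij' (fun j => h + 1 - j) (fun j => h + 1 - j) ?_ ?_ ?_ ?_ fun _ _ => rfl
      all_goals
        intro j hj
        simp only [mem_Icc] at hj ⊢
        omega
    have i2 : ∑ j ∈ Icc 1 h, T j (h + 1) ≤ ∑ d ∈ Icc 1 h, P d + h * E := by
      rw [← e2]
      refine (sum_le_sum fun j hj => hT j (h + 1) (by have := mem_Icc.1 hj; omega) le_rfl).trans_eq ?_
      rw [sum_add_distrib, sum_const, Nat.card_Icc, nsmul_eq_mul]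
      simp
    have i3 := hT (h + 1) (h + 1) le_rfl le_rfl
    have e3 : ∑ d ∈ Icc 1 (h + 1), (((h + 1 : ℕ) : ℝ) - d) * P d =
        ∑ d ∈ Icc 1 h, ((h : ℝ) - d) * P d + ∑ d ∈ Icc 1 h, P d := by
      rw [sum_Icc_succ_top (by omega), sub_self, zero_mul, add_zero, ← sum_add_distrib]
      refine sum_congr rfl fun d _ => ?_
      push_cast
      ring
    rw [Nat.sub_self] at i3
    rw [e1, e3]
    push_cast
    nlinarith

theorem lam_le {n m : ℕ} (h : n ≤ m) : Λ n ≤ Real.log m := by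
  refine vonMangoldt_le_log.trans ?_
  rcases Nat.eq_zero_or_pos n with rfl | h0
  · simpa using Real.log_natCast_nonneg m
  · exact Real.log_le_log (by exact_mod_cast h0) (by exact_mod_cast h)

theorem lam_ell {X n : ℕ} (hX : 1 ≤ X) (h : n ≤ 3 * X) : Λ n ≤ ell X := by
  have hX' : (1 : ℝ) ≤ X := by exact_mod_cast hX
  refine (lam_le h).trans ?_
  have e : ((3 * X : ℕ) : ℝ) = 3 / 2 * (2 * X) := by push_cast; ring
  rw [e, Real.log_mul (by norm_num) (by positivity), ell]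
  have := Real.log_le_sub_one_of_pos (show (0 : ℝ) < 3 / 2 by norm_num)
  linarith

theorem psi_bound (hS : SW0Stmt) : ∃ C y₀ : ℝ, ∀ y : ℕ, y₀ ≤ y →
    |∑ n ∈ Ioc 0 y, Λ n - y| ≤ C * y / Real.log y := by
  obtain ⟨C, y₀, h⟩ := hS 1 0
  refine ⟨C, y₀, fun y hy => ?_⟩
  have h1 := h y 1 1 hy le_rfl (by simp)
  have e : ∑ n ∈ Icc 1 y, ((Λ n : ℂ) * (1 : DirichletCharacter ℂ 1) n - 1) =
      ((∑ n ∈ Ioc 0 y, Λ n - y : ℝ) : ℂ) := by
    rw [sum_congr rfl fun n _ => by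
      rw [MulChar.one_apply (isUnit_of_subsingleton _), mul_one], sum_sub_distrib]
    have : Icc 1 y = Ioc 0 y := by
      ext n
      simp only [mem_Icc, mem_Ioc]
      omega
    simp [this]
  rw [if_pos rfl, e, Complex.norm_real, pow_one] at h1
  exact h1

end CorRow

open CorRow

theorem cor : CORStmt := by
  intro X h W hX hh hW
  have hX' : (0 : ℝ) < X := by exact_mod_cast hX
  have hh0 : (0 : ℝ) ≤ h := Nat.cast_nonneg h
  have hXX : X ≤ 2 * X := by omega
  have hl : 0 ≤ ell X := vonMangoldt_nonneg.trans (lam_ell hX (Nat.zero_le _))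
  have hc : ((Ioc X (2 * X)).card : ℝ) = X := by
    rw [Nat.card_Ioc]
    congr 1
    omega
  have t0 : 0 ≤ th X := sum_nonneg fun _ _ => vonMangoldt_nonneg
  have t1 : th X ≤ X * ell X := by
    refine (sum_le_card_nsmul _ _ _ fun n hn => lam_ell hX (n := n) ?_).trans_eq ?_
    · have := mem_Ioc.1 hn
      omega
    · rw [nsmul_eq_mul, hc]
  have s1 : (h : ℝ) * (th X - h * ell X) ≤ ∑ n ∈ Ioc X (2 * X), ∑ j ∈ Icc 1 h, Λ (n + j) := by
    rw [sum_comm]
    refine le_trans ?_ (card_nsmul_le_sum (Icc 1 h) _ (th X - h * ell X) fun j hj => ?_)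
    · simp
    · have hj' := mem_Icc.1 hj
      have h1 := (shift (fun n => Λ n) (ell X) hXX (fun _ => vonMangoldt_nonneg) j
        fun n hn => lam_ell hX (by omega)).2
      have h2 : (j : ℝ) * ell X ≤ h * ell X :=
        mul_le_mul_of_nonneg_right (by exact_mod_cast hj'.2) hl
      unfold th
      linarith
  have s2 := dbl (fun j k => ∑ n ∈ Ioc X (2 * X), Λ (n + j) * Λ (n + k))
    (fun d => ∑ n ∈ Ioc X (2 * X), Λ n * Λ (n + d)) (h * ell X ^ 2)
    (fun j k => sum_congr rfl fun n _ => mul_comm _ _) h (by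
      intro j k hj hk
      have h1 := (shift (fun n => Λ n * Λ (n + (k - j))) (ell X ^ 2) hXX
        (fun _ => mul_nonneg vonMangoldt_nonneg vonMangoldt_nonneg) j fun n hn => by
          rw [sq]
          exact mul_le_mul (lam_ell hX (by omega)) (lam_ell hX (by omega)) vonMangoldt_nonneg hl).1
      have h2 : (j : ℝ) * ell X ^ 2 ≤ h * ell X ^ 2 :=
        mul_le_mul_of_nonneg_right (by exact_mod_cast hj.trans hk) (sq_nonneg _)
      have e : ∑ n ∈ Ioc X (2 * X), Λ (n + j) * Λ (n + k) =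
          ∑ n ∈ Ioc X (2 * X), Λ (n + j) * Λ (n + j + (k - j)) :=
        sum_congr rfl fun n _ => by rw [show n + j + (k - j) = n + k by omega]
      rw [e]
      linarith)
  have s3 : ∑ n ∈ Ioc X (2 * X), (∑ j ∈ Icc 1 h, Λ (n + j)) ^ 2 =
      ∑ j ∈ Icc 1 h, ∑ k ∈ Icc 1 h, ∑ n ∈ Ioc X (2 * X), Λ (n + j) * Λ (n + k) := by
    simp only [sq, sum_mul_sum]
    rw [sum_comm]
    exact sum_congr rfl fun j _ => sum_comm
  have s4 : ∑ n ∈ Ioc X (2 * X), Λ n * Λ (n + 0) ≤ Real.log (2 * X) * th X := by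
    rw [th, mul_sum]
    refine sum_le_sum fun n hn => mul_le_mul ?_ le_rfl vonMangoldt_nonneg ?_
    · exact_mod_cast lam_le (mem_Ioc.1 hn).2
    · exact_mod_cast Real.log_natCast_nonneg (2 * X)
  set m : ℝ := h * th X / X with hm
  have hm0 : 0 ≤ m := by positivity
  have hm1 : m ≤ h * ell X := by
    rw [hm, div_le_iff₀ hX']
    nlinarith
  have hm2 : m * X = h * th X := div_mul_cancel₀ _ hX'.ne'
  have hm3 : (h : ℝ) ^ 2 * th X ^ 2 / X = m * (h * th X) := by
    rw [hm]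
    ring
  have s5 : Var X h m = ∑ n ∈ Ioc X (2 * X), (∑ j ∈ Icc 1 h, Λ (n + j)) ^ 2 -
      2 * m * ∑ n ∈ Ioc X (2 * X), ∑ j ∈ Icc 1 h, Λ (n + j) + X * m ^ 2 := by
    rw [Var, ← hc, mul_sum, ← nsmul_eq_mul, ← sum_const, ← sum_sub_distrib, ← sum_add_distrib]
    exact sum_congr rfl fun n _ => by ring
  have s6 := hW m
  have s7 := mul_le_mul_of_nonneg_left s1 hm0
  have s8 := mul_le_mul_of_nonneg_left s4 hh0
  have s9 : m * (h * (h * ell X)) ≤ h * ell X * (h * (h * ell X)) :=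
    mul_le_mul_of_nonneg_right hm1 (by positivity)
  have s10 : 0 ≤ (h : ℝ) ^ 3 * ell X ^ 2 := by positivity
  have s11 : X * m ^ 2 = m * (h * th X) := by rw [← hm2]; ring
  rw [s5, s3, s11] at s6
  rw [hm3]
  beta_reduce at s2
  nlinarith

theorem thu (hS : SW0Stmt) : THStmt := by
  intro ε hε
  obtain ⟨C, y₀, h⟩ := psi_bound hS
  have h1 : ∀ᶠ X : ℕ in atTop, y₀ ≤ X := tendsto_natCast_atTop_atTop.eventually_ge_atTop y₀
  have h2 : ∀ᶠ X : ℕ in atTop, 3 * |C| / ε + 1 ≤ Real.log X :=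
    (Real.tendsto_log_atTop.comp tendsto_natCast_atTop_atTop).eventually_ge_atTop _
  filter_upwards [h1, h2, eventually_ge_atTop 1] with X a1 a2 a3
  have hX : (1 : ℝ) ≤ X := by exact_mod_cast a3
  have c0 : 0 ≤ 3 * |C| / ε := by positivity
  have l0 : 0 < Real.log X := by linarith
  have l1 : Real.log X ≤ Real.log ((2 * X : ℕ) : ℝ) :=
    Real.log_le_log (by linarith) (by push_cast; linarith)
  have key : ∀ y : ℕ, Real.log X ≤ Real.log y → C * y / Real.log y ≤ ε / 3 * y := by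
    intro y hy
    rw [div_le_iff₀ (by linarith)]
    have b1 : 3 * |C| ≤ Real.log y * ε := (div_le_iff₀ hε).1 (by linarith)
    have b2 := le_abs_self C
    have b3 : (0 : ℝ) ≤ y := Nat.cast_nonneg y
    nlinarith
  have b1 := (abs_le.1 ((h X a1).trans (key X le_rfl))).1
  have b2 := (abs_le.1 ((h (2 * X) (by push_cast; linarith)).trans (key _ l1))).2
  have e := sum_Ioc_consecutive (fun n => Λ n) (Nat.zero_le X) (show X ≤ 2 * X by omega)
  push_cast at b2
  unfold th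
  linarith

end Pool.Agent.MP_678834_nt.gy
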