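import Pool.Agent.MP_678834_nt.gy.Spec

/-! Project GY: Cauchy-Schwarz with the dual large sieve. -/

set_option autoImplicit false

namespace Pool.Agent.MP_678834_nt.gy

open Finset Filter ComplexConjugate ArithmeticFunction
open scoped ArithmeticFunction.Moebius

noncomputable section

namespace CsL

/-- the dual sum -/
def GG (h R Q : ℕ) (t : ℝ) : ℂ := ∑ z ∈ FF R Q, (rho z.1 : ℂ) * DD h (fr z) * ee (t * fr z)

theorem sum_rho (R Q : ℕ) : ∑ z ∈ FF R Q, |rho z.1| ≤ Q := by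
  rw [sum_FF]
  calc _ ≤ ∑ _r ∈ Ioc R Q, (1 : ℝ) := sum_le_sum fun r hr => by
        have h0 : 0 < r.totient := Nat.totient_pos.2 (by have := (mem_Ioc.1 hr).1; omega)
        have h1 : ((range r).filter fun b => Nat.Coprime b r).card = r.totient := by
          rw [Nat.totient_eq_card_coprime]
          exact congrArg card (filter_congr fun b _ => Nat.coprime_comm)
        simp only [sum_const, h1, nsmul_eq_mul]
        refine (mul_le_mul_of_nonneg_left (rho_abs r) (Nat.cast_nonneg _)).trans (le_of_eq ?_)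
        have : (r.totient : ℝ) ≠ 0 := by positivity
        field_simp
    _ ≤ Q := by simp

theorem sum_le (h R Q : ℕ) (f : ℕ × ℕ → ℂ) {K : ℝ} (hK : 0 ≤ K) (hf : ∀ z ∈ FF R Q, ‖f z‖ ≤ K) :
    ‖∑ z ∈ FF R Q, (rho z.1 : ℂ) * DD h (fr z) * f z‖ ≤ Q * (h * K) := by
  refine (norm_sum_le _ _).trans (le_trans (sum_le_sum fun z hz => ?_)
    ((sum_mul _ _ _).symm.trans_le (mul_le_mul_of_nonneg_right (sum_rho R Q) (by positivity))))
  rw [norm_mul, norm_mul, Complex.norm_real, Real.norm_eq_abs, mul_assoc]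
  exact mul_le_mul_of_nonneg_left
    (mul_le_mul (DD_le _ _) (hf z hz) (norm_nonneg _) (Nat.cast_nonneg _)) (abs_nonneg _)

theorem GG_le (h R Q : ℕ) (t : ℝ) : ‖GG h R Q t‖ ≤ Q * h := by
  simpa only [mul_one, GG] using sum_le h R Q _ zero_le_one fun z _ => (norm_ee (t * fr z)).le

theorem HH_eq (h R Q n : ℕ) : HH h R Q n = ∑ j ∈ Icc 1 h, GG h R Q ((n : ℝ) - j) := by
  unfold HH GG
  rw [sum_comm]
  refine sum_congr rfl fun z _ => ?_
  push_cast
  rw [← Complex.mul_conj', ← mul_sum, mul_assoc, mul_assoc, mul_assoc]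
  congr 2
  rw [DD, map_sum, sum_mul]
  refine sum_congr rfl fun j _ => ?_
  rw [conj_ee, ← ee_add]
  congr 1; ring

theorem GG_sq (X h R Q : ℕ) (hQ : 1 ≤ Q) : ∑ n ∈ Ioc X (2 * X), ‖GG h R Q n‖ ^ 2 ≤
    (X + (Q : ℝ) ^ 2 * (1 + 2 * Real.log Q)) * Phi h R Q := by
  have := ls_far_dual hQ (FF R Q) (filter_subset _ _) X
    fun z => (rho z.1 : ℂ) * DD h (fr z) * ee ((X + 1 : ℕ) * fr z)
  refine le_trans (le_of_eq ?_) (this.trans (le_of_eq ?_))
  · rw [← Ico_add_one_add_one_eq_Ioc, sum_Ico_eq_sum_range,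
      show 2 * X + 1 - (X + 1) = X by omega]
    refine sum_congr rfl fun i _ => ?_
    rw [GG]
    congr 2
    refine sum_congr rfl fun z _ => ?_
    rw [mul_assoc _ (ee _), ← ee_add, fr]
    congr 2; push_cast; ring
  · rw [Phi]
    congr 1
    refine sum_congr rfl fun z _ => ?_
    rw [norm_mul, norm_mul, norm_ee, mul_one, mul_pow, Complex.norm_real, Real.norm_eq_abs, sq_abs]

theorem geo {R Q : ℕ} (hR : 1 ≤ R) {z : ℕ × ℕ} (hz : z ∈ FF R Q) (y : ℕ) :
    ‖∑ k ∈ Icc 1 y, ee (k * fr z)‖ ≤ Q := by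
  obtain ⟨q, b⟩ := z
  simp only [FF, Far, mem_filter, mem_product, mem_Icc, mem_range] at hz
  obtain ⟨⟨⟨⟨-, h1⟩, -⟩, h2, h3⟩, h4⟩ := hz
  have b0 : b ≠ 0 := by
    rintro rfl
    rw [Nat.coprime_zero_left] at h3
    omega
  have q0 : (0 : ℝ) < q := by exact_mod_cast (by omega : 0 < q)
  obtain ⟨r, hr⟩ : ∃ r : ℤ, |fr (q, b) - r| ≤ 1 / 2 := ⟨_, abs_sub_round _⟩
  have e : fr (q, b) - r = (((b : ℤ) - r * q : ℤ) : ℝ) / q := by
    rw [fr]; push_cast; field_simp
  have n0 : (b : ℤ) - r * q ≠ 0 := fun k => by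
    have : (q : ℤ) ∣ b := ⟨r, by linarith⟩
    exact absurd (Nat.le_of_dvd (by omega) (Int.natCast_dvd_natCast.1 this)) (by omega)
  have l : 1 / (q : ℝ) ≤ |fr (q, b) - r| := by
    rw [e, abs_div, abs_of_pos q0, ← Int.cast_abs]
    exact div_le_div_of_nonneg_right (by exact_mod_cast Int.one_le_abs n0) q0.le
  have p : 0 < |fr (q, b) - r| := (one_div_pos.2 q0).trans_le l
  rw [← Ico_add_one_right_eq_Icc]
  refine (geo_le _ _ _ r (abs_pos.1 p) hr).trans ?_
  have : (q : ℝ) ≤ Q := by exact_mod_cast h1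
  rw [div_le_iff₀ q0] at l
  rw [div_le_iff₀ (by positivity)]
  nlinarith

variable {V : ℝ → ℝ} {L : ℝ} (hV : Wt V L)
include hV

theorem shift {X j : ℕ} (hX : 1 ≤ X) (hj : j ≤ X) (f : ℕ → ℂ) :
    ∑ n ∈ Icc 1 (2 * X), f n * ((Λ n * om V X n : ℝ) : ℂ) =
      ∑ n ∈ Icc 1 (2 * X), f (n + j) * ((Λ (n + j) * om V X (n + j) : ℝ) : ℂ) := by
  have z : ∀ n, n ∉ Ioo X (2 * X) → f n * ((Λ n * om V X n : ℝ) : ℂ) = 0 := fun n hn => by
    rw [show om V X n = 0 from by_contra fun k => hn (mem_Ioo.2 (hV.om_supp hX k))]; simp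
  rw [← sum_subset (s₁ := Ioo X (2 * X)) (fun n hn => ?_) fun n _ hn => z n hn,
    sum_subset (s₂ := Icc (1 + j) (2 * X + j)) (fun n hn => ?_) fun n _ hn => z n hn,
    ← map_add_right_Icc, sum_map]
  · rfl
  all_goals rw [mem_Ioo] at hn; rw [mem_Icc]; omega

theorem om_diff {X h n j : ℕ} (hX : 1 ≤ X) (hh : 2 * h ≤ X) (hj : j ≤ h) :
    |om V X (n + j) - om V X n| ≤ L * (2 * h / X) := by
  have X0 : (0 : ℝ) < X := by exact_mod_cast hX
  have L0 : 0 ≤ L := zero_le_one.trans hV.one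
  by_cases hn : X ≤ 2 * n
  · have n0 : (0 : ℝ) < n := by exact_mod_cast (by omega : 0 < n)
    have a : (X : ℝ) ≤ 2 * n := by exact_mod_cast hn
    have b : (j : ℝ) ≤ h := by exact_mod_cast hj
    refine (hV.lip _ _).trans (mul_le_mul_of_nonneg_left ?_ L0)
    push_cast
    rw [sub_sub_sub_cancel_right, abs_of_nonneg (sub_nonneg.2 (Real.log_le_log n0 (by simp))),
      ← Real.log_div (by positivity) n0.ne']
    refine (Real.log_le_sub_one_of_pos (by positivity)).trans ?_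
    rw [add_div, div_self n0.ne', add_sub_cancel_left, div_le_div_iff₀ n0 X0]
    nlinarith [mul_le_mul b a X0.le (Nat.cast_nonneg h)]
  · rw [show om V X (n + j) = 0 from by_contra fun k => by have := hV.om_supp hX k; omega,
      show om V X n = 0 from by_contra fun k => by have := hV.om_supp hX k; omega]
    simp only [sub_self, abs_zero]
    positivity

omit hV in
theorem lam_le {X n : ℕ} (hX : 1 ≤ X) (hn : n ≤ 4 * X) : Λ n ≤ ell X := by
  rcases n.eq_zero_or_pos with rfl | n0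
  · simpa using zero_le_one.trans (ell_one hX)
  have X0 : (0 : ℝ) < X := by exact_mod_cast hX
  have n1 : (0 : ℝ) < n := by exact_mod_cast n0
  have a : (n : ℝ) ≤ 4 * X := by exact_mod_cast hn
  have b := Real.log_le_sub_one_of_pos (show 0 < (n : ℝ) / (2 * X) by positivity)
  rw [Real.log_div n1.ne' (by positivity)] at b
  have c : (n : ℝ) / (2 * X) ≤ 2 := by rw [div_le_iff₀ (by positivity)]; linarith
  have := vonMangoldt_le_log (n := n)
  unfold ell; linarith

end CsL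

open CsL in
theorem cs : CSStmt := by
  intro V L hV X h R Q m hh hX hR hQ
  have X0 : (0 : ℝ) < X := by exact_mod_cast hX
  have L0 : 0 ≤ L := zero_le_one.trans hV.one
  have l0 : 0 ≤ ell X := zero_le_one.trans (ell_one hX)
  have e : psw V X (HH h R Q) =
      ∑ n ∈ Icc 1 (2 * X), GG h R Q n * ((om V X n * (∑ j ∈ Icc 1 h, Λ (n + j) - m) : ℝ) : ℂ) +
      (∑ j ∈ Icc 1 h, ∑ n ∈ Icc 1 (2 * X),
        GG h R Q n * ((Λ (n + j) * (om V X (n + j) - om V X n) : ℝ) : ℂ) +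
      m * ∑ n ∈ Icc 1 (2 * X), GG h R Q n * (om V X n : ℝ)) := by
    simp only [psw, HH_eq, sum_mul]
    rw [sum_comm, sum_congr rfl fun j hj => shift hV hX
      (show j ≤ X by have := (mem_Icc.1 hj).2; omega) fun n => GG h R Q ((n : ℝ) - j),
      sum_comm, sum_comm (s := Icc 1 h), mul_sum, ← sum_add_distrib, ← sum_add_distrib]
    refine sum_congr rfl fun n _ => ?_
    push_cast
    simp only [add_sub_cancel_right, mul_sub, sum_sub_distrib, ← mul_sum, ← sum_mul]
    ring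
  have h1 : ‖∑ n ∈ Icc 1 (2 * X),
      GG h R Q n * ((om V X n * (∑ j ∈ Icc 1 h, Λ (n + j) - m) : ℝ) : ℂ)‖ ≤
      √(Var X h m * ((X + (Q : ℝ) ^ 2 * (1 + 2 * Real.log Q)) * Phi h R Q)) := by
    rw [← sum_subset (s₁ := Ioc X (2 * X)) (fun n hn => by
      rw [mem_Ioc] at hn; rw [mem_Icc]; omega) fun n _ hn => by
        rw [show om V X n = 0 from by_contra fun k => hn
          (mem_Ioc.2 ⟨(hV.om_supp hX k).1, (hV.om_supp hX k).2.le⟩)]; simp]
    refine (norm_sum_le _ _).trans (le_trans (sum_le_sum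
      (g := fun n => |∑ j ∈ Icc 1 h, Λ (n + j) - m| * ‖GG h R Q n‖) fun n _ => ?_)
      (Real.le_sqrt_of_sq_le ((sum_mul_sq_le_sq_mul_sq _ _ _).trans ?_)))
    · rw [norm_mul, Complex.norm_real, Real.norm_eq_abs, abs_mul, mul_comm]
      exact mul_le_mul_of_nonneg_right (mul_le_of_le_one_left (abs_nonneg _) (hV.om_abs X n))
        (norm_nonneg _)
    · simp only [sq_abs]
      exact mul_le_mul_of_nonneg_left (GG_sq X h R Q hQ) (sum_nonneg fun _ _ => sq_nonneg _)
  have h2 : ‖∑ j ∈ Icc 1 h, ∑ n ∈ Icc 1 (2 * X),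
      GG h R Q n * ((Λ (n + j) * (om V X (n + j) - om V X n) : ℝ) : ℂ)‖ ≤
      4 * L * ell X * ((h : ℝ) ^ 3 * Q) := by
    refine (norm_sum_le _ _).trans (le_trans (sum_le_sum fun j hj => (norm_sum_le _ _).trans
      (sum_le_sum (g := fun _ => Q * h * (ell X * (L * (2 * h / X)))) fun n hn => ?_))
      (le_of_eq ?_))
    · have a := (mem_Icc.1 hj).2
      have b := (mem_Icc.1 hn).2
      rw [norm_mul, Complex.norm_real, Real.norm_eq_abs, abs_mul, abs_of_nonneg vonMangoldt_nonneg]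
      exact mul_le_mul (GG_le _ _ _ _) (mul_le_mul (lam_le hX (by omega)) (om_diff hV hX hh a)
        (abs_nonneg _) l0) (mul_nonneg vonMangoldt_nonneg (abs_nonneg _)) (by positivity)
    · simp only [sum_const, Nat.card_Icc, add_tsub_cancel_right, nsmul_eq_mul]
      push_cast
      field_simp
      ring
  have h3 : ‖∑ n ∈ Icc 1 (2 * X), GG h R Q n * (om V X n : ℝ)‖ ≤ Q * (h * (Q * (L * ell X))) := by
    simp only [GG, sum_mul]
    rw [sum_comm]
    simp only [mul_assoc _ (ee _), ← mul_sum]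
    refine sum_le h R Q _ (by positivity) fun z hz => ?_
    simpa only [one_mul, Nat.cast_mul, Nat.cast_ofNat, ell] using
      hV.abel_om (fun k => ee (k * fr z)) X (2 * X) le_rfl fun y _ => geo hR hz y
  rw [e]
  refine (norm_add_le _ _).trans (add_le_add h1 ((norm_add_le _ _).trans ?_))
  rw [norm_mul, Complex.norm_real, Real.norm_eq_abs]
  have a := mul_le_mul_of_nonneg_left h3 (abs_nonneg m)
  have b : 0 ≤ L * ell X * ((h : ℝ) ^ 3 * Q) := by positivity
  have c : 0 ≤ L * ell X * (|m| * h * (Q : ℝ) ^ 2) := by positivity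
  linarith

end

end Pool.Agent.MP_678834_nt.gy
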