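import Pool.Agent.MP_678834_nt.gy.Spec

/-! Project GY: the Polya-Vinogradov inequality and the multiplicative large sieve. -/

set_option autoImplicit false

namespace Pool.Agent.MP_678834_nt.gy

open Finset Filter ComplexConjugate ArithmeticFunction
open scoped ArithmeticFunction.Moebius

noncomputable section

namespace FamAux

theorem zsum {q : ℕ} [NeZero q] (f : ZMod q → ℂ) :
    ∑ a : ZMod q, f a = ∑ a ∈ range q, f (a : ZMod q) := by
  refine sum_nbij' ZMod.val (fun a : ℕ => (a : ZMod q)) (fun a _ => ?_) (fun a _ => ?_)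
    (fun a _ => ?_) (fun a ha => ?_) fun a _ => ?_
  · exact mem_range.2 (ZMod.val_lt a)
  · exact mem_univ _
  · exact ZMod.natCast_zmod_val a
  · exact ZMod.val_cast_of_lt (mem_range.1 ha)
  · rw [ZMod.natCast_zmod_val]

theorem pars {ι : Type} (I : Finset ι) (A : Finset ℕ) (u : ι → ℕ → ℂ) (w : ℕ → ℝ)
    (h : ∀ a ∈ A, ∀ b ∈ A, ∑ i ∈ I, u i a * conj (u i b) = if a = b then (w a : ℂ) else 0)
    (s : ℕ → ℂ) : ∑ i ∈ I, ‖∑ a ∈ A, u i a * s a‖ ^ 2 = ∑ a ∈ A, w a * ‖s a‖ ^ 2 := by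
  apply Complex.ofReal_injective
  push_cast
  calc ∑ i ∈ I, (‖∑ a ∈ A, u i a * s a‖ : ℂ) ^ 2
      = ∑ i ∈ I, ∑ a ∈ A, ∑ b ∈ A, s a * conj (s b) * (u i a * conj (u i b)) := by
        refine sum_congr rfl fun i _ => ?_
        rw [← Complex.mul_conj', map_sum, sum_mul_sum]
        refine sum_congr rfl fun a _ => sum_congr rfl fun b _ => ?_
        rw [map_mul]; ring
    _ = ∑ a ∈ A, ∑ b ∈ A, s a * conj (s b) * ∑ i ∈ I, u i a * conj (u i b) := by
        rw [sum_comm]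
        refine sum_congr rfl fun a _ => ?_
        rw [sum_comm]
        exact sum_congr rfl fun b _ => (mul_sum _ _ _).symm
    _ = _ := by
        refine sum_congr rfl fun a ha => ?_
        rw [sum_congr rfl fun b hb => by rw [h a ha b hb, mul_ite, mul_zero], sum_ite_eq,
          if_pos ha, Complex.mul_conj', mul_comm]

theorem pars_add {q : ℕ} (hq : 0 < q) (s : ℕ → ℂ) :
    ∑ n ∈ range q, ‖∑ a ∈ range q, ee (n * ((a : ℝ) / q)) * s a‖ ^ 2 =
      q * ∑ a ∈ range q, ‖s a‖ ^ 2 := by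
  rw [mul_sum]
  refine pars (range q) (range q) (fun n a => ee (n * ((a : ℝ) / q))) (fun _ => q)
    (fun a ha b hb => ?_) s
  have e : ∀ n ∈ range q, ee (n * ((a : ℝ) / q)) * conj (ee (n * ((b : ℝ) / q))) =
      ee (n * ((((a : ℤ) - b : ℤ) : ℝ) / q)) := fun n _ => by
    rw [conj_ee, ← ee_add]; congr 1; push_cast; ring
  rw [sum_congr rfl e, orth hq]
  have ha' := mem_range.1 ha
  have hb' := mem_range.1 hb
  by_cases hab : a = b
  · simp [hab]
  · rw [if_neg hab, if_neg]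
    intro hd
    have := Int.eq_zero_of_abs_lt_dvd hd (by rw [abs_lt]; constructor <;> omega)
    omega

theorem pars_mul {q : ℕ} [NeZero q] (s : ℕ → ℂ) :
    ∑ χ : DirichletCharacter ℂ q, ‖∑ a ∈ range q, χ⁻¹ (a : ZMod q) * s a‖ ^ 2 =
      q.totient * ∑ a ∈ (range q).filter (fun b => Nat.Coprime b q), ‖s a‖ ^ 2 := by
  rw [sum_filter, mul_sum]
  refine (pars univ (range q) (fun (χ : DirichletCharacter ℂ q) a => χ⁻¹ (a : ZMod q))
    (fun a => if Nat.Coprime a q then q.totient else 0) (fun a ha b hb => ?_) s).trans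
    (sum_congr rfl fun a _ => by split_ifs <;> simp)
  have e : ∀ χ : DirichletCharacter ℂ q, χ⁻¹ (a : ZMod q) * conj (χ⁻¹ (b : ZMod q)) =
      χ (Ring.inverse (a : ZMod q) * b) := fun χ => by
    have := MulChar.star_apply' χ⁻¹ (b : ZMod q)
    rw [inv_inv] at this
    rw [map_mul, ← MulChar.inv_apply, ← this]
    rfl
  rw [sum_congr rfl fun χ _ => e χ, DirichletCharacter.sum_characters_eq]
  by_cases hu : IsUnit (a : ZMod q)
  · have hc := (ZMod.isUnit_iff_coprime a q).1 hu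
    by_cases hab : a = b
    · subst hab
      rw [if_pos (Ring.inverse_mul_cancel _ hu), if_pos rfl, if_pos hc]
      simp
    · rw [if_neg hab, if_neg]
      intro h1
      have h2 : (b : ZMod q) = a := by
        rw [← Ring.mul_inverse_cancel_left (a : ZMod q) b hu, h1, mul_one]
      have h3 := congrArg ZMod.val h2
      rw [ZMod.val_cast_of_lt (mem_range.1 ha), ZMod.val_cast_of_lt (mem_range.1 hb)] at h3
      exact hab h3.symm
  · have hc : ¬ Nat.Coprime a q := fun c => hu ((ZMod.isUnit_iff_coprime a q).2 c)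
    rw [if_neg hc, if_neg]
    · simp
    · intro h1
      rw [Ring.inverse_non_unit _ hu, zero_mul] at h1
      exact hu (by rw [← mul_one (a : ZMod q), ← h1, mul_zero, h1]; exact isUnit_one)

/-- the expansion of a primitive character in additive characters -/
theorem expand {q : ℕ} (hq : 1 < q) (χ : DirichletCharacter ℂ q) (hχ : χ.IsPrimitive) :
    ∃ τ : ℂ, ‖τ‖ ^ 2 = q ∧ ∀ n : ℕ, τ * χ (n : ZMod q) =
      ∑ a ∈ range q, χ⁻¹ (a : ZMod q) * ee (n * ((a : ℝ) / q)) := by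
  have : NeZero q := ⟨by omega⟩
  have hi : DirichletCharacter.IsPrimitive χ⁻¹ := by
    rw [DirichletCharacter.isPrimitive_def, DirichletCharacter.conductor_inv]; exact hχ
  have key : ∀ n : ℕ, gaussSum χ⁻¹ ZMod.stdAddChar * χ (n : ZMod q) =
      ∑ a ∈ range q, χ⁻¹ (a : ZMod q) * ee (n * ((a : ℝ) / q)) := fun n => by
    have h := gaussSum_mulShift_of_isPrimitive ZMod.stdAddChar hi (n : ZMod q)
    rw [inv_inv] at h
    rw [mul_comm, ← h, gaussSum, zsum]
    refine sum_congr rfl fun a _ => ?_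
    congr 1
    have e : (n : ZMod q) * (a : ZMod q) = ((n * a : ℤ) : ZMod q) := by push_cast; rfl
    rw [AddChar.mulShift_apply, e, ZMod.stdAddChar_coe, ee]
    congr 1; push_cast; ring
  refine ⟨_, ?_, key⟩
  have h1 := pars_add (by omega : 0 < q) fun a => χ⁻¹ (a : ZMod q)
  have h2 : ∀ a : ZMod q, ‖χ⁻¹ a‖ = ‖χ a‖ := fun a => by
    rw [← MulChar.star_apply', norm_star]
  have h3 : ∀ n ∈ range q, ‖∑ a ∈ range q, ee (n * ((a : ℝ) / q)) * χ⁻¹ (a : ZMod q)‖ ^ 2 =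
      ‖gaussSum χ⁻¹ ZMod.stdAddChar‖ ^ 2 * ‖χ (n : ZMod q)‖ ^ 2 := fun n _ => by
    rw [← mul_pow, ← norm_mul, key]
    exact congrArg (fun x => ‖x‖ ^ 2) (sum_congr rfl fun a _ => mul_comm _ _)
  rw [sum_congr rfl h3, ← mul_sum] at h1
  simp only [h2] at h1
  refine mul_right_cancel₀ (ne_of_gt ?_) h1
  exact sum_pos' (fun _ _ => sq_nonneg _) ⟨1, mem_range.2 hq, by simp⟩

theorem geo {q a : ℕ} (h1 : 1 ≤ a) (h2 : a < q) (y : ℕ) :
    ‖∑ n ∈ Icc 1 y, ee (n * ((a : ℝ) / q))‖ ≤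
      q / 2 * (1 / (a : ℝ)) + q / 2 * (1 / ((q - a : ℕ) : ℝ)) := by
  have a0 : (0 : ℝ) < a := by exact_mod_cast h1
  have aq : (a : ℝ) < q := by exact_mod_cast h2
  have q0 : (0 : ℝ) < q := a0.trans aq
  have d0 : (0 : ℝ) < q - a := by linarith
  rw [← Ico_add_one_right_eq_Icc, Nat.cast_sub h2.le]
  rcases le_total (2 * (a : ℝ)) q with h | h
  · have e : |(a : ℝ) / q - (0 : ℤ)| = a / q := by
      rw [Int.cast_zero, sub_zero, abs_of_pos (by positivity)]
    have := geo_le 1 (y + 1) ((a : ℝ) / q) 0 (abs_pos.1 (by rw [e]; positivity))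
      (by rw [e, div_le_div_iff₀ q0 two_pos]; linarith)
    rw [e] at this
    refine this.trans (le_trans (le_of_eq (by field_simp)) (le_add_of_nonneg_right ?_))
    positivity
  · have e : |(a : ℝ) / q - (1 : ℤ)| = (q - a) / q := by
      rw [Int.cast_one, abs_sub_comm, one_sub_div q0.ne', abs_of_pos (by positivity)]
    have := geo_le 1 (y + 1) ((a : ℝ) / q) 1 (abs_pos.1 (by rw [e]; positivity))
      (by rw [e, div_le_div_iff₀ q0 two_pos]; linarith)
    rw [e] at this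
    refine this.trans (le_trans (le_of_eq (by field_simp)) (le_add_of_nonneg_left ?_))
    positivity

theorem pv {q : ℕ} (hq : 1 < q) (χ : DirichletCharacter ℂ q) (hχ : χ.IsPrimitive) (y : ℕ) :
    ‖∑ n ∈ Icc 1 y, χ (n : ZMod q)‖ ≤ √q * (1 + Real.log q) := by
  obtain ⟨τ, h1, h2⟩ := expand hq χ hχ
  have : Fact (1 < q) := ⟨hq⟩
  have q0 : (0 : ℝ) < q := by exact_mod_cast (by omega : 0 < q)
  have ht : ‖τ‖ = √q := by rw [← h1, Real.sqrt_sq (norm_nonneg _)]
  have h3 : τ * ∑ n ∈ Icc 1 y, χ (n : ZMod q) =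
      ∑ a ∈ Ico 1 q, χ⁻¹ (a : ZMod q) * ∑ n ∈ Icc 1 y, ee (n * ((a : ℝ) / q)) := by
    rw [mul_sum, sum_congr rfl fun n _ => h2 n, sum_comm, range_eq_Ico,
      sum_eq_sum_Ico_succ_bot (by omega : 0 < q)]
    simp only [Nat.cast_zero, MulChar.map_zero, zero_mul, sum_const_zero, zero_add, mul_sum]
  have h4 : ∑ a ∈ Ico 1 q, (1 : ℝ) / a ≤ 1 + Real.log q :=
    harm' _ q Ico_subset_Icc_self
  have h5 : ∑ a ∈ Ico 1 q, (1 : ℝ) / ((q - a : ℕ) : ℝ) ≤ 1 + Real.log q := by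
    refine le_trans (sum_inj (t := Icc 1 q) (g := fun m : ℕ => (1 : ℝ) / m) (fun a => q - a)
      (fun a ha b hb e => ?_) (fun a ha => ?_) (fun _ _ => le_rfl)
      fun _ _ => by positivity) (harm q)
    · simp only [mem_Ico] at ha hb e; omega
    · simp only [mem_Ico, mem_Icc] at ha ⊢; omega
  have h6 : √q * ‖∑ n ∈ Icc 1 y, χ (n : ZMod q)‖ ≤ q * (1 + Real.log q) := by
    rw [← ht, ← norm_mul, h3]
    refine (norm_sum_le _ _).trans ((sum_le_sum (g := fun a : ℕ =>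
      (q : ℝ) / 2 * (1 / (a : ℝ)) + q / 2 * (1 / ((q - a : ℕ) : ℝ))) fun a ha => ?_).trans ?_)
    · rw [norm_mul]
      exact (mul_le_of_le_one_left (norm_nonneg _) (DirichletCharacter.norm_le_one _ _)).trans
        (geo (mem_Ico.1 ha).1 (mem_Ico.1 ha).2 y)
    · rw [sum_add_distrib, ← mul_sum, ← mul_sum]
      nlinarith
  refine le_of_mul_le_mul_left (h6.trans (le_of_eq ?_)) (Real.sqrt_pos.2 q0)
  rw [← mul_assoc, Real.mul_self_sqrt q0.le]

theorem rs {M : Type} [AddCommMonoid M] (N : ℕ) (f g : ℕ → M) (h0 : f 0 = 0)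
    (h : ∀ n, n ≠ 0 → f n = g n) : ∑ n ∈ range (N + 1), f n = ∑ n ∈ Icc 1 N, g n := by
  rw [range_eq_Ico, sum_eq_sum_Ico_succ_bot (by omega : 0 < N + 1), h0, zero_add,
    Ico_add_one_right_eq_Icc]
  exact sum_congr rfl fun n hn => h n (by have := (mem_Icc.1 hn).1; omega)

/-- all characters with modulus from 1 to `R` -/
def All (R : ℕ) : Finset Ch := (Ioc 0 R).sigma fun _ => univ

theorem sub {R : ℕ} {S : Finset Ch} (hS : Prim S R) : S ⊆ All R := fun z hz => by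
  obtain ⟨h1, h2, -⟩ := hS z hz
  simp only [All, mem_sigma, mem_Ioc, mem_univ, and_true]
  omega

theorem card_All (R : ℕ) : (All R).card ≤ R ^ 2 := by
  rw [All, card_sigma]
  refine (sum_le_card_nsmul _ _ R fun q hq => ?_).trans (by simp [sq])
  obtain ⟨h1, h2⟩ := mem_Ioc.1 hq
  have : NeZero q := ⟨h1.ne'⟩
  rw [card_univ, ← Nat.card_eq_fintype_card,
    DirichletCharacter.card_eq_totient_of_hasEnoughRootsOfUnity]
  exact (Nat.totient_le q).trans h2

theorem mls {R : ℕ} {S : Finset Ch} (hR : 1 ≤ R) (hS : Prim S R) (N : ℕ) (c : ℕ → ℂ) :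
    ∑ z ∈ S, ‖lf c (cv z) N‖ ^ 2 ≤
      (N + (1 + (R : ℝ) ^ 2 * (1 + 2 * Real.log R))) * ∑ n ∈ Icc 1 N, ‖c n‖ ^ 2 := by
  set s : ℕ × ℕ → ℂ := fun z => ∑ n ∈ Icc 1 N, c n * ee (n * ((z.2 : ℝ) / z.1)) with hs
  have h1 : ∑ z ∈ Far R, ‖s z‖ ^ 2 ≤
      (N + (1 + (R : ℝ) ^ 2 * (1 + 2 * Real.log R))) * ∑ n ∈ Icc 1 N, ‖c n‖ ^ 2 := by
    have h := ls_far hR (N + 1) fun n => if n = 0 then 0 else c n
    rw [rs N _ (fun n => ‖c n‖ ^ 2) (by simp) fun n hn => by rw [if_neg hn]] at h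
    refine le_trans (le_of_eq (sum_congr rfl fun z _ => ?_)) (h.trans (le_of_eq ?_))
    · rw [rs N _ (fun n => c n * ee (n * ((z.2 : ℝ) / z.1))) (by simp)
        fun n hn => by rw [if_neg hn]]
    · push_cast; ring
  calc ∑ z ∈ S, ‖lf c (cv z) N‖ ^ 2
      = ∑ z ∈ S, 1 / (z.1 : ℝ) * ‖∑ a ∈ range z.1, z.2⁻¹ (a : ZMod z.1) * s (z.1, a)‖ ^ 2 := by
        refine sum_congr rfl fun z hz => ?_
        obtain ⟨a1, -, a3⟩ := hS z hz
        obtain ⟨τ, t1, t2⟩ := expand a1 z.2 a3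
        have q0 : (z.1 : ℝ) ≠ 0 := by exact_mod_cast (by omega : z.1 ≠ 0)
        have e : ∑ a ∈ range z.1, z.2⁻¹ (a : ZMod z.1) * s (z.1, a) = τ * lf c (cv z) N := by
          simp only [hs, lf, cv, mul_sum]
          rw [sum_comm]
          refine sum_congr rfl fun n _ => ?_
          rw [mul_left_comm, t2, mul_sum]
          exact sum_congr rfl fun a _ => by ring
        rw [e, norm_mul, mul_pow, t1]
        field_simp
    _ ≤ ∑ z ∈ All R, 1 / (z.1 : ℝ) *
          ‖∑ a ∈ range z.1, z.2⁻¹ (a : ZMod z.1) * s (z.1, a)‖ ^ 2 :=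
        sum_le_sum_of_subset_of_nonneg (sub hS) fun _ _ _ => by positivity
    _ ≤ ∑ q ∈ Ioc 0 R, ∑ a ∈ (range q).filter (fun b => Nat.Coprime b q), ‖s (q, a)‖ ^ 2 := by
        rw [All, sum_sigma]
        refine sum_le_sum fun q hq => ?_
        obtain ⟨q1, -⟩ := mem_Ioc.1 hq
        have : NeZero q := ⟨q1.ne'⟩
        have q0 : (0 : ℝ) < q := by exact_mod_cast q1
        dsimp only
        rw [← mul_sum, pars_mul fun a => s (q, a), ← mul_assoc]
        refine mul_le_of_le_one_left (sum_nonneg fun _ _ => sq_nonneg _) ?_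
        rw [one_div, inv_mul_le_iff₀ q0, mul_one]
        exact_mod_cast Nat.totient_le q
    _ = ∑ z ∈ FF 0 R, ‖s z‖ ^ 2 := (sum_FF 0 R fun z => ‖s z‖ ^ 2).symm
    _ ≤ ∑ z ∈ Far R, ‖s z‖ ^ 2 :=
        sum_le_sum_of_subset_of_nonneg (filter_subset _ _) fun _ _ _ => sq_nonneg _
    _ ≤ _ := h1

end FamAux

theorem fam : FAMStmt := by
  intro R S hR hS
  have R1 : (1 : ℝ) ≤ R := by exact_mod_cast hR
  have l0 := Real.log_nonneg R1
  refine ⟨fun z _ m n => ?_, fun z _ n => DirichletCharacter.norm_le_one _ _, fun z hz y => ?_,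
    by positivity, ?_, FamAux.mls hR hS⟩
  · simp only [cv, Nat.cast_mul, map_mul]
  · obtain ⟨a1, a2, a3⟩ := hS z hz
    have q1 : (1 : ℝ) ≤ z.1 := by exact_mod_cast a1.le
    have q2 : (z.1 : ℝ) ≤ R := by exact_mod_cast a2
    have := Real.log_nonneg q1
    refine (FamAux.pv a1 z.2 a3 y).trans (mul_le_mul (Real.sqrt_le_sqrt q2) ?_ (by linarith)
      (Real.sqrt_nonneg _))
    have := Real.log_le_log (by linarith) q2
    linarith
  · have h : (S.card : ℝ) ≤ (R : ℝ) ^ 2 := by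
      exact_mod_cast (card_le_card (FamAux.sub hS)).trans (FamAux.card_All R)
    nlinarith [mul_nonneg (sq_nonneg (R : ℝ)) l0]

end

end Pool.Agent.MP_678834_nt.gy
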