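import Pool.Agent.MP_678834_nt.gy.Spec

/-! Project GY: expansion of the discrepancy for one modulus in characters. -/

set_option autoImplicit false

namespace Pool.Agent.MP_678834_nt.gy

open Finset Filter ComplexConjugate ArithmeticFunction
open scoped ArithmeticFunction.Moebius

namespace Rda

theorem sum_not_coprime {q : ℕ} (hq : 1 ≤ q) (y : ℕ) :
    ∑ n ∈ (Icc 1 y).filter (fun n => ¬ n.Coprime q), Λ n ≤ q * Real.log y := by
  have hl : 0 ≤ Real.log y := Real.log_natCast_nonneg y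
  have hΛ : ∀ n : ℕ, 0 ≤ Λ n := fun _ => ArithmeticFunction.vonMangoldt_nonneg
  calc ∑ n ∈ (Icc 1 y).filter (fun n => ¬ n.Coprime q), Λ n
      ≤ ∑ n ∈ (Icc 1 y).filter (fun n => ¬ n.Coprime q), ∑ p ∈ q.primeFactors,
          if n ∈ (p ^ Nat.log p y).divisors then Λ n else 0 := by
        refine sum_le_sum fun n hn => ?_
        have hnn : ∀ p ∈ q.primeFactors,
            0 ≤ if n ∈ (p ^ Nat.log p y).divisors then Λ n else 0 := fun p _ => by
          split_ifs
          · exact hΛ n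
          · exact le_rfl
        by_cases h0 : Λ n = 0
        · rw [h0] at hnn ⊢
          exact sum_nonneg hnn
        obtain ⟨h1, h2⟩ := mem_filter.1 hn
        obtain ⟨p, k, hp, hk, rfl⟩ := (isPrimePow_nat_iff n).1
          (ArithmeticFunction.vonMangoldt_ne_zero_iff.1 h0)
        have hpq : p ∣ q := by
          by_contra h3
          exact h2 (Nat.Coprime.pow_left k ((Nat.Prime.coprime_iff_not_dvd hp).2 h3))
        refine le_trans ?_ (single_le_sum hnn (Nat.mem_primeFactors.2 ⟨hp, hpq, by omega⟩))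
        rw [if_pos]
        exact Nat.mem_divisors.2 ⟨pow_dvd_pow p
          (Nat.le_log_of_pow_le hp.one_lt (mem_Icc.1 h1).2), pow_ne_zero _ hp.ne_zero⟩
    _ ≤ ∑ p ∈ q.primeFactors, ∑ n ∈ (p ^ Nat.log p y).divisors, Λ n := by
        rw [sum_comm]
        refine sum_le_sum fun p _ => ?_
        rw [← sum_filter]
        exact sum_le_sum_of_subset_of_nonneg (fun n hn => (mem_filter.1 hn).2)
          fun n _ _ => hΛ n
    _ ≤ ∑ _p ∈ q.primeFactors, Real.log y := by
        refine sum_le_sum fun p hp => ?_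
        rw [ArithmeticFunction.vonMangoldt_sum]
        rcases Nat.eq_zero_or_pos y with rfl | hy
        · simp
        · have hp0 := (Nat.prime_of_mem_primeFactors hp).pos
          exact Real.log_le_log (by positivity)
            (by exact_mod_cast Nat.pow_log_le_self p hy.ne')
    _ ≤ q * Real.log y := by
        rw [sum_const, nsmul_eq_mul]
        refine mul_le_mul_of_nonneg_right ?_ hl
        have : q.primeFactors.card ≤ q.divisors.card :=
          card_le_card fun p hp => Nat.mem_divisors.2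
            ⟨Nat.dvd_of_mem_primeFactors hp, by omega⟩
        exact_mod_cast this.trans (Nat.card_divisors_le_self q)

theorem shifts (f : ℤ → ℂ) (c : ℂ) (h0 : f 0 = 0) (hc : ∀ m, f (-m) = c * f m) (h : ℕ) :
    ∑ j ∈ Icc 1 h, ∑ k ∈ Icc 1 h, f (-((k : ℤ) - j)) =
      (1 + c) * ∑ j ∈ range h, ∑ d ∈ Icc 1 j, f d := by
  induction h with
  | zero => simp
  | succ h ih =>
    have e1 : ∑ k ∈ Icc 1 h, f (((h + 1 : ℕ) : ℤ) - k) = ∑ d ∈ Icc 1 h, f d := by
      refine sum_nbij' (fun k => h + 1 - k) (fun k => h + 1 - k) (fun k hk => ?_) (fun k hk => ?_)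
        (fun k hk => ?_) (fun k hk => ?_) (fun k hk => ?_) <;> simp only [mem_Icc] at hk ⊢
      · omega
      · omega
      · omega
      · omega
      · congr 1; omega
    rw [sum_Icc_succ_top (by omega), sum_Icc_succ_top (by omega), sum_range_succ, mul_add, ← ih]
    simp only [sum_Icc_succ_top (show 1 ≤ h + 1 by omega), sum_add_distrib]
    have e2 : ∑ j ∈ Icc 1 h, f (-(((h + 1 : ℕ) : ℤ) - j)) = c * ∑ d ∈ Icc 1 h, f d := by
      rw [← e1, mul_sum]; exact sum_congr rfl fun j _ => hc _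
    have e3 : ∑ k ∈ Icc 1 h, f (-((k : ℤ) - (h + 1 : ℕ))) = ∑ d ∈ Icc 1 h, f d := by
      rw [← e1]; exact sum_congr rfl fun j _ => by rw [neg_sub]
    rw [e2, e3, sub_self, neg_zero, h0]
    ring

theorem point {e : ℕ} [Fintype (DirichletCharacter ℂ e)]
    [DecidableEq (DirichletCharacter ℂ e)] (he : 1 ≤ e) {n : ℕ} (hn : n.Coprime e) (d : ℤ) :
    ((((if (e : ℤ) ∣ n + d then 1 else 0) -
      if d.natAbs.Coprime e then 1 / (e.totient : ℝ) else 0 : ℝ)) : ℂ) =
      1 / (e.totient : ℂ) * ∑ χ : DirichletCharacter ℂ e, if χ = 1 then 0 else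
        conj (cv ⟨χ.conductor, χ.primitiveCharacter⟩ n) * χ ((-d : ℤ) : ZMod e) := by
  have : NeZero e := ⟨by omega⟩
  have hu : IsUnit (n : ZMod e) := (ZMod.isUnit_iff_coprime n e).2 hn
  have hφ : (e.totient : ℂ) ≠ 0 := by exact_mod_cast (Nat.totient_pos.2 he).ne'
  have h1 : ∀ χ : DirichletCharacter ℂ e,
      conj (cv ⟨χ.conductor, χ.primitiveCharacter⟩ n) = χ (n : ZMod e)⁻¹ := by
    intro χ
    have h2 : cv ⟨χ.conductor, χ.primitiveCharacter⟩ n = χ (n : ZMod e) := by
      have := χ.primitiveCharacter_apply_of_isCoprime (a := n) (Nat.isCoprime_iff_coprime.2 hn)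
      simpa [cv] using this
    have h3 : χ (n : ZMod e) * χ (n : ZMod e)⁻¹ = 1 := by
      rw [← map_mul, ZMod.mul_inv_of_unit _ hu, map_one]
    have h4 : ‖χ (n : ZMod e)‖ = 1 := χ.unit_norm_eq_one hu.unit
    rw [h2, ← Complex.inv_eq_conj h4]
    exact (eq_inv_of_mul_eq_one_right h3).symm
  have h4 : ∑ χ : DirichletCharacter ℂ e, χ (n : ZMod e)⁻¹ * χ ((-d : ℤ) : ZMod e) =
      if (n : ZMod e) = ((-d : ℤ) : ZMod e) then (e.totient : ℂ) else 0 := by
    convert DirichletCharacter.sum_char_inv_mul_char_eq ℂ hu ((-d : ℤ) : ZMod e)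
  have h5 : ∑ χ : DirichletCharacter ℂ e, (if χ = 1 then 0 else
      conj (cv ⟨χ.conductor, χ.primitiveCharacter⟩ n) * χ ((-d : ℤ) : ZMod e)) =
      ∑ χ : DirichletCharacter ℂ e, χ (n : ZMod e)⁻¹ * χ ((-d : ℤ) : ZMod e) -
        (1 : DirichletCharacter ℂ e) (n : ZMod e)⁻¹ *
          (1 : DirichletCharacter ℂ e) ((-d : ℤ) : ZMod e) := by
    rw [← sum_erase_eq_sub (mem_univ _), ← sum_erase (a := (1 : DirichletCharacter ℂ e)) _ (by simp)]
    exact sum_congr rfl fun χ hχ => by rw [if_neg (ne_of_mem_erase hχ), h1]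
  have h6 : (1 : DirichletCharacter ℂ e) (n : ZMod e)⁻¹ = 1 :=
    MulChar.one_apply (IsUnit.of_mul_eq_one _ (ZMod.inv_mul_of_unit _ hu))
  have h7 : (1 : DirichletCharacter ℂ e) ((-d : ℤ) : ZMod e) =
      if d.natAbs.Coprime e then 1 else 0 := by
    have h8 : IsUnit ((-d : ℤ) : ZMod e) ↔ d.natAbs.Coprime e := by
      rw [ZMod.coe_int_isUnit_iff_isCoprime, isCoprime_comm, IsCoprime.neg_left_iff,
        Int.isCoprime_iff_gcd_eq_one]
      rfl
    split_ifs with h
    · exact MulChar.one_apply (h8.2 h)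
    · exact MulChar.map_nonunit _ fun hh => h (h8.1 hh)
  have h9 : ((n : ZMod e) = ((-d : ℤ) : ZMod e)) ↔ (e : ℤ) ∣ n + d := by
    rw [← ZMod.intCast_zmod_eq_zero_iff_dvd]
    push_cast
    exact eq_neg_iff_add_eq_zero
  rw [h5, h4, h6, h7]
  simp only [h9]
  split_ifs <;> push_cast <;> field_simp <;> ring

theorem one_disc {V : ℝ → ℝ} {L : ℝ} (hV : Wt V L) {X e : ℕ} [Fintype (DirichletCharacter ℂ e)]
    [DecidableEq (DirichletCharacter ℂ e)] (he : 1 ≤ e) (d : ℤ) :
    ‖(disc V X e d : ℂ) - 1 / (e.totient : ℂ) * ∑ χ : DirichletCharacter ℂ e, if χ = 1 then 0 else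
      conj (psw V X (cv ⟨χ.conductor, χ.primitiveCharacter⟩)) * χ ((-d : ℤ) : ZMod e)‖ ≤
      2 * (e * ell X) := by
  have : NeZero e := ⟨by omega⟩
  have hφ : (1 : ℝ) ≤ e.totient := by exact_mod_cast Nat.totient_pos.2 he
  let S : ℕ → ℂ := fun n => 1 / (e.totient : ℂ) * ∑ χ : DirichletCharacter ℂ e, if χ = 1 then 0 else
    conj (cv ⟨χ.conductor, χ.primitiveCharacter⟩ n) * χ ((-d : ℤ) : ZMod e)
  let t : ℕ → ℝ := fun n => (if (e : ℤ) ∣ n + d then 1 else 0) -
    if d.natAbs.Coprime e then 1 / (e.totient : ℝ) else 0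
  have hS : ∀ n, ‖S n‖ ≤ 1 := by
    intro n
    have h1 : ‖∑ χ : DirichletCharacter ℂ e, if χ = 1 then 0 else
        conj (cv ⟨χ.conductor, χ.primitiveCharacter⟩ n) * χ ((-d : ℤ) : ZMod e)‖ ≤ e.totient := by
      refine (norm_sum_le_of_le (n := fun _ => (1 : ℝ)) _ fun χ _ => ?_).trans ?_
      · split_ifs
        · simp
        · rw [norm_mul, Complex.norm_conj]
          exact mul_le_one₀ (DirichletCharacter.norm_le_one _ _) (norm_nonneg _)
            (DirichletCharacter.norm_le_one _ _)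
      · rw [sum_const, card_univ, ← Nat.card_eq_fintype_card,
          DirichletCharacter.card_eq_totient_of_hasEnoughRootsOfUnity]
        simp
    simp only [S]
    rw [norm_mul, norm_div, norm_one, Complex.norm_natCast, one_div, inv_mul_le_iff₀ (by linarith)]
    simpa using h1
  have ht : ∀ n, |t n| ≤ 1 := by
    intro n
    have h1 : 0 < 1 / (e.totient : ℝ) := by positivity
    have h2 : 1 / (e.totient : ℝ) ≤ 1 := by rw [div_le_one (by linarith)]; exact hφ
    simp only [t]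
    split_ifs <;> rw [abs_le] <;> constructor <;> linarith
  have e1 : (1 / (e.totient : ℂ) * ∑ χ : DirichletCharacter ℂ e, if χ = 1 then 0 else
      conj (psw V X (cv ⟨χ.conductor, χ.primitiveCharacter⟩)) * χ ((-d : ℤ) : ZMod e)) =
      ∑ n ∈ Icc 1 (2 * X), ((Λ n * om V X n : ℝ) : ℂ) * S n := by
    simp only [S, mul_sum]
    rw [sum_comm]
    refine sum_congr rfl fun χ _ => ?_
    split_ifs
    · simp
    · rw [psw, map_sum, sum_mul, mul_sum]
      refine sum_congr rfl fun n _ => ?_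
      rw [map_mul, Complex.conj_ofReal]
      ring
  have e2 : (disc V X e d : ℂ) = ∑ n ∈ Icc 1 (2 * X), ((Λ n * om V X n : ℝ) : ℂ) * (t n : ℂ) := by
    rw [disc, Complex.ofReal_sum]
    exact sum_congr rfl fun n _ => by rw [Complex.ofReal_mul]
  rw [e1, e2, ← sum_sub_distrib]
  have h3 := sum_not_coprime he (2 * X)
  rw [sum_filter] at h3
  refine (norm_sum_le_of_le (n := fun n => 2 * if ¬ n.Coprime e then Λ n else 0) _
    fun n _ => ?_).trans ?_
  · rw [← mul_sub]
    by_cases hn : n.Coprime e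
    · rw [show (t n : ℂ) = S n from point he hn d]
      simp [hn]
    · rw [if_pos hn, norm_mul, Complex.norm_real, Real.norm_eq_abs, abs_mul,
        abs_of_nonneg (vonMangoldt_nonneg (n := n))]
      have h4 : ‖(t n : ℂ) - S n‖ ≤ 2 := (norm_sub_le _ _).trans (by
        rw [Complex.norm_real, Real.norm_eq_abs]; linarith [hS n, ht n])
      have h5 := hV.om_abs X n
      have h6 : 0 ≤ Λ n := vonMangoldt_nonneg
      calc Λ n * |om V X n| * ‖(t n : ℂ) - S n‖ ≤ Λ n * 1 * 2 := by gcongr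
        _ = 2 * Λ n := by ring
  · rw [← mul_sum]
    refine mul_le_mul_of_nonneg_left (h3.trans ?_) zero_le_two
    refine mul_le_mul_of_nonneg_left ?_ (Nat.cast_nonneg _)
    push_cast
    unfold ell
    linarith

end Rda

theorem rda : RDAStmt := by
  classical
  intro V L hV X h e _ he
  have hφ : (1 : ℝ) ≤ e.totient := by exact_mod_cast Nat.totient_pos.2 he
  let P : DirichletCharacter ℂ e → ℂ := fun χ => psw V X (cv ⟨χ.conductor, χ.primitiveCharacter⟩)
  let M : ℤ → ℂ := fun d => 1 / (e.totient : ℂ) * ∑ χ : DirichletCharacter ℂ e,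
    if χ = 1 then 0 else conj (P χ) * χ ((-d : ℤ) : ZMod e)
  have h1 : ‖(dsum V X h e : ℂ) - ∑ j ∈ Icc 1 h, ∑ k ∈ Icc 1 h, M ((k : ℤ) - j)‖ ≤
      2 * (h : ℝ) ^ 2 * e * ell X := by
    rw [dsum]
    push_cast
    simp only [← sum_sub_distrib]
    refine (norm_sum_le_of_le (n := fun _ => (h : ℝ) * (2 * (e * ell X))) _ fun j _ =>
      (norm_sum_le_of_le (n := fun _ => 2 * (e * ell X)) _ fun k _ => Rda.one_disc hV he _).trans
        (by simp)).trans (le_of_eq ?_)
    simp only [sum_const, Nat.card_Icc, add_tsub_cancel_right, nsmul_eq_mul]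
    ring
  have h2 : ∑ j ∈ Icc 1 h, ∑ k ∈ Icc 1 h, M ((k : ℤ) - j) = 1 / (e.totient : ℂ) *
      ∑ χ : DirichletCharacter ℂ e, if χ = 1 then 0 else conj (P χ) *
        ∑ j ∈ Icc 1 h, ∑ k ∈ Icc 1 h, χ ((-((k : ℤ) - j) : ℤ) : ZMod e) := by
    simp only [M, ← mul_sum]
    congr 1
    simp only [sum_comm (t := (univ : Finset (DirichletCharacter ℂ e)))]
    refine sum_congr rfl fun χ _ => ?_
    split_ifs
    · simp
    · simp only [mul_sum]
  have h3 : ‖∑ j ∈ Icc 1 h, ∑ k ∈ Icc 1 h, M ((k : ℤ) - j)‖ ≤ 1 / (e.totient : ℝ) *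
      ∑ χ : DirichletCharacter ℂ e, if χ = 1 then 0 else
        2 * (∑ j ∈ range h, ‖pp (cv ⟨e, χ⟩) j‖) * ‖P χ‖ := by
    rw [h2, norm_mul, norm_div, norm_one, Complex.norm_natCast]
    refine mul_le_mul_of_nonneg_left (norm_sum_le_of_le _ fun χ _ => ?_) (by positivity)
    split_ifs with hχ
    · simp
    · have hne : e ≠ 1 := by
        rintro rfl
        exact hχ (DirichletCharacter.level_one χ)
      have : Fact (1 < e) := ⟨by omega⟩
      rw [Rda.shifts (fun m => χ (m : ZMod e)) (χ (-1)) (by simpa using χ.map_zero)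
        (fun m => by rw [← map_mul]; simp) h, norm_mul, norm_mul, Complex.norm_conj, mul_comm]
      refine mul_le_mul_of_nonneg_right (mul_le_mul ?_ ?_ (norm_nonneg _) zero_le_two)
        (norm_nonneg _)
      · refine (norm_add_le _ _).trans ?_
        have := χ.norm_le_one (-1)
        rw [norm_one]; linarith
      · refine norm_sum_le_of_le _ fun j _ => le_of_eq ?_
        simp [pp, cv]
  rw [← Real.norm_eq_abs, ← Complex.norm_real]
  exact (norm_le_norm_sub_add _ _).trans (add_le_add h1 h3)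

end Pool.Agent.MP_678834_nt.gy
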