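import Pool.Agent.MP_678834_nt.gy.Spec3
import Pool.Agent.MP_678834_nt.gy.Fam
import Pool.Agent.MP_678834_nt.gy.Rda

/-! Project GY, second stage: the dual sum. -/

set_option autoImplicit false

namespace Pool.Agent.MP_678834_nt.gy

open Finset Filter ComplexConjugate ArithmeticFunction
open scoped ArithmeticFunction.Moebius

namespace DualAux

theorem icc (f : ℕ → ℂ) (n : ℕ) : ∑ k ∈ Icc 1 n, f k = ∑ i ∈ range n, f (i + 1) := by
  induction n with
  | zero => simp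
  | succ n ih => rw [sum_Icc_succ_top (by omega), ih, sum_range_succ]

theorem parts (g a : ℕ → ℂ) (N : ℕ) : ∑ k ∈ range N, g k * a k =
    g (N - 1) * ∑ k ∈ range N, a k -
      ∑ i ∈ range (N - 1), (g (i + 1) - g i) * ∑ j ∈ range (i + 1), a j := by
  simpa only [smul_eq_mul] using sum_range_by_parts g a N

theorem ee_one (t : ℝ) : ‖ee t - 1‖ ≤ 2 * Real.pi * |t| := by
  refine Real.norm_exp_I_mul_ofReal_sub_one_le.trans (le_of_eq ?_)
  rw [Real.norm_eq_abs, abs_mul, abs_of_pos Real.two_pi_pos]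

theorem shift {y : ℕ} {α β m : ℝ} (hβ : 0 ≤ β) (hm : ∀ Y ≤ y, ‖DD Y α‖ ≤ m) :
    ‖DD y (α + β) - DD y α‖ ≤ 4 * Real.pi * (y * β) * m := by
  have m0 : 0 ≤ m := (norm_nonneg _).trans (hm 0 (Nat.zero_le _))
  have pi0 := Real.pi_pos
  rcases Nat.eq_zero_or_pos y with rfl | y0
  · simp [DD]
  have e : DD y (α + β) - DD y α =
      ∑ k ∈ range y, (ee ((k + 1 : ℕ) * β) - 1) * ee ((k + 1 : ℕ) * α) := by
    rw [DD, DD, icc, icc, ← sum_sub_distrib]
    refine sum_congr rfl fun k _ => ?_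
    rw [mul_add, ee_add]; ring
  have p : ∀ Y ≤ y, ‖∑ k ∈ range Y, ee ((k + 1 : ℕ) * α)‖ ≤ m := fun Y hY => by
    have := hm Y hY
    rwa [DD, icc] at this
  rw [e, parts (fun k => ee ((k + 1 : ℕ) * β) - 1) (fun k => ee ((k + 1 : ℕ) * α))]
  refine (norm_sub_le _ _).trans ?_
  have h1 : ‖(ee ((y - 1 + 1 : ℕ) * β) - 1) * ∑ k ∈ range y, ee ((k + 1 : ℕ) * α)‖ ≤
      2 * Real.pi * (y * β) * m := by
    rw [norm_mul, Nat.sub_add_cancel y0]
    refine mul_le_mul ((ee_one _).trans (le_of_eq ?_)) (p y le_rfl) (norm_nonneg _)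
      (by positivity)
    rw [abs_of_nonneg (by positivity)]
  have h2 : ∀ i ∈ range (y - 1), ‖(ee ((i + 1 + 1 : ℕ) * β) - 1 - (ee ((i + 1 : ℕ) * β) - 1)) *
      ∑ j ∈ range (i + 1), ee ((j + 1 : ℕ) * α)‖ ≤ 2 * Real.pi * β * m := fun i hi => by
    have e2 : ee ((i + 1 + 1 : ℕ) * β) - 1 - (ee ((i + 1 : ℕ) * β) - 1) =
        ee ((i + 1 : ℕ) * β) * (ee β - 1) := by
      rw [mul_sub, ← ee_add, show ((i + 1 + 1 : ℕ) : ℝ) * β = (i + 1 : ℕ) * β + β by
        push_cast; ring]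
      ring
    rw [e2, norm_mul, norm_mul, norm_ee, one_mul]
    refine mul_le_mul ((ee_one _).trans (le_of_eq ?_))
      (p _ (by have := mem_range.1 hi; omega)) (norm_nonneg _) (by positivity)
    rw [abs_of_nonneg hβ]
  have h3 := (norm_sum_le _ _).trans (sum_le_card_nsmul _ _ _ h2)
  rw [card_range, nsmul_eq_mul] at h3
  have h4 : ((y - 1 : ℕ) : ℝ) ≤ y := by exact_mod_cast Nat.sub_le y 1
  have h5 := mul_le_mul_of_nonneg_right h4 (show 0 ≤ 2 * Real.pi * β * m by positivity)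
  linarith

theorem ini {q a b : ℕ} (h1 : 1 ≤ a) (h2 : a ≤ b) (h3 : a + b ≤ q) (y Y : ℕ) (hY : Y ≤ y) :
    ‖DD Y ((b : ℝ) / q)‖ ≤ min (y : ℝ) ((q : ℝ) / a) := by
  refine le_min ((DD_le _ _).trans (by exact_mod_cast hY)) ?_
  have a0 : (0 : ℝ) < a := by exact_mod_cast h1
  have k1 : (1 : ℝ) / b ≤ 1 / a := one_div_le_one_div_of_le a0 (by exact_mod_cast h2)
  have k2 : (1 : ℝ) / ((q - b : ℕ) : ℝ) ≤ 1 / a :=
    one_div_le_one_div_of_le a0 (by exact_mod_cast (by omega : a ≤ q - b))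
  have q0 : (0 : ℝ) ≤ (q : ℝ) / 2 := by positivity
  refine (FamAux.geo (q := q) (a := b) (by omega) (by omega) Y).trans ?_
  have := mul_le_mul_of_nonneg_left k1 q0
  have := mul_le_mul_of_nonneg_left k2 q0
  rw [div_eq_mul_one_div (q : ℝ) a]
  linarith

theorem step {q a : ℕ} (h1 : 1 ≤ a) (h2 : 2 * a + 1 ≤ q) (y : ℕ) :
    |‖DD y (((a + 1 : ℕ) : ℝ) / q)‖ ^ 2 - ‖DD y ((a : ℝ) / q)‖ ^ 2| ≤
      8 * Real.pi * (y / q) * min (y : ℝ) ((q : ℝ) / a) ^ 2 := by
  have k0 := ini (q := q) h1 le_rfl (by omega) y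
  have k1 := ini (q := q) h1 (Nat.le_succ a) (by omega) y y le_rfl
  have k2 := shift (β := 1 / q) (by positivity) k0
  rw [show (a : ℝ) / q + 1 / q = ((a + 1 : ℕ) : ℝ) / q by push_cast; ring, mul_one_div] at k2
  have k3 := (abs_norm_sub_norm_le _ _).trans k2
  have k4 := k0 y le_rfl
  rw [sq_sub_sq, abs_mul, abs_of_nonneg (by positivity)]
  refine (mul_le_mul (add_le_add k1 k4) k3 (abs_nonneg _) (by positivity)).trans (le_of_eq ?_)
  ring

theorem refl {q a : ℕ} (h : a ≤ q) (hq : 0 < q) (y : ℕ) :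
    ‖DD y (((q - a : ℕ) : ℝ) / q)‖ = ‖DD y ((a : ℝ) / q)‖ := by
  have q0 : (q : ℝ) ≠ 0 := by positivity
  rw [← Complex.norm_conj (DD y ((a : ℝ) / q)), DD, DD, map_sum]
  congr 1
  refine sum_congr rfl fun k _ => ?_
  rw [conj_ee, ← ee_sub_int _ k, Nat.cast_sub h]
  congr 1
  push_cast; field_simp; ring

theorem full {q : ℕ} (hq : 1 < q) (χ : DirichletCharacter ℂ q) (hχ : χ.IsPrimitive) :
    ∑ a ∈ range q, χ (a : ZMod q) = 0 := by
  have : NeZero q := ⟨by omega⟩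
  rw [← FamAux.zsum fun a => χ a]
  refine MulChar.sum_eq_zero_of_ne_one fun e => ?_
  have := DirichletCharacter.eq_one_iff_conductor_eq_one.1 e
  rw [(DirichletCharacter.isPrimitive_def χ).1 hχ] at this
  omega

theorem pp_range {q : ℕ} (hq : 1 < q) (χ : DirichletCharacter ℂ q) (i : ℕ) :
    ∑ j ∈ range (i + 1), χ (j : ZMod q) = pp (cv ⟨q, χ⟩) i := by
  have : Fact (1 < q) := ⟨hq⟩
  exact FamAux.rs i _ _ (by rw [Nat.cast_zero, MulChar.map_zero]) fun _ _ => rfl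

theorem pp_refl {q : ℕ} (hq : 1 < q) (χ : DirichletCharacter ℂ q) (hχ : χ.IsPrimitive) :
    ∀ i, i + 1 ≤ q → pp (cv ⟨q, χ⟩) (q - 1 - i) = -χ (-1) * pp (cv ⟨q, χ⟩) i := by
  intro i
  induction i with
  | zero =>
    intro _
    rw [← pp_range hq, show q - 1 - 0 + 1 = q by omega, full hq χ hχ]
    simp [pp]
  | succ i ih =>
    intro h
    have e := ih (by omega)
    have e2 : (((q - 1 - (i + 1) + 1 : ℕ)) : ZMod q) = -1 * ((i + 1 : ℕ) : ZMod q) := by
      rw [neg_one_mul, eq_neg_iff_add_eq_zero, ← Nat.cast_add,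
        show q - 1 - (i + 1) + 1 + (i + 1) = q by omega, ZMod.natCast_self]
    rw [show q - 1 - i = q - 1 - (i + 1) + 1 by omega, pp, sum_Icc_succ_top (by omega)] at e
    rw [pp, pp, sum_Icc_succ_top (show 1 ≤ i + 1 by omega)]
    simp only [cv, pp] at e ⊢
    rw [e2, map_mul] at e
    linear_combination e

theorem expandZ {q : ℕ} (hq : 1 < q) (χ : DirichletCharacter ℂ q) (hχ : χ.IsPrimitive) :
    ∃ τ : ℂ, ‖τ‖ ^ 2 = q ∧ ∀ m : ℤ, τ * χ (m : ZMod q) =
      ∑ a ∈ range q, χ⁻¹ (a : ZMod q) * ee (m * ((a : ℝ) / q)) := by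
  obtain ⟨τ, h1, h2⟩ := FamAux.expand hq χ hχ
  refine ⟨τ, h1, fun m => ?_⟩
  have q0 : (q : ℝ) ≠ 0 := by positivity
  obtain ⟨n, hn⟩ := Int.eq_ofNat_of_zero_le (Int.emod_nonneg m (show (q : ℤ) ≠ 0 by omega))
  have e : m = n + q * (m / q) := by rw [← hn]; exact (Int.emod_add_mul_ediv m q).symm
  have e1 : (m : ZMod q) = (n : ZMod q) := by rw [e]; simp
  have e2 : (m : ℝ) = n + q * ((m / q : ℤ) : ℝ) := by exact_mod_cast e
  rw [e1, h2]
  refine sum_congr rfl fun a _ => ?_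
  rw [← ee_sub_int (m * ((a : ℝ) / q)) (m / q * a), e2]
  congr 2
  rw [Int.cast_mul, Int.cast_natCast]
  field_simp
  ring

theorem fejer {q : ℕ} (hq : 1 < q) (χ : DirichletCharacter ℂ q) (hχ : χ.IsPrimitive) (y : ℕ) :
    √q * ‖wz ⟨q, χ⟩ y‖ =
      ‖∑ a ∈ range q, ((‖DD y ((a : ℝ) / q)‖ ^ 2 : ℝ) : ℂ) * χ⁻¹ (a : ZMod q)‖ := by
  have : Fact (1 < q) := ⟨hq⟩
  obtain ⟨τ, h1, h2⟩ := expandZ hq χ hχ
  have ht : ‖τ‖ = √q := by rw [← h1, Real.sqrt_sq (norm_nonneg _)]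
  have e := Rda.shifts (fun m => χ (m : ZMod q)) (χ (-1))
    (by simp only [Int.cast_zero, MulChar.map_zero])
    (fun m => by rw [← map_mul]; simp) y
  have e2 : wz ⟨q, χ⟩ y = ∑ j ∈ Icc 1 y, ∑ k ∈ Icc 1 y, χ (((k : ℤ) - j : ℤ) : ZMod q) := by
    rw [sum_comm]
    simp only [neg_sub] at e
    rw [e]
    simp [wz, pp, cv]
  rw [← ht, ← norm_mul, e2]
  congr 1
  simp only [mul_sum, h2, DD_sq, sum_mul]
  rw [sum_congr rfl fun j _ => sum_comm, sum_comm]
  exact sum_congr rfl fun a _ => sum_congr rfl fun j _ => sum_congr rfl fun k _ => mul_comm _ _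

end DualAux

open DualAux in
theorem dual : DUALStmt := by
  rintro ⟨q, χ⟩ hq hχ y
  dsimp only at hq hχ ⊢
  have q0 : (0 : ℝ) < q := by positivity
  have s0 := Real.sqrt_pos.2 q0
  have hi : DirichletCharacter.IsPrimitive χ⁻¹ := by
    rw [DirichletCharacter.isPrimitive_def, DirichletCharacter.conductor_inv]; exact hχ
  set g : ℕ → ℝ := fun a => ‖DD y ((a : ℝ) / q)‖ ^ 2 with hg
  set T : ℕ → ℝ := fun i => |g (i + 1) - g i| * ‖pp (cv ⟨q, χ⟩) i‖ with hT
  set B : ℕ → ℝ := fun a => min (y : ℝ) ((q : ℝ) / a) ^ 2 * ‖pp (cv ⟨q, χ⟩) a‖ with hB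
  have B0 : ∀ a, 0 ≤ B a := fun a => by positivity
  have c0 : 0 ≤ 8 * Real.pi * ((y : ℝ) / q) := by have := Real.pi_pos; positivity
  have h1 : √q * ‖wz ⟨q, χ⟩ y‖ ≤ ∑ i ∈ range (q - 1), T i := by
    rw [fejer hq χ hχ y, parts (fun a => (g a : ℂ)) fun a => χ⁻¹ (a : ZMod q), full hq _ hi,
      mul_zero, zero_sub, norm_neg]
    refine (norm_sum_le _ _).trans (le_of_eq (sum_congr rfl fun i _ => ?_))
    rw [norm_mul, ← Complex.ofReal_sub, Complex.norm_real, Real.norm_eq_abs, hT]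
    congr 1
    rw [← pp_range hq, ← norm_star, star_sum]
    congr 1
    refine sum_congr rfl fun j _ => ?_
    rw [MulChar.star_apply', inv_inv]
  have h2 : ∀ a, 1 ≤ a → 2 * a + 1 ≤ q → T a ≤ 8 * Real.pi * (y / q) * B a := fun a a1 a2 => by
    rw [hT, hB, ← mul_assoc]
    exact mul_le_mul_of_nonneg_right (step a1 a2 y) (norm_nonneg _)
  have h3 : ∀ i, i + 1 ≤ q → T (q - 1 - i) ≤ T i := fun i hi => by
    have e1 : g (q - 1 - i + 1) = g i := by
      rw [show q - 1 - i + 1 = q - i by omega]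
      exact congrArg (· ^ 2) (refl (by omega) (by omega) y)
    have e2 : g (q - 1 - i) = g (i + 1) := by
      rw [show q - 1 - i = q - (i + 1) by omega]
      exact congrArg (· ^ 2) (refl hi (by omega) y)
    simp only [hT]
    rw [e1, e2, abs_sub_comm, pp_refl hq χ hχ i hi, norm_mul, norm_neg]
    exact mul_le_mul_of_nonneg_left (mul_le_of_le_one_left (norm_nonneg _)
      (DirichletCharacter.norm_le_one _ _)) (abs_nonneg _)
  have T0 : T 0 = 0 := by simp [hT, pp]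
  have h4 : ∑ i ∈ range (q - 1), T i ≤
      2 * ∑ a ∈ Icc 1 q, 8 * Real.pi * (y / q) * B a := by
    rw [← sum_erase _ T0, ← sum_filter_add_sum_filter_not _ fun i => 2 * i + 1 ≤ q, two_mul]
    refine add_le_add (sum_inj id (fun _ _ _ _ e => e) (fun a ha => ?_) (fun a ha => ?_)
      fun a _ => mul_nonneg c0 (B0 a)) (sum_inj (fun i => q - 1 - i) (fun a ha b hb e => ?_)
      (fun a ha => ?_) (fun a ha => ?_) fun a _ => mul_nonneg c0 (B0 a))
    · simp only [mem_filter, mem_erase, mem_range, mem_Icc, id] at ha ⊢; omega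
    · simp only [mem_filter, mem_erase, mem_range] at ha
      exact h2 a (by omega) ha.2
    · simp only [mem_filter, mem_erase, mem_range] at ha hb e; omega
    · simp only [mem_filter, mem_erase, mem_range, mem_Icc] at ha ⊢; omega
    · simp only [mem_filter, mem_erase, mem_range] at ha
      have := h3 (q - 1 - a) (by omega)
      rw [show q - 1 - (q - 1 - a) = a by omega] at this
      exact this.trans (h2 _ (by omega) (by omega))
  rw [← mul_sum] at h4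
  have S0 : 0 ≤ ∑ a ∈ Icc 1 q, B a := sum_nonneg fun a _ => B0 a
  refine le_of_mul_le_mul_left ((h1.trans h4).trans ?_) s0
  have e : √q * (60 * ((y : ℝ) / (q * √q)) * ∑ a ∈ Icc 1 q, B a) =
      60 * ((y / q) * ∑ a ∈ Icc 1 q, B a) := by field_simp
  rw [e]
  have := mul_nonneg (show (0 : ℝ) ≤ y / q by positivity) S0
  nlinarith [Real.pi_lt_d2]

end Pool.Agent.MP_678834_nt.gy
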