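import Pool.Agent.MP_678834_nt.gy.Spec

/-! Project GY: dyadic decomposition of a bilinear sum. -/

set_option autoImplicit false

namespace Pool.Agent.MP_678834_nt.gy

open Finset Filter ComplexConjugate ArithmeticFunction
open scoped ArithmeticFunction.Moebius

noncomputable section

namespace DyaAux

/-- double sums only depend on the support -/
theorem dsum_eq (g : ℕ → ℕ → ℂ) (A B A' B' : Finset ℕ)
    (h : ∀ t k, g t k ≠ 0 → ((t ∈ A ∧ k ∈ B) ↔ (t ∈ A' ∧ k ∈ B'))) :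
    ∑ t ∈ A, ∑ k ∈ B, g t k = ∑ t ∈ A', ∑ k ∈ B', g t k := by
  rw [← sum_product', ← sum_product', ← sum_filter_ne_zero (A ×ˢ B),
    ← sum_filter_ne_zero (A' ×ˢ B')]
  refine sum_congr ?_ fun _ _ => rfl
  ext z
  simp only [mem_filter, mem_product]
  constructor
  · rintro ⟨h1, h2⟩; exact ⟨(h _ _ h2).1 h1, h2⟩
  · rintro ⟨h1, h2⟩; exact ⟨(h _ _ h2).2 h1, h2⟩

/-- the dyadic piece of a sequence -/
def pc (a : ℕ → ℂ) (j t : ℕ) : ℂ := if Nat.log 2 t = j then a t else 0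

theorem split (a b F : ℕ → ℂ) (Y : ℕ) (hF : ∀ n, F n ≠ 0 → 0 < n ∧ n < Y) :
    ∑ t ∈ Icc 1 Y, ∑ k ∈ Icc 1 Y, a t * b k * F (t * k) =
      ∑ j ∈ range (Nat.log 2 Y + 1), ∑ m ∈ Icc 1 (2 ^ (j + 1)), ∑ n ∈ Icc 1 (Y / 2 ^ j),
        pc a j m * b n * F (m * n) := by
  have h1 : ∀ t ∈ Icc 1 Y, ∑ k ∈ Icc 1 Y, a t * b k * F (t * k) =
      ∑ j ∈ range (Nat.log 2 Y + 1), ∑ k ∈ Icc 1 Y, pc a j t * b k * F (t * k) := by
    intro t ht
    have hm : Nat.log 2 t ∈ range (Nat.log 2 Y + 1) :=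
      mem_range.2 (Nat.lt_succ_of_le (Nat.log_mono_right (mem_Icc.1 ht).2))
    rw [sum_eq_single_of_mem _ hm]
    · simp only [pc, if_true]
    · intro j _ hj
      refine sum_eq_zero fun k _ => ?_
      rw [pc, if_neg (Ne.symm hj)]; simp
  rw [sum_congr rfl h1, sum_comm]
  refine sum_congr rfl fun j _ => dsum_eq _ _ _ _ _ fun t k h => ?_
  have h2 : pc a j t ≠ 0 := left_ne_zero_of_mul (left_ne_zero_of_mul h)
  obtain ⟨h3, h4⟩ := hF _ (right_ne_zero_of_mul h)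
  have h5 : Nat.log 2 t = j := by
    by_contra hc
    exact h2 (by rw [pc, if_neg hc])
  have ht : 0 < t := Nat.pos_of_mul_pos_right h3
  have hk : 0 < k := Nat.pos_of_mul_pos_left h3
  have h6 : 2 ^ j ≤ t := h5 ▸ Nat.pow_log_le_self 2 ht.ne'
  have h7 : t < 2 ^ (j + 1) := h5 ▸ Nat.lt_pow_succ_log_self (by norm_num) t
  have h8 : t ≤ Y := (Nat.le_mul_of_pos_right t hk).trans h4.le
  have h9 : k ≤ Y := (Nat.le_mul_of_pos_left k ht).trans h4.le
  have h10 : k ≤ Y / 2 ^ j := by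
    rw [Nat.le_div_iff_mul_le (by positivity)]
    calc k * 2 ^ j ≤ k * t := Nat.mul_le_mul_left _ h6
      _ = t * k := mul_comm _ _
      _ ≤ Y := h4.le
  simp only [mem_Icc]
  exact ⟨fun _ => ⟨⟨ht, h7.le⟩, hk, h10⟩, fun _ => ⟨⟨ht, h8⟩, hk, h9⟩⟩

theorem count {X : ℕ} (hX : 1 ≤ X) : ((Nat.log 2 (2 * X) + 1 : ℕ) : ℝ) ≤ 2 * ell X := by
  have h1 : 2 ^ Nat.log 2 (2 * X) ≤ 2 * X := Nat.pow_log_le_self 2 (by omega)
  have h2 : (2 : ℝ) ^ Nat.log 2 (2 * X) ≤ 2 * X := by exact_mod_cast h1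
  have h3 := Real.log_le_log (by positivity) h2
  rw [Real.log_pow] at h3
  have h4 := Real.log_two_gt_d9
  have h5 : (0 : ℝ) ≤ Nat.log 2 (2 * X) := Nat.cast_nonneg _
  unfold ell
  push_cast
  nlinarith

end DyaAux

open DyaAux in
theorem dya : SEPStmt → DYAStmt := by
  intro sep V L hV ι S χ w X U B hX hmul hw hU hB hyp a b ha hb hsupp
  have hL := hV.one
  have hblk : ∀ j : ℕ, ∑ i ∈ S, w i * ‖∑ m ∈ Icc 1 (2 ^ (j + 1)), ∑ n ∈ Icc 1 (2 * X / 2 ^ j),
      pc a j m * b n * (χ i (m * n) * (om V X (m * n) : ℝ))‖ ≤ 4 * L * B := by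
    intro j
    by_cases hz : ∀ t, pc a j t = 0
    · simp only [hz, zero_mul, sum_const_zero, norm_zero, mul_zero]
      positivity
    · obtain ⟨t, ht⟩ := not_forall.1 hz
      have h5 : Nat.log 2 t = j := by
        by_contra hc
        exact ht (by rw [pc, if_neg hc])
      have hat : a t ≠ 0 := by rwa [pc, if_pos h5] at ht
      obtain ⟨h1, h2⟩ := hsupp t hat
      have ht0 : 0 < t := by
        have : (0 : ℝ) < t := lt_of_le_of_lt hU h1
        exact_mod_cast this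
      have h6 : 2 ^ j ≤ t := h5 ▸ Nat.pow_log_le_self 2 ht0.ne'
      have h7 : t < 2 ^ (j + 1) := h5 ▸ Nat.lt_pow_succ_log_self (by norm_num) t
      have h8 : 2 * X / 2 ^ j * 2 ^ j ≤ 2 * X := Nat.div_mul_le_self _ _
      have hMN : 2 ^ (j + 1) * (2 * X / 2 ^ j) ≤ 4 * X := by
        rw [pow_succ]; nlinarith
      refine sep V L hV ι S χ w X _ _ (pc a j) b B hmul hw fun a' b' ha' hb' => ?_
      refine hyp _ _ a' b' hMN ?_ ?_ (fun m => (ha' m).trans ?_) fun n => (hb' n).trans (hb n)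
      · have h9 : ((2 ^ (j + 1) : ℕ) : ℝ) ≤ 2 * t := by
          have : 2 ^ (j + 1) ≤ 2 * t := by rw [pow_succ]; omega
          exact_mod_cast this
        nlinarith [mul_le_mul_of_nonneg_right h9 hU]
      · have h9 : ((2 * X / 2 ^ j : ℕ) : ℝ) * t ≤ 4 * X := by
          have : 2 * X / 2 ^ j * t ≤ 4 * X :=
            (Nat.mul_le_mul_left _ h7.le).trans (by rw [mul_comm]; exact hMN)
          exact_mod_cast this
        exact (mul_le_mul_of_nonneg_left h1.le (Nat.cast_nonneg _)).trans h9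
      · unfold pc
        split_ifs
        · exact ha m
        · simp
  have hs : ∀ i ∈ S, w i * ‖∑ t ∈ Icc 1 (2 * X), ∑ k ∈ Icc 1 (2 * X),
      a t * b k * (χ i (t * k) * (om V X (t * k) : ℝ))‖ ≤
      ∑ j ∈ range (Nat.log 2 (2 * X) + 1), w i * ‖∑ m ∈ Icc 1 (2 ^ (j + 1)),
        ∑ n ∈ Icc 1 (2 * X / 2 ^ j), pc a j m * b n * (χ i (m * n) * (om V X (m * n) : ℝ))‖ := by
    intro i hi
    rw [split a b (fun n => χ i n * (om V X n : ℝ)) (2 * X) fun n hn => ?_, ← mul_sum]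
    · exact mul_le_mul_of_nonneg_left (norm_sum_le _ _) (hw i hi)
    · have h1 : om V X n ≠ 0 := by
        have := right_ne_zero_of_mul hn
        exact_mod_cast this
      obtain ⟨h2, h3⟩ := hV.om_supp hX h1
      exact ⟨by omega, h3⟩
  refine (sum_le_sum hs).trans ?_
  rw [sum_comm]
  refine (sum_le_sum fun j _ => hblk j).trans ?_
  rw [sum_const, card_range, nsmul_eq_mul]
  have hc := count hX
  have h0 : 0 ≤ 4 * L * B := by positivity
  nlinarith [mul_le_mul_of_nonneg_right hc h0]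

end

end Pool.Agent.MP_678834_nt.gy
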