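import Mathlib
import Pool.Agent.MP_678834_nt.gy.Base

/-! Project GY: a lower bound for the variance of primes in short intervals. Definitions and the
statements of the modules. -/

set_option autoImplicit false

namespace Pool.Agent.MP_678834_nt.gy

open Finset Filter ComplexConjugate ArithmeticFunction
open scoped ArithmeticFunction.Moebius

noncomputable section

/-- admissible smooth weights in the logarithmic variable -/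
structure Wt (V : ℝ → ℝ) (L : ℝ) : Prop where
  one : 1 ≤ L
  nn : ∀ t, 0 ≤ V t
  le : ∀ t, V t ≤ 1
  supp : ∀ t, V t ≠ 0 → 0 < t ∧ t < Real.log 2
  lip : ∀ s t, |V s - V t| ≤ L * |s - t|
  four : ∃ κ : ℝ → ℂ, Continuous κ ∧ (∀ u, ‖κ u‖ ≤ L / (1 + u ^ 2)) ∧
    ∀ y : ℝ, (V y : ℂ) = ∫ u : ℝ, κ u * Complex.exp ((u * y : ℝ) * Complex.I)

/-- the weight on integers, supported in the open interval from `X` to `2 X` -/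
def om (V : ℝ → ℝ) (X n : ℕ) : ℝ := V (Real.log n - Real.log X)

/-- the logarithmic size -/
def ell (X : ℕ) : ℝ := 1 + Real.log (2 * X)

/-- weighted sums over primes -/
def psw (V : ℝ → ℝ) (X : ℕ) (f : ℕ → ℂ) : ℂ :=
  ∑ n ∈ Icc 1 (2 * X), f n * ((Λ n * om V X n : ℝ) : ℂ)

/-- the weighted prime count -/
def ps1 (V : ℝ → ℝ) (X : ℕ) : ℝ := ∑ n ∈ Icc 1 (2 * X), Λ n * om V X n

/-- sharp initial sums -/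
def pp (f : ℕ → ℂ) (y : ℕ) : ℂ := ∑ d ∈ Icc 1 y, f d

/-- linear forms in the values of `f` -/
def lf (a f : ℕ → ℂ) (M : ℕ) : ℂ := ∑ m ∈ Icc 1 M, a m * f m

/-- families of multiplicative functions with bounded initial sums and a large sieve -/
structure Fam {ι : Type} (S : Finset ι) (χ : ι → ℕ → ℂ) (K D : ℝ) : Prop where
  mul : ∀ i ∈ S, ∀ m n, χ i (m * n) = χ i m * χ i n
  le : ∀ i ∈ S, ∀ n, ‖χ i n‖ ≤ 1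
  pv : ∀ i ∈ S, ∀ y, ‖pp (χ i) y‖ ≤ K
  K0 : 0 ≤ K
  card : (S.card : ℝ) ≤ D
  ls : ∀ (N : ℕ) (c : ℕ → ℂ), ∑ i ∈ S, ‖lf c (χ i) N‖ ^ 2 ≤ (N + D) * ∑ n ∈ Icc 1 N, ‖c n‖ ^ 2

/-- characters together with their moduli -/
abbrev Ch : Type := Σ q : ℕ, DirichletCharacter ℂ q

/-- the values at natural numbers -/
def cv (z : Ch) (n : ℕ) : ℂ := z.2 (n : ZMod z.1)

/-- sets of primitive characters with moduli from 2 to `R` -/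
def Prim (S : Finset Ch) (R : ℕ) : Prop := ∀ z ∈ S, 1 < z.1 ∧ z.1 ≤ R ∧ z.2.IsPrimitive

/-- admissible parameters -/
structure Adm (η : ℝ) (X h Q : ℕ) : Prop where
  h1 : 1 ≤ h
  Q1 : 1 ≤ Q
  hQQ : (h : ℝ) * Q ^ 2 ≤ (X : ℝ) ^ (1 - η)
  hhQ : (h : ℝ) ^ 2 * Q ≤ (X : ℝ) ^ (1 - η)
  alt : (Q : ℝ) ≤ (X : ℝ) ^ (1 / 3 - η) ∨ (h : ℝ) ≤ (X : ℝ) ^ (1 / 4 - η)

/-- the discrepancy of the class `-d` modulo `e` -/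
def disc (V : ℝ → ℝ) (X e : ℕ) (d : ℤ) : ℝ :=
  ∑ n ∈ Icc 1 (2 * X), Λ n * om V X n * ((if (e : ℤ) ∣ n + d then 1 else 0) -
    if d.natAbs.Coprime e then 1 / (e.totient : ℝ) else 0)

/-- the discrepancy summed over the shifts `k - j` -/
def dsum (V : ℝ → ℝ) (X h e : ℕ) : ℝ :=
  ∑ j ∈ Icc 1 h, ∑ k ∈ Icc 1 h, disc V X e ((k : ℤ) - j)

def rho (r : ℕ) : ℝ := (μ r : ℝ) / (r.totient : ℝ)

/-- the fraction of a pair -/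
def fr (z : ℕ × ℕ) : ℝ := (z.2 : ℝ) / z.1

/-- the Dirichlet kernel -/
def DD (h : ℕ) (α : ℝ) : ℂ := ∑ k ∈ Icc 1 h, ee (k * α)

/-- reduced fractions with denominators in the half open interval from `R` to `Q` -/
def FF (R Q : ℕ) : Finset (ℕ × ℕ) := (Far Q).filter fun z => R < z.1

def Phi (h R Q : ℕ) : ℝ := ∑ z ∈ FF R Q, rho z.1 ^ 2 * ‖DD h (fr z)‖ ^ 2

def HH (h R Q n : ℕ) : ℂ :=
  ∑ z ∈ FF R Q, ((rho z.1 * ‖DD h (fr z)‖ ^ 2 : ℝ) : ℂ) * ee (n * fr z)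

/-- the second moment about `m` -/
def Var (X h : ℕ) (m : ℝ) : ℝ := ∑ n ∈ Ioc X (2 * X), ((∑ j ∈ Icc 1 h, Λ (n + j)) - m) ^ 2

/-! ### statements -/

def BumpStmt : Prop := ∀ δ : ℝ, 0 < δ → ∃ (V : ℝ → ℝ) (L : ℝ), Wt V L ∧
  ∀ t, δ ≤ t → t ≤ Real.log 2 - δ → V t = 1

/-- Polya-Vinogradov and the multiplicative large sieve -/
def FAMStmt : Prop := ∀ (R : ℕ) (S : Finset Ch), 1 ≤ R → Prim S R →
  Fam S cv (√R * (1 + Real.log R)) (1 + (R : ℝ) ^ 2 * (1 + 2 * Real.log R))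

/-- separation of variables -/
def SEPStmt : Prop := ∀ (V : ℝ → ℝ) (L : ℝ), Wt V L → ∀ (ι : Type) (S : Finset ι)
  (χ : ι → ℕ → ℂ) (w : ι → ℝ) (X M N : ℕ) (a b : ℕ → ℂ) (B : ℝ),
  (∀ i ∈ S, ∀ m n, χ i (m * n) = χ i m * χ i n) → (∀ i ∈ S, 0 ≤ w i) →
  (∀ a' b' : ℕ → ℂ, (∀ m, ‖a' m‖ ≤ ‖a m‖) → (∀ n, ‖b' n‖ ≤ ‖b n‖) →
    ∑ i ∈ S, w i * (‖lf a' (χ i) M‖ * ‖lf b' (χ i) N‖) ≤ B) →
  ∑ i ∈ S, w i * ‖∑ m ∈ Icc 1 M, ∑ n ∈ Icc 1 N,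
    a m * b n * (χ i (m * n) * (om V X (m * n) : ℝ))‖ ≤ 4 * L * B

/-- the two bilinear bounds -/
def IIStmt : Prop := ∀ (ι : Type) (S : Finset ι) (χ : ι → ℕ → ℂ) (K D : ℝ), Fam S χ K D →
  ∀ (y M N : ℕ) (a b : ℕ → ℂ), (∀ m, ‖a m‖ ≤ 1) → (∀ n, ‖b n‖ ≤ 1) →
    ∑ i ∈ S, ‖pp (χ i) y‖ * (‖lf a (χ i) M‖ * ‖lf b (χ i) N‖) ≤
        K * √((M + D) * M * ((N + D) * N)) ∧
      ∀ T : ℝ, (∀ k : ℕ, k ≤ y * M → (k.divisors.card : ℝ) ≤ T) →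
        ∑ i ∈ S, ‖pp (χ i) y‖ * (‖lf a (χ i) M‖ * ‖lf b (χ i) N‖) ≤
          √((y * M + D) * (T * y * M) * ((N + D) * N))

/-- dyadic decomposition of a bilinear sum -/
def DYAStmt : Prop := ∀ (V : ℝ → ℝ) (L : ℝ), Wt V L → ∀ (ι : Type) (S : Finset ι)
  (χ : ι → ℕ → ℂ) (w : ι → ℝ) (X : ℕ) (U B : ℝ), 1 ≤ X →
  (∀ i ∈ S, ∀ m n, χ i (m * n) = χ i m * χ i n) → (∀ i ∈ S, 0 ≤ w i) → 0 ≤ U → 0 ≤ B →
  (∀ (M N : ℕ) (a b : ℕ → ℂ), M * N ≤ 4 * X → M * U ≤ 4 * X → N * U ≤ 4 * X →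
    (∀ m, ‖a m‖ ≤ 1) → (∀ n, ‖b n‖ ≤ 1) →
    ∑ i ∈ S, w i * (‖lf a (χ i) M‖ * ‖lf b (χ i) N‖) ≤ B) →
  ∀ a b : ℕ → ℂ, (∀ m, ‖a m‖ ≤ 1) → (∀ n, ‖b n‖ ≤ 1) →
    (∀ t : ℕ, a t ≠ 0 → U < t ∧ t * U ≤ 2 * X) →
    ∑ i ∈ S, w i * ‖∑ t ∈ Icc 1 (2 * X), ∑ k ∈ Icc 1 (2 * X),
      a t * b k * (χ i (t * k) * (om V X (t * k) : ℝ))‖ ≤ 8 * L * ell X * B

/-- the Vaughan decomposition -/
def VAUStmt : Prop := ∀ (V : ℝ → ℝ) (L : ℝ), Wt V L → ∀ (ι : Type) (S : Finset ι)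
  (χ : ι → ℕ → ℂ) (K D : ℝ) (w : ι → ℝ) (X : ℕ) (U B : ℝ), Fam S χ K D → (∀ i ∈ S, 0 ≤ w i) →
  1 ≤ U → U ^ 3 ≤ X → 0 ≤ B →
  (∀ (M N : ℕ) (a b : ℕ → ℂ), M * N ≤ 4 * X → M * U ≤ 4 * X → N * U ≤ 4 * X →
    (∀ m, ‖a m‖ ≤ 1) → (∀ n, ‖b n‖ ≤ 1) →
    ∑ i ∈ S, w i * (‖lf a (χ i) M‖ * ‖lf b (χ i) N‖) ≤ B) →
  ∑ i ∈ S, w i * ‖psw V X (χ i)‖ ≤ 100 * L * ell X ^ 3 * (K * U * (∑ i ∈ S, w i) + B)

/-- one dyadic block of moduli -/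
def BLKStmt : Prop := ∀ (V : ℝ → ℝ) (L : ℝ), Wt V L → ∀ η : ℝ, 0 < η → η ≤ 1 / 100 →
  ∃ C : ℝ, 0 ≤ C ∧ ∀ᶠ X : ℕ in atTop, ∀ (h Q y R : ℕ) (S : Finset Ch), Adm η X h Q → y ≤ h →
    1 ≤ R → R ≤ Q → Prim S (2 * R) →
    ∑ z ∈ S, ‖pp (cv z) y‖ * ‖psw V X (cv z)‖ ≤
      C * R * X * ell X ^ 6 * (1 / √R + (X : ℝ) ^ (-(η / 20)))

open Classical in
/-- Siegel-Walfisz -/
def SW0Stmt : Prop := ∀ A B : ℕ, ∃ C y₀ : ℝ, ∀ (y q : ℕ) (χ : DirichletCharacter ℂ q),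
  y₀ ≤ y → 1 ≤ q → (q : ℝ) ≤ Real.log y ^ B →
    ‖∑ n ∈ Icc 1 y, ((Λ n : ℂ) * χ n - if χ = 1 then 1 else 0)‖ ≤ C * y / Real.log y ^ A

/-- Siegel-Walfisz with the smooth weight -/
def SWWStmt : Prop := ∀ (V : ℝ → ℝ) (L : ℝ), Wt V L → ∀ A B : ℕ, ∀ᶠ X : ℕ in atTop,
  ∀ z : Ch, 1 ≤ z.1 → (z.1 : ℝ) ≤ Real.log X ^ B → z.2 ≠ 1 →
    ‖psw V X (cv z)‖ ≤ X / Real.log X ^ A

/-- the prime number theorem with the smooth weight, lower bound -/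
def PNWStmt : Prop := ∀ ε : ℝ, 0 < ε → ∃ δ : ℝ, 0 < δ ∧ ∀ (V : ℝ → ℝ) (L : ℝ), Wt V L →
  (∀ t, δ ≤ t → t ≤ Real.log 2 - δ → V t = 1) → ∀ᶠ X : ℕ in atTop, (1 - ε) * X ≤ ps1 V X

/-- the mean value over all primitive characters -/
def MVStmt : Prop := ∀ (V : ℝ → ℝ) (L : ℝ), Wt V L → ∀ η : ℝ, 0 < η → η ≤ 1 / 100 → ∀ A : ℕ,
  ∀ᶠ X : ℕ in atTop, ∀ (h Q y : ℕ) (S : Finset Ch), Adm η X h Q → y ≤ h → Prim S Q →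
    ∑ z ∈ S, 1 / (z.1 : ℝ) * (‖pp (cv z) y‖ * ‖psw V X (cv z)‖) ≤ X / Real.log X ^ A

open Classical in
/-- one modulus: expansion in characters -/
def RDAStmt : Prop := ∀ (V : ℝ → ℝ) (L : ℝ), Wt V L → ∀ (X h e : ℕ), 1 ≤ X → 1 ≤ e →
  |dsum V X h e| ≤ 2 * (h : ℝ) ^ 2 * e * ell X + 1 / (e.totient : ℝ) *
    ∑ χ : DirichletCharacter ℂ e, if χ = 1 then 0 else
      2 * (∑ j ∈ range h, ‖pp (cv ⟨e, χ⟩) j‖) * ‖psw V X (cv ⟨χ.conductor, χ.primitiveCharacter⟩)‖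

/-- reduction to primitive characters -/
def REDStmt : Prop := ∀ (V : ℝ → ℝ) (L : ℝ), Wt V L → ∀ (X h Q : ℕ) (T : ℝ), 1 ≤ X → Q ≤ X →
  0 ≤ T →
  (∀ (y : ℕ) (S : Finset Ch), y ≤ h → Prim S Q →
    ∑ z ∈ S, 1 / (z.1 : ℝ) * (‖pp (cv z) y‖ * ‖psw V X (cv z)‖) ≤ T) →
  ∑ e ∈ Icc 1 Q, |dsum V X h e| ≤ 10 * ell X ^ 3 * (h * T + (h : ℝ) ^ 2 * (Q : ℝ) ^ 2)

/-- the cross term -/
def KEYStmt : Prop := ∀ (V : ℝ → ℝ) (X h R Q : ℕ), Q ≤ X →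
  ‖psw V X (HH h R Q) - ((ps1 V X * Phi h R Q : ℝ) : ℂ)‖ ≤
    2 * ell X ^ 2 * ∑ e ∈ Icc 1 Q, |dsum V X h e|

/-- the diagonal -/
def PHIStmt : Prop := ∀ h R Q : ℕ, 1 ≤ h → h ≤ R → R ≤ Q →
  h * (∑ r ∈ Ioc R Q, (μ r : ℝ) ^ 2 / (r.totient : ℝ)) -
    20 * (h : ℝ) ^ 2 * (1 + Real.log Q) ^ 3 / R ≤ Phi h R Q

def SQFStmt : Prop := ∀ R Q T : ℕ, 1 ≤ R → 1 ≤ T → 1 ≤ Q →
  Real.log Q - Real.log R - 2 * Real.log T - 1 - 2 * (1 + Real.log Q) / T ≤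
    ∑ r ∈ Ioc R Q, (μ r : ℝ) ^ 2 / (r.totient : ℝ)

/-- Cauchy-Schwarz with the dual large sieve -/
def CSStmt : Prop := ∀ (V : ℝ → ℝ) (L : ℝ), Wt V L → ∀ (X h R Q : ℕ) (m : ℝ), 2 * h ≤ X →
  1 ≤ X → 1 ≤ R → 1 ≤ Q →
  ‖psw V X (HH h R Q)‖ ≤
    √(Var X h m * ((X + (Q : ℝ) ^ 2 * (1 + 2 * Real.log Q)) * Phi h R Q)) +
      10 * L * ell X * ((h : ℝ) ^ 3 * Q + |m| * h * (Q : ℝ) ^ 2)

def MAINStmt : Prop := ∀ ε η : ℝ, 0 < ε → 0 < η → η ≤ 1 / 100 → ∀ᶠ X : ℕ in atTop,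
  ∀ (h Q : ℕ) (m : ℝ), Adm η X h Q →
    h * X * ((1 - ε) * (Real.log Q - Real.log h) - ε * Real.log X) ≤ Var X h m

/-! ### the weight -/

theorem ell_one {X : ℕ} (hX : 1 ≤ X) : 1 ≤ ell X := by
  have : (1 : ℝ) ≤ X := by exact_mod_cast hX
  have := Real.log_nonneg (by linarith : (1 : ℝ) ≤ 2 * X)
  unfold ell; linarith

theorem Wt.om_supp {V : ℝ → ℝ} {L : ℝ} (hV : Wt V L) {X n : ℕ} (hX : 1 ≤ X)
    (h : om V X n ≠ 0) : X < n ∧ n < 2 * X := by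
  obtain ⟨h1, h2⟩ := hV.supp _ h
  have hX' : (0 : ℝ) < X := by exact_mod_cast hX
  have hn : 0 < n := by
    rcases Nat.eq_zero_or_pos n with rfl | hn
    · have := Real.log_natCast_nonneg X
      simp only [Nat.cast_zero, Real.log_zero] at h1
      linarith
    · exact hn
  have hn' : (0 : ℝ) < n := by exact_mod_cast hn
  constructor
  · exact_mod_cast (Real.log_lt_log_iff hX' hn').1 (by linarith)
  · have h3 : Real.log n < Real.log (2 * X) := by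
      rw [Real.log_mul (by norm_num) hX'.ne']; linarith
    exact_mod_cast (Real.log_lt_log_iff hn' (by positivity)).1 h3

theorem Wt.om_abs {V : ℝ → ℝ} {L : ℝ} (hV : Wt V L) (X n : ℕ) : |om V X n| ≤ 1 :=
  abs_le.2 ⟨le_trans (by norm_num) (hV.nn (Real.log n - Real.log X)), hV.le _⟩

/-- summation by parts against the weight -/
theorem Wt.abel_om {V : ℝ → ℝ} {L : ℝ} (hV : Wt V L) (a : ℕ → ℂ) (X N : ℕ) {t : ℕ} (ht : 1 ≤ t)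
    {K : ℝ} (ha : ∀ y, y ≤ N → ‖∑ k ∈ Icc 1 y, a k‖ ≤ K) :
    ‖∑ k ∈ Icc 1 N, a k * (om V X (t * k) : ℝ)‖ ≤ K * (L * (1 + Real.log N)) := by
  have hK : 0 ≤ K := (norm_nonneg _).trans (ha 0 (Nat.zero_le _))
  refine (abel a (fun k => om V X (t * k)) N ha).trans (mul_le_mul_of_nonneg_left ?_ hK)
  have h1 := hV.om_abs X (t * N)
  have h2 : ∑ k ∈ Ico 1 N, |om V X (t * (k + 1)) - om V X (t * k)| ≤ L * Real.log N := by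
    rw [← log_tele, mul_sum]
    refine sum_le_sum fun k hk => (hV.lip _ _).trans (le_of_eq ?_)
    have hk0 : (k : ℝ) ≠ 0 := by have := (mem_Ico.1 hk).1; positivity
    have ht0 : (t : ℝ) ≠ 0 := by positivity
    push_cast
    rw [Real.log_mul ht0 (by positivity), Real.log_mul ht0 hk0]
    congr 2; ring
  nlinarith [hV.one]

theorem DD_sq (h : ℕ) (α : ℝ) : ((‖DD h α‖ ^ 2 : ℝ) : ℂ) =
    ∑ j ∈ Icc 1 h, ∑ k ∈ Icc 1 h, ee ((((k : ℤ) - j : ℤ) : ℝ) * α) := by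
  push_cast
  rw [← Complex.conj_mul', DD, map_sum, sum_mul_sum]
  refine sum_congr rfl fun j _ => sum_congr rfl fun k _ => ?_
  rw [conj_ee, ← ee_add]
  congr 1; ring

theorem DD_le (h : ℕ) (α : ℝ) : ‖DD h α‖ ≤ h :=
  (norm_sum_le _ _).trans (by simp [norm_ee])

theorem sum_FF {M : Type} [AddCommMonoid M] (R Q : ℕ) (f : ℕ × ℕ → M) :
    ∑ z ∈ FF R Q, f z =
      ∑ r ∈ Ioc R Q, ∑ b ∈ (range r).filter (fun b => Nat.Coprime b r), f (r, b) := by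
  rw [sum_sigma']
  refine sum_bij' (fun z _ => ⟨z.1, z.2⟩) (fun z _ => (z.1, z.2)) (fun z hz => ?_)
    (fun z hz => ?_) (fun _ _ => rfl) (fun _ _ => rfl) fun _ _ => rfl
  · simp only [FF, Far, mem_filter, mem_product, mem_Icc, mem_range, mem_sigma, mem_Ioc] at hz ⊢
    tauto
  · simp only [FF, Far, mem_filter, mem_product, mem_Icc, mem_range, mem_sigma, mem_Ioc] at hz ⊢
    refine ⟨⟨⟨⟨?_, hz.1.2⟩, ?_⟩, hz.2⟩, hz.1.1⟩ <;> omega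

theorem rho_abs (r : ℕ) : |rho r| ≤ 1 / (r.totient : ℝ) := by
  rw [rho, abs_div, Nat.abs_cast]
  refine div_le_div_of_nonneg_right ?_ (Nat.cast_nonneg _)
  exact_mod_cast abs_moebius_le_one

end

end Pool.Agent.MP_678834_nt.gy
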