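import Mathlib
import Pool.Agent.MP_678834_nt.gy.Spec

/-! Project GY: the consequence for prime pairs. -/

set_option autoImplicit false

namespace Pool.Agent.MP_678834_nt.gy

open Finset Filter ComplexConjugate ArithmeticFunction
open scoped ArithmeticFunction.Moebius

noncomputable section

/-- the prime count of a dyadic interval -/
def th (X : ℕ) : ℝ := ∑ n ∈ Ioc X (2 * X), Λ n

def CORStmt : Prop := ∀ (X h : ℕ) (W : ℝ), 1 ≤ X → h ≤ X → (∀ m : ℝ, W ≤ Var X h m) →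
  (h : ℝ) ^ 2 * th X ^ 2 / X + W - h * Real.log (2 * X) * th X - 5 * (h : ℝ) ^ 3 * ell X ^ 2 ≤
    2 * ∑ d ∈ Icc 1 h, ((h : ℝ) - d) * ∑ n ∈ Ioc X (2 * X), Λ n * Λ (n + d)

def THStmt : Prop := ∀ ε : ℝ, 0 < ε → ∀ᶠ X : ℕ in atTop, th X ≤ (1 + ε) * X

end

end Pool.Agent.MP_678834_nt.gy
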