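import Mathlib
import Pool.Agent.MP_678834_nt.gy.Spec2

/-! Project GY, second stage: the dual sum of the Fejer kernel gives the whole range. -/

set_option autoImplicit false

namespace Pool.Agent.MP_678834_nt.gy

open Finset Filter ComplexConjugate ArithmeticFunction
open scoped ArithmeticFunction.Moebius

noncomputable section

/-- the character sum of the Fejer kernel -/
def wz (z : Ch) (y : ℕ) : ℂ := (1 + z.2 (-1)) * ∑ j ∈ range y, pp (cv z) j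

/-- admissible parameters, second stage -/
structure Adm2 (η : ℝ) (X h Q : ℕ) : Prop where
  h1 : 1 ≤ h
  Q1 : 1 ≤ Q
  hQQ : (h : ℝ) * Q ^ 2 ≤ (X : ℝ) ^ (1 - η)
  hhQ : (h : ℝ) ^ 2 * Q ≤ (X : ℝ) ^ (1 - η)
  h3 : (h : ℝ) ≤ (X : ℝ) ^ (1 / 3 - η)

/-- the dual sum -/
def DUALStmt : Prop := ∀ z : Ch, 1 < z.1 → z.2.IsPrimitive → ∀ y : ℕ,
  ‖wz z y‖ ≤ 60 * (y / (z.1 * √z.1)) *
    ∑ a ∈ Icc 1 z.1, min (y : ℝ) ((z.1 : ℝ) / a) ^ 2 * ‖pp (cv z) a‖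

def BLK2Stmt : Prop := ∀ (V : ℝ → ℝ) (L : ℝ), Wt V L → ∀ η : ℝ, 0 < η → η ≤ 1 / 100 →
  ∃ C : ℝ, 0 ≤ C ∧ ∀ᶠ X : ℕ in atTop, ∀ (h Q y R : ℕ) (S : Finset Ch), Adm2 η X h Q → y ≤ h →
    1 ≤ R → R ≤ Q → Prim S (2 * R) → (∀ z ∈ S, R ≤ z.1) →
    ∑ z ∈ S, ‖wz z y‖ * ‖psw V X (cv z)‖ ≤
      C * y * R * X * ell X ^ 7 * (1 / √R + (X : ℝ) ^ (-(η / 20)))

def MV2Stmt : Prop := ∀ (V : ℝ → ℝ) (L : ℝ), Wt V L → ∀ η : ℝ, 0 < η → η ≤ 1 / 100 → ∀ A : ℕ,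
  ∀ᶠ X : ℕ in atTop, ∀ (h Q y : ℕ) (S : Finset Ch), Adm2 η X h Q → y ≤ h → Prim S Q →
    ∑ z ∈ S, 1 / (z.1 : ℝ) * (‖wz z y‖ * ‖psw V X (cv z)‖) ≤ y * (X / Real.log X ^ A)

open Classical in
def RDA2Stmt : Prop := ∀ (V : ℝ → ℝ) (L : ℝ), Wt V L → ∀ (X h e : ℕ), 1 ≤ X → 1 ≤ e →
  |dsum V X h e| ≤ 2 * (h : ℝ) ^ 2 * e * ell X + 1 / (e.totient : ℝ) *
    ∑ χ : DirichletCharacter ℂ e, if χ = 1 then 0 else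
      ‖wz ⟨e, χ⟩ h‖ * ‖psw V X (cv ⟨χ.conductor, χ.primitiveCharacter⟩)‖

def RED2Stmt : Prop := ∀ (V : ℝ → ℝ) (L : ℝ), Wt V L → ∀ (X h Q : ℕ) (T : ℝ), 1 ≤ X → Q ≤ X →
  0 ≤ T →
  (∀ (y : ℕ) (S : Finset Ch), y ≤ h → Prim S Q →
    ∑ z ∈ S, 1 / (z.1 : ℝ) * (‖wz z y‖ * ‖psw V X (cv z)‖) ≤ y * T) →
  ∑ e ∈ Icc 1 Q, |dsum V X h e| ≤ 10 * ell X ^ 3 * (h * T + (h : ℝ) ^ 2 * (Q : ℝ) ^ 2)

theorem wz_le (z : Ch) (y : ℕ) {K : ℝ} (hK : ∀ j, ‖pp (cv z) j‖ ≤ K) : ‖wz z y‖ ≤ 2 * (y * K) := by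
  rw [wz, norm_mul]
  refine mul_le_mul ((norm_add_le _ _).trans ?_) ((norm_sum_le _ _).trans ?_) (norm_nonneg _)
    zero_le_two
  · have := DirichletCharacter.norm_le_one z.2 (-1)
    rw [norm_one]; linarith
  · simpa using sum_le_card_nsmul (range y) _ K fun j _ => hK j

end

end Pool.Agent.MP_678834_nt.gy
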