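import Mathlib
import Pool.Agent.MP_678834_nt.gy.Spec3

/-! Project GY: the lower bound for admissible parameters. -/

set_option autoImplicit false

namespace Pool.Agent.MP_678834_nt.gy

open Finset Filter ComplexConjugate ArithmeticFunction
open scoped ArithmeticFunction.Moebius

noncomputable section

def MAIN2Stmt : Prop := ∀ ε η : ℝ, 0 < ε → 0 < η → η ≤ 1 / 100 → ∀ᶠ X : ℕ in atTop,
  ∀ (h Q : ℕ) (m : ℝ), Adm2 η X h Q →
    h * X * ((1 - ε) * (Real.log Q - Real.log h) - ε * Real.log X) ≤ Var X h m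

namespace mn

theorem ev_log (c : ℝ) : ∀ᶠ X : ℕ in atTop, c ≤ Real.log X :=
  (Real.tendsto_log_atTop.comp tendsto_natCast_atTop_atTop).eventually_ge_atTop c

/-- powers of the logarithm against a power -/
theorem ev_pow {η : ℝ} (hη : 0 < η) (c : ℝ) (k : ℕ) :
    ∀ᶠ X : ℕ in atTop, c * Real.log X ^ k ≤ (X : ℝ) ^ η := by
  have h := (isLittleO_log_rpow_rpow_atTop (k : ℝ) hη).bound (c := 1 / (|c| + 1)) (by positivity)
  filter_upwards [tendsto_natCast_atTop_atTop.eventually h, ev_log 0] with X h1 h2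
  rw [Real.rpow_natCast, Real.norm_of_nonneg (by positivity),
    Real.norm_of_nonneg (by positivity), one_div, ← div_eq_inv_mul,
    le_div_iff₀ (by positivity)] at h1
  have h3 : 0 ≤ Real.log X ^ k := by positivity
  nlinarith [le_abs_self c]

theorem ev_loglog {ε : ℝ} (hε : 0 < ε) :
    ∀ᶠ X : ℕ in atTop, 7 + 2 * Real.log (2 * Real.log X) ≤ ε * Real.log X := by
  have h := Real.isLittleO_log_id_atTop.bound (c := ε / 8) (by positivity)
  have ht : Tendsto (fun X : ℕ => 2 * Real.log X) atTop atTop :=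
    (Real.tendsto_log_atTop.comp tendsto_natCast_atTop_atTop).const_mul_atTop two_pos
  filter_upwards [ht.eventually h, ev_log (14 / ε), ev_log 0] with X h1 h2 h3
  rw [id, Real.norm_eq_abs, Real.norm_of_nonneg (by positivity)] at h1
  rw [div_le_iff₀ hε] at h2
  nlinarith [le_abs_self (Real.log (2 * Real.log X))]

theorem log3 {X n : ℕ} (hX : 1 ≤ X) (hn : n ≤ 3 * X) : Λ n ≤ ell X := by
  have hX' : (1 : ℝ) ≤ X := by exact_mod_cast hX
  refine vonMangoldt_le_log.trans ?_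
  rcases Nat.eq_zero_or_pos n with rfl | h0
  · simpa using (ell_one hX).trans' zero_le_one
  have h1 : (n : ℝ) ≤ 2 * (2 * X) := by
    have : (n : ℝ) ≤ 3 * X := by exact_mod_cast hn
    linarith
  have h2 := Real.log_le_log (by exact_mod_cast h0) h1
  rw [Real.log_mul (by norm_num) (by positivity)] at h2
  unfold ell
  linarith [Real.log_two_lt_d9]

theorem Var_nonneg (X h : ℕ) (m : ℝ) : 0 ≤ Var X h m := sum_nonneg fun _ _ => sq_nonneg _

/-- centres far from the mean -/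
theorem Var_far {X h : ℕ} (hX : 1 ≤ X) (h1 : 1 ≤ h) (hh : h ≤ X) {m : ℝ}
    (hm : 2 * h * ell X ≤ |m|) : h * X * ell X ≤ Var X h m := by
  have hl := ell_one hX
  have h1' : (1 : ℝ) ≤ h := by exact_mod_cast h1
  have key : ∀ n ∈ Ioc X (2 * X), h * ell X ≤ ((∑ j ∈ Icc 1 h, Λ (n + j)) - m) ^ 2 := by
    intro n hn
    have a0 : 0 ≤ ∑ j ∈ Icc 1 h, Λ (n + j) := sum_nonneg fun _ _ => vonMangoldt_nonneg
    have a1 : ∑ j ∈ Icc 1 h, Λ (n + j) ≤ h * ell X := by
      have := sum_le_card_nsmul (Icc 1 h) (fun j => Λ (n + j)) (ell X) fun j hj =>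
        log3 hX (by have := (mem_Ioc.1 hn).2; have := (mem_Icc.1 hj).2; omega)
      simpa using this
    have a2 : h * ell X ≤ |(∑ j ∈ Icc 1 h, Λ (n + j)) - m| := by
      have := abs_sub_abs_le_abs_sub m (∑ j ∈ Icc 1 h, Λ (n + j))
      rw [abs_sub_comm m, abs_of_nonneg a0] at this
      linarith
    have a3 : 1 ≤ h * ell X := by nlinarith
    rw [← sq_abs]
    nlinarith
  have := card_nsmul_le_sum _ _ _ key
  rw [Nat.card_Ioc, show 2 * X - X = X by omega, nsmul_eq_mul] at this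
  unfold Var
  linarith

/-- the last step -/
theorem fin {ε X Φ N p E W a : ℝ} (hε : 0 < ε) (hε1 : ε ≤ 1 / 2) (hX : 0 < X) (hΦ : 0 < Φ)
    (hW : 0 ≤ W) (hN : N ≤ (1 + ε / 10) * X) (hp : (1 - ε / 10) * X ≤ p)
    (hE : E ≤ ε / 10 * X * Φ) (h1 : p * Φ - E ≤ √(W * (N * Φ))) (ha : a ≤ Φ) :
    (1 - ε) * X * a ≤ W := by
  have h2 : (1 - ε / 5) * X * Φ ≤ √(W * (N * Φ)) := by nlinarith
  have h3 : ((1 - ε / 5) * X * Φ) ^ 2 ≤ W * (N * Φ) := by
    have h0 : 0 < (1 - ε / 5) * X * Φ := by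
      have : 0 < 1 - ε / 5 := by linarith
      positivity
    exact (Real.le_sqrt' h0).1 h2
  have h4 : W * (N * Φ) ≤ W * ((1 + ε / 10) * X * Φ) :=
    mul_le_mul_of_nonneg_left (mul_le_mul_of_nonneg_right hN hΦ.le) hW
  have h5 : (1 - ε) * X * Φ * ((1 + ε / 10) * X * Φ) ≤ ((1 - ε / 5) * X * Φ) ^ 2 := by
    have : (1 - ε) * (1 + ε / 10) ≤ (1 - ε / 5) ^ 2 := by nlinarith
    have h6 := mul_le_mul_of_nonneg_right this (sq_nonneg (X * Φ))
    nlinarith
  have h7 : (1 - ε) * X * Φ ≤ W :=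
    le_of_mul_le_mul_right (h5.trans (h3.trans h4)) (by positivity)
  have h8 : 0 ≤ (1 - ε) * X := mul_nonneg (by linarith) hX.le
  exact (mul_le_mul_of_nonneg_left ha h8).trans h7

/-- the lower bound for the diagonal -/
theorem phi_ge (hP : PHIStmt) (hS : SQFStmt) {ε : ℝ} (hε : 0 < ε) : ∀ᶠ X : ℕ in atTop,
    ∀ h Q : ℕ, 1 ≤ h → 1 ≤ Q → Q ≤ X → ε * Real.log X ≤ Real.log Q - Real.log h →
      ∃ R : ℕ, 1 ≤ R ∧ h * (Real.log Q - Real.log h - ε / 4 * Real.log X) ≤ Phi h R Q := by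
  filter_upwards [ev_log 1, ev_pow (η := ε / 8) (by positivity) 160 3,
    ev_loglog (ε := ε / 8) (by positivity), eventually_ge_atTop 1] with X hL h1 h2 hX1
  intro h Q hh hQ hQX hD
  have hX : (1 : ℝ) ≤ X := by exact_mod_cast hX1
  have hh' : (1 : ℝ) ≤ h := by exact_mod_cast hh
  have hQ' : (1 : ℝ) ≤ Q := by exact_mod_cast hQ
  set l := Real.log X with hl
  set s := (X : ℝ) ^ (ε / 8) with hs
  have hs1 : 1 ≤ s := Real.one_le_rpow hX (by positivity)
  have hls : Real.log s = ε / 8 * l := Real.log_rpow (by linarith) _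
  have hlQ : Real.log Q ≤ l := Real.log_le_log (by linarith) (by exact_mod_cast hQX)
  have hlQ0 : 0 ≤ Real.log Q := Real.log_natCast_nonneg Q
  set R := ⌈h * s⌉₊ with hR
  have r1 : h * s ≤ R := Nat.le_ceil _
  have r0 : (1 : ℝ) ≤ h * s := by nlinarith
  have r2 : (R : ℝ) ≤ 2 * (h * s) := by
    have := (Nat.ceil_lt_add_one (by linarith : (0 : ℝ) ≤ h * s)).le
    linarith
  have r3 : R ≤ Q := Nat.ceil_le.2 ((Real.log_le_log_iff (by linarith) (by linarith)).1 (by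
    rw [Real.log_mul (by linarith) (by linarith), hls]; nlinarith))
  have r4 : h ≤ R := by
    have : (h : ℝ) ≤ R := by nlinarith
    exact_mod_cast this
  have r5 : Real.log R ≤ 1 + Real.log h + ε / 8 * l := by
    have := Real.log_le_log (by linarith) r2
    rw [Real.log_mul (by norm_num) (by linarith), Real.log_mul (by linarith) (by linarith),
      hls] at this
    linarith [Real.log_two_lt_d9]
  set T := ⌈l⌉₊ with hT
  have t1 : l ≤ T := Nat.le_ceil _
  have t2 : (T : ℝ) ≤ 2 * l := by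
    have := (Nat.ceil_lt_add_one (by linarith : (0 : ℝ) ≤ l)).le
    linarith
  have t3 : 1 ≤ T := by
    have : (1 : ℝ) ≤ T := by linarith
    exact_mod_cast this
  have t4 : Real.log T ≤ Real.log (2 * l) := Real.log_le_log (by linarith) t2
  have t5 : 2 * (1 + Real.log Q) / T ≤ 4 := by
    rw [div_le_iff₀ (by linarith)]; linarith
  have p1 := hP h R Q hh r4 r3
  have p2 := hS R Q T (hh.trans r4) t3 hQ
  have p3 : 20 * (h : ℝ) ^ 2 * (1 + Real.log Q) ^ 3 / R ≤ h := by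
    rw [div_le_iff₀ (by linarith)]
    have a1 : (1 + Real.log Q) ^ 3 ≤ (2 * l) ^ 3 := pow_le_pow_left₀ (by linarith) (by linarith) 3
    have a2 : 20 * (1 + Real.log Q) ^ 3 ≤ s := by nlinarith
    have a3 := mul_le_mul_of_nonneg_left a2 (sq_nonneg (h : ℝ))
    have a4 := mul_le_mul_of_nonneg_left r1 (by linarith : (0 : ℝ) ≤ h)
    nlinarith
  refine ⟨R, hh.trans r4, ?_⟩
  have p4 : Real.log Q - Real.log h - ε / 4 * l + 1 ≤
      ∑ r ∈ Ioc R Q, (μ r : ℝ) ^ 2 / (r.totient : ℝ) := by linarith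
  have p5 := mul_le_mul_of_nonneg_left p4 (by linarith : (0 : ℝ) ≤ h)
  nlinarith

theorem small (hB : BumpStmt) (hN : PNWStmt) (hM : MV2Stmt) (hR : RED2Stmt) (hK : KEYStmt)
    (hP : PHIStmt) (hS : SQFStmt) (hC : CSStmt) {ε η : ℝ} (hε : 0 < ε) (hε1 : ε ≤ 1 / 2)
    (hη : 0 < η) (hη1 : η ≤ 1 / 100) : ∀ᶠ X : ℕ in atTop,
    ∀ (h Q : ℕ) (m : ℝ), Adm2 η X h Q →
      h * X * ((1 - ε) * (Real.log Q - Real.log h) - ε * Real.log X) ≤ Var X h m := by
  obtain ⟨δ, hδ, hδ'⟩ := hN (ε / 10) (by positivity)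
  obtain ⟨V, L, hV, hV1⟩ := hB δ hδ
  have hL := hV.one
  filter_upwards [hδ' V L hV hV1, hM V L hV η hη hη1 7, phi_ge hP hS hε, ev_log 50,
    ev_log (20 / ε ^ 2), ev_pow hη 1920 5, ev_pow hη (360 * L) 2, ev_pow hη (30 / ε) 1,
    eventually_ge_atTop 4] with X e1 e2 e3 e4 e5 e6 e7 e8 hX4
  intro h Q m hA
  have hX : (4 : ℝ) ≤ X := by exact_mod_cast hX4
  have hh : (1 : ℝ) ≤ h := by exact_mod_cast hA.h1
  have hQ : (1 : ℝ) ≤ Q := by exact_mod_cast hA.Q1
  set l := Real.log X with hl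
  set s := (X : ℝ) ^ (1 - η) with hs
  set t := (X : ℝ) ^ η with ht
  have hst : s * t = X := by
    rw [hs, ht, ← Real.rpow_add (by linarith)]; simp
  have hs0 : 0 < s := Real.rpow_pos_of_pos (by linarith) _
  have ht1 : 1 ≤ t := Real.one_le_rpow (by linarith) hη.le
  have hsX : s ≤ X := by nlinarith
  have a1 := hA.hQQ
  have a2 := hA.hhQ
  rw [← hs] at a1 a2
  have hQ2 : (Q : ℝ) ^ 2 ≤ s := by nlinarith [sq_nonneg (Q : ℝ)]
  have hQX : Q ≤ X := by
    have : (Q : ℝ) ≤ X := by nlinarith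
    exact_mod_cast this
  have hhX : 2 * h ≤ X := by
    have b1 : (h : ℝ) ^ 2 ≤ X := by nlinarith [sq_nonneg (h : ℝ)]
    have : 2 * (h : ℝ) ≤ X := by nlinarith [sq_nonneg ((h : ℝ) - 2)]
    exact_mod_cast this
  have hlQ : Real.log Q ≤ l := Real.log_le_log (by linarith) (by exact_mod_cast hQX)
  have hlQ0 : 0 ≤ Real.log Q := Real.log_natCast_nonneg Q
  have hlh : 0 ≤ Real.log h := Real.log_natCast_nonneg h
  have hell : ell X = 1 + Real.log 2 + l := by
    rw [ell, Real.log_mul (by norm_num) (by linarith)]; ring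
  have l1 : l ≤ ell X := by linarith [Real.log_two_gt_d9]
  have l2 : ell X ≤ 2 * l := by linarith [Real.log_two_lt_d9]
  have hhx : 0 ≤ (h : ℝ) * X := by positivity
  rcases le_total (Real.log Q - Real.log h) (ε * l) with hD | hD
  · refine le_trans (mul_nonpos_of_nonneg_of_nonpos hhx ?_) (Var_nonneg _ _ _)
    have : 0 ≤ ε * l := by positivity
    nlinarith
  rcases le_total (2 * h * ell X) |m| with hm | hm
  · refine le_trans (mul_le_mul_of_nonneg_left ?_ hhx)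
      (Var_far (by omega) hA.h1 (by omega) hm)
    have : 0 ≤ ε * l := by positivity
    nlinarith
  obtain ⟨R, hR1, hΦ⟩ := e3 h Q hA.h1 hA.Q1 hQX hD
  have c1 := hC V L hV X h R Q m hhX (by omega) hR1 hA.Q1
  have c2 := hK V X h R Q hQX
  have c3 := hR V L hV X h Q (X / l ^ 7) (by omega) hQX (by positivity)
    fun y S hy hS => e2 h Q y S hA hy hS
  have hΦ1 : h * (3 / 4 * ε * l) ≤ Phi h R Q :=
    le_trans (mul_le_mul_of_nonneg_left (by linarith) (by linarith)) hΦ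
  have hΦ0 : 0 < Phi h R Q := lt_of_lt_of_le (by positivity) hΦ1
  have hl0 : 0 < ell X := by linarith
  have d1 : 2 * ell X ^ 2 * (10 * ell X ^ 3 * (h * (X / l ^ 7) + (h : ℝ) ^ 2 * (Q : ℝ) ^ 2)) ≤
      2 / 3 * (h * X) := by
    have b1 : ell X ^ 5 ≤ (2 * l) ^ 5 := pow_le_pow_left₀ hl0.le l2 5
    have b2 : (h : ℝ) ^ 2 * (Q : ℝ) ^ 2 ≤ h * s := by nlinarith
    have b3 : 640 * l ^ 5 * (X / l ^ 7) ≤ X / 3 := by
      rw [show 640 * l ^ 5 * (X / l ^ 7) = X * (640 / l ^ 2) by field_simp,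
        div_eq_mul_one_div (X : ℝ) 3]
      refine mul_le_mul_of_nonneg_left ?_ (by linarith)
      rw [div_le_iff₀ (by positivity)]; nlinarith
    have b4 : 640 * l ^ 5 * s ≤ X / 3 := by nlinarith
    calc _ = 20 * ell X ^ 5 * (h * (X / l ^ 7) + (h : ℝ) ^ 2 * (Q : ℝ) ^ 2) := by ring
      _ ≤ 20 * (2 * l) ^ 5 * (h * (X / l ^ 7) + h * s) := by gcongr
      _ = h * (640 * l ^ 5 * (X / l ^ 7) + 640 * l ^ 5 * s) := by ring
      _ ≤ h * (X / 3 + X / 3) := by gcongr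
      _ = _ := by ring
  have d2 : 10 * L * ell X * ((h : ℝ) ^ 3 * Q + |m| * h * (Q : ℝ) ^ 2) ≤ 1 / 3 * (h * X) := by
    have b1 : (h : ℝ) ^ 3 * Q ≤ h * s * (2 * l) := by
      have : (h : ℝ) ^ 3 * Q ≤ h * s := by nlinarith
      have h2 : 0 ≤ h * s := by positivity
      nlinarith
    have b2 : |m| * h * (Q : ℝ) ^ 2 ≤ 2 * h * (2 * l) * s := by
      rw [mul_assoc]
      refine mul_le_mul (hm.trans (by gcongr)) a1 (by positivity) (by positivity)
    have b3 : 120 * L * l ^ 2 * s ≤ X / 3 := by nlinarith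
    calc _ ≤ 10 * L * (2 * l) * (h * s * (2 * l) + 2 * h * (2 * l) * s) := by gcongr
      _ = h * (120 * L * l ^ 2 * s) := by ring
      _ ≤ h * (X / 3) := by gcongr
      _ = _ := by ring
  have d3 : ps1 V X * Phi h R Q - h * X ≤
      √(Var X h m * ((X + (Q : ℝ) ^ 2 * (1 + 2 * Real.log Q)) * Phi h R Q)) := by
    have b1 := norm_sub_norm_le ((ps1 V X * Phi h R Q : ℝ) : ℂ) (psw V X (HH h R Q))
    rw [norm_sub_rev, Complex.norm_real, Real.norm_eq_abs] at b1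
    have b2 := mul_le_mul_of_nonneg_left c3 (by positivity : 0 ≤ 2 * ell X ^ 2)
    linarith [le_abs_self (ps1 V X * Phi h R Q)]
  have d4 : X + (Q : ℝ) ^ 2 * (1 + 2 * Real.log Q) ≤ (1 + ε / 10) * X := by
    have b1 : (Q : ℝ) ^ 2 * (1 + 2 * Real.log Q) ≤ s * (3 * l) :=
      mul_le_mul hQ2 (by linarith) (by linarith) hs0.le
    rw [pow_one, div_mul_eq_mul_div, div_le_iff₀ hε] at e8
    nlinarith
  have d5 : (h : ℝ) * X ≤ ε / 10 * X * Phi h R Q := by
    rw [div_le_iff₀ (by positivity)] at e5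
    have b1 : (h : ℝ) ≤ ε / 10 * (h * (3 / 4 * ε * l)) := by nlinarith
    have b2 := mul_le_mul_of_nonneg_left hΦ1 (by positivity : 0 ≤ ε / 10)
    nlinarith
  refine le_trans ?_ (fin hε hε1 (by linarith) hΦ0 (Var_nonneg _ _ _) d4 e1 d5 d3 hΦ)
  have b1 : (1 - ε) * (Real.log Q - Real.log h) - ε * l ≤
      (1 - ε) * (Real.log Q - Real.log h - ε / 4 * l) := by
    have : 0 ≤ ε * l := by positivity
    nlinarith
  nlinarith [mul_le_mul_of_nonneg_left b1 hhx]

end mn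

theorem main (hB : BumpStmt) (hN : PNWStmt) (hM : MV2Stmt) (hR : RED2Stmt) (hK : KEYStmt)
    (hP : PHIStmt) (hS : SQFStmt) (hC : CSStmt) : MAIN2Stmt := by
  intro ε η hε hη hη1
  filter_upwards [mn.small hB hN hM hR hK hP hS hC (lt_min hε one_half_pos) (min_le_right _ _)
    hη hη1, eventually_ge_atTop 1] with X hX hX1 h Q m hA
  refine le_trans (mul_le_mul_of_nonneg_left ?_ (by positivity)) (hX h Q m hA)
  have hX' : (1 : ℝ) ≤ X := by exact_mod_cast hX1
  have hh : (1 : ℝ) ≤ h := by exact_mod_cast hA.h1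
  have hQ : (1 : ℝ) ≤ Q := by exact_mod_cast hA.Q1
  have h1 : (X : ℝ) ^ (1 - η) ≤ X := by
    simpa using Real.rpow_le_rpow_of_exponent_le hX' (by linarith : 1 - η ≤ 1)
  have h2 : (h : ℝ) ≤ X := by nlinarith [hA.hQQ, sq_nonneg ((Q : ℝ) - 1)]
  have h3 := Real.log_le_log (by linarith) h2
  have h4 := Real.log_natCast_nonneg Q
  nlinarith [min_le_left ε (1 / 2)]

end

end Pool.Agent.MP_678834_nt.gy
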