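import Mathlib
import Pool.Agent.MP_678834_nt.gy.Main

/-! Project GY: choice of the level, and the final form. -/

set_option autoImplicit false

namespace Pool.Agent.MP_678834_nt.gy

open Finset Filter ComplexConjugate ArithmeticFunction
open scoped ArithmeticFunction.Moebius

noncomputable section

namespace fn

theorem floor_log {w : ℝ} (hw : 1 ≤ w) :
    1 ≤ ⌊w⌋₊ ∧ (⌊w⌋₊ : ℝ) ≤ w ∧ Real.log w - 1 ≤ Real.log (⌊w⌋₊ : ℕ) := by
  have h1 : 1 ≤ ⌊w⌋₊ := Nat.le_floor (by simpa using hw)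
  have h2 : (1 : ℝ) ≤ (⌊w⌋₊ : ℕ) := by exact_mod_cast h1
  refine ⟨h1, Nat.floor_le (by linarith), ?_⟩
  have h3 : w ≤ 2 * (⌊w⌋₊ : ℕ) := by linarith [Nat.lt_floor_add_one w]
  have h4 := Real.log_le_log (by linarith) h3
  rw [Real.log_mul (by norm_num) (by linarith)] at h4
  linarith [Real.log_two_lt_d9]

theorem mono {ε ε' : ℝ} {X h : ℕ} (hX : 1 ≤ X) (he : ε' ≤ ε)
    (hR : (h : ℝ) ≤ (X : ℝ) ^ (1 / 3 - ε)) : (h : ℝ) ≤ (X : ℝ) ^ (1 / 3 - ε') :=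
  hR.trans (Real.rpow_le_rpow_of_exponent_le (by exact_mod_cast hX) (by linarith))

theorem log_le {ε : ℝ} {X h : ℕ} (hX : 1 ≤ X) (hh : 1 ≤ h)
    (hR : (h : ℝ) ≤ (X : ℝ) ^ (1 / 3 - ε)) : Real.log h ≤ (1 / 3 - ε) * Real.log X := by
  rw [← Real.log_rpow (by exact_mod_cast hX)]
  exact Real.log_le_log (by exact_mod_cast hh) hR

theorem log_eq {X h : ℕ} (hX : 1 ≤ X) (hh : 1 ≤ h) :
    Real.log (X / (h : ℝ) ^ 3) = Real.log X - 3 * Real.log h := by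
  rw [Real.log_div (by positivity) (by positivity), Real.log_pow]; norm_num

/-- the choice of the level -/
theorem level {ε η : ℝ} {X h : ℕ} (hη : 0 < η) (hηε : η ≤ ε) (hX : 1 ≤ X)
    (hh : 1 ≤ h) (h2 : (h : ℝ) ≤ (X : ℝ) ^ (1 / 3 - ε)) : ∃ Q : ℕ, Adm2 η X h Q ∧
      1 / 2 * (Real.log X - 3 * Real.log h) - η * Real.log X - 1 ≤ Real.log Q - Real.log h := by
  have hX' : (1 : ℝ) ≤ X := by exact_mod_cast hX
  have hh' : (1 : ℝ) ≤ h := by exact_mod_cast hh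
  have hl := Real.log_natCast_nonneg X
  set s := (X : ℝ) ^ (1 - η) with hs
  have hs0 : 0 < s := Real.rpow_pos_of_pos (by linarith) _
  have h3 : (h : ℝ) ^ 3 ≤ s := by
    refine (pow_le_pow_left₀ (by linarith) h2 3).trans ?_
    rw [← Real.rpow_natCast, ← Real.rpow_mul (by linarith)]
    exact Real.rpow_le_rpow_of_exponent_le hX' (by push_cast; linarith)
  have h4 : (h : ℝ) ≤ s := (le_self_pow₀ hh' (by norm_num)).trans h3
  have h5 : 1 ≤ s / h := (one_le_div (by linarith)).2 h4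
  have h6 : 1 ≤ √(s / h) := Real.one_le_sqrt.2 h5
  have h7 : √(s / h) ^ 2 = s / h := Real.sq_sqrt (by linarith)
  obtain ⟨q1, q2, q3⟩ := floor_log h6
  have q4 : (h : ℝ) * (⌊√(s / h)⌋₊ : ℝ) ^ 2 ≤ s := by
    have := pow_le_pow_left₀ (Nat.cast_nonneg _) q2 2
    rw [h7, le_div_iff₀ (by linarith)] at this
    linarith
  refine ⟨_, ⟨hh, q1, q4, ?_, mono hX hηε h2⟩, ?_⟩
  · refine (pow_le_pow_iff_left₀ (by positivity) hs0.le two_ne_zero).1 ?_
    calc ((h : ℝ) ^ 2 * (⌊√(s / h)⌋₊ : ℝ)) ^ 2 = h ^ 3 * (h * (⌊√(s / h)⌋₊ : ℝ) ^ 2) := by ring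
      _ ≤ s * s := by gcongr
      _ = s ^ 2 := by ring
  · rw [Real.log_sqrt (by linarith), Real.log_div hs0.ne' (by linarith), hs,
      Real.log_rpow (by linarith)] at q3
    nlinarith

theorem var_small (hM : MAIN2Stmt) {ε : ℝ} (hε : 0 < ε) (hε1 : ε ≤ 1 / 100) :
    ∀ᶠ X : ℕ in atTop, ∀ h : ℕ, 1 ≤ h → (h : ℝ) ≤ (X : ℝ) ^ (1 / 3 - ε) → ∀ m : ℝ,
      (1 / 2 - ε) * h * X * Real.log (X / (h : ℝ) ^ 3) ≤ Var X h m := by
  have h0 : 0 < ε ^ 2 / 2 := by positivity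
  have h1 : ε ^ 2 / 2 ≤ ε := by nlinarith
  filter_upwards [hM _ _ h0 h0 (h1.trans hε1), mn.ev_log (1 / ε ^ 2), eventually_ge_atTop 1]
    with X e1 e2 hX h hh hR m
  obtain ⟨Q, hA, hQ⟩ := level h0 h1 hX hh hR
  refine le_trans ?_ (e1 h Q m hA)
  have hl := Real.log_natCast_nonneg X
  have hlh := Real.log_natCast_nonneg h
  have h2 := log_le hX hh hR
  rw [div_le_iff₀ (by positivity)] at e2
  rw [log_eq hX hh]
  set l := Real.log X
  set Y := l - 3 * Real.log h with hY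
  have y1 : 3 * ε * l ≤ Y := by linarith
  have y3 : 1 / 2 * Y ≤ l := by linarith
  have y4 := mul_le_mul_of_nonneg_left hQ (by linarith : 0 ≤ 1 - ε ^ 2 / 2)
  have y5 := mul_le_mul_of_nonneg_left y1 hε.le
  have y6 := mul_le_mul_of_nonneg_left y3 h0.le
  have y7 : 0 ≤ ε ^ 2 / 2 * (ε ^ 2 / 2 * l + 1) := by positivity
  have y8 : (1 / 2 - ε) * Y ≤ (1 - ε ^ 2 / 2) * (Real.log Q - Real.log h) - ε ^ 2 / 2 * l := by
    nlinarith
  have := mul_le_mul_of_nonneg_left y8 (by positivity : 0 ≤ (h : ℝ) * X)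
  linarith

theorem var_all (hM : MAIN2Stmt) {ε : ℝ} (hε : 0 < ε) :
    ∀ᶠ X : ℕ in atTop, ∀ h : ℕ, 1 ≤ h → (h : ℝ) ≤ (X : ℝ) ^ (1 / 3 - ε) → ∀ m : ℝ,
      (1 / 2 - ε) * h * X * Real.log (X / (h : ℝ) ^ 3) ≤ Var X h m := by
  filter_upwards [var_small hM (lt_min hε (by norm_num : (0 : ℝ) < 1 / 100)) (min_le_right _ _),
    eventually_ge_atTop 1] with X e1 hX h hh hR m
  refine le_trans ?_ (e1 h hh (mono hX (min_le_left _ _) hR) m)
  have h2 := log_le hX hh hR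
  have hl := Real.log_natCast_nonneg X
  have h3 : 0 ≤ Real.log (X / (h : ℝ) ^ 3) := by rw [log_eq hX hh]; nlinarith
  have := min_le_left ε (1 / 100)
  gcongr

end fn

theorem final (hM : MAIN2Stmt) (hC : CORStmt) (hT : THStmt) {ε : ℝ} (hε : 0 < ε) :
    ∀ᶠ X : ℕ in atTop, ∀ h : ℕ, 1 ≤ h → (h : ℝ) ≤ (X : ℝ) ^ (1 / 3 - ε) →
      (∀ m : ℝ, (1 / 2 - ε) * h * X * Real.log (X / (h : ℝ) ^ 3) ≤ Var X h m) ∧
      (h : ℝ) ^ 2 * th X ^ 2 / X - (1 / 2 + ε) * h * X * Real.log (X * (h : ℝ) ^ 3) ≤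
        2 * ∑ d ∈ Icc 1 h, ((h : ℝ) - d) * ∑ n ∈ Ioc X (2 * X), Λ n * Λ (n + d) := by
  have h4 : 0 < ε / 4 := by positivity
  filter_upwards [fn.var_all hM hε, fn.var_all hM h4, hT _ h4, mn.ev_log (4 / ε * (2 + ε / 4)),
    mn.ev_log 2, mn.ev_pow (η := 1 / 3) (by norm_num) 20 2, eventually_ge_atTop 1]
    with X e1 e2 e3 e4 e5 e6 hX h hh hR
  refine ⟨e1 h hh hR, ?_⟩
  have hX' : (1 : ℝ) ≤ X := by exact_mod_cast hX
  have hh' : (1 : ℝ) ≤ h := by exact_mod_cast hh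
  have hlh := Real.log_natCast_nonneg h
  have h3 : (h : ℝ) ≤ (X : ℝ) ^ (1 / 3 : ℝ) := by simpa using fn.mono hX hε.le hR
  have h5 : ((X : ℝ) ^ (1 / 3 : ℝ)) ^ 3 = X := by
    rw [← Real.rpow_natCast, ← Real.rpow_mul (by linarith)]; norm_num
  have h6 : h ≤ X := by
    have : (h : ℝ) ≤ X := h3.trans (by
      simpa using Real.rpow_le_rpow_of_exponent_le hX' (by norm_num : (1 / 3 : ℝ) ≤ 1))
    exact_mod_cast this
  refine le_trans ?_ (hC X h _ hX h6 (e2 h hh (fn.mono hX (by linarith) hR)))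
  have hlog : Real.log (2 * X) = Real.log 2 + Real.log X := Real.log_mul (by norm_num) (by linarith)
  rw [fn.log_eq hX hh, ell, hlog, Real.log_mul (by linarith) (by positivity), Real.log_pow]
  set l := Real.log X
  set u := (X : ℝ) ^ (1 / 3 : ℝ)
  have l2 := Real.log_two_lt_d9
  have l3 := Real.log_two_gt_d9
  have a1 : 5 * (h : ℝ) ^ 3 * (1 + (Real.log 2 + l)) ^ 2 ≤ h * X := by
    have b1 : (1 + (Real.log 2 + l)) ^ 2 ≤ (2 * l) ^ 2 :=
      pow_le_pow_left₀ (by linarith) (by linarith) 2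
    calc _ = h * (h ^ 2 * (5 * (1 + (Real.log 2 + l)) ^ 2)) := by ring
      _ ≤ h * (u ^ 2 * u) := by gcongr; linarith
      _ = h * X := by rw [← h5]; ring
  have a2 : h * (Real.log 2 + l) * th X ≤ h * (1 + l) * ((1 + ε / 4) * X) := by
    have : 0 ≤ th X := sum_nonneg fun _ _ => vonMangoldt_nonneg
    gcongr; linarith
  rw [div_mul_eq_mul_div, div_le_iff₀ hε] at e4
  have a5 := mul_nonneg hε.le hlh
  have a3 : -((1 / 2 + ε) * (l + 3 * Real.log h)) ≤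
      (1 / 2 - ε / 4) * (l - 3 * Real.log h) - (1 + l) * (1 + ε / 4) - 1 := by nlinarith
  have a4 := mul_le_mul_of_nonneg_left a3 (by positivity : 0 ≤ (h : ℝ) * X)
  push_cast
  nlinarith

theorem psi_sub (n h : ℕ) :
    Chebyshev.psi ((n : ℝ) + h) - Chebyshev.psi n = ∑ j ∈ Icc 1 h, Λ (n + j) := by
  rw [← Nat.cast_add, Chebyshev.psi, Chebyshev.psi, Nat.floor_natCast, Nat.floor_natCast]
  induction h with
  | zero => simp
  | succ h ih =>
    rw [sum_Icc_succ_top (by omega), ← ih, ← add_assoc, sum_Ioc_succ_top (by omega)]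
    ring

theorem psi_th (X : ℕ) : Chebyshev.psi (2 * X) - Chebyshev.psi X = th X := by
  rw [show (2 * X : ℝ) = ((2 * X : ℕ) : ℝ) by push_cast; ring, Chebyshev.psi, Chebyshev.psi,
    Nat.floor_natCast, Nat.floor_natCast, th,
    ← sum_Ioc_consecutive _ (Nat.zero_le X) (by omega : X ≤ 2 * X)]
  ring

end

end Pool.Agent.MP_678834_nt.gy
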