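import Pool.Agent.MP_678834_nt.gy.Spec4

/-! Project GY: from the discrete variance to the integral. -/

set_option autoImplicit false

namespace Pool.Agent.MP_678834_nt.gy

open Finset Filter ArithmeticFunction

namespace IntAux

theorem ev_log (c : ℝ) : ∀ᶠ X : ℕ in atTop, c ≤ Real.log X :=
  (Real.tendsto_log_atTop.comp tendsto_natCast_atTop_atTop).eventually_ge_atTop c

theorem ev_pow {η : ℝ} (hη : 0 < η) (c : ℝ) (k : ℕ) :
    ∀ᶠ X : ℕ in atTop, c * Real.log X ^ k ≤ (X : ℝ) ^ η := by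
  have h := (isLittleO_log_rpow_rpow_atTop (k : ℝ) hη).bound (c := 1 / (|c| + 1)) (by positivity)
  filter_upwards [tendsto_natCast_atTop_atTop.eventually h, ev_log 0] with X h1 h2
  rw [Real.rpow_natCast, Real.norm_of_nonneg (by positivity),
    Real.norm_of_nonneg (by positivity), one_div, ← div_eq_inv_mul,
    le_div_iff₀ (by positivity)] at h1
  have h3 : 0 ≤ Real.log X ^ k := by positivity
  nlinarith [le_abs_self c]

theorem log3 {X n : ℕ} (hX : 1 ≤ X) (hn : n ≤ 3 * X) : Λ n ≤ ell X := by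
  have hX' : (1 : ℝ) ≤ X := by exact_mod_cast hX
  refine vonMangoldt_le_log.trans ?_
  rcases Nat.eq_zero_or_pos n with rfl | h0
  · simpa using (ell_one hX).trans' zero_le_one
  have h1 : (n : ℝ) ≤ 2 * (2 * X) := by
    have : (n : ℝ) ≤ 3 * X := by exact_mod_cast hn
    linarith
  have h2 := Real.log_le_log (by exact_mod_cast h0) h1
  rw [Real.log_mul (by norm_num) (by positivity)] at h2
  unfold ell
  linarith [Real.log_two_lt_d9]

theorem psi_sub (n h : ℕ) :
    Chebyshev.psi ((n + h : ℕ) : ℝ) - Chebyshev.psi n = ∑ j ∈ Icc 1 h, Λ (n + j) := by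
  rw [Chebyshev.psi, Chebyshev.psi, Nat.floor_natCast, Nat.floor_natCast]
  induction h with
  | zero => simp
  | succ h ih =>
    rw [sum_Icc_succ_top (by omega), ← ih, ← add_assoc, sum_Ioc_succ_top (by omega)]
    ring

theorem psi_fl {y : ℝ} {n : ℕ} (h1 : (n : ℝ) ≤ y) (h2 : y < n + 1) :
    Chebyshev.psi y = Chebyshev.psi n := by
  rw [Chebyshev.psi, Chebyshev.psi, Nat.floor_natCast,
    (Nat.floor_eq_iff ((Nat.cast_nonneg n).trans h1)).2 ⟨h1, h2⟩]

/-- the integrand -/
noncomputable def ff (h y : ℝ) : ℝ := (Chebyshev.psi (y + h) - Chebyshev.psi y - h) ^ 2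

/-- one term of the variance -/
noncomputable def tt (k n : ℕ) (m : ℝ) : ℝ := ((∑ j ∈ Icc 1 k, Λ (n + j)) - m) ^ 2

theorem ii (h : ℝ) {a b : ℝ} (hab : a ≤ b) :
    IntervalIntegrable (ff h) MeasureTheory.volume a b := by
  have m1 : Measurable Chebyshev.psi := Chebyshev.psi_mono.measurable
  have m2 : Measurable (ff h) :=
    (((m1.comp (measurable_id.add_const h)).sub m1).sub_const h).pow_const 2
  rw [intervalIntegrable_iff_integrableOn_Ioc_of_le hab]
  refine MeasureTheory.Measure.integrableOn_of_bounded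
    (M := (Chebyshev.psi (b + h) + Chebyshev.psi b + |h|) ^ 2) (by simp) m2.aestronglyMeasurable ?_
  refine (MeasureTheory.ae_restrict_iff' measurableSet_Ioc).2 (.of_forall fun y hy => ?_)
  rw [ff, Real.norm_of_nonneg (sq_nonneg _)]
  have k1 := Chebyshev.psi_mono (show y + h ≤ b + h by linarith [hy.2])
  have k2 := Chebyshev.psi_mono hy.2
  have k3 := Chebyshev.psi_nonneg (y + h)
  have k4 := Chebyshev.psi_nonneg y
  exact sq_le_sq' (by linarith [le_abs_self h]) (by linarith [neg_abs_le h])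

theorem cst {f : ℝ → ℝ} {a b c : ℝ} (hab : a ≤ b) (h : ∀ y, a < y → y < b → f y = c) :
    ∫ y in a..b, f y = (b - a) * c := by
  rw [intervalIntegral.integral_of_le hab, MeasureTheory.integral_Ioc_eq_integral_Ioo,
    MeasureTheory.setIntegral_congr_fun measurableSet_Ioo (g := fun _ => c)
      fun y hy => h y hy.1 hy.2]
  simp [hab]

theorem unit {h : ℝ} {H : ℕ} (h1 : (H : ℝ) ≤ h) (h2 : h < H + 1) (n : ℕ) :
    ∫ y in (n : ℝ)..((n + 1 : ℕ) : ℝ), ff h y =
      (1 - (h - H)) * tt H n h + (h - H) * tt (H + 1) n h := by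
  have a1 : (n : ℝ) ≤ n + 1 - (h - H) := by linarith
  have a2 : (n : ℝ) + 1 - (h - H) ≤ ((n + 1 : ℕ) : ℝ) := by push_cast; linarith
  rw [← intervalIntegral.integral_add_adjacent_intervals (ii h a1) (ii h a2),
    cst (c := tt H n h) a1 fun y y1 y2 => ?_, cst (c := tt (H + 1) n h) a2 fun y y1 y2 => ?_]
  · push_cast; ring
  · push_cast at y2
    rw [ff, tt, ← psi_sub, psi_fl (y := y) (n := n) (by linarith) y2,
      psi_fl (y := y + h) (n := n + (H + 1)) (by push_cast; linarith) (by push_cast; linarith)]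
  · rw [ff, tt, ← psi_sub, psi_fl (y := y) (n := n) y1.le (by linarith),
      psi_fl (y := y + h) (n := n + H) (by push_cast; linarith) (by push_cast; linarith)]

theorem last {X k : ℕ} {h : ℝ} (hX : 1 ≤ X) (hk : k ≤ X) (h0 : 0 ≤ h) (h1 : (k : ℝ) ≤ 2 * h) :
    Var X k h ≤ ∑ n ∈ Ico (X + 1) (2 * X), tt k n h + (2 * h * ell X) ^ 2 := by
  have e : Ioc X (2 * X) = Ico (X + 1) (2 * X + 1) := (Ico_add_one_add_one_eq_Ioc _ _).symm
  rw [Var, e, sum_Ico_succ_top (by omega)]
  refine add_le_add le_rfl ?_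
  have l1 := ell_one hX
  have s0 : 0 ≤ ∑ j ∈ Icc 1 k, Λ (2 * X + j) := sum_nonneg fun _ _ => vonMangoldt_nonneg
  have s1 : ∑ j ∈ Icc 1 k, Λ (2 * X + j) ≤ k * ell X := by
    simpa using sum_le_card_nsmul (Icc 1 k) _ (ell X) fun j hj =>
      log3 (n := 2 * X + j) hX (by have := (mem_Icc.1 hj).2; omega)
  exact sq_le_sq' (by nlinarith) (by nlinarith)

theorem lower {x h : ℝ} {X H : ℕ} (hX : 1 ≤ X) (x1 : (X : ℝ) ≤ x) (x2 : x ≤ X + 1)
    (h1 : (H : ℝ) ≤ h) (h2 : h < H + 1) (H1 : 1 ≤ H) (HX : H + 1 ≤ X) :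
    (1 - (h - H)) * Var X H h + (h - H) * Var X (H + 1) h - (2 * h * ell X) ^ 2 ≤
      ∫ y in x..2 * x, ff h y := by
  have X1 : (1 : ℝ) ≤ X := by exact_mod_cast hX
  have H1' : (1 : ℝ) ≤ H := by exact_mod_cast H1
  have k := intervalIntegral.integral_mono_interval (f := ff h) (μ := MeasureTheory.volume)
    (a := ((X + 1 : ℕ) : ℝ)) (b := ((2 * X : ℕ) : ℝ)) (c := x) (d := 2 * x)
    (by push_cast; linarith) (by push_cast; linarith) (by push_cast; linarith)
    (.of_forall fun _ => sq_nonneg _) (ii h (by linarith))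
  refine le_trans ?_ k
  rw [← intervalIntegral.sum_integral_adjacent_intervals_Ico (a := fun n : ℕ => (n : ℝ))
    (by omega) fun n _ => ii h (by push_cast; linarith), sum_congr rfl fun n _ => unit h1 h2 n,
    sum_add_distrib, ← mul_sum, ← mul_sum]
  have k1 := mul_le_mul_of_nonneg_left (last (k := H) (h := h) hX (by omega) (by linarith)
    (by linarith)) (show 0 ≤ 1 - (h - H) by linarith)
  have k2 := mul_le_mul_of_nonneg_left (last (k := H + 1) (h := h) hX HX (by linarith)
    (by push_cast; linarith)) (show 0 ≤ h - H by linarith)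
  linarith

theorem small (hV : VARStmt) {ε : ℝ} (hε : 0 < ε) (hε1 : ε ≤ 1 / 100) :
    ∀ᶠ x : ℝ in atTop, ∀ h : ℝ, 1 ≤ h → h ≤ x ^ (1 / 3 - ε) →
      (1 / 2 - ε) * h * x * Real.log (x / h ^ 3) ≤ ∫ y in x..2 * x, ff h y := by
  have h2 : 0 < ε / 2 := by positivity
  filter_upwards [tendsto_nat_floor_atTop.eventually ((hV _ h2).and ((ev_log (3 / ε ^ 2)).and
    ((ev_log 2).and ((ev_pow h2 4 0).and (ev_pow (η := 1 / 2) (by norm_num) 16 2))))),
    eventually_ge_atTop 1] with x ⟨e1, e2, e3, e4, e5⟩ hx h hh hR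
  have x1 := Nat.floor_le (show 0 ≤ x by linarith)
  have x2 := (Nat.lt_floor_add_one x).le
  have hX : 1 ≤ ⌊x⌋₊ := Nat.le_floor (by simpa using hx)
  have g1 := Nat.floor_le (show 0 ≤ h by linarith)
  have g2 := Nat.lt_floor_add_one h
  have H1 : 1 ≤ ⌊h⌋₊ := Nat.le_floor (by simpa using hh)
  generalize ⌊x⌋₊ = X at *
  generalize ⌊h⌋₊ = H at *
  have X1 : (1 : ℝ) ≤ X := by exact_mod_cast hX
  have H1' : (1 : ℝ) ≤ H := by exact_mod_cast H1
  have a1 : 2 * h ≤ (X : ℝ) ^ (1 / 3 - ε / 2) := by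
    have b1 : x ^ (1 / 3 - ε) ≤ (2 * X : ℝ) ^ (1 / 3 - ε) :=
      Real.rpow_le_rpow (by linarith) (by linarith) (by linarith)
    have b2 : (2 : ℝ) ^ (1 / 3 - ε) ≤ 2 := by
      simpa using Real.rpow_le_rpow_of_exponent_le (x := 2) (by norm_num)
        (show 1 / 3 - ε ≤ 1 by linarith)
    have b3 : 0 ≤ (X : ℝ) ^ (1 / 3 - ε) := by positivity
    rw [Real.mul_rpow (by norm_num) (by linarith)] at b1
    rw [show 1 / 3 - ε / 2 = ε / 2 + (1 / 3 - ε) by ring, Real.rpow_add (by linarith)]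
    rw [pow_zero, mul_one] at e4
    nlinarith
  have a2 : (X : ℝ) ^ (1 / 3 - ε / 2) ≤ (X : ℝ) ^ (1 / 2 : ℝ) :=
    Real.rpow_le_rpow_of_exponent_le X1 (by linarith)
  have a3 : (X : ℝ) ^ (1 / 2 : ℝ) * (X : ℝ) ^ (1 / 2 : ℝ) = X := by
    rw [← Real.rpow_add (by linarith)]; norm_num
  have a4 : (X : ℝ) ^ (1 / 2 : ℝ) ≤ X := by
    simpa using Real.rpow_le_rpow_of_exponent_le X1 (show (1 / 2 : ℝ) ≤ 1 by norm_num)
  have HX : H + 1 ≤ X := by
    have : ((H + 1 : ℕ) : ℝ) ≤ X := by push_cast; linarith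
    exact_mod_cast this
  refine le_trans ?_ (lower hX x1 x2 g1 g2 H1 HX)
  have l2 := Real.log_two_lt_d9
  have eL : Real.log (x / h ^ 3) = Real.log x - 3 * Real.log h := by
    rw [Real.log_div (by positivity) (by positivity), Real.log_pow]; norm_num
  have lx : Real.log X ≤ Real.log x := Real.log_le_log (by linarith) x1
  have lx2 : Real.log x ≤ Real.log 2 + Real.log X := by
    rw [← Real.log_mul (by norm_num) (by linarith)]
    exact Real.log_le_log (by linarith) (by linarith)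
  have lh : Real.log h ≤ (1 / 3 - ε) * Real.log x := by
    rw [← Real.log_rpow (by linarith)]
    exact Real.log_le_log (by linarith) hR
  have lh0 := Real.log_nonneg hh
  have lx3 := Real.log_le_sub_one_of_pos (show 0 < x by linarith)
  rw [eL]
  set L := Real.log x - 3 * Real.log h with hL
  have V : ∀ k : ℕ, 1 ≤ k → (k : ℝ) ≤ 2 * h → k * ((1 / 2 - ε / 2) * X * (L - 3)) ≤ Var X k h := by
    intro k k1 k2
    refine le_trans ?_ (e1 k k1 (k2.trans a1) h)
    have k3 : (1 : ℝ) ≤ k := by exact_mod_cast k1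
    have k4 := Real.log_le_log (by linarith) k2
    rw [Real.log_mul (by norm_num) (by linarith)] at k4
    rw [Real.log_div (by positivity) (by positivity), Real.log_pow]
    have k5 : L - 3 ≤ Real.log X - (3 : ℕ) * Real.log k := by push_cast; linarith
    have := mul_le_mul_of_nonneg_left k5
      (show 0 ≤ (1 / 2 - ε / 2) * k * X by have : 0 ≤ 1 / 2 - ε / 2 := by linarith
                                           positivity)
    linarith
  have v1 := mul_le_mul_of_nonneg_left (V H H1 (by linarith)) (show 0 ≤ 1 - (h - H) by linarith)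
  have v2 := mul_le_mul_of_nonneg_left (V (H + 1) (by omega) (by push_cast; linarith))
    (show 0 ≤ h - H by linarith)
  have c1 : ell X ≤ 2 * Real.log X := by
    rw [ell, Real.log_mul (by norm_num) (by linarith)]; linarith
  have c2 : (2 * h * ell X) ^ 2 ≤ h * X := by
    have d1 : ell X ^ 2 ≤ (2 * Real.log X) ^ 2 :=
      pow_le_pow_left₀ (by linarith [ell_one hX]) c1 2
    have d2 : h * (4 * ell X ^ 2) ≤ (X : ℝ) ^ (1 / 2 : ℝ) * (X : ℝ) ^ (1 / 2 : ℝ) :=
      mul_le_mul (by linarith) (by linarith) (by positivity) (by positivity)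
    have := mul_le_mul_of_nonneg_left d2 (show 0 ≤ h by linarith)
    nlinarith
  rw [div_le_iff₀ (by positivity)] at e2
  have c3 : 3 * ε * Real.log X ≤ L := by nlinarith
  have c4 : 9 ≤ ε * L := by nlinarith
  have L0 : 0 ≤ L := by nlinarith
  have c5 : (1 / 2 - ε) * x * L ≤ (1 / 2 - ε / 2) * X * (L - 3) - X := by
    have d1 := mul_le_mul_of_nonneg_right (mul_le_mul_of_nonneg_left x2
      (show 0 ≤ 1 / 2 - ε by linarith)) L0
    have d2 := mul_le_mul_of_nonneg_left c4 (show (0 : ℝ) ≤ X by linarith)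
    have d3 : L ≤ X := by linarith
    have d4 := mul_nonneg hε.le L0
    have d5 := mul_nonneg hε.le (show (0 : ℝ) ≤ X by linarith)
    nlinarith
  have c6 := mul_le_mul_of_nonneg_left c5 (show 0 ≤ h by linarith)
  push_cast at v2
  linarith

end IntAux

theorem int_of : VARStmt → INTStmt := by
  intro hV ε hε
  filter_upwards [IntAux.small hV (lt_min hε (by norm_num : (0 : ℝ) < 1 / 100)) (min_le_right _ _),
    eventually_ge_atTop 1] with x e hx h hh hR
  have m := min_le_left ε (1 / 100)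
  refine le_trans ?_ (e h hh (hR.trans (Real.rpow_le_rpow_of_exponent_le hx (by linarith))))
  have lh : Real.log h ≤ (1 / 3 - ε) * Real.log x := by
    rw [← Real.log_rpow (by linarith)]
    exact Real.log_le_log (by linarith) hR
  have l0 := Real.log_nonneg hx
  have h3 : 0 ≤ Real.log (x / h ^ 3) := by
    rw [Real.log_div (by positivity) (by positivity), Real.log_pow]
    push_cast
    nlinarith
  gcongr

end Pool.Agent.MP_678834_nt.gy
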