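import Pool.Agent.MP_678834_nt.gy.Spec

/-! Row Key: the cross term in terms of discrepancies. -/

set_option autoImplicit false

namespace Pool.Agent.MP_678834_nt.gy

open Finset Filter ComplexConjugate ArithmeticFunction
open scoped ArithmeticFunction.Moebius

noncomputable section

namespace KeyL

/-- Ramanujan sums -/
def cR (r : ℕ) (m : ℤ) : ℝ := ∑ e ∈ r.divisors, (μ (r / e) : ℝ) * if (e : ℤ) ∣ m then (e : ℝ) else 0

theorem ram (m : ℤ) {r : ℕ} (hr : 1 ≤ r) :
    ∑ b ∈ (range r).filter (fun b => Nat.Coprime b r), ee (b * (m / r)) = cR r m := by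
  rw [ram_formula m hr, cR, ← Nat.sum_div_divisors, Complex.ofReal_sum]
  refine sum_congr rfl fun e he => ?_
  rw [Nat.div_div_self (Nat.dvd_of_mem_divisors he) (by omega)]
  split_ifs <;> simp

theorem sum_sqf {r : ℕ} (hr : Squarefree r) {f : ArithmeticFunction ℝ} (hf : f.IsMultiplicative) :
    ∑ e ∈ r.divisors, (μ (r / e) : ℝ) * f e = μ r * ∏ p ∈ r.primeFactors, (1 - f p) := by
  rw [hf.prodPrimeFactors_one_sub_of_squarefree _ hr, mul_sum]
  refine sum_congr rfl fun e he => ?_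
  obtain ⟨c, rfl⟩ := Nat.dvd_of_mem_divisors he
  have e0 : 0 < e := Nat.pos_of_mem_divisors he
  have h1 : (μ e : ℝ) ^ 2 = 1 := by
    exact_mod_cast moebius_sq_eq_one_of_squarefree hr.of_mul_left
  rw [Nat.mul_div_cancel_left _ e0,
    isMultiplicative_moebius.map_mul_of_coprime (Nat.coprime_of_squarefree_mul hr)]
  push_cast
  linear_combination -(μ c : ℝ) * f e * h1

theorem loc {r : ℕ} (hr : Squarefree r) (d : ℤ) : rho r * cR r d = ∑ e ∈ r.divisors,
    (μ (r / e) : ℝ) * (e * if d.natAbs.Coprime e then 1 / (e.totient : ℝ) else 0) := by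
  let f : ArithmeticFunction ℝ := ⟨fun e => if (e : ℤ) ∣ d then (e : ℝ) else 0, by simp⟩
  let g : ArithmeticFunction ℝ :=
    ⟨fun e => e * if d.natAbs.Coprime e then 1 / (e.totient : ℝ) else 0, by simp⟩
  let ρ : ArithmeticFunction ℝ := ⟨rho, by simp [rho]⟩
  have hf : f.IsMultiplicative := ⟨by simp [f], fun {m n} h => by
    have : ((m * n : ℕ) : ℤ) ∣ d ↔ (m : ℤ) ∣ d ∧ (n : ℤ) ∣ d := by
      push_cast
      exact ⟨fun q => ⟨dvd_of_mul_right_dvd q, dvd_of_mul_left_dvd q⟩,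
        fun q => h.isCoprime.mul_dvd q.1 q.2⟩
    simp only [f, coe_mk, this]
    by_cases a : (m : ℤ) ∣ d <;> by_cases b : (n : ℤ) ∣ d <;> simp [a, b]⟩
  have hg : g.IsMultiplicative := ⟨by simp [g], fun {m n} h => by
    simp only [g, coe_mk, Nat.coprime_mul_iff_right, Nat.totient_mul h]
    by_cases a : d.natAbs.Coprime m
    · by_cases b : d.natAbs.Coprime n
      · rw [if_pos ⟨a, b⟩, if_pos a, if_pos b]; push_cast; ring
      · rw [if_neg fun q => b q.2, if_neg b]; ring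
    · rw [if_neg fun q => a q.1, if_neg a]; ring⟩
  have hρ : ρ.IsMultiplicative := ⟨by simp [ρ, rho], fun {m n} h => by
    simp only [ρ, coe_mk, rho, Nat.totient_mul h, isMultiplicative_moebius.map_mul_of_coprime h]
    push_cast; ring⟩
  have e1 : cR r d = _ := sum_sqf hr hf
  have e2 : rho r = ∏ p ∈ r.primeFactors, rho p := (hρ.prod_primeFactors hr).symm
  rw [e1, e2, mul_left_comm, ← prod_mul_distrib]
  refine Eq.trans (congrArg _ (prod_congr rfl fun p hp => ?_)) (sum_sqf hr hg).symm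
  have pp := Nat.prime_of_mem_primeFactors hp
  have p1 : (p : ℝ) - 1 ≠ 0 := sub_ne_zero.2 (by exact_mod_cast pp.ne_one)
  have c : d.natAbs.Coprime p ↔ ¬ (p : ℤ) ∣ d := by
    rw [Nat.coprime_comm, pp.coprime_iff_not_dvd, Int.natCast_dvd]
  simp only [f, g, coe_mk, rho, c, moebius_apply_prime pp, Nat.totient_prime pp,
    Nat.cast_pred pp.pos]
  by_cases a : (p : ℤ) ∣ d <;> simp only [a, if_true, if_false, not_true, not_false_iff] <;>
    push_cast <;> field_simp <;> ring

theorem one (V : ℝ → ℝ) (X r : ℕ) (d : ℤ) :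
    ∑ n ∈ Icc 1 (2 * X), Λ n * om V X n * (rho r * cR r (n + d) - rho r ^ 2 * cR r d) =
      rho r * ∑ e ∈ r.divisors, (μ (r / e) : ℝ) * e * disc V X e d := by
  by_cases hr : Squarefree r
  · simp only [disc, mul_sum]
    rw [sum_comm]
    refine sum_congr rfl fun n _ => ?_
    rw [sq, mul_assoc (rho r), loc hr d, cR, ← mul_sub, ← sum_sub_distrib, mul_sum, mul_sum]
    refine sum_congr rfl fun e _ => ?_
    split_ifs <;> ring
  · simp [rho, moebius_eq_zero_of_not_squarefree hr]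

theorem ident (V : ℝ → ℝ) (X h R Q : ℕ) :
    psw V X (HH h R Q) - ((ps1 V X * Phi h R Q : ℝ) : ℂ) = ((∑ r ∈ Ioc R Q,
      rho r * ∑ e ∈ r.divisors, (μ (r / e) : ℝ) * e * dsum V X h e : ℝ) : ℂ) := by
  have a : ∀ n : ℕ, HH h R Q n = ((∑ r ∈ Ioc R Q, ∑ j ∈ Icc 1 h, ∑ k ∈ Icc 1 h,
      rho r * cR r (n + ((k : ℤ) - j)) : ℝ) : ℂ) := fun n => by
    rw [HH, sum_FF, Complex.ofReal_sum]
    refine sum_congr rfl fun r hr => ?_
    have r1 : 1 ≤ r := by have := (mem_Ioc.1 hr).1; omega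
    simp only [Complex.ofReal_mul, Complex.ofReal_sum, DD_sq, ← ram _ r1, mul_sum, sum_mul]
    rw [sum_comm]
    refine sum_congr rfl fun j _ => ?_
    rw [sum_comm]
    refine sum_congr rfl fun k _ => sum_congr rfl fun b _ => ?_
    rw [mul_assoc, ← ee_add, fr]
    congr 2; push_cast; ring
  have b : Phi h R Q = ∑ r ∈ Ioc R Q, ∑ j ∈ Icc 1 h, ∑ k ∈ Icc 1 h,
      rho r ^ 2 * cR r ((k : ℤ) - j) := by
    refine Complex.ofReal_injective ?_
    rw [Phi, sum_FF, Complex.ofReal_sum, Complex.ofReal_sum]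
    refine sum_congr rfl fun r hr => ?_
    have r1 : 1 ≤ r := by have := (mem_Ioc.1 hr).1; omega
    simp only [Complex.ofReal_mul, Complex.ofReal_sum, DD_sq, ← ram _ r1, mul_sum]
    rw [sum_comm]
    refine sum_congr rfl fun j _ => ?_
    rw [sum_comm]
    refine sum_congr rfl fun k _ => sum_congr rfl fun b _ => ?_
    rw [fr]
    congr 2; ring
  simp only [psw, a, ← Complex.ofReal_mul]
  rw [← Complex.ofReal_sum, ← Complex.ofReal_sub, b, ps1, sum_mul, ← sum_sub_distrib]
  congr 1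
  calc _ = ∑ n ∈ Icc 1 (2 * X), ∑ r ∈ Ioc R Q, ∑ j ∈ Icc 1 h, ∑ k ∈ Icc 1 h, Λ n * om V X n *
        (rho r * cR r (n + ((k : ℤ) - j)) - rho r ^ 2 * cR r ((k : ℤ) - j)) :=
        sum_congr rfl fun n _ => by
          simp only [← mul_sum, sum_sub_distrib, mul_sub]; ring
    _ = _ := by
      rw [sum_comm]
      refine sum_congr rfl fun r _ => ?_
      rw [sum_comm]
      simp only [dsum, mul_sum]
      rw [sum_comm (s := r.divisors)]
      refine sum_congr rfl fun j _ => ?_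
      rw [sum_comm, sum_comm (s := r.divisors)]
      refine sum_congr rfl fun k _ => ?_
      rw [one, mul_sum]

theorem wt {X Q e : ℕ} (hQ : Q ≤ X) (he : 1 ≤ e) :
    ∑ r ∈ (Icc 1 Q).filter (fun r => e ∣ r), (e : ℝ) / r.totient ≤ 2 * ell X ^ 2 := by
  rcases Nat.eq_zero_or_pos Q with rfl | Q0
  · simp; positivity
  have l : ∀ r : ℕ, 1 ≤ r → r ≤ Q → 1 + Real.log r ≤ ell X := fun r r1 r2 => by
    have : (r : ℝ) ≤ 2 * X := by exact_mod_cast (by omega : r ≤ 2 * X)
    have := Real.log_le_log (by exact_mod_cast r1) this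
    unfold ell; linarith
  have l1 := ell_one (Q0.trans_le hQ)
  calc _ ≤ ∑ m ∈ Icc 1 Q, 2 * ell X * (1 / (m : ℝ)) := by
        refine sum_inj (fun r => r / e) (fun a ha b hb q => ?_) (fun a ha => ?_) (fun a ha => ?_)
          fun b _ => by positivity
        · rw [← Nat.mul_div_cancel' (mem_filter.1 ha).2, ← Nat.mul_div_cancel' (mem_filter.1 hb).2,
            q]
        · obtain ⟨a1, a2⟩ := mem_filter.1 ha
          rw [mem_Icc] at a1 ⊢
          exact ⟨Nat.div_pos (Nat.le_of_dvd a1.1 a2) he, (Nat.div_le_self _ _).trans a1.2⟩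
        · obtain ⟨a1, m, rfl⟩ := mem_filter.1 ha
          rw [mem_Icc] at a1
          have m0 : (0 : ℝ) < m := by exact_mod_cast Nat.pos_of_mul_pos_left a1.1
          have t0 : (0 : ℝ) < (e * m).totient := by exact_mod_cast Nat.totient_pos.2 a1.1
          have t := tot_ge (e * m)
          have := l _ a1.1 a1.2
          rw [Nat.mul_div_cancel_left _ he, mul_one_div, div_le_div_iff₀ t0 m0]
          rw [Nat.cast_mul e m] at t this
          nlinarith
    _ ≤ _ := by
      rw [← mul_sum, sq, ← mul_assoc]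
      exact mul_le_mul_of_nonneg_left ((harm Q).trans (l Q Q0 le_rfl)) (by positivity)

end KeyL

theorem key : KEYStmt := by
  intro V X h R Q hQ
  rw [KeyL.ident, Complex.norm_real, Real.norm_eq_abs]
  calc _ ≤ ∑ r ∈ Ioc R Q, ∑ e ∈ r.divisors, (e : ℝ) / r.totient * |dsum V X h e| := by
        refine (abs_sum_le_sum_abs _ _).trans (sum_le_sum fun r _ => ?_)
        rw [mul_sum]
        refine (abs_sum_le_sum_abs _ _).trans (sum_le_sum fun e _ => ?_)
        have a : |(μ (r / e) : ℝ)| ≤ 1 := by exact_mod_cast abs_moebius_le_one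
        rw [abs_mul, abs_mul, abs_mul, Nat.abs_cast, ← mul_assoc, ← mul_assoc, div_eq_inv_mul,
          ← one_div]
        gcongr
        exact (mul_le_of_le_one_right (abs_nonneg _) a).trans (rho_abs r)
    _ ≤ ∑ r ∈ Icc 1 Q, ∑ e ∈ r.divisors, (e : ℝ) / r.totient * |dsum V X h e| :=
        sum_le_sum_of_subset_of_nonneg (fun r hr => by rw [mem_Ioc] at hr; rw [mem_Icc]; omega)
          fun _ _ _ => by positivity
    _ = ∑ e ∈ Icc 1 Q, ∑ r ∈ (Icc 1 Q).filter (fun r => e ∣ r),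
          (e : ℝ) / r.totient * |dsum V X h e| := by
        refine sum_comm' fun r e => ?_
        simp only [mem_Icc, Nat.mem_divisors, mem_filter]
        exact ⟨fun q => ⟨⟨q.1, q.2.1⟩, Nat.pos_of_dvd_of_pos q.2.1 q.1.1,
          (Nat.le_of_dvd q.1.1 q.2.1).trans q.1.2⟩, fun q => ⟨q.1.1, q.1.2, by omega⟩⟩
    _ ≤ _ := by
      rw [mul_sum]
      refine sum_le_sum fun e he => ?_
      rw [← sum_mul]
      exact mul_le_mul_of_nonneg_right (KeyL.wt hQ (mem_Icc.1 he).1) (abs_nonneg _)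

end

end Pool.Agent.MP_678834_nt.gy
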