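import Mathlib
import Pool.Agent.MP_678834_nt.gy.Spec

/-! Project GY: the mean value over all primitive characters. -/

set_option autoImplicit false

namespace Pool.Agent.MP_678834_nt.gy

open Finset Filter ComplexConjugate ArithmeticFunction
open scoped ArithmeticFunction.Moebius

noncomputable section

namespace Mv

theorem log_big (c : ℝ) : ∀ᶠ X : ℕ in atTop, c ≤ Real.log X :=
  (Real.tendsto_log_atTop.comp tendsto_natCast_atTop_atTop).eventually_ge_atTop c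

theorem pow_small {δ : ℝ} (hδ : 0 < δ) (m : ℕ) :
    ∀ᶠ X : ℕ in atTop, (X : ℝ) ^ (-δ) ≤ 1 / Real.log X ^ m := by
  have h := (isLittleO_log_rpow_rpow_atTop (m : ℝ) hδ).bound one_pos
  filter_upwards [tendsto_natCast_atTop_atTop.eventually h, log_big 1, eventually_ge_atTop 1]
    with X h1 h2 h3
  have hX : (0 : ℝ) < X := by exact_mod_cast h3
  have hp : 0 < Real.log X ^ m := by positivity
  rw [Real.rpow_natCast, Real.norm_of_nonneg hp.le, Real.norm_of_nonneg (by positivity),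
    one_mul] at h1
  rw [Real.rpow_neg hX.le, ← one_div]
  exact one_div_le_one_div_of_le hp h1

theorem Q_le {η : ℝ} {X h Q : ℕ} (hη : 0 < η) (hX : 1 ≤ X) (hA : Adm η X h Q) : Q ≤ X := by
  have h1 : (1 : ℝ) ≤ h := by exact_mod_cast hA.h1
  have h2 : (1 : ℝ) ≤ Q := by exact_mod_cast hA.Q1
  have h3 : (1 : ℝ) ≤ X := by exact_mod_cast hX
  have h4 : (X : ℝ) ^ (1 - η) ≤ X := by
    conv_rhs => rw [← Real.rpow_one X]
    exact Real.rpow_le_rpow_of_exponent_le h3 (by linarith)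
  have h5 := hA.hQQ
  have : (Q : ℝ) ≤ X := by nlinarith
  exact_mod_cast this

theorem ne_one {z : Ch} (h1 : 1 < z.1) (hp : z.2.IsPrimitive) : z.2 ≠ 1 := by
  intro h
  have : NeZero z.1 := ⟨by omega⟩
  have h2 : z.2.conductor = z.1 := hp
  rw [h, DirichletCharacter.conductor_one] at h2
  omega

/-- the small moduli -/
theorem small (hF : FAMStmt) {R y : ℕ} {S : Finset Ch} (hR : 1 ≤ R) (hS : Prim S R)
    (g : Ch → ℝ) {T : ℝ} (hT : 0 ≤ T) (g0 : ∀ z ∈ S, 0 ≤ g z) (hg : ∀ z ∈ S, g z ≤ T) :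
    ∑ z ∈ S, 1 / (z.1 : ℝ) * (‖pp (cv z) y‖ * g z) ≤ 2 * (R : ℝ) ^ 5 * T := by
  have F := hF R S hR hS
  have r1 : (1 : ℝ) ≤ R := by exact_mod_cast hR
  have l1 : Real.log R ≤ R - 1 := Real.log_le_sub_one_of_pos (by linarith)
  have l0 : 0 ≤ Real.log R := Real.log_nonneg r1
  have s1 : √(R : ℝ) ≤ R := by
    rw [Real.sqrt_le_left (by linarith)]; nlinarith
  have hK : √(R : ℝ) * (1 + Real.log R) ≤ (R : ℝ) ^ 2 := by
    rw [sq]; exact mul_le_mul s1 (by linarith) (by linarith) (by linarith)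
  have hD : (S.card : ℝ) ≤ 2 * (R : ℝ) ^ 3 := by
    refine F.card.trans ?_
    have : (R : ℝ) ^ 2 * (1 + 2 * Real.log R) ≤ (R : ℝ) ^ 2 * (2 * R - 1) :=
      mul_le_mul_of_nonneg_left (by linarith) (by positivity)
    nlinarith
  calc ∑ z ∈ S, 1 / (z.1 : ℝ) * (‖pp (cv z) y‖ * g z) ≤ ∑ _z ∈ S, (R : ℝ) ^ 2 * T := by
        refine sum_le_sum fun z hz => ?_
        have q1 : (1 : ℝ) ≤ z.1 := by exact_mod_cast (hS z hz).1.le
        have a1 : 1 / (z.1 : ℝ) ≤ 1 := by rw [div_le_one (by linarith)]; exact q1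
        have a2 : ‖pp (cv z) y‖ * g z ≤ (R : ℝ) ^ 2 * T :=
          mul_le_mul ((F.pv z hz y).trans hK) (hg z hz) (g0 z hz) (by positivity)
        calc _ ≤ 1 * ((R : ℝ) ^ 2 * T) :=
              mul_le_mul a1 a2 (mul_nonneg (norm_nonneg _) (g0 z hz)) zero_le_one
          _ = _ := one_mul _
    _ = S.card * ((R : ℝ) ^ 2 * T) := by rw [sum_const, nsmul_eq_mul]
    _ ≤ 2 * (R : ℝ) ^ 3 * ((R : ℝ) ^ 2 * T) := mul_le_mul_of_nonneg_right hD (by positivity)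
    _ = _ := by ring

/-- the large moduli, by dyadic blocks -/
theorem large {Q X : ℕ} {S : Finset Ch} (hS : Prim S Q) (hQ : Q ≤ X) (f : Ch → ℝ)
    (f0 : ∀ z, 0 ≤ f z) {P W : ℝ} (hW : 0 ≤ W) (hP : ∀ z ∈ S, P ≤ z.1)
    (hb : ∀ (R : ℕ) (S' : Finset Ch), 1 ≤ R → R ≤ Q → P ≤ 2 * R → Prim S' (2 * R) →
      ∑ z ∈ S', f z ≤ R * W) :
    ∑ z ∈ S, 1 / (z.1 : ℝ) * f z ≤ (Nat.log 2 X + 1 : ℕ) * W := by
  classical
  have hm : ∀ z ∈ S, Nat.log 2 (z.1 - 1) ∈ range (Nat.log 2 X + 1) := fun z hz =>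
    mem_range.2 (Nat.lt_succ_of_le (Nat.log_mono_right (by have := (hS z hz).2.1; omega)))
  rw [← sum_fiberwise_of_maps_to hm]
  refine (sum_le_card_nsmul _ _ W fun j _ => ?_).trans (by rw [card_range, nsmul_eq_mul])
  have hj : ∀ z ∈ S.filter (fun z => Nat.log 2 (z.1 - 1) = j), 2 ^ j < z.1 ∧ z.1 ≤ 2 * 2 ^ j := by
    intro z hz
    obtain ⟨h1, h2⟩ := mem_filter.1 hz
    have h3 := (hS z h1).1
    have h4 := Nat.pow_log_le_self 2 (x := z.1 - 1) (by omega)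
    have h5 := Nat.lt_pow_succ_log_self (b := 2) (by norm_num) (z.1 - 1)
    rw [h2] at h4 h5
    rw [Nat.succ_eq_add_one, pow_succ] at h5
    omega
  rcases (S.filter (fun z => Nat.log 2 (z.1 - 1) = j)).eq_empty_or_nonempty with he | ⟨z0, hz0⟩
  · rw [he, sum_empty]; exact hW
  obtain ⟨R, hR⟩ : ∃ R, R = 2 ^ j := ⟨_, rfl⟩
  rw [← hR] at hj
  have R1 : 1 ≤ R := by rw [hR]; exact Nat.one_le_two_pow
  have R0 : (0 : ℝ) < R := by exact_mod_cast R1
  have z1 := hj z0 hz0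
  have z2 := hS z0 (mem_filter.1 hz0).1
  have z3 : P ≤ 2 * R := (hP z0 (mem_filter.1 hz0).1).trans (by exact_mod_cast z1.2)
  have key := hb R _ R1 (by omega) z3 fun z hz =>
    ⟨(hS z (mem_filter.1 hz).1).1, (hj z hz).2, (hS z (mem_filter.1 hz).1).2.2⟩
  calc _ ≤ ∑ z ∈ S.filter (fun z => Nat.log 2 (z.1 - 1) = j), 1 / (R : ℝ) * f z :=
        sum_le_sum fun z hz => mul_le_mul_of_nonneg_right
          (one_div_le_one_div_of_le R0 (by exact_mod_cast (hj z hz).1.le)) (f0 z)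
    _ ≤ 1 / (R : ℝ) * (R * W) := by
        rw [← mul_sum]; exact mul_le_mul_of_nonneg_left key (by positivity)
    _ = W := by field_simp

theorem nlog_le {X : ℕ} (hX : 1 ≤ X) (h : 1 ≤ Real.log X) :
    ((Nat.log 2 X + 1 : ℕ) : ℝ) ≤ 3 * Real.log X := by
  have h1 : ((2 ^ Nat.log 2 X : ℕ) : ℝ) ≤ X := by
    exact_mod_cast Nat.pow_log_le_self 2 (by omega)
  have h2 := Real.log_le_log (by positivity) h1
  rw [Nat.cast_pow, Real.log_pow] at h2
  have h3 := Real.log_two_gt_d9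
  have h4 : (0 : ℝ) ≤ Nat.log 2 X := Nat.cast_nonneg _
  push_cast at h2 ⊢
  nlinarith

end Mv

open Mv in
theorem mv : FAMStmt → BLKStmt → SWWStmt → MVStmt := by
  classical
  intro hF hB hS V L hV η hη hη' A
  obtain ⟨C, C0, hC⟩ := hB V L hV η hη hη'
  filter_upwards [hC, hS V L hV (A + 1 + 5 * (2 * (A + 8))) (2 * (A + 8)), log_big 4,
    log_big (1152 * C), pow_small (by positivity : 0 < η / 20) (A + 8), eventually_ge_atTop 1]
    with X h1 h2 h3 h4 h5 hX h Q y S hA hy hP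
  have hQ := Q_le hη hX hA
  have hnl := nlog_le hX (by linarith)
  have X0 : (0 : ℝ) < X := by exact_mod_cast hX
  have hell : ell X ≤ 2 * Real.log X := by
    have := Real.log_two_lt_d9
    rw [ell, Real.log_mul (by norm_num) X0.ne']; linarith
  have hell0 : 0 ≤ ell X := zero_le_one.trans (ell_one hX)
  obtain ⟨l, hl⟩ : ∃ l, l = Real.log X := ⟨_, rfl⟩
  rw [← hl] at h2 h3 h4 h5 hnl hell ⊢
  have l0 : 0 < l := by linarith
  obtain ⟨u, hu⟩ : ∃ u, u = l ^ (A + 8) := ⟨_, rfl⟩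
  have u1 : 1 ≤ u := by rw [hu]; exact one_le_pow₀ (by linarith)
  have huu : l ^ (2 * (A + 8)) = u ^ 2 := by rw [hu, ← pow_mul, mul_comm]
  rw [huu] at h2
  rw [← hu] at h5
  obtain ⟨R₀, hR₀⟩ : ∃ R₀, R₀ = ⌊u ^ 2⌋₊ := ⟨_, rfl⟩
  have r1 : 1 ≤ R₀ := by rw [hR₀]; exact Nat.le_floor (by push_cast; nlinarith)
  have r2 : (R₀ : ℝ) ≤ u ^ 2 := by rw [hR₀]; exact Nat.floor_le (by positivity)
  have r3 : u ^ 2 < R₀ + 1 := by rw [hR₀]; exact Nat.lt_floor_add_one _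
  rw [← sum_filter_add_sum_filter_not S fun z => z.1 ≤ R₀]
  have s1 := small hF (y := y) (S := S.filter fun z => z.1 ≤ R₀) r1
    (fun z hz => ⟨(hP z (mem_filter.1 hz).1).1, (mem_filter.1 hz).2,
      (hP z (mem_filter.1 hz).1).2.2⟩) (fun z => ‖psw V X (cv z)‖)
    (T := X / l ^ (A + 1 + 5 * (2 * (A + 8)))) (by positivity) (fun _ _ => norm_nonneg _)
    fun z hz => h2 z (hP z (mem_filter.1 hz).1).1.le
      (le_trans (by exact_mod_cast (mem_filter.1 hz).2) r2)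
      (ne_one (hP z (mem_filter.1 hz).1).1 (hP z (mem_filter.1 hz).1).2.2)
  have s2 := large (S := S.filter fun z => ¬ z.1 ≤ R₀) (fun z hz => hP z (mem_filter.1 hz).1) hQ
    (fun z => ‖pp (cv z) y‖ * ‖psw V X (cv z)‖) (fun _ => by positivity) (P := u ^ 2)
    (W := C * X * (2 * l) ^ 6 * (3 / u)) (by positivity)
    (fun z hz => r3.le.trans (by exact_mod_cast not_le.1 (mem_filter.1 hz).2))
    fun R S' R1 RQ hu2 hS' => (h1 h Q y R S' hA hy R1 RQ hS').trans (by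
      have a1 : u / 2 ≤ √(R : ℝ) := Real.le_sqrt_of_sq_le (by nlinarith)
      have a2 : 1 / √(R : ℝ) ≤ 2 / u :=
        (one_div_le_one_div_of_le (by positivity) a1).trans (le_of_eq (one_div_div _ _))
      have a3 : 1 / √(R : ℝ) + (X : ℝ) ^ (-(η / 20)) ≤ 3 / u :=
        (add_le_add a2 h5).trans (le_of_eq (by ring))
      have a4 : ell X ^ 6 ≤ (2 * l) ^ 6 := pow_le_pow_left₀ hell0 hell 6
      calc _ ≤ C * R * X * (2 * l) ^ 6 * (3 / u) := by gcongr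
        _ = _ := by ring)
  have t1 : 2 * (R₀ : ℝ) ^ 5 * (X / l ^ (A + 1 + 5 * (2 * (A + 8)))) ≤ X / l ^ A / 2 := by
    have e : l ^ (A + 1 + 5 * (2 * (A + 8))) = l ^ A * l * (u ^ 2) ^ 5 := by
      rw [← huu, ← pow_mul, pow_add, pow_succ, mul_comm 5]
    rw [e]
    calc _ ≤ 2 * (u ^ 2) ^ 5 * (X / (l ^ A * l * (u ^ 2) ^ 5)) := by gcongr
      _ = X / l ^ A * (2 / l) := by field_simp
      _ ≤ X / l ^ A * (1 / 2) := by
          refine mul_le_mul_of_nonneg_left ?_ (by positivity)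
          rw [div_le_iff₀ l0]; linarith
      _ = _ := by ring
  have t2 : ((Nat.log 2 X + 1 : ℕ) : ℝ) * (C * X * (2 * l) ^ 6 * (3 / u)) ≤ X / l ^ A / 2 := by
    calc _ ≤ 3 * l * (C * X * (2 * l) ^ 6 * (3 / u)) := by gcongr
      _ = X / l ^ A * (576 * C / l) := by rw [hu]; field_simp; ring
      _ ≤ X / l ^ A * (1 / 2) := by
          refine mul_le_mul_of_nonneg_left ?_ (by positivity)
          rw [div_le_iff₀ l0]; linarith
      _ = _ := by ring
  linarith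

end

end Pool.Agent.MP_678834_nt.gy
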