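import Mathlib

-- ======== piece 0: Base
section Piece0

/-! Project GY: elementary tools (additive large sieve, Ramanujan sums, Vaughan identity, divisor
bound, summation by parts). -/

set_option autoImplicit false

namespace Pool.Agent.MP_678834_nt.gy

open Finset ComplexConjugate ArithmeticFunction
open scoped ArithmeticFunction.Moebius ArithmeticFunction.zeta

noncomputable section

theorem sum_inj {α β : Type*} {s : Finset α} {t : Finset β} (e : α → β) {f : α → ℝ} {g : β → ℝ}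
    (hinj : ∀ a ∈ s, ∀ a' ∈ s, e a = e a' → a = a') (hm : ∀ a ∈ s, e a ∈ t)
    (hle : ∀ a ∈ s, f a ≤ g (e a)) (g0 : ∀ b ∈ t, 0 ≤ g b) : ∑ a ∈ s, f a ≤ ∑ b ∈ t, g b := by
  classical
  calc ∑ a ∈ s, f a ≤ ∑ a ∈ s, g (e a) := sum_le_sum hle
    _ = ∑ b ∈ s.image e, g b := (sum_image hinj).symm
    _ ≤ ∑ b ∈ t, g b := sum_le_sum_of_subset_of_nonneg
        (fun b hb => by obtain ⟨a, ha, rfl⟩ := mem_image.1 hb; exact hm a ha) fun b hb _ => g0 b hb

theorem harm (N : ℕ) : ∑ m ∈ Icc 1 N, (1 : ℝ) / m ≤ 1 + Real.log N := by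
  refine le_trans (le_of_eq ?_) (harmonic_le_one_add_log N)
  simp [harmonic_eq_sum_Icc]

theorem harm' (s : Finset ℕ) (N : ℕ) (hs : s ⊆ Icc 1 N) :
    ∑ m ∈ s, (1 : ℝ) / m ≤ 1 + Real.log N :=
  (sum_le_sum_of_subset_of_nonneg hs fun _ _ _ => by positivity).trans (harm N)

/-- the additive character -/
def ee (t : ℝ) : ℂ := Complex.exp (Complex.I * ((2 * Real.pi * t : ℝ) : ℂ))

theorem ee_add (s t : ℝ) : ee (s + t) = ee s * ee t := by
  unfold ee; rw [← Complex.exp_add]; congr 1; push_cast; ring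

theorem ee_zero : ee 0 = 1 := by simp [ee]

theorem ee_int (r : ℤ) : ee r = 1 := by
  unfold ee
  rw [← Complex.exp_int_mul_two_pi_mul_I r]; congr 1; push_cast; ring

theorem ee_nat (r : ℕ) : ee r = 1 := by exact_mod_cast ee_int r

theorem norm_ee (t : ℝ) : ‖ee t‖ = 1 := by
  unfold ee; rw [mul_comm]; exact Complex.norm_exp_ofReal_mul_I _

theorem conj_ee (t : ℝ) : conj (ee t) = ee (-t) := by
  unfold ee
  rw [← Complex.exp_conj, map_mul, Complex.conj_I, Complex.conj_ofReal]; congr 1; push_cast; ring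

theorem ee_nat_mul (n : ℕ) (t : ℝ) : ee (n * t) = ee t ^ n := by
  unfold ee; rw [← Complex.exp_nat_mul]; congr 1; push_cast; ring

theorem ee_sub_int (t : ℝ) (r : ℤ) : ee (t - r) = ee t := by
  rw [sub_eq_add_neg, ee_add, ← Int.cast_neg, ee_int, mul_one]

theorem ee_sub_one {t : ℝ} (ht : |t| ≤ 1 / 2) : 4 * |t| ≤ ‖ee t - 1‖ := by
  unfold ee
  rw [Complex.norm_exp_I_mul_ofReal_sub_one, show 2 * Real.pi * t / 2 = Real.pi * t by ring,
    Real.norm_eq_abs, abs_mul, abs_two]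
  have hp := Real.pi_pos
  have h := Real.mul_abs_le_abs_sin (x := Real.pi * t) (by
    rw [abs_mul, abs_of_pos hp]; nlinarith)
  rw [abs_mul, abs_of_pos hp, ← mul_assoc, div_mul_cancel₀ _ hp.ne'] at h
  linarith

theorem geo_le (A B : ℕ) (t : ℝ) (r : ℤ) (h0 : t - r ≠ 0) (ht : |t - r| ≤ 1 / 2) :
    ‖∑ n ∈ Ico A B, ee (n * t)‖ ≤ 1 / (2 * |t - r|) := by
  have p0 : 0 < |t - r| := abs_pos.2 h0
  rcases le_or_gt A B with hAB | hAB
  · have h1 := geom_sum_Ico_mul (ee t) hAB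
    have h2 : ‖∑ n ∈ Ico A B, ee t ^ n‖ * ‖ee t - 1‖ ≤ 2 := by
      rw [← norm_mul, h1]
      refine (norm_sub_le _ _).trans ?_
      rw [norm_pow, norm_pow, norm_ee]; norm_num
    have h3 := ee_sub_one ht
    rw [ee_sub_int] at h3
    simp_rw [ee_nat_mul]
    rw [le_div_iff₀ (by positivity)]
    nlinarith [mul_le_mul_of_nonneg_left h3 (norm_nonneg (∑ n ∈ Ico A B, ee t ^ n))]
  · rw [Ico_eq_empty_of_le hAB.le, sum_empty, norm_zero]; positivity

theorem orth {d : ℕ} (hd : 0 < d) (k : ℤ) :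
    ∑ h ∈ range d, ee (h * (k / d)) = if (d : ℤ) ∣ k then (d : ℂ) else 0 := by
  have d0 : (d : ℝ) ≠ 0 := by positivity
  split_ifs with hk
  · obtain ⟨c, rfl⟩ := hk
    have : ∀ h ∈ range d, ee (h * (((d * c : ℤ) : ℝ) / d)) = 1 := fun h _ => by
      rw [← ee_int (h * c)]; congr 1; push_cast; field_simp
    rw [sum_congr rfl this]; simp
  · simp_rw [ee_nat_mul]
    have h1 := geom_sum_mul (ee (k / d)) d
    rw [← ee_nat_mul, mul_div_cancel₀ _ d0, ee_int, sub_self] at h1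
    refine (mul_eq_zero.1 h1).resolve_right fun h2 => hk ?_
    have h3 := ee_sub_one (abs_sub_round ((k : ℝ) / d))
    rw [ee_sub_int, h2, norm_zero] at h3
    have h4 : (k : ℝ) / d - round ((k : ℝ) / d) = 0 :=
      abs_eq_zero.1 (le_antisymm (by linarith) (abs_nonneg _))
    refine ⟨round ((k : ℝ) / d), ?_⟩
    have : (k : ℝ) = d * round ((k : ℝ) / d) := by
      rw [← sub_eq_zero.1 h4]; field_simp
    exact_mod_cast this

variable {ι : Type*}

theorem spaced (J : Finset ι) (t : ι → ℝ) {K : ℕ} (hK : 1 ≤ K)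
    (h1 : ∀ j ∈ J, 1 / (K : ℝ) ≤ t j ∧ t j ≤ 1)
    (h2 : ∀ j ∈ J, ∀ l ∈ J, j ≠ l → 1 / (K : ℝ) ≤ |t j - t l|) :
    ∑ j ∈ J, 1 / (2 * t j) ≤ K / 2 * (1 + Real.log K) := by
  have K0 : (0 : ℝ) < K := by exact_mod_cast hK
  have h3 : ∀ j ∈ J, 1 ≤ K * t j := fun j hj => by
    have := (h1 j hj).1
    rwa [div_le_iff₀' K0] at this
  have h4 : ∑ j ∈ J, 1 / (2 * t j) ≤ ∑ k ∈ Icc 1 K, (K : ℝ) / 2 * (1 / k) := by
    refine sum_inj (fun j => ⌊K * t j⌋₊) (fun j hj l hl e => ?_) (fun j hj => ?_)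
      (fun j hj => ?_) fun _ _ => by positivity
    · by_contra hne
      have h5 := h2 j hj l hl hne
      rw [div_le_iff₀' K0, ← abs_of_pos K0, ← abs_mul, mul_sub] at h5
      have a1 := Nat.floor_le (show 0 ≤ K * t j by linarith [h3 j hj])
      have a2 := Nat.lt_floor_add_one (K * t j)
      have a3 := Nat.floor_le (show 0 ≤ K * t l by linarith [h3 l hl])
      have a4 := Nat.lt_floor_add_one (K * t l)
      have e' : ⌊K * t j⌋₊ = ⌊K * t l⌋₊ := e
      rw [e'] at a1 a2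
      have : |K * t j - K * t l| < 1 := abs_lt.2 ⟨by linarith, by linarith⟩
      linarith
    · refine mem_Icc.2 ⟨Nat.le_floor (by simpa using h3 j hj), Nat.floor_le_of_le ?_⟩
      nlinarith [(h1 j hj).2]
    · have a1 := Nat.floor_le (show 0 ≤ K * t j by linarith [h3 j hj])
      have a2 : (1 : ℝ) ≤ ⌊K * t j⌋₊ := by
        exact_mod_cast Nat.le_floor (show ((1 : ℕ) : ℝ) ≤ K * t j by simpa using h3 j hj)
      have t0 : 0 < t j := lt_of_lt_of_le (by positivity) (h1 j hj).1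
      rw [div_mul_div_comm, mul_one, div_le_div_iff₀ (by positivity) (by positivity)]
      nlinarith
  refine h4.trans ?_
  rw [← mul_sum]
  exact mul_le_mul_of_nonneg_left (harm K) (by positivity)

theorem row_sum [DecidableEq ι] (I : Finset ι) (θ : ι → ℝ) {K : ℕ} (hK : 1 ≤ K)
    (h : ∀ i ∈ I, ∀ j ∈ I, i ≠ j → ∀ r : ℤ, 1 / (K : ℝ) ≤ |θ i - θ j - r|) (N : ℕ) {i : ι}
    (hi : i ∈ I) :
    ∑ j ∈ I, ‖∑ n ∈ range N, ee (n * (θ i - θ j))‖ ≤ N + K * (1 + Real.log K) := by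
  have K0 : (0 : ℝ) < K := by exact_mod_cast hK
  rw [← add_sum_erase _ _ hi]
  refine add_le_add ?_ ?_
  · simp [ee_zero]
  set t : ι → ℝ := fun j => θ i - θ j - round (θ i - θ j) with ht
  have t1 : ∀ j ∈ I.erase i, 1 / (K : ℝ) ≤ |t j| := fun j hj =>
    h i hi j (mem_of_mem_erase hj) (ne_of_mem_erase hj).symm _
  have t2 : ∀ j, |t j| ≤ 1 / 2 := fun j => abs_sub_round _
  have t3 : ∀ j ∈ I.erase i, ∀ l ∈ I.erase i, j ≠ l → 1 / (K : ℝ) ≤ |t j - t l| := by
    intro j hj l hl hne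
    have := h l (mem_of_mem_erase hl) j (mem_of_mem_erase hj) hne.symm
      (round (θ i - θ j) - round (θ i - θ l))
    refine this.trans (le_of_eq ?_)
    congr 1
    simp only [ht]; push_cast; ring
  have h1 : ∑ j ∈ I.erase i, ‖∑ n ∈ range N, ee (n * (θ i - θ j))‖ ≤
      ∑ j ∈ I.erase i, 1 / (2 * |t j|) := by
    refine sum_le_sum fun j hj => ?_
    rw [range_eq_Ico]
    refine geo_le 0 N _ _ (fun h0 => ?_) (t2 j)
    have := t1 j hj
    rw [show t j = 0 from h0, abs_zero] at this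
    have : 0 < 1 / (K : ℝ) := by positivity
    linarith
  refine h1.trans ?_
  rw [← sum_filter_add_sum_filter_not _ (fun j => 0 ≤ t j)]
  have h2 := spaced ((I.erase i).filter fun j => 0 ≤ t j) (fun j => |t j|) hK
    (fun j hj => ⟨t1 j (mem_filter.1 hj).1, by linarith [t2 j]⟩) fun j hj l hl hne => by
      rw [abs_of_nonneg (mem_filter.1 hj).2, abs_of_nonneg (mem_filter.1 hl).2]
      exact t3 j (mem_filter.1 hj).1 l (mem_filter.1 hl).1 hne
  have h3 := spaced ((I.erase i).filter fun j => ¬ 0 ≤ t j) (fun j => |t j|) hK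
    (fun j hj => ⟨t1 j (mem_filter.1 hj).1, by linarith [t2 j]⟩) fun j hj l hl hne => by
      rw [abs_of_neg (not_le.1 (mem_filter.1 hj).2), abs_of_neg (not_le.1 (mem_filter.1 hl).2),
        show -t j - -t l = -(t j - t l) by ring, abs_neg]
      exact t3 j (mem_filter.1 hj).1 l (mem_filter.1 hl).1 hne
  linarith

theorem ls_dual [DecidableEq ι] (I : Finset ι) (θ : ι → ℝ) {K : ℕ} (hK : 1 ≤ K)
    (h : ∀ i ∈ I, ∀ j ∈ I, i ≠ j → ∀ r : ℤ, 1 / (K : ℝ) ≤ |θ i - θ j - r|) (N : ℕ) (b : ι → ℂ) :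
    ∑ n ∈ range N, ‖∑ i ∈ I, b i * ee (n * θ i)‖ ^ 2 ≤
      (N + K * (1 + Real.log K)) * ∑ i ∈ I, ‖b i‖ ^ 2 := by
  set D : ι → ι → ℂ := fun i j => ∑ n ∈ range N, ee (n * (θ i - θ j)) with hD
  have e : ((∑ n ∈ range N, ‖∑ i ∈ I, b i * ee (n * θ i)‖ ^ 2 : ℝ) : ℂ) =
      ∑ i ∈ I, ∑ j ∈ I, b i * conj (b j) * D i j := by
    push_cast
    simp_rw [← Complex.mul_conj', map_sum, sum_mul_sum, hD, mul_sum]
    rw [sum_comm]
    refine sum_congr rfl fun i _ => ?_
    rw [sum_comm]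
    refine sum_congr rfl fun j _ => sum_congr rfl fun n _ => ?_
    rw [map_mul, conj_ee, show (n : ℝ) * (θ i - θ j) = n * θ i + -(n * θ j) by ring, ee_add]
    ring
  have hs : ∀ i j, ‖D j i‖ = ‖D i j‖ := fun i j => by
    rw [← Complex.norm_conj, hD, map_sum]
    congr 1
    exact sum_congr rfl fun n _ => by rw [conj_ee]; congr 1; ring
  have h0 : 0 ≤ ∑ n ∈ range N, ‖∑ i ∈ I, b i * ee (n * θ i)‖ ^ 2 :=
    sum_nonneg fun _ _ => sq_nonneg _
  rw [← abs_of_nonneg h0, ← Real.norm_eq_abs, ← Complex.norm_real, e]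
  have h1 : ‖∑ i ∈ I, ∑ j ∈ I, b i * conj (b j) * D i j‖ ≤
      ∑ i ∈ I, ∑ j ∈ I, (‖b i‖ ^ 2 / 2 * ‖D i j‖ + ‖b j‖ ^ 2 / 2 * ‖D j i‖) := by
    refine (norm_sum_le _ _).trans (sum_le_sum fun i _ => (norm_sum_le _ _).trans
      (sum_le_sum fun j _ => ?_))
    rw [norm_mul, norm_mul, Complex.norm_conj, hs i j, ← add_mul]
    exact mul_le_mul_of_nonneg_right (by nlinarith [sq_nonneg (‖b i‖ - ‖b j‖)]) (norm_nonneg _)
  refine h1.trans ?_
  simp_rw [sum_add_distrib]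
  rw [sum_comm (f := fun i j => ‖b j‖ ^ 2 / 2 * ‖D j i‖), ← sum_add_distrib, mul_sum]
  refine sum_le_sum fun i hi => ?_
  rw [← mul_sum]
  have := mul_le_mul_of_nonneg_left (row_sum I θ hK h N hi) (sq_nonneg ‖b i‖)
  simp only [hD]
  linarith

theorem ls [DecidableEq ι] (I : Finset ι) (θ : ι → ℝ) {K : ℕ} (hK : 1 ≤ K)
    (h : ∀ i ∈ I, ∀ j ∈ I, i ≠ j → ∀ r : ℤ, 1 / (K : ℝ) ≤ |θ i - θ j - r|) (N : ℕ) (c : ℕ → ℂ) :
    ∑ i ∈ I, ‖∑ n ∈ range N, c n * ee (n * θ i)‖ ^ 2 ≤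
      (N + K * (1 + Real.log K)) * ∑ n ∈ range N, ‖c n‖ ^ 2 := by
  set B : ι → ℂ := fun i => ∑ n ∈ range N, c n * ee (n * θ i) with hB
  set T := ∑ i ∈ I, ‖B i‖ ^ 2 with hT
  have hT0 : 0 ≤ T := sum_nonneg fun _ _ => sq_nonneg _
  have e : (T : ℂ) = ∑ n ∈ range N, c n * ∑ i ∈ I, conj (B i) * ee (n * θ i) := by
    rw [hT]
    push_cast
    simp_rw [mul_sum]
    rw [sum_comm]
    refine sum_congr rfl fun i _ => ?_
    rw [← Complex.mul_conj']
    nth_rewrite 1 [hB]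
    rw [sum_mul]
    exact sum_congr rfl fun n _ => by ring
  have h1 : T ≤ ∑ n ∈ range N, ‖c n‖ * ‖∑ i ∈ I, conj (B i) * ee (n * θ i)‖ := by
    rw [← abs_of_nonneg hT0, ← Real.norm_eq_abs, ← Complex.norm_real, e]
    exact (norm_sum_le _ _).trans (le_of_eq (sum_congr rfl fun n _ => norm_mul _ _))
  have h2 := sum_mul_sq_le_sq_mul_sq (range N) (fun n => ‖c n‖)
    (fun n => ‖∑ i ∈ I, conj (B i) * ee (n * θ i)‖)
  have h3 := ls_dual I θ hK h N (fun i => conj (B i))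
  simp only [Complex.norm_conj] at h3
  have h4 : 0 ≤ ∑ n ∈ range N, ‖c n‖ ^ 2 := sum_nonneg fun _ _ => sq_nonneg _
  have h5 : T ^ 2 ≤ (∑ n ∈ range N, ‖c n‖ ^ 2) * ((N + K * (1 + Real.log K)) * T) :=
    (pow_le_pow_left₀ hT0 h1 2).trans (h2.trans (mul_le_mul_of_nonneg_left h3 h4))
  have h6 : 0 ≤ ((N : ℝ) + K * (1 + Real.log K)) * ∑ n ∈ range N, ‖c n‖ ^ 2 := by
    have := Real.log_natCast_nonneg K; positivity
  rcases hT0.eq_or_lt with h7 | h7
  · rw [← h7]; exact h6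
  · refine le_of_mul_le_mul_right ?_ h7
    nlinarith

/-- reduced fractions `b / q` with `0 ≤ b < q ≤ Q`, as pairs `(q, b)` -/
def Far (Q : ℕ) : Finset (ℕ × ℕ) :=
  (Icc 1 Q ×ˢ range Q).filter fun z => z.2 < z.1 ∧ z.2.Coprime z.1

theorem far_sep {Q : ℕ} : ∀ z ∈ Far Q, ∀ w ∈ Far Q, z ≠ w → ∀ r : ℤ,
    1 / ((Q ^ 2 : ℕ) : ℝ) ≤ |(z.2 : ℝ) / z.1 - (w.2 : ℝ) / w.1 - r| := by
  intro z hz w hw hne r
  obtain ⟨q, b⟩ := z
  obtain ⟨q', b'⟩ := w
  simp only [Far, mem_filter, mem_product, mem_Icc, mem_range] at hz hw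
  obtain ⟨⟨⟨q1, q2⟩, -⟩, b1, b2⟩ := hz
  obtain ⟨⟨⟨q1', q2'⟩, -⟩, b1', b2'⟩ := hw
  have q0 : (0 : ℝ) < q := by exact_mod_cast q1
  have q0' : (0 : ℝ) < q' := by exact_mod_cast q1'
  set m : ℤ := b * q' - b' * q - r * (q * q') with hm
  have e : (b : ℝ) / q - b' / q' - r = m / (q * q') := by
    rw [hm]; push_cast; field_simp
  have m0 : m ≠ 0 := by
    intro h0
    have d1 : (q : ℤ) ∣ b * q' := ⟨b' + r * q', by linarith⟩
    have d2 : (q' : ℤ) ∣ b' * q := ⟨b - r * q, by linarith⟩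
    have d3 : q ∣ q' := b2.symm.dvd_of_dvd_mul_left (by exact_mod_cast d1)
    have d4 : q' ∣ q := b2'.symm.dvd_of_dvd_mul_left (by exact_mod_cast d2)
    obtain rfl := Nat.dvd_antisymm d3 d4
    have z0 : (0 : ℤ) < q := by exact_mod_cast q1
    have h5 : (b : ℤ) - b' = r * q := by
      refine mul_right_cancel₀ z0.ne' ?_
      linarith
    have h6 : r = 0 := by
      have a1 : (b : ℤ) < q := by exact_mod_cast b1
      have a2 : (b' : ℤ) < q := by exact_mod_cast b1'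
      have a3 : r < 1 := by by_contra hh; push Not at hh; nlinarith
      have a4 : -1 < r := by by_contra hh; push Not at hh; nlinarith
      omega
    refine hne ?_
    rw [h6] at h5
    have : b = b' := by omega
    rw [this]
  show 1 / ((Q ^ 2 : ℕ) : ℝ) ≤ |(b : ℝ) / q - b' / q' - r|
  rw [e, abs_div, abs_of_pos (mul_pos q0 q0')]
  have m1 : (1 : ℝ) ≤ |(m : ℝ)| := by exact_mod_cast Int.one_le_abs m0
  refine div_le_div₀ (by positivity) m1 (by positivity) ?_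
  push_cast
  rw [sq]
  exact mul_le_mul (by exact_mod_cast q2) (by exact_mod_cast q2') q0'.le (by positivity)

/-- the large sieve for Farey fractions -/
theorem ls_far {Q : ℕ} (hQ : 1 ≤ Q) (N : ℕ) (c : ℕ → ℂ) :
    ∑ z ∈ Far Q, ‖∑ n ∈ range N, c n * ee (n * ((z.2 : ℝ) / z.1))‖ ^ 2 ≤
      (N + (Q : ℝ) ^ 2 * (1 + 2 * Real.log Q)) * ∑ n ∈ range N, ‖c n‖ ^ 2 := by
  simpa using ls (Far Q) (fun z => (z.2 : ℝ) / z.1) (K := Q ^ 2) (Nat.one_le_pow _ _ hQ)
    far_sep N c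

/-- the dual large sieve for any set of Farey fractions -/
theorem ls_far_dual {Q : ℕ} (hQ : 1 ≤ Q) (I : Finset (ℕ × ℕ)) (hI : I ⊆ Far Q) (N : ℕ)
    (b : ℕ × ℕ → ℂ) :
    ∑ n ∈ range N, ‖∑ z ∈ I, b z * ee (n * ((z.2 : ℝ) / z.1))‖ ^ 2 ≤
      (N + (Q : ℝ) ^ 2 * (1 + 2 * Real.log Q)) * ∑ z ∈ I, ‖b z‖ ^ 2 := by
  simpa using ls_dual I (fun z => (z.2 : ℝ) / z.1) (K := Q ^ 2) (Nat.one_le_pow _ _ hQ)
    (fun z hz w hw => far_sep z (hI hz) w (hI hw)) N b

theorem sum_mu (n : ℕ) : ∑ d ∈ n.divisors, (μ d : ℂ) = if n = 1 then 1 else 0 := by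
  have h := congrArg (fun f : ArithmeticFunction ℂ => f n)
    (ArithmeticFunction.coe_moebius_mul_coe_zeta (R := ℂ))
  simp only [ArithmeticFunction.coe_mul_zeta_apply, ArithmeticFunction.one_apply,
    ArithmeticFunction.intCoe_apply] at h
  exact h

/-- the formula of Kluyver for Ramanujan sums -/
theorem ram_formula (a : ℤ) {q : ℕ} (hq : 1 ≤ q) :
    ∑ b ∈ (range q).filter (fun b => Nat.Coprime b q), ee (b * (a / q)) =
      ∑ d ∈ q.divisors, (μ d : ℂ) * if ((q / d : ℕ) : ℤ) ∣ a then ((q / d : ℕ) : ℂ) else 0 := by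
  have h1 : ∀ b ∈ range q, (if Nat.Coprime b q then ee (b * (a / q)) else 0) =
      ∑ d ∈ q.divisors, if d ∣ b then (μ d : ℂ) * ee (b * (a / q)) else 0 := fun b _ => by
    rw [← sum_filter, ← sum_mul]
    have : q.divisors.filter (fun d => d ∣ b) = (Nat.gcd b q).divisors := by
      ext d
      simp only [mem_filter, Nat.mem_divisors, Nat.dvd_gcd_iff, ne_eq, Nat.gcd_eq_zero_iff]
      constructor
      · exact fun h => ⟨⟨h.2, h.1.1⟩, fun h' => h.1.2 h'.2⟩
      · exact fun h => ⟨⟨h.1.2, by omega⟩, h.1.1⟩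
    rw [this, sum_mu]
    by_cases h : Nat.Coprime b q
    · rw [if_pos h, if_pos h, one_mul]
    · rw [if_neg h, if_neg h, zero_mul]
  rw [sum_filter, sum_congr rfl h1, sum_comm]
  refine sum_congr rfl fun d hd => ?_
  obtain ⟨r, rfl⟩ := Nat.dvd_of_mem_divisors hd
  have hd0 : 0 < d := Nat.pos_of_mul_pos_right hq |> fun h => by
    rcases Nat.eq_zero_or_pos d with rfl | h'
    · simp at hq
    · exact h'
  have hr : 1 ≤ r := by
    rcases Nat.eq_zero_or_pos r with rfl | h'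
    · simp at hq
    · exact h'
  rw [Nat.mul_div_cancel_left r hd0, ← orth hr a, ← sum_filter, mul_sum]
  symm
  refine sum_bij (fun c _ => d * c) (fun c hc => ?_) (fun c _ c' _ h => ?_) (fun b hb => ?_)
    fun c _ => ?_
  · exact mem_filter.2 ⟨mem_range.2 (Nat.mul_lt_mul_of_pos_left (mem_range.1 hc) hd0),
      dvd_mul_right _ _⟩
  · exact Nat.eq_of_mul_eq_mul_left hd0 h
  · obtain ⟨h1, c, rfl⟩ := mem_filter.1 hb
    exact ⟨c, mem_range.2 (Nat.lt_of_mul_lt_mul_left (mem_range.1 h1)), rfl⟩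
  · congr 2
    have : (d : ℝ) ≠ 0 := by positivity
    have : (r : ℝ) ≠ 0 := by positivity
    push_cast; field_simp

/-- The sum of `Λ` over the divisors above `U`. -/
def aU (U : ℝ) (m : ℕ) : ℝ := ∑ e ∈ m.divisors, if U < e then Λ e else 0

theorem aU_nonneg (U : ℝ) (m : ℕ) : 0 ≤ aU U m :=
  sum_nonneg fun _ _ => by split_ifs; exacts [vonMangoldt_nonneg, le_rfl]

theorem aU_eq (U : ℝ) (m : ℕ) :
    aU U m = Real.log m - ∑ e ∈ m.divisors, if U < e then 0 else Λ e := by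
  rw [← vonMangoldt_sum, ← sum_sub_distrib]
  exact sum_congr rfl fun e _ => by split_ifs <;> simp

theorem aU_le (U : ℝ) (m : ℕ) : aU U m ≤ Real.log m := by
  rw [aU_eq]
  exact sub_le_self _ (sum_nonneg fun _ _ => by split_ifs; exacts [le_rfl, vonMangoldt_nonneg])

theorem aU_zero {U : ℝ} {m : ℕ} (h : (m : ℝ) ≤ U) : aU U m = 0 :=
  sum_eq_zero fun e he => if_neg (not_lt.2 (le_trans
    (by exact_mod_cast Nat.divisor_le he) h))

theorem vaughan {U : ℝ} {n : ℕ} (h : U < n) :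
    Λ n = ∑ p ∈ n.divisorsAntidiagonal, (μ p.1 : ℝ) * aU U p.2 := by
  let f : ArithmeticFunction ℝ := ⟨fun e => if U < e then Λ e else 0, by simp⟩
  have e : ((μ : ArithmeticFunction ℝ) * (f * (ζ : ArithmeticFunction ℝ))) = f := by
    rw [mul_comm f, ← mul_assoc, coe_moebius_mul_coe_zeta, one_mul]
  have e2 := congrArg (fun g : ArithmeticFunction ℝ => g n) e
  simp only [mul_apply (f := (μ : ArithmeticFunction ℝ)), coe_mul_zeta_apply] at e2
  have e3 : f n = Λ n := if_pos h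
  rw [← e3, ← e2]
  rfl

theorem tau_pow {k : ℕ} (hk : k ≠ 0) (n : ℕ) : n.divisors.card ^ k ≤ (k ^ k) ^ 2 ^ k * n := by
  rcases eq_or_ne n 0 with rfl | hn
  · simp [hk]
  have h0 : ∀ e : ℕ, (e + 1) ^ k ≤ k ^ k * 2 ^ e := fun e => by
    have h1 : e + 1 ≤ k * (e / k + 1) := Nat.lt_mul_div_succ e (by omega)
    have h2 : e / k + 1 ≤ 2 ^ (e / k) := Nat.lt_two_pow_self
    refine (Nat.pow_le_pow_left (h1.trans (Nat.mul_le_mul_left _ h2)) k).trans ?_
    rw [mul_pow, ← pow_mul]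
    exact Nat.mul_le_mul_left _ (Nat.pow_le_pow_right two_pos (Nat.div_mul_le_self _ _))
  rw [Nat.card_divisors hn, ← prod_pow]
  have h1 : ∀ p ∈ n.primeFactors, (n.factorization p + 1) ^ k
      ≤ (if p < 2 ^ k then k ^ k else 1) * p ^ n.factorization p := by
    intro p hp
    have hp2 : 2 ≤ p := (Nat.prime_of_mem_primeFactors hp).two_le
    split_ifs with h
    · exact (h0 _).trans (Nat.mul_le_mul_left _ (Nat.pow_le_pow_left hp2 _))
    · have h2 : n.factorization p + 1 ≤ 2 ^ n.factorization p := Nat.lt_two_pow_self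
      refine (Nat.pow_le_pow_left h2 k).trans ?_
      rw [← pow_mul, mul_comm, pow_mul, one_mul]
      exact Nat.pow_le_pow_left (by omega) _
  refine (prod_le_prod' h1).trans ?_
  rw [prod_mul_distrib, show ∏ p ∈ n.primeFactors, p ^ n.factorization p = n from
    Nat.prod_factorization_pow_eq_self hn, prod_ite, prod_const_one, mul_one, prod_const]
  refine Nat.mul_le_mul_right _ (Nat.pow_le_pow_right (by positivity) ?_)
  exact (card_le_card fun p hp => mem_range.2 (mem_filter.1 hp).2).trans (card_range _).le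

theorem divisor_bound {η : ℝ} (hη : 0 < η) :
    ∃ C : ℝ, 1 ≤ C ∧ ∀ n : ℕ, (n.divisors.card : ℝ) ≤ C * (n : ℝ) ^ η := by
  obtain ⟨k, hk⟩ := exists_nat_gt (1 / η)
  have hk0 : k ≠ 0 := by
    rintro rfl
    have : 0 < 1 / η := by positivity
    simp only [Nat.cast_zero] at hk; linarith
  have hkp : (0 : ℝ) < k := by positivity
  have hA : (1 : ℝ) ≤ ((k ^ k) ^ 2 ^ k : ℕ) := by
    exact_mod_cast Nat.one_le_iff_ne_zero.2 (by positivity)
  refine ⟨_, hA, fun n => ?_⟩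
  rcases eq_or_ne n 0 with rfl | hn
  · simp only [Nat.divisors_zero, card_empty, Nat.cast_zero]; positivity
  have hn1 : (1 : ℝ) ≤ n := by exact_mod_cast Nat.one_le_iff_ne_zero.2 hn
  have h1 : (n.divisors.card : ℝ) ^ k ≤ ((k ^ k) ^ 2 ^ k : ℕ) * n := by
    exact_mod_cast tau_pow hk0 n
  refine le_of_pow_le_pow_left₀ hk0 (by positivity) (h1.trans ?_)
  rw [mul_pow]
  refine mul_le_mul (le_self_pow₀ hA hk0) ?_ (by positivity) (by positivity)
  rw [← Real.rpow_natCast, ← Real.rpow_mul (by positivity)]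
  refine (Real.rpow_one _).ge.trans (Real.rpow_le_rpow_of_exponent_le hn1 ?_)
  rw [div_lt_iff₀ hη] at hk; linarith


/-- summation by parts -/
theorem abel (a : ℕ → ℂ) (g : ℕ → ℝ) (N : ℕ) {K : ℝ}
    (ha : ∀ y, y ≤ N → ‖∑ k ∈ Icc 1 y, a k‖ ≤ K) :
    ‖∑ k ∈ Icc 1 N, a k * g k‖ ≤ K * (|g N| + ∑ k ∈ Ico 1 N, |g (k + 1) - g k|) := by
  have key : ∀ M, M ≤ N → ‖∑ k ∈ Icc 1 M, a k * g k - (∑ k ∈ Icc 1 M, a k) * g M‖ ≤
      K * ∑ k ∈ Ico 1 M, |g (k + 1) - g k| := by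
    intro M
    induction M with
    | zero => simp
    | succ M ih =>
      intro hM
      rcases Nat.eq_zero_or_pos M with rfl | h0
      · simp
      have e : ∑ k ∈ Icc 1 (M + 1), a k * g k - (∑ k ∈ Icc 1 (M + 1), a k) * g (M + 1) =
          (∑ k ∈ Icc 1 M, a k * g k - (∑ k ∈ Icc 1 M, a k) * g M) -
            (∑ k ∈ Icc 1 M, a k) * ((g (M + 1) - g M : ℝ) : ℂ) := by
        rw [sum_Icc_succ_top (by omega), sum_Icc_succ_top (by omega)]
        push_cast; ring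
      rw [e, sum_Ico_succ_top h0, mul_add]
      refine (norm_sub_le _ _).trans (add_le_add (ih (by omega)) ?_)
      rw [norm_mul, Complex.norm_real, Real.norm_eq_abs]
      exact mul_le_mul_of_nonneg_right (ha _ (by omega)) (abs_nonneg _)
  have h1 := key N le_rfl
  have h2 : ‖(∑ k ∈ Icc 1 N, a k) * g N‖ ≤ K * |g N| := by
    rw [norm_mul, Complex.norm_real, Real.norm_eq_abs]
    exact mul_le_mul_of_nonneg_right (ha _ le_rfl) (abs_nonneg _)
  have h3 := norm_add_le (∑ k ∈ Icc 1 N, a k * g k - (∑ k ∈ Icc 1 N, a k) * g N)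
    ((∑ k ∈ Icc 1 N, a k) * g N)
  rw [sub_add_cancel] at h3
  linarith

theorem log_tele (N : ℕ) :
    ∑ k ∈ Ico 1 N, |Real.log ((k + 1 : ℕ) : ℝ) - Real.log k| = Real.log N := by
  rcases Nat.eq_zero_or_pos N with rfl | h0
  · simp
  induction N, h0 using Nat.le_induction with
  | base => simp
  | succ M hM ih =>
    rw [sum_Ico_succ_top hM, ih, abs_of_nonneg]
    · ring
    · exact sub_nonneg.2 (Real.log_le_log (by exact_mod_cast hM) (by push_cast; linarith))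

/-- initial sums with a logarithm -/
theorem abel_log (a : ℕ → ℂ) (N : ℕ) {K : ℝ} (ha : ∀ y, y ≤ N → ‖∑ k ∈ Icc 1 y, a k‖ ≤ K)
    (y : ℕ) (hy : y ≤ N) :
    ‖∑ k ∈ Icc 1 y, a k * (Real.log k : ℝ)‖ ≤ 2 * K * Real.log N := by
  have hK : 0 ≤ K := (norm_nonneg _).trans (ha 0 (Nat.zero_le _))
  have h := abel a (fun k => Real.log k) y fun z hz => ha z (hz.trans hy)
  rw [log_tele, abs_of_nonneg (Real.log_natCast_nonneg y)] at h
  have h2 : Real.log y ≤ Real.log N := by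
    rcases Nat.eq_zero_or_pos y with rfl | hk
    · simpa using Real.log_natCast_nonneg N
    · exact Real.log_le_log (by exact_mod_cast hk) (by exact_mod_cast hy)
  nlinarith

theorem prod_le_card (s : Finset ℕ) (hs : ∀ p ∈ s, 2 ≤ p) :
    ∏ p ∈ s, (p : ℝ) ≤ (s.card + 1) * ∏ p ∈ s, ((p : ℝ) - 1) := by
  induction s using Finset.induction_on_max with
  | empty => simp
  | insert a s ha ih =>
    have has : a ∉ s := fun h => lt_irrefl _ (ha a h)
    have h2 : ∀ p ∈ s, 2 ≤ p := fun p hp => hs p (mem_insert_of_mem hp)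
    have hc : s.card + 2 ≤ a := by
      have h3 : s ⊆ Ico 2 a := fun p hp => mem_Ico.2 ⟨h2 p hp, ha p hp⟩
      have h4 := card_le_card h3
      have h5 := hs a (mem_insert_self _ _)
      rw [Nat.card_Ico] at h4
      omega
    have hc' : (s.card : ℝ) + 2 ≤ a := by exact_mod_cast hc
    have hP : 0 ≤ ∏ p ∈ s, ((p : ℝ) - 1) := prod_nonneg fun p hp => by
      have : (2 : ℝ) ≤ p := by exact_mod_cast h2 p hp
      linarith
    rw [prod_insert has, prod_insert has, card_insert_of_notMem has]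
    push_cast
    have h6 := mul_le_mul_of_nonneg_left (ih h2) (Nat.cast_nonneg a : (0 : ℝ) ≤ a)
    have h7 : (a : ℝ) * (s.card + 1) ≤ (s.card + 1 + 1) * (a - 1) := by nlinarith
    nlinarith [mul_le_mul_of_nonneg_right h7 hP]

/-- a crude lower bound for the totient -/
theorem tot_ge (n : ℕ) : (n : ℝ) ≤ n.totient * (1 + 2 * Real.log n) := by
  rcases Nat.eq_zero_or_pos n with rfl | hn
  · simp
  have h2 : ∀ p ∈ n.primeFactors, 2 ≤ p := fun p hp => (Nat.prime_of_mem_primeFactors hp).two_le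
  have h1 := prod_le_card n.primeFactors h2
  have h3 : (n.totient : ℝ) * ∏ p ∈ n.primeFactors, (p : ℝ) =
      n * ∏ p ∈ n.primeFactors, ((p : ℝ) - 1) := by
    have h := congrArg (Nat.cast (R := ℝ)) (Nat.totient_mul_prod_primeFactors n)
    push_cast at h
    rw [h]
    congr 1
    exact prod_congr rfl fun p hp => by rw [Nat.cast_sub (by have := h2 p hp; omega)]; simp
  have hP : 0 < ∏ p ∈ n.primeFactors, (p : ℝ) := prod_pos fun p hp => by
    have := h2 p hp; positivity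
  have h4 : (2 : ℝ) ^ n.primeFactors.card ≤ n := by
    have h5 : 2 ^ n.primeFactors.card ≤ ∏ p ∈ n.primeFactors, p :=
      pow_card_le_prod _ _ _ h2
    exact_mod_cast h5.trans (Nat.le_of_dvd hn (Nat.prod_primeFactors_dvd n))
  have h6 : (n.primeFactors.card : ℝ) * Real.log 2 ≤ Real.log n := by
    rw [← Real.log_pow]; exact Real.log_le_log (by positivity) h4
  have h7 : (n.primeFactors.card : ℝ) ≤ 2 * Real.log n := by
    nlinarith [Real.log_two_gt_d9, (Nat.cast_nonneg n.primeFactors.card : (0 : ℝ) ≤ _)]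
  have hP' : 0 < ∏ p ∈ n.primeFactors, ((p : ℝ) - 1) := prod_pos fun p hp => by
    have : (2 : ℝ) ≤ p := by exact_mod_cast h2 p hp
    linarith
  refine le_of_mul_le_mul_right ?_ hP'
  rw [← h3]
  have h8 : (0 : ℝ) ≤ n.totient := Nat.cast_nonneg _
  nlinarith [mul_le_mul_of_nonneg_left h1 h8,
    mul_le_mul_of_nonneg_right (mul_le_mul_of_nonneg_left h7 h8) hP'.le]

end

end Pool.Agent.MP_678834_nt.gy

end Piece0

-- ======== piece 1: Spec
section Piece1

/-! Project GY: a lower bound for the variance of primes in short intervals. Definitions and the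
statements of the modules. -/

set_option autoImplicit false

namespace Pool.Agent.MP_678834_nt.gy

open Finset Filter ComplexConjugate ArithmeticFunction
open scoped ArithmeticFunction.Moebius

noncomputable section

/-- admissible smooth weights in the logarithmic variable -/
structure Wt (V : ℝ → ℝ) (L : ℝ) : Prop where
  one : 1 ≤ L
  nn : ∀ t, 0 ≤ V t
  le : ∀ t, V t ≤ 1
  supp : ∀ t, V t ≠ 0 → 0 < t ∧ t < Real.log 2
  lip : ∀ s t, |V s - V t| ≤ L * |s - t|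
  four : ∃ κ : ℝ → ℂ, Continuous κ ∧ (∀ u, ‖κ u‖ ≤ L / (1 + u ^ 2)) ∧
    ∀ y : ℝ, (V y : ℂ) = ∫ u : ℝ, κ u * Complex.exp ((u * y : ℝ) * Complex.I)

/-- the weight on integers, supported in the open interval from `X` to `2 X` -/
def om (V : ℝ → ℝ) (X n : ℕ) : ℝ := V (Real.log n - Real.log X)

/-- the logarithmic size -/
def ell (X : ℕ) : ℝ := 1 + Real.log (2 * X)

/-- weighted sums over primes -/
def psw (V : ℝ → ℝ) (X : ℕ) (f : ℕ → ℂ) : ℂ :=
  ∑ n ∈ Icc 1 (2 * X), f n * ((Λ n * om V X n : ℝ) : ℂ)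

/-- the weighted prime count -/
def ps1 (V : ℝ → ℝ) (X : ℕ) : ℝ := ∑ n ∈ Icc 1 (2 * X), Λ n * om V X n

/-- sharp initial sums -/
def pp (f : ℕ → ℂ) (y : ℕ) : ℂ := ∑ d ∈ Icc 1 y, f d

/-- linear forms in the values of `f` -/
def lf (a f : ℕ → ℂ) (M : ℕ) : ℂ := ∑ m ∈ Icc 1 M, a m * f m

/-- families of multiplicative functions with bounded initial sums and a large sieve -/
structure Fam {ι : Type} (S : Finset ι) (χ : ι → ℕ → ℂ) (K D : ℝ) : Prop where
  mul : ∀ i ∈ S, ∀ m n, χ i (m * n) = χ i m * χ i n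
  le : ∀ i ∈ S, ∀ n, ‖χ i n‖ ≤ 1
  pv : ∀ i ∈ S, ∀ y, ‖pp (χ i) y‖ ≤ K
  K0 : 0 ≤ K
  card : (S.card : ℝ) ≤ D
  ls : ∀ (N : ℕ) (c : ℕ → ℂ), ∑ i ∈ S, ‖lf c (χ i) N‖ ^ 2 ≤ (N + D) * ∑ n ∈ Icc 1 N, ‖c n‖ ^ 2

/-- characters together with their moduli -/
abbrev Ch : Type := Σ q : ℕ, DirichletCharacter ℂ q

/-- the values at natural numbers -/
def cv (z : Ch) (n : ℕ) : ℂ := z.2 (n : ZMod z.1)

/-- sets of primitive characters with moduli from 2 to `R` -/
def Prim (S : Finset Ch) (R : ℕ) : Prop := ∀ z ∈ S, 1 < z.1 ∧ z.1 ≤ R ∧ z.2.IsPrimitive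

/-- the discrepancy of the class `-d` modulo `e` -/
def disc (V : ℝ → ℝ) (X e : ℕ) (d : ℤ) : ℝ :=
  ∑ n ∈ Icc 1 (2 * X), Λ n * om V X n * ((if (e : ℤ) ∣ n + d then 1 else 0) -
    if d.natAbs.Coprime e then 1 / (e.totient : ℝ) else 0)

/-- the discrepancy summed over the shifts `k - j` -/
def dsum (V : ℝ → ℝ) (X h e : ℕ) : ℝ :=
  ∑ j ∈ Icc 1 h, ∑ k ∈ Icc 1 h, disc V X e ((k : ℤ) - j)

def rho (r : ℕ) : ℝ := (μ r : ℝ) / (r.totient : ℝ)

/-- the fraction of a pair -/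
def fr (z : ℕ × ℕ) : ℝ := (z.2 : ℝ) / z.1

/-- the Dirichlet kernel -/
def DD (h : ℕ) (α : ℝ) : ℂ := ∑ k ∈ Icc 1 h, ee (k * α)

/-- reduced fractions with denominators in the half open interval from `R` to `Q` -/
def FF (R Q : ℕ) : Finset (ℕ × ℕ) := (Far Q).filter fun z => R < z.1

def Phi (h R Q : ℕ) : ℝ := ∑ z ∈ FF R Q, rho z.1 ^ 2 * ‖DD h (fr z)‖ ^ 2

def HH (h R Q n : ℕ) : ℂ :=
  ∑ z ∈ FF R Q, ((rho z.1 * ‖DD h (fr z)‖ ^ 2 : ℝ) : ℂ) * ee (n * fr z)

/-- the second moment about `m` -/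
def Var (X h : ℕ) (m : ℝ) : ℝ := ∑ n ∈ Ioc X (2 * X), ((∑ j ∈ Icc 1 h, Λ (n + j)) - m) ^ 2

/-! ### statements -/

def BumpStmt : Prop := ∀ δ : ℝ, 0 < δ → ∃ (V : ℝ → ℝ) (L : ℝ), Wt V L ∧
  ∀ t, δ ≤ t → t ≤ Real.log 2 - δ → V t = 1

/-- Polya-Vinogradov and the multiplicative large sieve -/
def FAMStmt : Prop := ∀ (R : ℕ) (S : Finset Ch), 1 ≤ R → Prim S R →
  Fam S cv (√R * (1 + Real.log R)) (1 + (R : ℝ) ^ 2 * (1 + 2 * Real.log R))

/-- separation of variables -/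
def SEPStmt : Prop := ∀ (V : ℝ → ℝ) (L : ℝ), Wt V L → ∀ (ι : Type) (S : Finset ι)
  (χ : ι → ℕ → ℂ) (w : ι → ℝ) (X M N : ℕ) (a b : ℕ → ℂ) (B : ℝ),
  (∀ i ∈ S, ∀ m n, χ i (m * n) = χ i m * χ i n) → (∀ i ∈ S, 0 ≤ w i) →
  (∀ a' b' : ℕ → ℂ, (∀ m, ‖a' m‖ ≤ ‖a m‖) → (∀ n, ‖b' n‖ ≤ ‖b n‖) →
    ∑ i ∈ S, w i * (‖lf a' (χ i) M‖ * ‖lf b' (χ i) N‖) ≤ B) →
  ∑ i ∈ S, w i * ‖∑ m ∈ Icc 1 M, ∑ n ∈ Icc 1 N,
    a m * b n * (χ i (m * n) * (om V X (m * n) : ℝ))‖ ≤ 4 * L * B

/-- the two bilinear bounds -/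
def IIStmt : Prop := ∀ (ι : Type) (S : Finset ι) (χ : ι → ℕ → ℂ) (K D : ℝ), Fam S χ K D →
  ∀ (y M N : ℕ) (a b : ℕ → ℂ), (∀ m, ‖a m‖ ≤ 1) → (∀ n, ‖b n‖ ≤ 1) →
    ∑ i ∈ S, ‖pp (χ i) y‖ * (‖lf a (χ i) M‖ * ‖lf b (χ i) N‖) ≤
        K * √((M + D) * M * ((N + D) * N)) ∧
      ∀ T : ℝ, (∀ k : ℕ, k ≤ y * M → (k.divisors.card : ℝ) ≤ T) →
        ∑ i ∈ S, ‖pp (χ i) y‖ * (‖lf a (χ i) M‖ * ‖lf b (χ i) N‖) ≤
          √((y * M + D) * (T * y * M) * ((N + D) * N))

/-- dyadic decomposition of a bilinear sum -/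
def DYAStmt : Prop := ∀ (V : ℝ → ℝ) (L : ℝ), Wt V L → ∀ (ι : Type) (S : Finset ι)
  (χ : ι → ℕ → ℂ) (w : ι → ℝ) (X : ℕ) (U B : ℝ), 1 ≤ X →
  (∀ i ∈ S, ∀ m n, χ i (m * n) = χ i m * χ i n) → (∀ i ∈ S, 0 ≤ w i) → 0 ≤ U → 0 ≤ B →
  (∀ (M N : ℕ) (a b : ℕ → ℂ), M * N ≤ 4 * X → M * U ≤ 4 * X → N * U ≤ 4 * X →
    (∀ m, ‖a m‖ ≤ 1) → (∀ n, ‖b n‖ ≤ 1) →
    ∑ i ∈ S, w i * (‖lf a (χ i) M‖ * ‖lf b (χ i) N‖) ≤ B) →
  ∀ a b : ℕ → ℂ, (∀ m, ‖a m‖ ≤ 1) → (∀ n, ‖b n‖ ≤ 1) →
    (∀ t : ℕ, a t ≠ 0 → U < t ∧ t * U ≤ 2 * X) →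
    ∑ i ∈ S, w i * ‖∑ t ∈ Icc 1 (2 * X), ∑ k ∈ Icc 1 (2 * X),
      a t * b k * (χ i (t * k) * (om V X (t * k) : ℝ))‖ ≤ 8 * L * ell X * B

/-- the Vaughan decomposition -/
def VAUStmt : Prop := ∀ (V : ℝ → ℝ) (L : ℝ), Wt V L → ∀ (ι : Type) (S : Finset ι)
  (χ : ι → ℕ → ℂ) (K D : ℝ) (w : ι → ℝ) (X : ℕ) (U B : ℝ), Fam S χ K D → (∀ i ∈ S, 0 ≤ w i) →
  1 ≤ U → U ^ 3 ≤ X → 0 ≤ B →
  (∀ (M N : ℕ) (a b : ℕ → ℂ), M * N ≤ 4 * X → M * U ≤ 4 * X → N * U ≤ 4 * X →
    (∀ m, ‖a m‖ ≤ 1) → (∀ n, ‖b n‖ ≤ 1) →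
    ∑ i ∈ S, w i * (‖lf a (χ i) M‖ * ‖lf b (χ i) N‖) ≤ B) →
  ∑ i ∈ S, w i * ‖psw V X (χ i)‖ ≤ 100 * L * ell X ^ 3 * (K * U * (∑ i ∈ S, w i) + B)

open Classical in
/-- Siegel-Walfisz -/
def SW0Stmt : Prop := ∀ A B : ℕ, ∃ C y₀ : ℝ, ∀ (y q : ℕ) (χ : DirichletCharacter ℂ q),
  y₀ ≤ y → 1 ≤ q → (q : ℝ) ≤ Real.log y ^ B →
    ‖∑ n ∈ Icc 1 y, ((Λ n : ℂ) * χ n - if χ = 1 then 1 else 0)‖ ≤ C * y / Real.log y ^ A

/-- Siegel-Walfisz with the smooth weight -/
def SWWStmt : Prop := ∀ (V : ℝ → ℝ) (L : ℝ), Wt V L → ∀ A B : ℕ, ∀ᶠ X : ℕ in atTop,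
  ∀ z : Ch, 1 ≤ z.1 → (z.1 : ℝ) ≤ Real.log X ^ B → z.2 ≠ 1 →
    ‖psw V X (cv z)‖ ≤ X / Real.log X ^ A

/-- the prime number theorem with the smooth weight, lower bound -/
def PNWStmt : Prop := ∀ ε : ℝ, 0 < ε → ∃ δ : ℝ, 0 < δ ∧ ∀ (V : ℝ → ℝ) (L : ℝ), Wt V L →
  (∀ t, δ ≤ t → t ≤ Real.log 2 - δ → V t = 1) → ∀ᶠ X : ℕ in atTop, (1 - ε) * X ≤ ps1 V X

/-- the cross term -/
def KEYStmt : Prop := ∀ (V : ℝ → ℝ) (X h R Q : ℕ), Q ≤ X →
  ‖psw V X (HH h R Q) - ((ps1 V X * Phi h R Q : ℝ) : ℂ)‖ ≤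
    2 * ell X ^ 2 * ∑ e ∈ Icc 1 Q, |dsum V X h e|

/-- the diagonal -/
def PHIStmt : Prop := ∀ h R Q : ℕ, 1 ≤ h → h ≤ R → R ≤ Q →
  h * (∑ r ∈ Ioc R Q, (μ r : ℝ) ^ 2 / (r.totient : ℝ)) -
    20 * (h : ℝ) ^ 2 * (1 + Real.log Q) ^ 3 / R ≤ Phi h R Q

def SQFStmt : Prop := ∀ R Q T : ℕ, 1 ≤ R → 1 ≤ T → 1 ≤ Q →
  Real.log Q - Real.log R - 2 * Real.log T - 1 - 2 * (1 + Real.log Q) / T ≤
    ∑ r ∈ Ioc R Q, (μ r : ℝ) ^ 2 / (r.totient : ℝ)

/-- Cauchy-Schwarz with the dual large sieve -/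
def CSStmt : Prop := ∀ (V : ℝ → ℝ) (L : ℝ), Wt V L → ∀ (X h R Q : ℕ) (m : ℝ), 2 * h ≤ X →
  1 ≤ X → 1 ≤ R → 1 ≤ Q →
  ‖psw V X (HH h R Q)‖ ≤
    √(Var X h m * ((X + (Q : ℝ) ^ 2 * (1 + 2 * Real.log Q)) * Phi h R Q)) +
      10 * L * ell X * ((h : ℝ) ^ 3 * Q + |m| * h * (Q : ℝ) ^ 2)

/-! ### the weight -/

theorem ell_one {X : ℕ} (hX : 1 ≤ X) : 1 ≤ ell X := by
  have : (1 : ℝ) ≤ X := by exact_mod_cast hX
  have := Real.log_nonneg (by linarith : (1 : ℝ) ≤ 2 * X)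
  unfold ell; linarith

theorem Wt.om_supp {V : ℝ → ℝ} {L : ℝ} (hV : Wt V L) {X n : ℕ} (hX : 1 ≤ X)
    (h : om V X n ≠ 0) : X < n ∧ n < 2 * X := by
  obtain ⟨h1, h2⟩ := hV.supp _ h
  have hX' : (0 : ℝ) < X := by exact_mod_cast hX
  have hn : 0 < n := by
    rcases Nat.eq_zero_or_pos n with rfl | hn
    · have := Real.log_natCast_nonneg X
      simp only [Nat.cast_zero, Real.log_zero] at h1
      linarith
    · exact hn
  have hn' : (0 : ℝ) < n := by exact_mod_cast hn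
  constructor
  · exact_mod_cast (Real.log_lt_log_iff hX' hn').1 (by linarith)
  · have h3 : Real.log n < Real.log (2 * X) := by
      rw [Real.log_mul (by norm_num) hX'.ne']; linarith
    exact_mod_cast (Real.log_lt_log_iff hn' (by positivity)).1 h3

theorem Wt.om_abs {V : ℝ → ℝ} {L : ℝ} (hV : Wt V L) (X n : ℕ) : |om V X n| ≤ 1 :=
  abs_le.2 ⟨le_trans (by norm_num) (hV.nn (Real.log n - Real.log X)), hV.le _⟩

/-- summation by parts against the weight -/
theorem Wt.abel_om {V : ℝ → ℝ} {L : ℝ} (hV : Wt V L) (a : ℕ → ℂ) (X N : ℕ) {t : ℕ} (ht : 1 ≤ t)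
    {K : ℝ} (ha : ∀ y, y ≤ N → ‖∑ k ∈ Icc 1 y, a k‖ ≤ K) :
    ‖∑ k ∈ Icc 1 N, a k * (om V X (t * k) : ℝ)‖ ≤ K * (L * (1 + Real.log N)) := by
  have hK : 0 ≤ K := (norm_nonneg _).trans (ha 0 (Nat.zero_le _))
  refine (abel a (fun k => om V X (t * k)) N ha).trans (mul_le_mul_of_nonneg_left ?_ hK)
  have h1 := hV.om_abs X (t * N)
  have h2 : ∑ k ∈ Ico 1 N, |om V X (t * (k + 1)) - om V X (t * k)| ≤ L * Real.log N := by
    rw [← log_tele, mul_sum]
    refine sum_le_sum fun k hk => (hV.lip _ _).trans (le_of_eq ?_)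
    have hk0 : (k : ℝ) ≠ 0 := by have := (mem_Ico.1 hk).1; positivity
    have ht0 : (t : ℝ) ≠ 0 := by positivity
    push_cast
    rw [Real.log_mul ht0 (by positivity), Real.log_mul ht0 hk0]
    congr 2; ring
  nlinarith [hV.one]

theorem DD_sq (h : ℕ) (α : ℝ) : ((‖DD h α‖ ^ 2 : ℝ) : ℂ) =
    ∑ j ∈ Icc 1 h, ∑ k ∈ Icc 1 h, ee ((((k : ℤ) - j : ℤ) : ℝ) * α) := by
  push_cast
  rw [← Complex.conj_mul', DD, map_sum, sum_mul_sum]
  refine sum_congr rfl fun j _ => sum_congr rfl fun k _ => ?_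
  rw [conj_ee, ← ee_add]
  congr 1; ring

theorem DD_le (h : ℕ) (α : ℝ) : ‖DD h α‖ ≤ h :=
  (norm_sum_le _ _).trans (by simp [norm_ee])

theorem sum_FF {M : Type} [AddCommMonoid M] (R Q : ℕ) (f : ℕ × ℕ → M) :
    ∑ z ∈ FF R Q, f z =
      ∑ r ∈ Ioc R Q, ∑ b ∈ (range r).filter (fun b => Nat.Coprime b r), f (r, b) := by
  rw [sum_sigma']
  refine sum_bij' (fun z _ => ⟨z.1, z.2⟩) (fun z _ => (z.1, z.2)) (fun z hz => ?_)
    (fun z hz => ?_) (fun _ _ => rfl) (fun _ _ => rfl) fun _ _ => rfl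
  · simp only [FF, Far, mem_filter, mem_product, mem_Icc, mem_range, mem_sigma, mem_Ioc] at hz ⊢
    tauto
  · simp only [FF, Far, mem_filter, mem_product, mem_Icc, mem_range, mem_sigma, mem_Ioc] at hz ⊢
    refine ⟨⟨⟨⟨?_, hz.1.2⟩, ?_⟩, hz.2⟩, hz.1.1⟩ <;> omega

theorem rho_abs (r : ℕ) : |rho r| ≤ 1 / (r.totient : ℝ) := by
  rw [rho, abs_div, Nat.abs_cast]
  refine div_le_div_of_nonneg_right ?_ (Nat.cast_nonneg _)
  exact_mod_cast abs_moebius_le_one

end

end Pool.Agent.MP_678834_nt.gy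

end Piece1

-- ======== piece 2: Spec2
section Piece2

/-! Project GY: the consequence for prime pairs. -/

set_option autoImplicit false

namespace Pool.Agent.MP_678834_nt.gy

open Finset Filter ComplexConjugate ArithmeticFunction
open scoped ArithmeticFunction.Moebius

noncomputable section

/-- the prime count of a dyadic interval -/
def th (X : ℕ) : ℝ := ∑ n ∈ Ioc X (2 * X), Λ n

def CORStmt : Prop := ∀ (X h : ℕ) (W : ℝ), 1 ≤ X → h ≤ X → (∀ m : ℝ, W ≤ Var X h m) →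
  (h : ℝ) ^ 2 * th X ^ 2 / X + W - h * Real.log (2 * X) * th X - 5 * (h : ℝ) ^ 3 * ell X ^ 2 ≤
    2 * ∑ d ∈ Icc 1 h, ((h : ℝ) - d) * ∑ n ∈ Ioc X (2 * X), Λ n * Λ (n + d)

def THStmt : Prop := ∀ ε : ℝ, 0 < ε → ∀ᶠ X : ℕ in atTop, th X ≤ (1 + ε) * X

end

end Pool.Agent.MP_678834_nt.gy

end Piece2

-- ======== piece 3: Spec3
section Piece3

/-! Project GY, second stage: the dual sum of the Fejer kernel gives the whole range. -/

set_option autoImplicit false

namespace Pool.Agent.MP_678834_nt.gy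

open Finset Filter ComplexConjugate ArithmeticFunction
open scoped ArithmeticFunction.Moebius

noncomputable section

/-- the character sum of the Fejer kernel -/
def wz (z : Ch) (y : ℕ) : ℂ := (1 + z.2 (-1)) * ∑ j ∈ range y, pp (cv z) j

/-- admissible parameters, second stage -/
structure Adm2 (η : ℝ) (X h Q : ℕ) : Prop where
  h1 : 1 ≤ h
  Q1 : 1 ≤ Q
  hQQ : (h : ℝ) * Q ^ 2 ≤ (X : ℝ) ^ (1 - η)
  hhQ : (h : ℝ) ^ 2 * Q ≤ (X : ℝ) ^ (1 - η)
  h3 : (h : ℝ) ≤ (X : ℝ) ^ (1 / 3 - η)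

/-- the dual sum -/
def DUALStmt : Prop := ∀ z : Ch, 1 < z.1 → z.2.IsPrimitive → ∀ y : ℕ,
  ‖wz z y‖ ≤ 60 * (y / (z.1 * √z.1)) *
    ∑ a ∈ Icc 1 z.1, min (y : ℝ) ((z.1 : ℝ) / a) ^ 2 * ‖pp (cv z) a‖

def BLK2Stmt : Prop := ∀ (V : ℝ → ℝ) (L : ℝ), Wt V L → ∀ η : ℝ, 0 < η → η ≤ 1 / 100 →
  ∃ C : ℝ, 0 ≤ C ∧ ∀ᶠ X : ℕ in atTop, ∀ (h Q y R : ℕ) (S : Finset Ch), Adm2 η X h Q → y ≤ h →
    1 ≤ R → R ≤ Q → Prim S (2 * R) → (∀ z ∈ S, R ≤ z.1) →
    ∑ z ∈ S, ‖wz z y‖ * ‖psw V X (cv z)‖ ≤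
      C * y * R * X * ell X ^ 7 * (1 / √R + (X : ℝ) ^ (-(η / 20)))

def MV2Stmt : Prop := ∀ (V : ℝ → ℝ) (L : ℝ), Wt V L → ∀ η : ℝ, 0 < η → η ≤ 1 / 100 → ∀ A : ℕ,
  ∀ᶠ X : ℕ in atTop, ∀ (h Q y : ℕ) (S : Finset Ch), Adm2 η X h Q → y ≤ h → Prim S Q →
    ∑ z ∈ S, 1 / (z.1 : ℝ) * (‖wz z y‖ * ‖psw V X (cv z)‖) ≤ y * (X / Real.log X ^ A)

open Classical in
def RDA2Stmt : Prop := ∀ (V : ℝ → ℝ) (L : ℝ), Wt V L → ∀ (X h e : ℕ), 1 ≤ X → 1 ≤ e →
  |dsum V X h e| ≤ 2 * (h : ℝ) ^ 2 * e * ell X + 1 / (e.totient : ℝ) *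
    ∑ χ : DirichletCharacter ℂ e, if χ = 1 then 0 else
      ‖wz ⟨e, χ⟩ h‖ * ‖psw V X (cv ⟨χ.conductor, χ.primitiveCharacter⟩)‖

def RED2Stmt : Prop := ∀ (V : ℝ → ℝ) (L : ℝ), Wt V L → ∀ (X h Q : ℕ) (T : ℝ), 1 ≤ X → Q ≤ X →
  0 ≤ T →
  (∀ (y : ℕ) (S : Finset Ch), y ≤ h → Prim S Q →
    ∑ z ∈ S, 1 / (z.1 : ℝ) * (‖wz z y‖ * ‖psw V X (cv z)‖) ≤ y * T) →
  ∑ e ∈ Icc 1 Q, |dsum V X h e| ≤ 10 * ell X ^ 3 * (h * T + (h : ℝ) ^ 2 * (Q : ℝ) ^ 2)

theorem wz_le (z : Ch) (y : ℕ) {K : ℝ} (hK : ∀ j, ‖pp (cv z) j‖ ≤ K) : ‖wz z y‖ ≤ 2 * (y * K) := by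
  rw [wz, norm_mul]
  refine mul_le_mul ((norm_add_le _ _).trans ?_) ((norm_sum_le _ _).trans ?_) (norm_nonneg _)
    zero_le_two
  · have := DirichletCharacter.norm_le_one z.2 (-1)
    rw [norm_one]; linarith
  · simpa using sum_le_card_nsmul (range y) _ K fun j _ => hK j

end

end Pool.Agent.MP_678834_nt.gy

end Piece3

-- ======== piece 4: Spec4
section Piece4

/-! Project GY: the integral form. -/

set_option autoImplicit false

namespace Pool.Agent.MP_678834_nt.gy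

open Finset Filter

def VARStmt : Prop := ∀ ε : ℝ, 0 < ε → ∀ᶠ X : ℕ in atTop, ∀ h : ℕ, 1 ≤ h →
  (h : ℝ) ≤ (X : ℝ) ^ (1 / 3 - ε) → ∀ m : ℝ,
    (1 / 2 - ε) * h * X * Real.log (X / (h : ℝ) ^ 3) ≤ Var X h m

def INTStmt : Prop := ∀ ε : ℝ, 0 < ε → ∀ᶠ x : ℝ in atTop, ∀ h : ℝ, 1 ≤ h →
  h ≤ x ^ (1 / 3 - ε) → (1 / 2 - ε) * h * x * Real.log (x / h ^ 3) ≤
    ∫ y in x..2 * x, (Chebyshev.psi (y + h) - Chebyshev.psi y - h) ^ 2

end Pool.Agent.MP_678834_nt.gy

end Piece4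

-- ======== piece 5: Fam
section Piece5

/-! Project GY: the Polya-Vinogradov inequality and the multiplicative large sieve. -/

set_option autoImplicit false

namespace Pool.Agent.MP_678834_nt.gy

open Finset Filter ComplexConjugate ArithmeticFunction
open scoped ArithmeticFunction.Moebius

noncomputable section

namespace FamAux

theorem zsum {q : ℕ} [NeZero q] (f : ZMod q → ℂ) :
    ∑ a : ZMod q, f a = ∑ a ∈ range q, f (a : ZMod q) := by
  refine sum_nbij' ZMod.val (fun a : ℕ => (a : ZMod q)) (fun a _ => ?_) (fun a _ => ?_)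
    (fun a _ => ?_) (fun a ha => ?_) fun a _ => ?_
  · exact mem_range.2 (ZMod.val_lt a)
  · exact mem_univ _
  · exact ZMod.natCast_zmod_val a
  · exact ZMod.val_cast_of_lt (mem_range.1 ha)
  · rw [ZMod.natCast_zmod_val]

theorem pars {ι : Type} (I : Finset ι) (A : Finset ℕ) (u : ι → ℕ → ℂ) (w : ℕ → ℝ)
    (h : ∀ a ∈ A, ∀ b ∈ A, ∑ i ∈ I, u i a * conj (u i b) = if a = b then (w a : ℂ) else 0)
    (s : ℕ → ℂ) : ∑ i ∈ I, ‖∑ a ∈ A, u i a * s a‖ ^ 2 = ∑ a ∈ A, w a * ‖s a‖ ^ 2 := by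
  apply Complex.ofReal_injective
  push_cast
  calc ∑ i ∈ I, (‖∑ a ∈ A, u i a * s a‖ : ℂ) ^ 2
      = ∑ i ∈ I, ∑ a ∈ A, ∑ b ∈ A, s a * conj (s b) * (u i a * conj (u i b)) := by
        refine sum_congr rfl fun i _ => ?_
        rw [← Complex.mul_conj', map_sum, sum_mul_sum]
        refine sum_congr rfl fun a _ => sum_congr rfl fun b _ => ?_
        rw [map_mul]; ring
    _ = ∑ a ∈ A, ∑ b ∈ A, s a * conj (s b) * ∑ i ∈ I, u i a * conj (u i b) := by
        rw [sum_comm]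
        refine sum_congr rfl fun a _ => ?_
        rw [sum_comm]
        exact sum_congr rfl fun b _ => (mul_sum _ _ _).symm
    _ = _ := by
        refine sum_congr rfl fun a ha => ?_
        rw [sum_congr rfl fun b hb => by rw [h a ha b hb, mul_ite, mul_zero], sum_ite_eq,
          if_pos ha, Complex.mul_conj', mul_comm]

theorem pars_add {q : ℕ} (hq : 0 < q) (s : ℕ → ℂ) :
    ∑ n ∈ range q, ‖∑ a ∈ range q, ee (n * ((a : ℝ) / q)) * s a‖ ^ 2 =
      q * ∑ a ∈ range q, ‖s a‖ ^ 2 := by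
  rw [mul_sum]
  refine pars (range q) (range q) (fun n a => ee (n * ((a : ℝ) / q))) (fun _ => q)
    (fun a ha b hb => ?_) s
  have e : ∀ n ∈ range q, ee (n * ((a : ℝ) / q)) * conj (ee (n * ((b : ℝ) / q))) =
      ee (n * ((((a : ℤ) - b : ℤ) : ℝ) / q)) := fun n _ => by
    rw [conj_ee, ← ee_add]; congr 1; push_cast; ring
  rw [sum_congr rfl e, orth hq]
  have ha' := mem_range.1 ha
  have hb' := mem_range.1 hb
  by_cases hab : a = b
  · simp [hab]
  · rw [if_neg hab, if_neg]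
    intro hd
    have := Int.eq_zero_of_abs_lt_dvd hd (by rw [abs_lt]; constructor <;> omega)
    omega

theorem pars_mul {q : ℕ} [NeZero q] (s : ℕ → ℂ) :
    ∑ χ : DirichletCharacter ℂ q, ‖∑ a ∈ range q, χ⁻¹ (a : ZMod q) * s a‖ ^ 2 =
      q.totient * ∑ a ∈ (range q).filter (fun b => Nat.Coprime b q), ‖s a‖ ^ 2 := by
  rw [sum_filter, mul_sum]
  refine (pars univ (range q) (fun (χ : DirichletCharacter ℂ q) a => χ⁻¹ (a : ZMod q))
    (fun a => if Nat.Coprime a q then q.totient else 0) (fun a ha b hb => ?_) s).trans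
    (sum_congr rfl fun a _ => by split_ifs <;> simp)
  have e : ∀ χ : DirichletCharacter ℂ q, χ⁻¹ (a : ZMod q) * conj (χ⁻¹ (b : ZMod q)) =
      χ (Ring.inverse (a : ZMod q) * b) := fun χ => by
    have := MulChar.star_apply' χ⁻¹ (b : ZMod q)
    rw [inv_inv] at this
    rw [map_mul, ← MulChar.inv_apply, ← this]
    rfl
  rw [sum_congr rfl fun χ _ => e χ, DirichletCharacter.sum_characters_eq]
  by_cases hu : IsUnit (a : ZMod q)
  · have hc := (ZMod.isUnit_iff_coprime a q).1 hu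
    by_cases hab : a = b
    · subst hab
      rw [if_pos (Ring.inverse_mul_cancel _ hu), if_pos rfl, if_pos hc]
      simp
    · rw [if_neg hab, if_neg]
      intro h1
      have h2 : (b : ZMod q) = a := by
        rw [← Ring.mul_inverse_cancel_left (a : ZMod q) b hu, h1, mul_one]
      have h3 := congrArg ZMod.val h2
      rw [ZMod.val_cast_of_lt (mem_range.1 ha), ZMod.val_cast_of_lt (mem_range.1 hb)] at h3
      exact hab h3.symm
  · have hc : ¬ Nat.Coprime a q := fun c => hu ((ZMod.isUnit_iff_coprime a q).2 c)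
    rw [if_neg hc, if_neg]
    · simp
    · intro h1
      rw [Ring.inverse_non_unit _ hu, zero_mul] at h1
      exact hu (by rw [← mul_one (a : ZMod q), ← h1, mul_zero, h1]; exact isUnit_one)

/-- the expansion of a primitive character in additive characters -/
theorem expand {q : ℕ} (hq : 1 < q) (χ : DirichletCharacter ℂ q) (hχ : χ.IsPrimitive) :
    ∃ τ : ℂ, ‖τ‖ ^ 2 = q ∧ ∀ n : ℕ, τ * χ (n : ZMod q) =
      ∑ a ∈ range q, χ⁻¹ (a : ZMod q) * ee (n * ((a : ℝ) / q)) := by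
  have : NeZero q := ⟨by omega⟩
  have hi : DirichletCharacter.IsPrimitive χ⁻¹ := by
    rw [DirichletCharacter.isPrimitive_def, DirichletCharacter.conductor_inv]; exact hχ
  have key : ∀ n : ℕ, gaussSum χ⁻¹ ZMod.stdAddChar * χ (n : ZMod q) =
      ∑ a ∈ range q, χ⁻¹ (a : ZMod q) * ee (n * ((a : ℝ) / q)) := fun n => by
    have h := gaussSum_mulShift_of_isPrimitive ZMod.stdAddChar hi (n : ZMod q)
    rw [inv_inv] at h
    rw [mul_comm, ← h, gaussSum, zsum]
    refine sum_congr rfl fun a _ => ?_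
    congr 1
    have e : (n : ZMod q) * (a : ZMod q) = ((n * a : ℤ) : ZMod q) := by push_cast; rfl
    rw [AddChar.mulShift_apply, e, ZMod.stdAddChar_coe, ee]
    congr 1; push_cast; ring
  refine ⟨_, ?_, key⟩
  have h1 := pars_add (by omega : 0 < q) fun a => χ⁻¹ (a : ZMod q)
  have h2 : ∀ a : ZMod q, ‖χ⁻¹ a‖ = ‖χ a‖ := fun a => by
    rw [← MulChar.star_apply', norm_star]
  have h3 : ∀ n ∈ range q, ‖∑ a ∈ range q, ee (n * ((a : ℝ) / q)) * χ⁻¹ (a : ZMod q)‖ ^ 2 =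
      ‖gaussSum χ⁻¹ ZMod.stdAddChar‖ ^ 2 * ‖χ (n : ZMod q)‖ ^ 2 := fun n _ => by
    rw [← mul_pow, ← norm_mul, key]
    exact congrArg (fun x => ‖x‖ ^ 2) (sum_congr rfl fun a _ => mul_comm _ _)
  rw [sum_congr rfl h3, ← mul_sum] at h1
  simp only [h2] at h1
  refine mul_right_cancel₀ (ne_of_gt ?_) h1
  exact sum_pos' (fun _ _ => sq_nonneg _) ⟨1, mem_range.2 hq, by simp⟩

theorem geo {q a : ℕ} (h1 : 1 ≤ a) (h2 : a < q) (y : ℕ) :
    ‖∑ n ∈ Icc 1 y, ee (n * ((a : ℝ) / q))‖ ≤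
      q / 2 * (1 / (a : ℝ)) + q / 2 * (1 / ((q - a : ℕ) : ℝ)) := by
  have a0 : (0 : ℝ) < a := by exact_mod_cast h1
  have aq : (a : ℝ) < q := by exact_mod_cast h2
  have q0 : (0 : ℝ) < q := a0.trans aq
  have d0 : (0 : ℝ) < q - a := by linarith
  rw [← Ico_add_one_right_eq_Icc, Nat.cast_sub h2.le]
  rcases le_total (2 * (a : ℝ)) q with h | h
  · have e : |(a : ℝ) / q - (0 : ℤ)| = a / q := by
      rw [Int.cast_zero, sub_zero, abs_of_pos (by positivity)]
    have := geo_le 1 (y + 1) ((a : ℝ) / q) 0 (abs_pos.1 (by rw [e]; positivity))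
      (by rw [e, div_le_div_iff₀ q0 two_pos]; linarith)
    rw [e] at this
    refine this.trans (le_trans (le_of_eq (by field_simp)) (le_add_of_nonneg_right ?_))
    positivity
  · have e : |(a : ℝ) / q - (1 : ℤ)| = (q - a) / q := by
      rw [Int.cast_one, abs_sub_comm, one_sub_div q0.ne', abs_of_pos (by positivity)]
    have := geo_le 1 (y + 1) ((a : ℝ) / q) 1 (abs_pos.1 (by rw [e]; positivity))
      (by rw [e, div_le_div_iff₀ q0 two_pos]; linarith)
    rw [e] at this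
    refine this.trans (le_trans (le_of_eq (by field_simp)) (le_add_of_nonneg_left ?_))
    positivity

theorem pv {q : ℕ} (hq : 1 < q) (χ : DirichletCharacter ℂ q) (hχ : χ.IsPrimitive) (y : ℕ) :
    ‖∑ n ∈ Icc 1 y, χ (n : ZMod q)‖ ≤ √q * (1 + Real.log q) := by
  obtain ⟨τ, h1, h2⟩ := expand hq χ hχ
  have : Fact (1 < q) := ⟨hq⟩
  have q0 : (0 : ℝ) < q := by exact_mod_cast (by omega : 0 < q)
  have ht : ‖τ‖ = √q := by rw [← h1, Real.sqrt_sq (norm_nonneg _)]
  have h3 : τ * ∑ n ∈ Icc 1 y, χ (n : ZMod q) =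
      ∑ a ∈ Ico 1 q, χ⁻¹ (a : ZMod q) * ∑ n ∈ Icc 1 y, ee (n * ((a : ℝ) / q)) := by
    rw [mul_sum, sum_congr rfl fun n _ => h2 n, sum_comm, range_eq_Ico,
      sum_eq_sum_Ico_succ_bot (by omega : 0 < q)]
    simp only [Nat.cast_zero, MulChar.map_zero, zero_mul, sum_const_zero, zero_add, mul_sum]
  have h4 : ∑ a ∈ Ico 1 q, (1 : ℝ) / a ≤ 1 + Real.log q :=
    harm' _ q Ico_subset_Icc_self
  have h5 : ∑ a ∈ Ico 1 q, (1 : ℝ) / ((q - a : ℕ) : ℝ) ≤ 1 + Real.log q := by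
    refine le_trans (sum_inj (t := Icc 1 q) (g := fun m : ℕ => (1 : ℝ) / m) (fun a => q - a)
      (fun a ha b hb e => ?_) (fun a ha => ?_) (fun _ _ => le_rfl)
      fun _ _ => by positivity) (harm q)
    · simp only [mem_Ico] at ha hb e; omega
    · simp only [mem_Ico, mem_Icc] at ha ⊢; omega
  have h6 : √q * ‖∑ n ∈ Icc 1 y, χ (n : ZMod q)‖ ≤ q * (1 + Real.log q) := by
    rw [← ht, ← norm_mul, h3]
    refine (norm_sum_le _ _).trans ((sum_le_sum (g := fun a : ℕ =>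
      (q : ℝ) / 2 * (1 / (a : ℝ)) + q / 2 * (1 / ((q - a : ℕ) : ℝ))) fun a ha => ?_).trans ?_)
    · rw [norm_mul]
      exact (mul_le_of_le_one_left (norm_nonneg _) (DirichletCharacter.norm_le_one _ _)).trans
        (geo (mem_Ico.1 ha).1 (mem_Ico.1 ha).2 y)
    · rw [sum_add_distrib, ← mul_sum, ← mul_sum]
      nlinarith
  refine le_of_mul_le_mul_left (h6.trans (le_of_eq ?_)) (Real.sqrt_pos.2 q0)
  rw [← mul_assoc, Real.mul_self_sqrt q0.le]

theorem rs {M : Type} [AddCommMonoid M] (N : ℕ) (f g : ℕ → M) (h0 : f 0 = 0)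
    (h : ∀ n, n ≠ 0 → f n = g n) : ∑ n ∈ range (N + 1), f n = ∑ n ∈ Icc 1 N, g n := by
  rw [range_eq_Ico, sum_eq_sum_Ico_succ_bot (by omega : 0 < N + 1), h0, zero_add,
    Ico_add_one_right_eq_Icc]
  exact sum_congr rfl fun n hn => h n (by have := (mem_Icc.1 hn).1; omega)

/-- all characters with modulus from 1 to `R` -/
def All (R : ℕ) : Finset Ch := (Ioc 0 R).sigma fun _ => univ

theorem sub {R : ℕ} {S : Finset Ch} (hS : Prim S R) : S ⊆ All R := fun z hz => by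
  obtain ⟨h1, h2, -⟩ := hS z hz
  simp only [All, mem_sigma, mem_Ioc, mem_univ, and_true]
  omega

theorem card_All (R : ℕ) : (All R).card ≤ R ^ 2 := by
  rw [All, card_sigma]
  refine (sum_le_card_nsmul _ _ R fun q hq => ?_).trans (by simp [sq])
  obtain ⟨h1, h2⟩ := mem_Ioc.1 hq
  have : NeZero q := ⟨h1.ne'⟩
  rw [card_univ, ← Nat.card_eq_fintype_card,
    DirichletCharacter.card_eq_totient_of_hasEnoughRootsOfUnity]
  exact (Nat.totient_le q).trans h2

theorem mls {R : ℕ} {S : Finset Ch} (hR : 1 ≤ R) (hS : Prim S R) (N : ℕ) (c : ℕ → ℂ) :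
    ∑ z ∈ S, ‖lf c (cv z) N‖ ^ 2 ≤
      (N + (1 + (R : ℝ) ^ 2 * (1 + 2 * Real.log R))) * ∑ n ∈ Icc 1 N, ‖c n‖ ^ 2 := by
  set s : ℕ × ℕ → ℂ := fun z => ∑ n ∈ Icc 1 N, c n * ee (n * ((z.2 : ℝ) / z.1)) with hs
  have h1 : ∑ z ∈ Far R, ‖s z‖ ^ 2 ≤
      (N + (1 + (R : ℝ) ^ 2 * (1 + 2 * Real.log R))) * ∑ n ∈ Icc 1 N, ‖c n‖ ^ 2 := by
    have h := ls_far hR (N + 1) fun n => if n = 0 then 0 else c n
    rw [rs N _ (fun n => ‖c n‖ ^ 2) (by simp) fun n hn => by rw [if_neg hn]] at h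
    refine le_trans (le_of_eq (sum_congr rfl fun z _ => ?_)) (h.trans (le_of_eq ?_))
    · rw [rs N _ (fun n => c n * ee (n * ((z.2 : ℝ) / z.1))) (by simp)
        fun n hn => by rw [if_neg hn]]
    · push_cast; ring
  calc ∑ z ∈ S, ‖lf c (cv z) N‖ ^ 2
      = ∑ z ∈ S, 1 / (z.1 : ℝ) * ‖∑ a ∈ range z.1, z.2⁻¹ (a : ZMod z.1) * s (z.1, a)‖ ^ 2 := by
        refine sum_congr rfl fun z hz => ?_
        obtain ⟨a1, -, a3⟩ := hS z hz
        obtain ⟨τ, t1, t2⟩ := expand a1 z.2 a3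
        have q0 : (z.1 : ℝ) ≠ 0 := by exact_mod_cast (by omega : z.1 ≠ 0)
        have e : ∑ a ∈ range z.1, z.2⁻¹ (a : ZMod z.1) * s (z.1, a) = τ * lf c (cv z) N := by
          simp only [hs, lf, cv, mul_sum]
          rw [sum_comm]
          refine sum_congr rfl fun n _ => ?_
          rw [mul_left_comm, t2, mul_sum]
          exact sum_congr rfl fun a _ => by ring
        rw [e, norm_mul, mul_pow, t1]
        field_simp
    _ ≤ ∑ z ∈ All R, 1 / (z.1 : ℝ) *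
          ‖∑ a ∈ range z.1, z.2⁻¹ (a : ZMod z.1) * s (z.1, a)‖ ^ 2 :=
        sum_le_sum_of_subset_of_nonneg (sub hS) fun _ _ _ => by positivity
    _ ≤ ∑ q ∈ Ioc 0 R, ∑ a ∈ (range q).filter (fun b => Nat.Coprime b q), ‖s (q, a)‖ ^ 2 := by
        rw [All, sum_sigma]
        refine sum_le_sum fun q hq => ?_
        obtain ⟨q1, -⟩ := mem_Ioc.1 hq
        have : NeZero q := ⟨q1.ne'⟩
        have q0 : (0 : ℝ) < q := by exact_mod_cast q1
        dsimp only
        rw [← mul_sum, pars_mul fun a => s (q, a), ← mul_assoc]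
        refine mul_le_of_le_one_left (sum_nonneg fun _ _ => sq_nonneg _) ?_
        rw [one_div, inv_mul_le_iff₀ q0, mul_one]
        exact_mod_cast Nat.totient_le q
    _ = ∑ z ∈ FF 0 R, ‖s z‖ ^ 2 := (sum_FF 0 R fun z => ‖s z‖ ^ 2).symm
    _ ≤ ∑ z ∈ Far R, ‖s z‖ ^ 2 :=
        sum_le_sum_of_subset_of_nonneg (filter_subset _ _) fun _ _ _ => sq_nonneg _
    _ ≤ _ := h1

end FamAux

theorem fam : FAMStmt := by
  intro R S hR hS
  have R1 : (1 : ℝ) ≤ R := by exact_mod_cast hR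
  have l0 := Real.log_nonneg R1
  refine ⟨fun z _ m n => ?_, fun z _ n => DirichletCharacter.norm_le_one _ _, fun z hz y => ?_,
    by positivity, ?_, FamAux.mls hR hS⟩
  · simp only [cv, Nat.cast_mul, map_mul]
  · obtain ⟨a1, a2, a3⟩ := hS z hz
    have q1 : (1 : ℝ) ≤ z.1 := by exact_mod_cast a1.le
    have q2 : (z.1 : ℝ) ≤ R := by exact_mod_cast a2
    have := Real.log_nonneg q1
    refine (FamAux.pv a1 z.2 a3 y).trans (mul_le_mul (Real.sqrt_le_sqrt q2) ?_ (by linarith)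
      (Real.sqrt_nonneg _))
    have := Real.log_le_log (by linarith) q2
    linarith
  · have h : (S.card : ℝ) ≤ (R : ℝ) ^ 2 := by
      exact_mod_cast (card_le_card (FamAux.sub hS)).trans (FamAux.card_All R)
    nlinarith [mul_nonneg (sq_nonneg (R : ℝ)) l0]

end

end Pool.Agent.MP_678834_nt.gy

end Piece5

-- ======== piece 6: Sep
section Piece6

/-! Project GY: the smooth weight exists, and separation of variables. -/

set_option autoImplicit false

namespace Pool.Agent.MP_678834_nt.gy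

open Finset Filter ComplexConjugate ArithmeticFunction MeasureTheory
open scoped FourierTransform

noncomputable section

namespace SepL

theorem key {V : ℝ → ℝ} {L : ℝ} (hV : Wt V L) {τ : Type} (T : Finset τ) (c : τ → ℂ) (y : τ → ℝ)
    {B : ℝ} (h : ∀ u : ℝ, ‖∑ t ∈ T, c t * Complex.exp ((u * y t : ℝ) * Complex.I)‖ ≤ B) :
    ‖∑ t ∈ T, c t * (V (y t) : ℝ)‖ ≤ 4 * L * B := by
  obtain ⟨κ, k1, k2, k3⟩ := hV.four
  have hB := (norm_nonneg _).trans (h 0)
  have hL := hV.one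
  have hi : ∀ t ∈ T, Integrable fun u : ℝ =>
      c t * (κ u * Complex.exp ((u * y t : ℝ) * Complex.I)) := fun t _ =>
    ((integrable_inv_one_add_sq.const_mul L).mono' (Continuous.aestronglyMeasurable (by fun_prop))
      (.of_forall fun u => by
        rw [norm_mul, Complex.norm_exp_ofReal_mul_I, mul_one]
        exact k2 u)).const_mul _
  simp only [k3, ← integral_const_mul]
  rw [← integral_finsetSum _ hi]
  refine (norm_integral_le_of_norm_le (integrable_inv_one_add_sq.const_mul (L * B))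
    (.of_forall fun u => ?_)).trans ?_
  · simp only [mul_left_comm _ (κ u), ← mul_sum]
    rw [norm_mul, mul_right_comm]
    exact mul_le_mul (k2 u) (h u) (norm_nonneg _) (by positivity)
  · rw [integral_const_mul, integral_univ_inv_one_add_sq]
    nlinarith [Real.pi_le_four, mul_nonneg (zero_le_one.trans hL) hB]

theorem four {V : ℝ → ℝ} (hc : HasCompactSupport V) (hd : ContDiff ℝ (⊤ : ℕ∞) V) :
    ∃ (κ : ℝ → ℂ) (C : ℝ), Continuous κ ∧ (∀ u, ‖κ u‖ ≤ C / (1 + u ^ 2)) ∧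
      ∀ y : ℝ, (V y : ℂ) = ∫ u : ℝ, κ u * Complex.exp ((u * y : ℝ) * Complex.I) := by
  have hp : 2 * Real.pi ≠ 0 := by positivity
  have hc' : HasCompactSupport fun x => (V (2 * Real.pi * x) : ℂ) :=
    (hc.comp_homeomorph (Homeomorph.mulLeft₀ _ hp)).comp_left (g := fun x : ℝ => (x : ℂ))
      Complex.ofReal_zero
  have hd' : ContDiff ℝ (⊤ : ℕ∞) fun x => (V (2 * Real.pi * x) : ℂ) :=
    Complex.ofRealCLM.contDiff.comp (hd.comp (by fun_prop))
  set f : SchwartzMap ℝ ℂ := hc'.toSchwartzMap hd' with hf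
  have hfc : ∀ x, f x = (V (2 * Real.pi * x) : ℂ) := fun x => rfl
  set g : SchwartzMap ℝ ℂ := 𝓕 f with hg
  obtain ⟨C0, -, h0⟩ := g.decay 0 0
  obtain ⟨C2, -, h2⟩ := g.decay 2 0
  simp only [pow_zero, one_mul, norm_iteratedFDeriv_zero] at h0 h2
  refine ⟨g, C0 + C2, g.continuous, fun w => ?_, fun y => ?_⟩
  · have h3 := h0 w
    have h4 := h2 w
    rw [Real.norm_eq_abs, sq_abs] at h4
    rw [le_div_iff₀ (by positivity)]
    linarith
  · have h := congrFun (f.continuous.fourierInv_fourier_eq f.integrable g.integrable)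
      (y / (2 * Real.pi))
    rw [Real.fourierInv_eq', hfc, mul_div_cancel₀ _ hp] at h
    rw [← h]
    congr 1
    ext w
    rw [smul_eq_mul, mul_comm]
    simp only [RCLike.inner_apply, conj_trivial]
    congr 4
    field_simp

end SepL

theorem sep : SEPStmt := by
  intro V L hV ι S χ w X M N a b B hχ hw hB
  choose ph h1 h2 using fun i => Complex.exists_norm_eq_mul_self (∑ m ∈ Icc 1 M, ∑ n ∈ Icc 1 N,
    a m * b n * (χ i (m * n) * (om V X (m * n) : ℝ)))
  have h := SepL.key hV (S ×ˢ Icc 1 M ×ˢ Icc 1 N)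
    (fun t => w t.1 * ph t.1 * (a t.2.1 * b t.2.2 * χ t.1 (t.2.1 * t.2.2)))
    (fun t => Real.log (t.2.1 * t.2.2 : ℕ) - Real.log X) (B := B) fun u => by
      refine le_trans ?_ (hB (fun m => a m * Complex.exp ((u * Real.log m : ℝ) * Complex.I))
        (fun n => b n * Complex.exp ((u * Real.log n : ℝ) * Complex.I))
        (fun m => by rw [norm_mul, Complex.norm_exp_ofReal_mul_I, mul_one])
        fun m => by rw [norm_mul, Complex.norm_exp_ofReal_mul_I, mul_one])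
      rw [sum_product]
      refine (norm_sum_le _ _).trans (sum_le_sum fun i hi => le_of_eq ?_)
      have e : ∀ x y : ℂ, w i * (‖x‖ * ‖y‖) = ‖w i * ph i * (x * y) *
          Complex.exp ((-(u * Real.log X) : ℝ) * Complex.I)‖ := fun x y => by
        rw [norm_mul, norm_mul, norm_mul, norm_mul, Complex.norm_exp_ofReal_mul_I, h1,
          Complex.norm_real, Real.norm_of_nonneg (hw i hi), mul_one, mul_one]
      rw [e, lf, lf, sum_mul_sum, sum_product]
      simp only [mul_sum, sum_mul]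
      refine congrArg _ (sum_congr rfl fun m hm => sum_congr rfl fun n hn => ?_)
      have m0 : (m : ℝ) ≠ 0 := by have := (mem_Icc.1 hm).1; positivity
      have n0 : (n : ℝ) ≠ 0 := by have := (mem_Icc.1 hn).1; positivity
      rw [hχ i hi, Nat.cast_mul, Real.log_mul m0 n0, show u * (Real.log m + Real.log n - Real.log X) =
        u * Real.log m + u * Real.log n + -(u * Real.log X) by ring, Complex.ofReal_add,
        Complex.ofReal_add, add_mul, add_mul, Complex.exp_add, Complex.exp_add]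
      ring
  refine le_trans ((le_abs_self _).trans (le_of_eq ?_)) h
  rw [← Real.norm_eq_abs, ← Complex.norm_real, Complex.ofReal_sum, sum_product]
  refine congrArg _ (sum_congr rfl fun i _ => ?_)
  rw [Complex.ofReal_mul, h2, sum_product]
  simp only [mul_sum, om, mul_assoc]

theorem bump : BumpStmt := by
  intro δ hδ
  have hl := Real.log_pos one_lt_two
  let f : ContDiffBump (Real.log 2 / 2) := ⟨max (Real.log 2 / 2 - δ) (Real.log 2 / 4),
    Real.log 2 / 2, lt_max_of_lt_right (by positivity), max_lt (by linarith) (by linarith)⟩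
  obtain ⟨κ, C, k1, k2, k3⟩ := SepL.four f.hasCompactSupport f.contDiff
  obtain ⟨K, hK⟩ := (f.contDiff (n := 1)).lipschitzWith_of_hasCompactSupport f.hasCompactSupport
    (by simp)
  refine ⟨f, max 1 (max K C), ⟨le_max_left _ _, fun t => f.nonneg, fun t => f.le_one,
    fun t ht => ?_, fun s t => (hK.dist_le_mul s t).trans (mul_le_mul_of_nonneg_right
      (le_max_of_le_right (le_max_left _ _)) (abs_nonneg _)), κ, k1, fun u => (k2 u).trans
      (div_le_div_of_nonneg_right (le_max_of_le_right (le_max_right _ _)) (by positivity)), k3⟩,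
    fun t h1 h2 => f.one_of_mem_closedBall (Metric.mem_closedBall.2
      (le_max_of_le_left (abs_le.2 ⟨?_, ?_⟩)))⟩
  · have h : |t - Real.log 2 / 2| < Real.log 2 / 2 := (Set.ext_iff.1 f.support_eq t).1 ht
    constructor <;> linarith [abs_lt.1 h]
  all_goals linarith

end

end Pool.Agent.MP_678834_nt.gy

end Piece6

-- ======== piece 7: Bil36
section Piece7

/-! Project GY: the two bilinear bounds. -/

set_option autoImplicit false

namespace Pool.Agent.MP_678834_nt.gy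

open Finset Filter ComplexConjugate ArithmeticFunction
open scoped ArithmeticFunction.Moebius

noncomputable section

namespace bil

variable {ι : Type} {S : Finset ι} {χ : ι → ℕ → ℂ} {K D : ℝ}

theorem cs (S : Finset ι) (f g : ι → ℝ) {A B : ℝ} (hf : ∑ i ∈ S, f i ^ 2 ≤ A)
    (hg : ∑ i ∈ S, g i ^ 2 ≤ B) : ∑ i ∈ S, f i * g i ≤ √(A * B) :=
  Real.le_sqrt_of_sq_le ((sum_mul_sq_le_sq_mul_sq S f g).trans (mul_le_mul hf hg
    (sum_nonneg fun _ _ => sq_nonneg _) ((sum_nonneg fun _ _ => sq_nonneg _).trans hf)))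

theorem one (hF : Fam S χ K D) (M : ℕ) {a : ℕ → ℂ} (ha : ∀ m, ‖a m‖ ≤ 1) :
    ∑ i ∈ S, ‖lf a (χ i) M‖ ^ 2 ≤ (M + D) * M := by
  have D0 : 0 ≤ D := (Nat.cast_nonneg _).trans hF.card
  refine (hF.ls M a).trans (mul_le_mul_of_nonneg_left ?_ (by positivity))
  simpa using sum_le_card_nsmul (Icc 1 M) (fun n => ‖a n‖ ^ 2) 1 fun n _ =>
    pow_le_one₀ (norm_nonneg _) (ha n)

/-- the pairs with a given product -/
def fib (y M k : ℕ) : Finset (ℕ × ℕ) := (Icc 1 y ×ˢ Icc 1 M).filter fun p => p.1 * p.2 = k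

theorem maps (y M : ℕ) : ∀ p ∈ Icc 1 y ×ˢ Icc 1 M, p.1 * p.2 ∈ Icc 1 (y * M) := fun p hp => by
  simp only [mem_product, mem_Icc] at hp ⊢
  exact ⟨Nat.mul_pos hp.1.1 hp.2.1, Nat.mul_le_mul hp.1.2 hp.2.2⟩

theorem fib_le {y M k : ℕ} (hk : 1 ≤ k) : (fib y M k).card ≤ k.divisors.card := by
  refine card_le_card_of_injOn (fun p => p.1) (fun p hp => ?_) fun p hp p' hp' e => ?_
  · have h := (mem_filter.1 (mem_coe.1 hp)).2
    exact mem_coe.2 (Nat.mem_divisors.2 ⟨⟨_, h.symm⟩, by omega⟩)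
  · obtain ⟨h0, h1⟩ := mem_filter.1 (mem_coe.1 hp)
    have h2 := (mem_filter.1 (mem_coe.1 hp')).2
    have h3 : 0 < p.1 := (mem_Icc.1 (mem_product.1 h0).1).1
    have e' : p.1 = p'.1 := e
    refine Prod.ext e' (Nat.eq_of_mul_eq_mul_left h3 ?_)
    rw [h1, e', h2]

theorem glue (hF : Fam S χ K D) (y M : ℕ) (a : ℕ → ℂ) {i : ι} (hi : i ∈ S) :
    pp (χ i) y * lf a (χ i) M = lf (fun k => ∑ p ∈ fib y M k, a p.2) (χ i) (y * M) := by
  rw [pp, lf, lf, sum_mul_sum, ← sum_product', ← sum_fiberwise_of_maps_to (maps y M)]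
  refine sum_congr rfl fun k _ => ?_
  rw [sum_mul]
  refine sum_congr rfl fun p hp => ?_
  rw [← (mem_filter.1 hp).2, hF.mul i hi]; ring

theorem two (hF : Fam S χ K D) (y M : ℕ) {a : ℕ → ℂ} (ha : ∀ m, ‖a m‖ ≤ 1) {T : ℝ}
    (hT : ∀ k : ℕ, k ≤ y * M → (k.divisors.card : ℝ) ≤ T) :
    ∑ i ∈ S, (‖pp (χ i) y‖ * ‖lf a (χ i) M‖) ^ 2 ≤ (y * M + D) * (T * y * M) := by
  have D0 : 0 ≤ D := (Nat.cast_nonneg _).trans hF.card
  rw [sum_congr rfl fun i hi => by rw [← norm_mul, glue hF y M a hi]]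
  refine (hF.ls _ _).trans ?_
  push_cast
  refine mul_le_mul_of_nonneg_left ?_ (by positivity)
  have h1 : ∑ k ∈ Icc 1 (y * M), ((fib y M k).card : ℝ) = y * M := by
    have := card_eq_sum_card_fiberwise (f := fun p : ℕ × ℕ => p.1 * p.2)
      fun p hp => mem_coe.2 (maps y M p (mem_coe.1 hp))
    rw [card_product, Nat.card_Icc, Nat.card_Icc, Nat.add_sub_cancel, Nat.add_sub_cancel] at this
    exact_mod_cast this.symm
  rw [mul_assoc, ← h1, mul_sum]
  refine sum_le_sum fun k hk => ?_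
  have h2 : ‖∑ p ∈ fib y M k, a p.2‖ ≤ (fib y M k).card :=
    (norm_sum_le _ _).trans (by simpa using sum_le_card_nsmul (fib y M k) _ 1 fun p _ => ha p.2)
  have h3 : ((fib y M k).card : ℝ) ≤ T :=
    le_trans (by exact_mod_cast fib_le (mem_Icc.1 hk).1) (hT k (mem_Icc.1 hk).2)
  rw [sq]
  exact mul_le_mul (h2.trans h3) h2 (norm_nonneg _) ((Nat.cast_nonneg _).trans h3)

end bil

theorem ii : IIStmt := by
  intro ι S χ K D hF y M N a b ha hb
  constructor
  · refine le_trans (sum_le_sum fun i hi => mul_le_mul_of_nonneg_right (hF.pv i hi y)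
      (by positivity)) ?_
    rw [← mul_sum]
    exact mul_le_mul_of_nonneg_left (bil.cs S _ _ (bil.one hF M ha) (bil.one hF N hb)) hF.K0
  · intro T hT
    simp only [← mul_assoc (‖pp _ y‖)]
    exact bil.cs S _ _ (bil.two hF y M ha hT) (bil.one hF N hb)

end

end Pool.Agent.MP_678834_nt.gy

end Piece7

-- ======== piece 8: Dya
section Piece8

/-! Project GY: dyadic decomposition of a bilinear sum. -/

set_option autoImplicit false

namespace Pool.Agent.MP_678834_nt.gy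

open Finset Filter ComplexConjugate ArithmeticFunction
open scoped ArithmeticFunction.Moebius

noncomputable section

namespace DyaAux

/-- double sums only depend on the support -/
theorem dsum_eq (g : ℕ → ℕ → ℂ) (A B A' B' : Finset ℕ)
    (h : ∀ t k, g t k ≠ 0 → ((t ∈ A ∧ k ∈ B) ↔ (t ∈ A' ∧ k ∈ B'))) :
    ∑ t ∈ A, ∑ k ∈ B, g t k = ∑ t ∈ A', ∑ k ∈ B', g t k := by
  rw [← sum_product', ← sum_product', ← sum_filter_ne_zero (A ×ˢ B),
    ← sum_filter_ne_zero (A' ×ˢ B')]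
  refine sum_congr ?_ fun _ _ => rfl
  ext z
  simp only [mem_filter, mem_product]
  constructor
  · rintro ⟨h1, h2⟩; exact ⟨(h _ _ h2).1 h1, h2⟩
  · rintro ⟨h1, h2⟩; exact ⟨(h _ _ h2).2 h1, h2⟩

/-- the dyadic piece of a sequence -/
def pc (a : ℕ → ℂ) (j t : ℕ) : ℂ := if Nat.log 2 t = j then a t else 0

theorem split (a b F : ℕ → ℂ) (Y : ℕ) (hF : ∀ n, F n ≠ 0 → 0 < n ∧ n < Y) :
    ∑ t ∈ Icc 1 Y, ∑ k ∈ Icc 1 Y, a t * b k * F (t * k) =
      ∑ j ∈ range (Nat.log 2 Y + 1), ∑ m ∈ Icc 1 (2 ^ (j + 1)), ∑ n ∈ Icc 1 (Y / 2 ^ j),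
        pc a j m * b n * F (m * n) := by
  have h1 : ∀ t ∈ Icc 1 Y, ∑ k ∈ Icc 1 Y, a t * b k * F (t * k) =
      ∑ j ∈ range (Nat.log 2 Y + 1), ∑ k ∈ Icc 1 Y, pc a j t * b k * F (t * k) := by
    intro t ht
    have hm : Nat.log 2 t ∈ range (Nat.log 2 Y + 1) :=
      mem_range.2 (Nat.lt_succ_of_le (Nat.log_mono_right (mem_Icc.1 ht).2))
    rw [sum_eq_single_of_mem _ hm]
    · simp only [pc, if_true]
    · intro j _ hj
      refine sum_eq_zero fun k _ => ?_
      rw [pc, if_neg (Ne.symm hj)]; simp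
  rw [sum_congr rfl h1, sum_comm]
  refine sum_congr rfl fun j _ => dsum_eq _ _ _ _ _ fun t k h => ?_
  have h2 : pc a j t ≠ 0 := left_ne_zero_of_mul (left_ne_zero_of_mul h)
  obtain ⟨h3, h4⟩ := hF _ (right_ne_zero_of_mul h)
  have h5 : Nat.log 2 t = j := by
    by_contra hc
    exact h2 (by rw [pc, if_neg hc])
  have ht : 0 < t := Nat.pos_of_mul_pos_right h3
  have hk : 0 < k := Nat.pos_of_mul_pos_left h3
  have h6 : 2 ^ j ≤ t := h5 ▸ Nat.pow_log_le_self 2 ht.ne'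
  have h7 : t < 2 ^ (j + 1) := h5 ▸ Nat.lt_pow_succ_log_self (by norm_num) t
  have h8 : t ≤ Y := (Nat.le_mul_of_pos_right t hk).trans h4.le
  have h9 : k ≤ Y := (Nat.le_mul_of_pos_left k ht).trans h4.le
  have h10 : k ≤ Y / 2 ^ j := by
    rw [Nat.le_div_iff_mul_le (by positivity)]
    calc k * 2 ^ j ≤ k * t := Nat.mul_le_mul_left _ h6
      _ = t * k := mul_comm _ _
      _ ≤ Y := h4.le
  simp only [mem_Icc]
  exact ⟨fun _ => ⟨⟨ht, h7.le⟩, hk, h10⟩, fun _ => ⟨⟨ht, h8⟩, hk, h9⟩⟩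

theorem count {X : ℕ} (hX : 1 ≤ X) : ((Nat.log 2 (2 * X) + 1 : ℕ) : ℝ) ≤ 2 * ell X := by
  have h1 : 2 ^ Nat.log 2 (2 * X) ≤ 2 * X := Nat.pow_log_le_self 2 (by omega)
  have h2 : (2 : ℝ) ^ Nat.log 2 (2 * X) ≤ 2 * X := by exact_mod_cast h1
  have h3 := Real.log_le_log (by positivity) h2
  rw [Real.log_pow] at h3
  have h4 := Real.log_two_gt_d9
  have h5 : (0 : ℝ) ≤ Nat.log 2 (2 * X) := Nat.cast_nonneg _
  unfold ell
  push_cast
  nlinarith

end DyaAux

open DyaAux in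
theorem dya : SEPStmt → DYAStmt := by
  intro sep V L hV ι S χ w X U B hX hmul hw hU hB hyp a b ha hb hsupp
  have hL := hV.one
  have hblk : ∀ j : ℕ, ∑ i ∈ S, w i * ‖∑ m ∈ Icc 1 (2 ^ (j + 1)), ∑ n ∈ Icc 1 (2 * X / 2 ^ j),
      pc a j m * b n * (χ i (m * n) * (om V X (m * n) : ℝ))‖ ≤ 4 * L * B := by
    intro j
    by_cases hz : ∀ t, pc a j t = 0
    · simp only [hz, zero_mul, sum_const_zero, norm_zero, mul_zero]
      positivity
    · obtain ⟨t, ht⟩ := not_forall.1 hz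
      have h5 : Nat.log 2 t = j := by
        by_contra hc
        exact ht (by rw [pc, if_neg hc])
      have hat : a t ≠ 0 := by rwa [pc, if_pos h5] at ht
      obtain ⟨h1, h2⟩ := hsupp t hat
      have ht0 : 0 < t := by
        have : (0 : ℝ) < t := lt_of_le_of_lt hU h1
        exact_mod_cast this
      have h6 : 2 ^ j ≤ t := h5 ▸ Nat.pow_log_le_self 2 ht0.ne'
      have h7 : t < 2 ^ (j + 1) := h5 ▸ Nat.lt_pow_succ_log_self (by norm_num) t
      have h8 : 2 * X / 2 ^ j * 2 ^ j ≤ 2 * X := Nat.div_mul_le_self _ _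
      have hMN : 2 ^ (j + 1) * (2 * X / 2 ^ j) ≤ 4 * X := by
        rw [pow_succ]; nlinarith
      refine sep V L hV ι S χ w X _ _ (pc a j) b B hmul hw fun a' b' ha' hb' => ?_
      refine hyp _ _ a' b' hMN ?_ ?_ (fun m => (ha' m).trans ?_) fun n => (hb' n).trans (hb n)
      · have h9 : ((2 ^ (j + 1) : ℕ) : ℝ) ≤ 2 * t := by
          have : 2 ^ (j + 1) ≤ 2 * t := by rw [pow_succ]; omega
          exact_mod_cast this
        nlinarith [mul_le_mul_of_nonneg_right h9 hU]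
      · have h9 : ((2 * X / 2 ^ j : ℕ) : ℝ) * t ≤ 4 * X := by
          have : 2 * X / 2 ^ j * t ≤ 4 * X :=
            (Nat.mul_le_mul_left _ h7.le).trans (by rw [mul_comm]; exact hMN)
          exact_mod_cast this
        exact (mul_le_mul_of_nonneg_left h1.le (Nat.cast_nonneg _)).trans h9
      · unfold pc
        split_ifs
        · exact ha m
        · simp
  have hs : ∀ i ∈ S, w i * ‖∑ t ∈ Icc 1 (2 * X), ∑ k ∈ Icc 1 (2 * X),
      a t * b k * (χ i (t * k) * (om V X (t * k) : ℝ))‖ ≤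
      ∑ j ∈ range (Nat.log 2 (2 * X) + 1), w i * ‖∑ m ∈ Icc 1 (2 ^ (j + 1)),
        ∑ n ∈ Icc 1 (2 * X / 2 ^ j), pc a j m * b n * (χ i (m * n) * (om V X (m * n) : ℝ))‖ := by
    intro i hi
    rw [split a b (fun n => χ i n * (om V X n : ℝ)) (2 * X) fun n hn => ?_, ← mul_sum]
    · exact mul_le_mul_of_nonneg_left (norm_sum_le _ _) (hw i hi)
    · have h1 : om V X n ≠ 0 := by
        have := right_ne_zero_of_mul hn
        exact_mod_cast this
      obtain ⟨h2, h3⟩ := hV.om_supp hX h1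
      exact ⟨by omega, h3⟩
  refine (sum_le_sum hs).trans ?_
  rw [sum_comm]
  refine (sum_le_sum fun j _ => hblk j).trans ?_
  rw [sum_const, card_range, nsmul_eq_mul]
  have hc := count hX
  have h0 : 0 ≤ 4 * L * B := by positivity
  nlinarith [mul_le_mul_of_nonneg_right hc h0]

end

end Pool.Agent.MP_678834_nt.gy

end Piece8

-- ======== piece 9: Vau
section Piece9

/-! The Vaughan decomposition. -/

set_option autoImplicit false

namespace Pool.Agent.MP_678834_nt.gy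

open Finset Filter ComplexConjugate ArithmeticFunction
open scoped ArithmeticFunction.Moebius ArithmeticFunction.zeta

noncomputable section

namespace Vau

/-- the part above `U` -/
def hi (U : ℝ) (f : ArithmeticFunction ℝ) : ArithmeticFunction ℝ :=
  ⟨fun n => if U < n then f n else 0, by simp⟩

/-- the part up to `U` -/
def lo (U : ℝ) (f : ArithmeticFunction ℝ) : ArithmeticFunction ℝ :=
  ⟨fun n => if U < n then 0 else f n, by simp⟩

variable {U : ℝ} {f g : ArithmeticFunction ℝ}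

theorem lo_hi (U : ℝ) (f : ArithmeticFunction ℝ) : lo U f + hi U f = f := by
  ext n
  simp only [lo, hi, ArithmeticFunction.add_apply, coe_mk]
  split_ifs <;> simp

theorem hi_abs (n : ℕ) : |hi U f n| ≤ |f n| := by
  simp only [hi, coe_mk]
  split_ifs <;> simp

theorem lo_abs (n : ℕ) : |lo U f n| ≤ |f n| := by
  simp only [lo, coe_mk]
  split_ifs <;> simp

theorem hi_ne {n : ℕ} (h : hi U f n ≠ 0) : U < n ∧ f n ≠ 0 := by
  simpa [hi] using h

theorem lo_ne {n : ℕ} (h : lo U f n ≠ 0) : (n : ℝ) ≤ U := by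
  by_contra hc
  exact h (if_pos (not_le.1 hc))

theorem mul_ne {n : ℕ} (h : (f * g) n ≠ 0) : ∃ t e, t * e = n ∧ n ≠ 0 ∧ f t ≠ 0 ∧ g e ≠ 0 := by
  rw [ArithmeticFunction.mul_apply] at h
  obtain ⟨p, hp, h1⟩ := exists_ne_zero_of_sum_ne_zero h
  rw [Nat.mem_divisorsAntidiagonal] at hp
  exact ⟨p.1, p.2, hp.1, hp.2, left_ne_zero_of_mul h1, right_ne_zero_of_mul h1⟩

theorem mul_abs (hf : ∀ t, |f t| ≤ 1) (hg : ∀ e, |g e| ≤ |Λ e|) (n : ℕ) :
    |(f * g) n| ≤ Real.log n := by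
  rw [mul_apply, ← vonMangoldt_sum, ← Nat.sum_divisorsAntidiagonal' fun _ e => Λ e]
  refine (abs_sum_le_sum_abs _ _).trans (sum_le_sum fun p _ => ?_)
  rw [abs_mul, ← abs_of_nonneg (vonMangoldt_nonneg (n := p.2))]
  exact (mul_le_of_le_one_left (abs_nonneg _) (hf _)).trans (hg _)

theorem ident (U : ℝ) : hi U Λ = hi U μ * ((ζ : ArithmeticFunction ℝ) * hi U Λ) + lo U μ * log -
    lo U (lo U μ * lo U Λ) * ζ - hi U (lo U μ * lo U Λ) * ζ := by
  have h1 : (lo U μ + hi U μ) * (ζ : ArithmeticFunction ℝ) = 1 := by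
    rw [lo_hi, coe_moebius_mul_coe_zeta]
  have h2 : (lo U Λ + hi U Λ) * (ζ : ArithmeticFunction ℝ) = log := by
    rw [lo_hi, vonMangoldt_mul_zeta]
  have h3 := lo_hi U (lo U μ * lo U Λ)
  linear_combination (-hi U Λ) * h1 + lo U μ * h2 + (ζ : ArithmeticFunction ℝ) * h3

/-- bilinear sums -/
def Bl (f g : ArithmeticFunction ℝ) (F : ℕ → ℂ) (N : ℕ) : ℂ :=
  ∑ t ∈ Icc 1 N, ∑ k ∈ Icc 1 N, (f t : ℂ) * g k * F (t * k)

theorem conv (f g : ArithmeticFunction ℝ) {F : ℕ → ℂ} {N : ℕ} (hF : ∀ n, N < n → F n = 0) :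
    ∑ n ∈ Icc 1 N, ((f * g) n : ℂ) * F n = Bl f g F N := by
  rw [Bl, ← sum_product', ← sum_filter_add_sum_filter_not _ fun p : ℕ × ℕ => p.1 * p.2 ≤ N,
    sum_eq_zero (s := filter (fun p : ℕ × ℕ => ¬p.1 * p.2 ≤ N) _)
      fun p hp => by rw [hF _ (not_le.1 (mem_filter.1 hp).2), mul_zero], add_zero,
    ← sum_fiberwise_of_maps_to (t := Icc 1 N) (g := fun p : ℕ × ℕ => p.1 * p.2)]
  · refine sum_congr rfl fun n hn => ?_
    rw [mul_apply, Complex.ofReal_sum, sum_mul]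
    rw [mem_Icc] at hn
    refine sum_congr ?_ fun p hp => by rw [(mem_filter.1 hp).2, Complex.ofReal_mul]
    ext p
    simp only [Nat.mem_divisorsAntidiagonal, mem_filter, mem_product, mem_Icc]
    refine ⟨fun h => ?_, fun h => ⟨h.2, by omega⟩⟩
    have h1 : 0 < p.1 := Nat.pos_of_mul_pos_right (by omega : 0 < p.1 * p.2)
    have h2 : 0 < p.2 := Nat.pos_of_mul_pos_left (by omega : 0 < p.1 * p.2)
    have h3 := Nat.le_mul_of_pos_right p.1 h2
    have h4 := Nat.le_mul_of_pos_left p.2 h1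
    omega
  · intro p hp
    simp only [mem_filter, mem_product, mem_Icc] at hp ⊢
    exact ⟨Nat.mul_pos hp.1.1.1 hp.1.2.1, hp.2⟩

theorem log_le {X n : ℕ} (h : n ≤ 2 * X) (hX : 1 ≤ X) : Real.log n ≤ ell X := by
  rcases Nat.eq_zero_or_pos n with rfl | hn
  · simpa using zero_le_one.trans (ell_one hX)
  · have := Real.log_le_log (by exact_mod_cast hn) (by exact_mod_cast h : (n : ℝ) ≤ 2 * X)
    unfold ell; linarith

theorem one {V : ℝ → ℝ} {L K c : ℝ} (hV : Wt V L) {X : ℕ} {χ : ℕ → ℂ} (hU : 0 ≤ U) (hc : 0 ≤ c)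
    (hm : ∀ m n, χ (m * n) = χ m * χ n) (hl : ∀ n, ‖χ n‖ ≤ 1)
    (hf : ∀ t ≤ 2 * X, |f t| ≤ c)
    (hg : ∀ y, y ≤ 2 * X → ‖∑ k ∈ Icc 1 y, χ k * (g k : ℝ)‖ ≤ K) :
    ‖Bl (lo U f) g (fun n => χ n * (om V X n : ℝ)) (2 * X)‖ ≤ U * (c * (K * (L * ell X))) := by
  have hK : 0 ≤ K := (norm_nonneg _).trans (hg 0 (Nat.zero_le _))
  have h0 : 0 ≤ K * (L * ell X) := by
    have := hV.abel_om _ X (2 * X) le_rfl hg
    push_cast at this
    exact (norm_nonneg _).trans this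
  have h1 : ∀ t ∈ Icc 1 (2 * X), ‖∑ k ∈ Icc 1 (2 * X),
      (lo U f t : ℂ) * g k * (χ (t * k) * (om V X (t * k) : ℝ))‖ ≤
      if t ∈ Icc 1 ⌊U⌋₊ then c * (K * (L * ell X)) else 0 := fun t ht => by
    rw [mem_Icc] at ht
    split_ifs with h
    · have := hV.abel_om _ X (2 * X) ht.1 hg
      push_cast at this
      rw [sum_congr rfl (g := fun k => (lo U f t : ℂ) * (χ t * (χ k * g k * (om V X (t * k) : ℝ))))
        fun k _ => by rw [hm]; ring, ← mul_sum, ← mul_sum, norm_mul, norm_mul, Complex.norm_real]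
      exact mul_le_mul ((lo_abs t).trans (hf t ht.2))
        ((mul_le_of_le_one_left (norm_nonneg _) (hl t)).trans this) (by positivity) hc
    · have : lo U f t = 0 := by
        by_contra h2
        exact h (mem_Icc.2 ⟨ht.1, Nat.le_floor (lo_ne h2)⟩)
      simp [this]
  refine (norm_sum_le _ _).trans ((sum_le_sum h1).trans ?_)
  rw [← sum_filter, sum_const, nsmul_eq_mul]
  refine mul_le_mul_of_nonneg_right (le_trans ?_ (Nat.floor_le hU)) (mul_nonneg hc h0)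
  exact_mod_cast (card_le_card fun t ht => (mem_filter.1 ht).2).trans (by simp)

theorem two {ι : Type} {S : Finset ι} {w : ι → ℝ} {F : ι → ℕ → ℂ} {N : ℕ} {c B : ℝ} {P : ℕ → Prop}
    (hc : 0 < c) (hw : ∀ i ∈ S, 0 ≤ w i)
    (H : ∀ a b : ℕ → ℂ, (∀ m, ‖a m‖ ≤ 1) → (∀ n, ‖b n‖ ≤ 1) → (∀ t : ℕ, a t ≠ 0 → P t) →
      ∑ i ∈ S, w i * ‖∑ t ∈ Icc 1 N, ∑ k ∈ Icc 1 N, a t * b k * F i (t * k)‖ ≤ B)
    (hf : ∀ t ≤ N, |f t| ≤ c) (hg : ∀ k ≤ N, |g k| ≤ c)
    (hP : ∀ i t k, f t ≠ 0 → g k ≠ 0 → F i (t * k) ≠ 0 → P t) :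
    ∑ i ∈ S, w i * ‖Bl f g (F i) N‖ ≤ c ^ 2 * B := by
  classical
  have n1 : ∀ x : ℝ, |x| ≤ c → ‖((x / c : ℝ) : ℂ)‖ ≤ 1 := fun x hx => by
    rwa [Complex.norm_real, Real.norm_eq_abs, abs_div, abs_of_pos hc, div_le_one hc]
  have h := H (fun t => if t ≤ N ∧ P t then ((f t / c : ℝ) : ℂ) else 0)
    (fun k => if k ≤ N then ((g k / c : ℝ) : ℂ) else 0)
    (fun t => by split_ifs with h; exacts [n1 _ (hf t h.1), by simp])
    (fun k => by split_ifs with h; exacts [n1 _ (hg k h), by simp])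
    (fun t ht => by by_contra h; exact ht (if_neg fun e => h e.2))
  refine le_trans (le_of_eq ?_) (mul_le_mul_of_nonneg_left h (sq_nonneg c))
  rw [mul_sum]
  refine sum_congr rfl fun i _ => ?_
  rw [mul_left_comm, ← abs_of_nonneg (sq_nonneg c), ← Real.norm_eq_abs, ← Complex.norm_real,
    ← norm_mul, mul_sum, Bl]
  congr 2
  refine sum_congr rfl fun t ht => ?_
  rw [mul_sum]
  refine sum_congr rfl fun k hk => ?_
  have c0 : (c : ℂ) ≠ 0 := by exact_mod_cast hc.ne'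
  rw [if_pos (mem_Icc.1 hk).2]
  split_ifs with h1
  · push_cast
    field_simp
  · by_contra h2
    simp only [zero_mul, mul_zero, mul_eq_zero, not_or, Complex.ofReal_eq_zero] at h2
    exact h1 ⟨(mem_Icc.1 ht).2, hP i t k h2.1.1 h2.1.2 h2.2⟩

end Vau

open Vau in
theorem vau : DYAStmt → VAUStmt := by
  intro dya V L hV ι S χ K D w X U B hF hw hU hX hB H
  have hU3 : U ≤ U ^ 3 := le_self_pow₀ hU three_ne_zero
  have X1 : 1 ≤ X := by exact_mod_cast hU.trans (hU3.trans hX)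
  have e1 := ell_one X1
  have K0 := hF.K0
  have L1 := hV.one
  have D := dya V L hV ι S χ w X U B X1 hF.mul hw (by linarith) hB H
  have mu : ∀ t, |(μ : ArithmeticFunction ℝ) t| ≤ 1 := fun t => by
    rw [intCoe_apply]
    exact_mod_cast abs_moebius_le_one
  have ze : ∀ t, |(ζ : ArithmeticFunction ℝ) t| ≤ 1 := fun t => by
    rw [natCoe_apply, zeta_apply]
    split_ifs <;> simp
  have al : ∀ t ≤ 2 * X, |(lo U μ * lo U Λ) t| ≤ ell X := fun t ht =>
    (mul_abs (fun t => (lo_abs t).trans (mu t)) lo_abs t).trans (log_le ht X1)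
  have sp : ∀ i n, χ i n * (om V X n : ℝ) ≠ 0 → X < n ∧ n < 2 * X := fun i n h =>
    hV.om_supp X1 (Complex.ofReal_ne_zero.1 (right_ne_zero_of_mul h))
  have t1 := two (f := hi U μ) (g := (ζ : ArithmeticFunction ℝ) * hi U Λ)
    (F := fun i n => χ i n * (om V X n : ℝ)) (zero_lt_one.trans_le e1) hw D
    (fun t _ => (hi_abs t).trans ((mu t).trans e1))
    (fun k hk => (mul_abs ze hi_abs k).trans (log_le hk X1)) fun i t k h1 h2 h3 => by
      obtain ⟨a, e, rfl, h4, -, h5⟩ := mul_ne h2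
      have h6 : (e : ℝ) ≤ (a * e : ℕ) := by
        exact_mod_cast Nat.le_mul_of_pos_left e (Nat.pos_of_ne_zero (left_ne_zero_of_mul h4))
      have h7 : (t : ℝ) * (a * e : ℕ) ≤ 2 * X := by exact_mod_cast (sp i _ h3).2.le
      exact ⟨(hi_ne h1).1, (mul_le_mul_of_nonneg_left ((hi_ne h5).1.le.trans h6)
        (Nat.cast_nonneg _)).trans h7⟩
  have t2 := two (f := hi U (lo U μ * lo U Λ)) (g := (ζ : ArithmeticFunction ℝ))
    (F := fun i n => χ i n * (om V X n : ℝ)) (zero_lt_one.trans_le e1) hw D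
    (fun t ht => (hi_abs t).trans (al t ht)) (fun k _ => (ze k).trans e1) fun i t k h1 _ _ => by
      obtain ⟨a, e, rfl, -, h4, h5⟩ := mul_ne (hi_ne h1).2
      refine ⟨(hi_ne h1).1, ?_⟩
      have h6 := mul_le_mul (lo_ne h4) (lo_ne h5) (Nat.cast_nonneg _) (by linarith)
      push_cast
      nlinarith [Nat.cast_nonneg (α := ℝ) X]
  have key : ∀ i ∈ S, ‖psw V X (χ i)‖ ≤
      ‖Bl (hi U μ) ((ζ : ArithmeticFunction ℝ) * hi U Λ) (fun n => χ i n * (om V X n : ℝ)) (2 * X)‖ +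
      ‖Bl (hi U (lo U μ * lo U Λ)) ζ (fun n => χ i n * (om V X n : ℝ)) (2 * X)‖ +
      (U * (1 * (2 * K * ell X * (L * ell X))) + U * (ell X * (K * (L * ell X)))) := fun i hi' => by
    have z : ∀ n, 2 * X < n → χ i n * (om V X n : ℝ) = 0 := fun n hn => by
      by_contra h
      have := sp i n h
      omega
    have s1 := one (f := μ) (g := log) (K := 2 * K * ell X) hV (zero_le_one.trans hU) zero_le_one
      (hF.mul i hi') (hF.le i hi') (fun t _ => mu t) fun y hy =>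
        (abel_log (χ i) (2 * X) (fun y _ => hF.pv i hi' y) y hy).trans
          (mul_le_mul_of_nonneg_left (log_le le_rfl X1) (by positivity))
    have s2 := one (g := ζ) (K := K) hV (zero_le_one.trans hU) (zero_le_one.trans e1)
      (hF.mul i hi') (hF.le i hi') al fun y _ => le_trans (le_of_eq (congrArg _
        (sum_congr rfl fun k hk => by
          have : k ≠ 0 := by have := (mem_Icc.1 hk).1; omega
          simp [natCoe_apply, zeta_apply, this]))) (hF.pv i hi' y)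
    have e : psw V X (χ i) = ∑ n ∈ Icc 1 (2 * X), (hi U Λ n : ℂ) * (χ i n * (om V X n : ℝ)) :=
      sum_congr rfl fun n _ => by
        by_cases h : χ i n * (om V X n : ℝ) = 0
        · rw [h, Complex.ofReal_mul, mul_left_comm, h, mul_zero, mul_zero]
        · have h1 : (X : ℝ) < n := by exact_mod_cast (sp i n h).1
          rw [show hi U Λ n = Λ n from if_pos (by linarith), Complex.ofReal_mul, mul_left_comm]
    rw [e]
    conv_lhs => rw [ident U]
    simp only [sub_eq_add_neg, ArithmeticFunction.add_apply, ArithmeticFunction.neg_apply,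
      Complex.ofReal_add, Complex.ofReal_neg, add_mul, neg_mul, sum_add_distrib, sum_neg_distrib,
      conv _ _ z]
    refine (norm_add_le _ _).trans ?_
    rw [norm_neg]
    refine (add_le_add ((norm_add_le _ _).trans (add_le_add (norm_add_le _ _) le_rfl)) le_rfl).trans ?_
    rw [norm_neg]
    linarith
  refine (sum_le_sum fun i hi' => mul_le_mul_of_nonneg_left (key i hi') (hw i hi')).trans ?_
  simp only [mul_add (w _), sum_add_distrib, ← sum_mul]
  have W : 0 ≤ ∑ i ∈ S, w i := sum_nonneg hw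
  generalize ∑ i ∈ S, w i = W' at *
  generalize ell X = l at *
  have p1 : 0 ≤ L * l ^ 2 * (K * U * W') := by positivity
  have p2 : 0 ≤ L * l ^ 3 * B := by positivity
  have p3 := mul_le_mul_of_nonneg_left e1 p1
  nlinarith

end

end Pool.Agent.MP_678834_nt.gy

end Piece9

-- ======== piece 10: Rda
section Piece10

/-! Project GY: expansion of the discrepancy for one modulus in characters. -/

set_option autoImplicit false

namespace Pool.Agent.MP_678834_nt.gy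

open Finset Filter ComplexConjugate ArithmeticFunction
open scoped ArithmeticFunction.Moebius

namespace Rda

theorem sum_not_coprime {q : ℕ} (hq : 1 ≤ q) (y : ℕ) :
    ∑ n ∈ (Icc 1 y).filter (fun n => ¬ n.Coprime q), Λ n ≤ q * Real.log y := by
  have hl : 0 ≤ Real.log y := Real.log_natCast_nonneg y
  have hΛ : ∀ n : ℕ, 0 ≤ Λ n := fun _ => ArithmeticFunction.vonMangoldt_nonneg
  calc ∑ n ∈ (Icc 1 y).filter (fun n => ¬ n.Coprime q), Λ n
      ≤ ∑ n ∈ (Icc 1 y).filter (fun n => ¬ n.Coprime q), ∑ p ∈ q.primeFactors,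
          if n ∈ (p ^ Nat.log p y).divisors then Λ n else 0 := by
        refine sum_le_sum fun n hn => ?_
        have hnn : ∀ p ∈ q.primeFactors,
            0 ≤ if n ∈ (p ^ Nat.log p y).divisors then Λ n else 0 := fun p _ => by
          split_ifs
          · exact hΛ n
          · exact le_rfl
        by_cases h0 : Λ n = 0
        · rw [h0] at hnn ⊢
          exact sum_nonneg hnn
        obtain ⟨h1, h2⟩ := mem_filter.1 hn
        obtain ⟨p, k, hp, hk, rfl⟩ := (isPrimePow_nat_iff n).1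
          (ArithmeticFunction.vonMangoldt_ne_zero_iff.1 h0)
        have hpq : p ∣ q := by
          by_contra h3
          exact h2 (Nat.Coprime.pow_left k ((Nat.Prime.coprime_iff_not_dvd hp).2 h3))
        refine le_trans ?_ (single_le_sum hnn (Nat.mem_primeFactors.2 ⟨hp, hpq, by omega⟩))
        rw [if_pos]
        exact Nat.mem_divisors.2 ⟨pow_dvd_pow p
          (Nat.le_log_of_pow_le hp.one_lt (mem_Icc.1 h1).2), pow_ne_zero _ hp.ne_zero⟩
    _ ≤ ∑ p ∈ q.primeFactors, ∑ n ∈ (p ^ Nat.log p y).divisors, Λ n := by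
        rw [sum_comm]
        refine sum_le_sum fun p _ => ?_
        rw [← sum_filter]
        exact sum_le_sum_of_subset_of_nonneg (fun n hn => (mem_filter.1 hn).2)
          fun n _ _ => hΛ n
    _ ≤ ∑ _p ∈ q.primeFactors, Real.log y := by
        refine sum_le_sum fun p hp => ?_
        rw [ArithmeticFunction.vonMangoldt_sum]
        rcases Nat.eq_zero_or_pos y with rfl | hy
        · simp
        · have hp0 := (Nat.prime_of_mem_primeFactors hp).pos
          exact Real.log_le_log (by positivity)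
            (by exact_mod_cast Nat.pow_log_le_self p hy.ne')
    _ ≤ q * Real.log y := by
        rw [sum_const, nsmul_eq_mul]
        refine mul_le_mul_of_nonneg_right ?_ hl
        have : q.primeFactors.card ≤ q.divisors.card :=
          card_le_card fun p hp => Nat.mem_divisors.2
            ⟨Nat.dvd_of_mem_primeFactors hp, by omega⟩
        exact_mod_cast this.trans (Nat.card_divisors_le_self q)

theorem shifts (f : ℤ → ℂ) (c : ℂ) (h0 : f 0 = 0) (hc : ∀ m, f (-m) = c * f m) (h : ℕ) :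
    ∑ j ∈ Icc 1 h, ∑ k ∈ Icc 1 h, f (-((k : ℤ) - j)) =
      (1 + c) * ∑ j ∈ range h, ∑ d ∈ Icc 1 j, f d := by
  induction h with
  | zero => simp
  | succ h ih =>
    have e1 : ∑ k ∈ Icc 1 h, f (((h + 1 : ℕ) : ℤ) - k) = ∑ d ∈ Icc 1 h, f d := by
      refine sum_nbij' (fun k => h + 1 - k) (fun k => h + 1 - k) (fun k hk => ?_) (fun k hk => ?_)
        (fun k hk => ?_) (fun k hk => ?_) (fun k hk => ?_) <;> simp only [mem_Icc] at hk ⊢
      · omega
      · omega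
      · omega
      · omega
      · congr 1; omega
    rw [sum_Icc_succ_top (by omega), sum_Icc_succ_top (by omega), sum_range_succ, mul_add, ← ih]
    simp only [sum_Icc_succ_top (show 1 ≤ h + 1 by omega), sum_add_distrib]
    have e2 : ∑ j ∈ Icc 1 h, f (-(((h + 1 : ℕ) : ℤ) - j)) = c * ∑ d ∈ Icc 1 h, f d := by
      rw [← e1, mul_sum]; exact sum_congr rfl fun j _ => hc _
    have e3 : ∑ k ∈ Icc 1 h, f (-((k : ℤ) - (h + 1 : ℕ))) = ∑ d ∈ Icc 1 h, f d := by
      rw [← e1]; exact sum_congr rfl fun j _ => by rw [neg_sub]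
    rw [e2, e3, sub_self, neg_zero, h0]
    ring

theorem point {e : ℕ} [iF : Fintype (DirichletCharacter ℂ e)]
    [DecidableEq (DirichletCharacter ℂ e)] (he : 1 ≤ e) {n : ℕ} (hn : n.Coprime e) (d : ℤ) :
    ((((if (e : ℤ) ∣ n + d then 1 else 0) -
      if d.natAbs.Coprime e then 1 / (e.totient : ℝ) else 0 : ℝ)) : ℂ) =
      1 / (e.totient : ℂ) * ∑ χ : DirichletCharacter ℂ e, if χ = 1 then 0 else
        conj (cv ⟨χ.conductor, χ.primitiveCharacter⟩ n) * χ ((-d : ℤ) : ZMod e) := by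
  have : NeZero e := ⟨by omega⟩
  have hu : IsUnit (n : ZMod e) := (ZMod.isUnit_iff_coprime n e).2 hn
  have hφ : (e.totient : ℂ) ≠ 0 := by exact_mod_cast (Nat.totient_pos.2 he).ne'
  have h1 : ∀ χ : DirichletCharacter ℂ e,
      conj (cv ⟨χ.conductor, χ.primitiveCharacter⟩ n) = χ (n : ZMod e)⁻¹ := by
    intro χ
    have h2 : cv ⟨χ.conductor, χ.primitiveCharacter⟩ n = χ (n : ZMod e) := by
      have := χ.primitiveCharacter_apply_of_isCoprime (a := n) (Nat.isCoprime_iff_coprime.2 hn)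
      simpa [cv] using this
    have h3 : χ (n : ZMod e) * χ (n : ZMod e)⁻¹ = 1 := by
      rw [← map_mul, ZMod.mul_inv_of_unit _ hu, map_one]
    have h4 : ‖χ (n : ZMod e)‖ = 1 := χ.unit_norm_eq_one hu.unit
    rw [h2, ← Complex.inv_eq_conj h4]
    exact (eq_inv_of_mul_eq_one_right h3).symm
  have h4 : ∑ χ : DirichletCharacter ℂ e, χ (n : ZMod e)⁻¹ * χ ((-d : ℤ) : ZMod e) =
      if (n : ZMod e) = ((-d : ℤ) : ZMod e) then (e.totient : ℂ) else 0 := by
    obtain rfl : iF = DirichletCharacter.fintype := Subsingleton.elim _ _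
    exact DirichletCharacter.sum_char_inv_mul_char_eq ℂ hu ((-d : ℤ) : ZMod e)
  have h5 : ∑ χ : DirichletCharacter ℂ e, (if χ = 1 then 0 else
      conj (cv ⟨χ.conductor, χ.primitiveCharacter⟩ n) * χ ((-d : ℤ) : ZMod e)) =
      ∑ χ : DirichletCharacter ℂ e, χ (n : ZMod e)⁻¹ * χ ((-d : ℤ) : ZMod e) -
        (1 : DirichletCharacter ℂ e) (n : ZMod e)⁻¹ *
          (1 : DirichletCharacter ℂ e) ((-d : ℤ) : ZMod e) := by
    rw [← sum_erase_eq_sub (mem_univ _), ← sum_erase (a := (1 : DirichletCharacter ℂ e)) _ (by simp)]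
    exact sum_congr rfl fun χ hχ => by rw [if_neg (ne_of_mem_erase hχ), h1]
  have h6 : (1 : DirichletCharacter ℂ e) (n : ZMod e)⁻¹ = 1 :=
    MulChar.one_apply (IsUnit.of_mul_eq_one _ (ZMod.inv_mul_of_unit _ hu))
  have h7 : (1 : DirichletCharacter ℂ e) ((-d : ℤ) : ZMod e) =
      if d.natAbs.Coprime e then 1 else 0 := by
    have h8 : IsUnit ((-d : ℤ) : ZMod e) ↔ d.natAbs.Coprime e := by
      rw [ZMod.coe_int_isUnit_iff_isCoprime, isCoprime_comm, IsCoprime.neg_left_iff,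
        Int.isCoprime_iff_gcd_eq_one]
      rfl
    split_ifs with h
    · exact MulChar.one_apply (h8.2 h)
    · exact MulChar.map_nonunit _ fun hh => h (h8.1 hh)
  have h9 : ((n : ZMod e) = ((-d : ℤ) : ZMod e)) ↔ (e : ℤ) ∣ n + d := by
    rw [← ZMod.intCast_zmod_eq_zero_iff_dvd]
    push_cast
    exact eq_neg_iff_add_eq_zero
  rw [h5, h4, h6, h7]
  simp only [h9]
  split_ifs <;> push_cast <;> field_simp <;> ring

theorem one_disc {V : ℝ → ℝ} {L : ℝ} (hV : Wt V L) {X e : ℕ} [Fintype (DirichletCharacter ℂ e)]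
    [DecidableEq (DirichletCharacter ℂ e)] (he : 1 ≤ e) (d : ℤ) :
    ‖(disc V X e d : ℂ) - 1 / (e.totient : ℂ) * ∑ χ : DirichletCharacter ℂ e, if χ = 1 then 0 else
      conj (psw V X (cv ⟨χ.conductor, χ.primitiveCharacter⟩)) * χ ((-d : ℤ) : ZMod e)‖ ≤
      2 * (e * ell X) := by
  have : NeZero e := ⟨by omega⟩
  have hφ : (1 : ℝ) ≤ e.totient := by exact_mod_cast Nat.totient_pos.2 he
  let S : ℕ → ℂ := fun n => 1 / (e.totient : ℂ) * ∑ χ : DirichletCharacter ℂ e, if χ = 1 then 0 else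
    conj (cv ⟨χ.conductor, χ.primitiveCharacter⟩ n) * χ ((-d : ℤ) : ZMod e)
  let t : ℕ → ℝ := fun n => (if (e : ℤ) ∣ n + d then 1 else 0) -
    if d.natAbs.Coprime e then 1 / (e.totient : ℝ) else 0
  have hS : ∀ n, ‖S n‖ ≤ 1 := by
    intro n
    have h1 : ‖∑ χ : DirichletCharacter ℂ e, if χ = 1 then 0 else
        conj (cv ⟨χ.conductor, χ.primitiveCharacter⟩ n) * χ ((-d : ℤ) : ZMod e)‖ ≤ e.totient := by
      refine (norm_sum_le_of_le (n := fun _ => (1 : ℝ)) _ fun χ _ => ?_).trans ?_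
      · split_ifs
        · simp
        · rw [norm_mul, Complex.norm_conj]
          exact mul_le_one₀ (DirichletCharacter.norm_le_one _ _) (norm_nonneg _)
            (DirichletCharacter.norm_le_one _ _)
      · rw [sum_const, card_univ, ← Nat.card_eq_fintype_card,
          DirichletCharacter.card_eq_totient_of_hasEnoughRootsOfUnity]
        simp
    simp only [S]
    rw [norm_mul, norm_div, norm_one, Complex.norm_natCast, one_div, inv_mul_le_iff₀ (by linarith)]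
    simpa using h1
  have ht : ∀ n, |t n| ≤ 1 := by
    intro n
    have h1 : 0 < 1 / (e.totient : ℝ) := by positivity
    have h2 : 1 / (e.totient : ℝ) ≤ 1 := by rw [div_le_one (by linarith)]; exact hφ
    simp only [t]
    split_ifs <;> rw [abs_le] <;> constructor <;> linarith
  have e1 : (1 / (e.totient : ℂ) * ∑ χ : DirichletCharacter ℂ e, if χ = 1 then 0 else
      conj (psw V X (cv ⟨χ.conductor, χ.primitiveCharacter⟩)) * χ ((-d : ℤ) : ZMod e)) =
      ∑ n ∈ Icc 1 (2 * X), ((Λ n * om V X n : ℝ) : ℂ) * S n := by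
    simp only [S, mul_sum]
    rw [sum_comm]
    refine sum_congr rfl fun χ _ => ?_
    split_ifs
    · simp
    · rw [psw, map_sum, sum_mul, mul_sum]
      refine sum_congr rfl fun n _ => ?_
      rw [map_mul, Complex.conj_ofReal]
      ring
  have e2 : (disc V X e d : ℂ) = ∑ n ∈ Icc 1 (2 * X), ((Λ n * om V X n : ℝ) : ℂ) * (t n : ℂ) := by
    rw [disc, Complex.ofReal_sum]
    exact sum_congr rfl fun n _ => by rw [Complex.ofReal_mul]
  rw [e1, e2, ← sum_sub_distrib]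
  have h3 := sum_not_coprime he (2 * X)
  rw [sum_filter] at h3
  refine (norm_sum_le_of_le (n := fun n => 2 * if ¬ n.Coprime e then Λ n else 0) _
    fun n _ => ?_).trans ?_
  · rw [← mul_sub]
    by_cases hn : n.Coprime e
    · rw [show (t n : ℂ) = S n from point he hn d]
      simp [hn]
    · rw [if_pos hn, norm_mul, Complex.norm_real, Real.norm_eq_abs, abs_mul,
        abs_of_nonneg (vonMangoldt_nonneg (n := n))]
      have h4 : ‖(t n : ℂ) - S n‖ ≤ 2 := (norm_sub_le _ _).trans (by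
        rw [Complex.norm_real, Real.norm_eq_abs]; linarith [hS n, ht n])
      have h5 := hV.om_abs X n
      have h6 : 0 ≤ Λ n := vonMangoldt_nonneg
      calc Λ n * |om V X n| * ‖(t n : ℂ) - S n‖ ≤ Λ n * 1 * 2 := by gcongr
        _ = 2 * Λ n := by ring
  · rw [← mul_sum]
    refine mul_le_mul_of_nonneg_left (h3.trans ?_) zero_le_two
    refine mul_le_mul_of_nonneg_left ?_ (Nat.cast_nonneg _)
    push_cast
    unfold ell
    linarith

end Rda

end Pool.Agent.MP_678834_nt.gy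

end Piece10

-- ======== piece 11: Rda2
section Piece11

/-! Project GY, second stage: expansion in characters with the Fejer sum kept whole. -/

set_option autoImplicit false

namespace Pool.Agent.MP_678834_nt.gy

open Finset Filter ComplexConjugate ArithmeticFunction
open scoped ArithmeticFunction.Moebius

theorem rda2 : RDA2Stmt := by
  classical
  intro V L hV X h e _ he
  have hφ : (1 : ℝ) ≤ e.totient := by exact_mod_cast Nat.totient_pos.2 he
  let P : DirichletCharacter ℂ e → ℂ := fun χ => psw V X (cv ⟨χ.conductor, χ.primitiveCharacter⟩)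
  let M : ℤ → ℂ := fun d => 1 / (e.totient : ℂ) * ∑ χ : DirichletCharacter ℂ e,
    if χ = 1 then 0 else conj (P χ) * χ ((-d : ℤ) : ZMod e)
  have h1 : ‖(dsum V X h e : ℂ) - ∑ j ∈ Icc 1 h, ∑ k ∈ Icc 1 h, M ((k : ℤ) - j)‖ ≤
      2 * (h : ℝ) ^ 2 * e * ell X := by
    rw [dsum]
    push_cast
    simp only [← sum_sub_distrib]
    refine (norm_sum_le_of_le (n := fun _ => (h : ℝ) * (2 * (e * ell X))) _ fun j _ =>
      (norm_sum_le_of_le (n := fun _ => 2 * (e * ell X)) _ fun k _ => Rda.one_disc hV he _).trans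
        (by simp)).trans (le_of_eq ?_)
    simp only [sum_const, Nat.card_Icc, add_tsub_cancel_right, nsmul_eq_mul]
    ring
  have h2 : ∑ j ∈ Icc 1 h, ∑ k ∈ Icc 1 h, M ((k : ℤ) - j) = 1 / (e.totient : ℂ) *
      ∑ χ : DirichletCharacter ℂ e, if χ = 1 then 0 else conj (P χ) *
        ∑ j ∈ Icc 1 h, ∑ k ∈ Icc 1 h, χ ((-((k : ℤ) - j) : ℤ) : ZMod e) := by
    simp only [M, ← mul_sum]
    congr 1
    simp only [sum_comm (t := (univ : Finset (DirichletCharacter ℂ e)))]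
    refine sum_congr rfl fun χ _ => ?_
    split_ifs
    · simp
    · simp only [mul_sum]
  have h3 : ‖∑ j ∈ Icc 1 h, ∑ k ∈ Icc 1 h, M ((k : ℤ) - j)‖ ≤ 1 / (e.totient : ℝ) *
      ∑ χ : DirichletCharacter ℂ e, if χ = 1 then 0 else
        ‖wz ⟨e, χ⟩ h‖ * ‖P χ‖ := by
    rw [h2, norm_mul, norm_div, norm_one, Complex.norm_natCast]
    refine mul_le_mul_of_nonneg_left (norm_sum_le_of_le _ fun χ _ => ?_) (by positivity)
    split_ifs with hχ
    · simp
    · have hne : e ≠ 1 := by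
        rintro rfl
        exact hχ (DirichletCharacter.level_one χ)
      have : Fact (1 < e) := ⟨by omega⟩
      rw [Rda.shifts (fun m => χ (m : ZMod e)) (χ (-1)) (by simpa using χ.map_zero)
        (fun m => by rw [← map_mul]; simp) h, norm_mul, Complex.norm_conj, mul_comm]
      refine le_of_eq ?_
      simp [wz, pp, cv]
  rw [← Real.norm_eq_abs, ← Complex.norm_real]
  exact (norm_le_norm_sub_add _ _).trans (add_le_add h1 h3)

end Pool.Agent.MP_678834_nt.gy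

end Piece11

-- ======== piece 12: Dual
section Piece12

/-! Project GY, second stage: the dual sum. -/

set_option autoImplicit false

namespace Pool.Agent.MP_678834_nt.gy

open Finset Filter ComplexConjugate ArithmeticFunction
open scoped ArithmeticFunction.Moebius

namespace DualAux

theorem icc (f : ℕ → ℂ) (n : ℕ) : ∑ k ∈ Icc 1 n, f k = ∑ i ∈ range n, f (i + 1) := by
  induction n with
  | zero => simp
  | succ n ih => rw [sum_Icc_succ_top (by omega), ih, sum_range_succ]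

theorem parts (g a : ℕ → ℂ) (N : ℕ) : ∑ k ∈ range N, g k * a k =
    g (N - 1) * ∑ k ∈ range N, a k -
      ∑ i ∈ range (N - 1), (g (i + 1) - g i) * ∑ j ∈ range (i + 1), a j := by
  simpa only [smul_eq_mul] using sum_range_by_parts g a N

theorem ee_one (t : ℝ) : ‖ee t - 1‖ ≤ 2 * Real.pi * |t| := by
  refine Real.norm_exp_I_mul_ofReal_sub_one_le.trans (le_of_eq ?_)
  rw [Real.norm_eq_abs, abs_mul, abs_of_pos Real.two_pi_pos]

theorem shift {y : ℕ} {α β m : ℝ} (hβ : 0 ≤ β) (hm : ∀ Y ≤ y, ‖DD Y α‖ ≤ m) :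
    ‖DD y (α + β) - DD y α‖ ≤ 4 * Real.pi * (y * β) * m := by
  have m0 : 0 ≤ m := (norm_nonneg _).trans (hm 0 (Nat.zero_le _))
  have pi0 := Real.pi_pos
  rcases Nat.eq_zero_or_pos y with rfl | y0
  · simp [DD]
  have e : DD y (α + β) - DD y α =
      ∑ k ∈ range y, (ee ((k + 1 : ℕ) * β) - 1) * ee ((k + 1 : ℕ) * α) := by
    rw [DD, DD, icc, icc, ← sum_sub_distrib]
    refine sum_congr rfl fun k _ => ?_
    rw [mul_add, ee_add]; ring
  have p : ∀ Y ≤ y, ‖∑ k ∈ range Y, ee ((k + 1 : ℕ) * α)‖ ≤ m := fun Y hY => by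
    have := hm Y hY
    rwa [DD, icc] at this
  rw [e, parts (fun k => ee ((k + 1 : ℕ) * β) - 1) (fun k => ee ((k + 1 : ℕ) * α))]
  refine (norm_sub_le _ _).trans ?_
  have h1 : ‖(ee ((y - 1 + 1 : ℕ) * β) - 1) * ∑ k ∈ range y, ee ((k + 1 : ℕ) * α)‖ ≤
      2 * Real.pi * (y * β) * m := by
    rw [norm_mul, Nat.sub_add_cancel y0]
    refine mul_le_mul ((ee_one _).trans (le_of_eq ?_)) (p y le_rfl) (norm_nonneg _)
      (by positivity)
    rw [abs_of_nonneg (by positivity)]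
  have h2 : ∀ i ∈ range (y - 1), ‖(ee ((i + 1 + 1 : ℕ) * β) - 1 - (ee ((i + 1 : ℕ) * β) - 1)) *
      ∑ j ∈ range (i + 1), ee ((j + 1 : ℕ) * α)‖ ≤ 2 * Real.pi * β * m := fun i hi => by
    have e2 : ee ((i + 1 + 1 : ℕ) * β) - 1 - (ee ((i + 1 : ℕ) * β) - 1) =
        ee ((i + 1 : ℕ) * β) * (ee β - 1) := by
      rw [mul_sub, ← ee_add, show ((i + 1 + 1 : ℕ) : ℝ) * β = (i + 1 : ℕ) * β + β by
        push_cast; ring]
      ring
    rw [e2, norm_mul, norm_mul, norm_ee, one_mul]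
    refine mul_le_mul ((ee_one _).trans (le_of_eq ?_))
      (p _ (by have := mem_range.1 hi; omega)) (norm_nonneg _) (by positivity)
    rw [abs_of_nonneg hβ]
  have h3 := (norm_sum_le _ _).trans (sum_le_card_nsmul _ _ _ h2)
  rw [card_range, nsmul_eq_mul] at h3
  have h4 : ((y - 1 : ℕ) : ℝ) ≤ y := by exact_mod_cast Nat.sub_le y 1
  have h5 := mul_le_mul_of_nonneg_right h4 (show 0 ≤ 2 * Real.pi * β * m by positivity)
  linarith

theorem ini {q a b : ℕ} (h1 : 1 ≤ a) (h2 : a ≤ b) (h3 : a + b ≤ q) (y Y : ℕ) (hY : Y ≤ y) :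
    ‖DD Y ((b : ℝ) / q)‖ ≤ min (y : ℝ) ((q : ℝ) / a) := by
  refine le_min ((DD_le _ _).trans (by exact_mod_cast hY)) ?_
  have a0 : (0 : ℝ) < a := by exact_mod_cast h1
  have k1 : (1 : ℝ) / b ≤ 1 / a := one_div_le_one_div_of_le a0 (by exact_mod_cast h2)
  have k2 : (1 : ℝ) / ((q - b : ℕ) : ℝ) ≤ 1 / a :=
    one_div_le_one_div_of_le a0 (by exact_mod_cast (by omega : a ≤ q - b))
  have q0 : (0 : ℝ) ≤ (q : ℝ) / 2 := by positivity
  refine (FamAux.geo (q := q) (a := b) (by omega) (by omega) Y).trans ?_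
  have := mul_le_mul_of_nonneg_left k1 q0
  have := mul_le_mul_of_nonneg_left k2 q0
  rw [div_eq_mul_one_div (q : ℝ) a]
  linarith

theorem step {q a : ℕ} (h1 : 1 ≤ a) (h2 : 2 * a + 1 ≤ q) (y : ℕ) :
    |‖DD y (((a + 1 : ℕ) : ℝ) / q)‖ ^ 2 - ‖DD y ((a : ℝ) / q)‖ ^ 2| ≤
      8 * Real.pi * (y / q) * min (y : ℝ) ((q : ℝ) / a) ^ 2 := by
  have k0 := ini (q := q) h1 le_rfl (by omega) y
  have k1 := ini (q := q) h1 (Nat.le_succ a) (by omega) y y le_rfl
  have k2 := shift (β := 1 / q) (by positivity) k0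
  rw [show (a : ℝ) / q + 1 / q = ((a + 1 : ℕ) : ℝ) / q by push_cast; ring, mul_one_div] at k2
  have k3 := (abs_norm_sub_norm_le _ _).trans k2
  have k4 := k0 y le_rfl
  rw [sq_sub_sq, abs_mul, abs_of_nonneg (by positivity)]
  refine (mul_le_mul (add_le_add k1 k4) k3 (abs_nonneg _) (by positivity)).trans (le_of_eq ?_)
  ring

theorem refl {q a : ℕ} (h : a ≤ q) (hq : 0 < q) (y : ℕ) :
    ‖DD y (((q - a : ℕ) : ℝ) / q)‖ = ‖DD y ((a : ℝ) / q)‖ := by
  have q0 : (q : ℝ) ≠ 0 := by positivity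
  rw [← Complex.norm_conj (DD y ((a : ℝ) / q)), DD, DD, map_sum]
  congr 1
  refine sum_congr rfl fun k _ => ?_
  rw [conj_ee, ← ee_sub_int _ k, Nat.cast_sub h]
  congr 1
  push_cast; field_simp; ring

theorem full {q : ℕ} (hq : 1 < q) (χ : DirichletCharacter ℂ q) (hχ : χ.IsPrimitive) :
    ∑ a ∈ range q, χ (a : ZMod q) = 0 := by
  have : NeZero q := ⟨by omega⟩
  rw [← FamAux.zsum fun a => χ a]
  refine MulChar.sum_eq_zero_of_ne_one fun e => ?_
  have := DirichletCharacter.eq_one_iff_conductor_eq_one.1 e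
  rw [(DirichletCharacter.isPrimitive_def χ).1 hχ] at this
  omega

theorem pp_range {q : ℕ} (hq : 1 < q) (χ : DirichletCharacter ℂ q) (i : ℕ) :
    ∑ j ∈ range (i + 1), χ (j : ZMod q) = pp (cv ⟨q, χ⟩) i := by
  have : Fact (1 < q) := ⟨hq⟩
  exact FamAux.rs i _ _ (by rw [Nat.cast_zero, MulChar.map_zero]) fun _ _ => rfl

theorem pp_refl {q : ℕ} (hq : 1 < q) (χ : DirichletCharacter ℂ q) (hχ : χ.IsPrimitive) :
    ∀ i, i + 1 ≤ q → pp (cv ⟨q, χ⟩) (q - 1 - i) = -χ (-1) * pp (cv ⟨q, χ⟩) i := by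
  intro i
  induction i with
  | zero =>
    intro _
    rw [← pp_range hq, show q - 1 - 0 + 1 = q by omega, full hq χ hχ]
    simp [pp]
  | succ i ih =>
    intro h
    have e := ih (by omega)
    have e2 : (((q - 1 - (i + 1) + 1 : ℕ)) : ZMod q) = -1 * ((i + 1 : ℕ) : ZMod q) := by
      rw [neg_one_mul, eq_neg_iff_add_eq_zero, ← Nat.cast_add,
        show q - 1 - (i + 1) + 1 + (i + 1) = q by omega, ZMod.natCast_self]
    rw [show q - 1 - i = q - 1 - (i + 1) + 1 by omega, pp, sum_Icc_succ_top (by omega)] at e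
    rw [pp, pp, sum_Icc_succ_top (show 1 ≤ i + 1 by omega)]
    simp only [cv, pp] at e ⊢
    rw [e2, map_mul] at e
    linear_combination e

theorem expandZ {q : ℕ} (hq : 1 < q) (χ : DirichletCharacter ℂ q) (hχ : χ.IsPrimitive) :
    ∃ τ : ℂ, ‖τ‖ ^ 2 = q ∧ ∀ m : ℤ, τ * χ (m : ZMod q) =
      ∑ a ∈ range q, χ⁻¹ (a : ZMod q) * ee (m * ((a : ℝ) / q)) := by
  obtain ⟨τ, h1, h2⟩ := FamAux.expand hq χ hχ
  refine ⟨τ, h1, fun m => ?_⟩
  have q0 : (q : ℝ) ≠ 0 := by positivity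
  obtain ⟨n, hn⟩ := Int.eq_ofNat_of_zero_le (Int.emod_nonneg m (show (q : ℤ) ≠ 0 by omega))
  have e : m = n + q * (m / q) := by rw [← hn]; exact (Int.emod_add_mul_ediv m q).symm
  have e1 : (m : ZMod q) = (n : ZMod q) := by rw [e]; simp
  have e2 : (m : ℝ) = n + q * ((m / q : ℤ) : ℝ) := by exact_mod_cast e
  rw [e1, h2]
  refine sum_congr rfl fun a _ => ?_
  rw [← ee_sub_int (m * ((a : ℝ) / q)) (m / q * a), e2]
  congr 2
  rw [Int.cast_mul, Int.cast_natCast]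
  field_simp
  ring

theorem fejer {q : ℕ} (hq : 1 < q) (χ : DirichletCharacter ℂ q) (hχ : χ.IsPrimitive) (y : ℕ) :
    √q * ‖wz ⟨q, χ⟩ y‖ =
      ‖∑ a ∈ range q, ((‖DD y ((a : ℝ) / q)‖ ^ 2 : ℝ) : ℂ) * χ⁻¹ (a : ZMod q)‖ := by
  have : Fact (1 < q) := ⟨hq⟩
  obtain ⟨τ, h1, h2⟩ := expandZ hq χ hχ
  have ht : ‖τ‖ = √q := by rw [← h1, Real.sqrt_sq (norm_nonneg _)]
  have e := Rda.shifts (fun m => χ (m : ZMod q)) (χ (-1))
    (by simp only [Int.cast_zero, MulChar.map_zero])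
    (fun m => by rw [← map_mul]; simp) y
  have e2 : wz ⟨q, χ⟩ y = ∑ j ∈ Icc 1 y, ∑ k ∈ Icc 1 y, χ (((k : ℤ) - j : ℤ) : ZMod q) := by
    rw [sum_comm]
    simp only [neg_sub] at e
    rw [e]
    simp [wz, pp, cv]
  rw [← ht, ← norm_mul, e2]
  congr 1
  simp only [mul_sum, h2, DD_sq, sum_mul]
  rw [sum_congr rfl fun j _ => sum_comm, sum_comm]
  exact sum_congr rfl fun a _ => sum_congr rfl fun j _ => sum_congr rfl fun k _ => mul_comm _ _

end DualAux

open DualAux in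
theorem dual : DUALStmt := by
  rintro ⟨q, χ⟩ hq hχ y
  dsimp only at hq hχ ⊢
  have q0 : (0 : ℝ) < q := by positivity
  have s0 := Real.sqrt_pos.2 q0
  have hi : DirichletCharacter.IsPrimitive χ⁻¹ := by
    rw [DirichletCharacter.isPrimitive_def, DirichletCharacter.conductor_inv]; exact hχ
  set g : ℕ → ℝ := fun a => ‖DD y ((a : ℝ) / q)‖ ^ 2 with hg
  set T : ℕ → ℝ := fun i => |g (i + 1) - g i| * ‖pp (cv ⟨q, χ⟩) i‖ with hT
  set B : ℕ → ℝ := fun a => min (y : ℝ) ((q : ℝ) / a) ^ 2 * ‖pp (cv ⟨q, χ⟩) a‖ with hB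
  have B0 : ∀ a, 0 ≤ B a := fun a => by positivity
  have c0 : 0 ≤ 8 * Real.pi * ((y : ℝ) / q) := by have := Real.pi_pos; positivity
  have h1 : √q * ‖wz ⟨q, χ⟩ y‖ ≤ ∑ i ∈ range (q - 1), T i := by
    rw [fejer hq χ hχ y, parts (fun a => (g a : ℂ)) fun a => χ⁻¹ (a : ZMod q), full hq _ hi,
      mul_zero, zero_sub, norm_neg]
    refine (norm_sum_le _ _).trans (le_of_eq (sum_congr rfl fun i _ => ?_))
    rw [norm_mul, ← Complex.ofReal_sub, Complex.norm_real, Real.norm_eq_abs, hT]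
    congr 1
    rw [← pp_range hq, ← norm_star, star_sum]
    congr 1
    refine sum_congr rfl fun j _ => ?_
    rw [MulChar.star_apply', inv_inv]
  have h2 : ∀ a, 1 ≤ a → 2 * a + 1 ≤ q → T a ≤ 8 * Real.pi * (y / q) * B a := fun a a1 a2 => by
    rw [hT, hB, ← mul_assoc]
    exact mul_le_mul_of_nonneg_right (step a1 a2 y) (norm_nonneg _)
  have h3 : ∀ i, i + 1 ≤ q → T (q - 1 - i) ≤ T i := fun i hi => by
    have e1 : g (q - 1 - i + 1) = g i := by
      rw [show q - 1 - i + 1 = q - i by omega]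
      exact congrArg (· ^ 2) (refl (by omega) (by omega) y)
    have e2 : g (q - 1 - i) = g (i + 1) := by
      rw [show q - 1 - i = q - (i + 1) by omega]
      exact congrArg (· ^ 2) (refl hi (by omega) y)
    simp only [hT]
    rw [e1, e2, abs_sub_comm, pp_refl hq χ hχ i hi, norm_mul, norm_neg]
    exact mul_le_mul_of_nonneg_left (mul_le_of_le_one_left (norm_nonneg _)
      (DirichletCharacter.norm_le_one _ _)) (abs_nonneg _)
  have T0 : T 0 = 0 := by simp [hT, pp]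
  have h4 : ∑ i ∈ range (q - 1), T i ≤
      2 * ∑ a ∈ Icc 1 q, 8 * Real.pi * (y / q) * B a := by
    rw [← sum_erase _ T0, ← sum_filter_add_sum_filter_not _ fun i => 2 * i + 1 ≤ q, two_mul]
    refine add_le_add (sum_inj id (fun _ _ _ _ e => e) (fun a ha => ?_) (fun a ha => ?_)
      fun a _ => mul_nonneg c0 (B0 a)) (sum_inj (fun i => q - 1 - i) (fun a ha b hb e => ?_)
      (fun a ha => ?_) (fun a ha => ?_) fun a _ => mul_nonneg c0 (B0 a))
    · simp only [mem_filter, mem_erase, mem_range, mem_Icc, id] at ha ⊢; omega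
    · simp only [mem_filter, mem_erase, mem_range] at ha
      exact h2 a (by omega) ha.2
    · simp only [mem_filter, mem_erase, mem_range] at ha hb e; omega
    · simp only [mem_filter, mem_erase, mem_range, mem_Icc] at ha ⊢; omega
    · simp only [mem_filter, mem_erase, mem_range] at ha
      have := h3 (q - 1 - a) (by omega)
      rw [show q - 1 - (q - 1 - a) = a by omega] at this
      exact this.trans (h2 _ (by omega) (by omega))
  rw [← mul_sum] at h4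
  have S0 : 0 ≤ ∑ a ∈ Icc 1 q, B a := sum_nonneg fun a _ => B0 a
  refine le_of_mul_le_mul_left ((h1.trans h4).trans ?_) s0
  have e : √q * (60 * ((y : ℝ) / (q * √q)) * ∑ a ∈ Icc 1 q, B a) =
      60 * ((y / q) * ∑ a ∈ Icc 1 q, B a) := by field_simp
  rw [e]
  have := mul_nonneg (show (0 : ℝ) ≤ y / q by positivity) S0
  nlinarith [Real.pi_lt_d2]

end Pool.Agent.MP_678834_nt.gy

end Piece12

-- ======== piece 13: Blk
section Piece13

/-! One dyadic block of moduli. -/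

set_option autoImplicit false

namespace Pool.Agent.MP_678834_nt.gy

open Finset Filter ComplexConjugate ArithmeticFunction
open scoped ArithmeticFunction.Moebius

namespace Blk

theorem first {x R l U σ ρ K D M N : ℝ} (hx : 0 ≤ x) (hR : 0 ≤ R) (hl : 1 ≤ l) (hρ : 0 ≤ ρ)
    (hK : K ^ 2 ≤ 2 * R * l ^ 2) (D0 : 0 ≤ D) (hD : D ≤ 9 * R ^ 2 * l) (M0 : 0 ≤ M) (N0 : 0 ≤ N)
    (h1 : M * N ≤ 4 * x) (h2 : M * U ≤ 4 * x) (h3 : N * U ≤ 4 * x) (h4 : R ≤ U * σ ^ 2)
    (h5 : R ^ 3 ≤ x * σ ^ 2) (h6 : 1 ≤ R * ρ ^ 2) (h7 : σ ^ 2 ≤ ρ ^ 2) :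
    K * √((M + D) * M * ((N + D) * N)) ≤ 36 * (R * x * l ^ 2 * ρ) := by
  have l0 : 0 ≤ l := by linarith
  have l2 : l ≤ l ^ 2 := by nlinarith
  have a1 : M * N ≤ 4 * (R * x * l ^ 2 * ρ ^ 2) := by
    have : 1 ≤ R * ρ ^ 2 * l ^ 2 := one_le_mul_of_one_le_of_one_le h6 (hl.trans l2)
    nlinarith
  have a2 : R * (M + N) ≤ 8 * x * ρ ^ 2 := by
    calc R * (M + N) ≤ U * σ ^ 2 * (M + N) := mul_le_mul_of_nonneg_right h4 (by positivity)
      _ = (M * U + N * U) * σ ^ 2 := by ring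
      _ ≤ 8 * x * ρ ^ 2 := mul_le_mul (by linarith) h7 (by positivity) (by positivity)
  have a3 : D * (M + N) ≤ 72 * (R * x * l ^ 2 * ρ ^ 2) := by
    calc D * (M + N) ≤ 9 * R ^ 2 * l * (M + N) := mul_le_mul_of_nonneg_right hD (by positivity)
      _ = 9 * R * l * (R * (M + N)) := by ring
      _ ≤ 9 * R * l ^ 2 * (8 * x * ρ ^ 2) := by gcongr
      _ = _ := by ring
  have a4 : D ^ 2 ≤ 81 * (R * x * l ^ 2 * ρ ^ 2) := by
    calc D ^ 2 ≤ (9 * R ^ 2 * l) ^ 2 := by gcongr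
      _ = 81 * R * l ^ 2 * R ^ 3 := by ring
      _ ≤ 81 * R * l ^ 2 * (x * ρ ^ 2) :=
        mul_le_mul_of_nonneg_left (h5.trans (by gcongr)) (by positivity)
      _ = _ := by ring
  refine (abs_le_of_sq_le_sq' ?_ (by positivity)).2
  rw [mul_pow, Real.sq_sqrt (by positivity)]
  calc K ^ 2 * ((M + D) * M * ((N + D) * N))
      = K ^ 2 * ((M * N + D * (M + N) + D ^ 2) * (M * N)) := by ring
    _ ≤ 2 * R * l ^ 2 * (157 * (R * x * l ^ 2 * ρ ^ 2) * (4 * x)) := by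
        gcongr
        linarith
    _ = 1256 * (R * x * l ^ 2 * ρ) ^ 2 := by ring
    _ ≤ _ := by nlinarith [sq_nonneg (R * x * l ^ 2 * ρ)]

end Blk

end Pool.Agent.MP_678834_nt.gy

end Piece13

-- ======== piece 14: Blk2
section Piece14

/-! One dyadic block of moduli, second stage. -/

set_option autoImplicit false

namespace Pool.Agent.MP_678834_nt.gy

open Finset Filter ComplexConjugate ArithmeticFunction
open scoped ArithmeticFunction.Moebius

namespace Blk2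

theorem third {x R s l U σ D M N a m h T C : ℝ} (hx : 0 ≤ x) (hs : 0 ≤ s) (hR : s ^ 2 = R)
    (hl : 1 ≤ l) (hσ : 0 ≤ σ) (D0 : 0 ≤ D) (hD : D ≤ 9 * R ^ 2 * l) (M0 : 0 ≤ M) (N0 : 0 ≤ N)
    (a0 : 0 < a) (m0 : 0 ≤ m) (mh : m ≤ h) (ma : m * a ≤ 2 * R) (T0 : 0 ≤ T) (hT : T * σ ≤ C)
    (hC : 1 ≤ C) (h1 : M * N ≤ 4 * x) (h3 : N * U ≤ 4 * x) (h4 : 1 ≤ R * σ ^ 3)
    (h5 : R * M ≤ 2 * x * σ ^ 3) (h6 : h ≤ U * σ ^ 3) (h7 : h * R ^ 2 ≤ x * σ ^ 3) :
    m ^ 2 * √((a * M + D) * (T * a * M) * ((N + D) * N)) ≤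
      72 * C * (R ^ 2 * s * x * l * σ) * (1 / a) := by
  have l0 : 0 ≤ l := by linarith
  have l2 : l ≤ l ^ 2 := by nlinarith
  have h0 : 0 ≤ h := m0.trans mh
  have R0 : 0 ≤ R := hR ▸ sq_nonneg s
  have a1 : (m * a) ^ 4 * (M * N) ≤ 64 * (R ^ 5 * x * σ ^ 3 * l ^ 2) := by
    calc (m * a) ^ 4 * (M * N) ≤ (2 * R) ^ 4 * (4 * x) * 1 * 1 := by
          rw [mul_one, mul_one]; gcongr
      _ ≤ (2 * R) ^ 4 * (4 * x) * (R * σ ^ 3) * l ^ 2 := by gcongr; linarith
      _ = _ := by ring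
  have a2 : (m * a) ^ 4 * (M * D) ≤ 288 * (R ^ 5 * x * σ ^ 3 * l ^ 2) := by
    calc (m * a) ^ 4 * (M * D) ≤ (2 * R) ^ 4 * (M * (9 * R ^ 2 * l ^ 2)) := by
          gcongr
          exact hD.trans (by gcongr)
      _ = 144 * R ^ 5 * l ^ 2 * (R * M) := by ring
      _ ≤ 144 * R ^ 5 * l ^ 2 * (2 * x * σ ^ 3) := by gcongr
      _ = _ := by ring
  have a3 : (m * a) ^ 3 * (m * N * D) ≤ 288 * (R ^ 5 * x * σ ^ 3 * l ^ 2) := by
    have : m * N ≤ 4 * x * σ ^ 3 := by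
      calc m * N ≤ U * σ ^ 3 * N := by gcongr; exact mh.trans h6
        _ = N * U * σ ^ 3 := by ring
        _ ≤ _ := by gcongr
    calc (m * a) ^ 3 * (m * N * D) ≤ (2 * R) ^ 3 * (4 * x * σ ^ 3 * (9 * R ^ 2 * l ^ 2)) := by
          gcongr
          exact hD.trans (by gcongr)
      _ = _ := by ring
  have a4 : (m * a) ^ 3 * (m * D ^ 2) ≤ 648 * (R ^ 5 * x * σ ^ 3 * l ^ 2) := by
    calc (m * a) ^ 3 * (m * D ^ 2) ≤ (2 * R) ^ 3 * (h * (9 * R ^ 2 * l) ^ 2) := by gcongr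
      _ = 648 * R ^ 5 * l ^ 2 * (h * R ^ 2) := by ring
      _ ≤ 648 * R ^ 5 * l ^ 2 * (x * σ ^ 3) := by gcongr
      _ = _ := by ring
  rw [mul_one_div, le_div_iff₀ a0]
  refine (abs_le_of_sq_le_sq' ?_ (by positivity)).2
  rw [mul_pow, mul_pow, Real.sq_sqrt (by positivity)]
  calc (m ^ 2) ^ 2 * ((a * M + D) * (T * a * M) * ((N + D) * N)) * a ^ 2
      = T * (M * N) * ((m * a) ^ 4 * (M * N) + (m * a) ^ 4 * (M * D) +
          (m * a) ^ 3 * (m * N * D) + (m * a) ^ 3 * (m * D ^ 2)) := by ring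
    _ ≤ T * (4 * x) * (1288 * (R ^ 5 * x * σ ^ 3 * l ^ 2)) := by
        gcongr
        linarith
    _ = 5152 * (T * σ) * 1 * (R ^ 4 * R * (x * l * σ) ^ 2) := by ring
    _ ≤ 5184 * C * C * (R ^ 4 * s ^ 2 * (x * l * σ) ^ 2) := by rw [hR]; gcongr; norm_num
    _ = _ := by ring

/-- The choice of the parameter. -/
theorem par {η : ℝ} (h0 : 0 < η) (h9 : η ≤ 1 / 100) {X h Q R : ℕ} (hX : 1 ≤ X)
    (hA : Adm2 η X h Q) (hRQ : R ≤ Q) {σ : ℝ} (hσ : σ = (X : ℝ) ^ (-(η / 20))) :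
    ∃ U : ℝ, 1 ≤ U ∧ U ^ 3 ≤ X ∧ (R : ℝ) ^ 2 * U ≤ X * σ ∧ (h : ℝ) ≤ U * σ ^ 3 ∧
      (h : ℝ) * R ^ 2 ≤ X * σ ^ 6 ∧
      (((R : ℝ) ≤ U * σ ^ 2 ∧ (R : ℝ) ^ 3 ≤ X * σ ^ 2) ∨ 1 ≤ (R : ℝ) * σ ^ 3) := by
  have x1 : (1 : ℝ) ≤ X := by exact_mod_cast hX
  have x0 : (0 : ℝ) < X := by linarith
  have q : (R : ℝ) ≤ Q := by exact_mod_cast hRQ
  have h1 : (1 : ℝ) ≤ h := by exact_mod_cast hA.h1
  have mo : ∀ {a b : ℝ}, a ≤ b → (X : ℝ) ^ a ≤ (X : ℝ) ^ b := fun h =>
    Real.rpow_le_rpow_of_exponent_le x1 h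
  have ad : ∀ a b : ℝ, (X : ℝ) ^ a * (X : ℝ) ^ b = (X : ℝ) ^ (a + b) := fun a b =>
    (Real.rpow_add x0 a b).symm
  have pw : ∀ (a : ℝ) (n : ℕ), ((X : ℝ) ^ a) ^ n = (X : ℝ) ^ (a * n) := fun a n =>
    (Real.rpow_mul_natCast x0.le a n).symm
  have on : ∀ a : ℝ, (X : ℝ) * (X : ℝ) ^ a = (X : ℝ) ^ (1 + a) := fun a => by
    rw [← ad, Real.rpow_one]
  have ge : ∀ {a : ℝ}, 0 ≤ a → 1 ≤ (X : ℝ) ^ a := fun h => Real.one_le_rpow x1 h
  have hq : (h : ℝ) * R ^ 2 ≤ (X : ℝ) ^ (1 - η) := le_trans (by gcongr) hA.hQQ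
  have c := hA.h3
  subst hσ
  refine ⟨h * (X : ℝ) ^ (η / 2), one_le_mul_of_one_le_of_one_le h1 (ge (by linarith)), ?_, ?_, ?_,
    ?_, ?_⟩
  · refine le_trans (b := ((X : ℝ) ^ (1 / 3 - η) * (X : ℝ) ^ (η / 2)) ^ 3) (by gcongr) ?_
    rw [ad, pw]
    exact (mo (by push_cast; linarith)).trans_eq (Real.rpow_one _)
  · rw [← mul_assoc, mul_comm _ (h : ℝ)]
    refine le_trans (b := (X : ℝ) ^ (1 - η) * (X : ℝ) ^ (η / 2)) (by gcongr) ?_
    rw [ad, on]
    exact mo (by linarith)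
  · rw [pw, mul_assoc, ad]
    exact le_mul_of_one_le_right (by positivity) (ge (by push_cast; linarith))
  · rw [pw, on]
    exact hq.trans (mo (by push_cast; linarith))
  rcases le_total (R : ℝ) ((X : ℝ) ^ (η / 4)) with d | d
  · refine Or.inl ⟨d.trans ?_, ?_⟩
    · rw [pw, mul_assoc, ad]
      exact (mo (by push_cast; linarith)).trans (le_mul_of_one_le_left (by positivity) h1)
    · refine le_trans (pow_le_pow_left₀ (by positivity) d 3) ?_
      rw [pw, pw, on]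
      exact mo (by push_cast; linarith)
  · refine Or.inr (le_trans ?_ (mul_le_mul_of_nonneg_right d (by positivity)))
    rw [pw, ad]
    exact ge (by push_cast; linarith)

/-- Cauchy-Schwarz and the large sieve -/
theorem cs {ι : Type} {S : Finset ι} {χ : ι → ℕ → ℂ} {K D : ℝ} (hF : Fam S χ K D) (D0 : 0 ≤ D)
    (M N : ℕ) (a b : ℕ → ℂ) (ha : ∀ m, ‖a m‖ ≤ 1) (hb : ∀ n, ‖b n‖ ≤ 1) :
    ∑ i ∈ S, ‖lf a (χ i) M‖ * ‖lf b (χ i) N‖ ≤ √((M + D) * M * ((N + D) * N)) := by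
  have k : ∀ (M : ℕ) (a : ℕ → ℂ), (∀ m, ‖a m‖ ≤ 1) →
      ∑ i ∈ S, ‖lf a (χ i) M‖ ^ 2 ≤ (M + D) * M := fun M a ha =>
    (hF.ls M a).trans (mul_le_mul_of_nonneg_left (by
      simpa using sum_le_card_nsmul (Icc 1 M) _ (1 : ℝ) fun m _ =>
        pow_le_one₀ (n := 2) (norm_nonneg _) (ha m)) (by positivity))
  exact Real.le_sqrt_of_sq_le ((sum_mul_sq_le_sq_mul_sq _ _ _).trans
    (mul_le_mul (k M a ha) (k N b hb) (sum_nonneg fun _ _ => sq_nonneg _) (by positivity)))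

/-- the dual bound, uniformly in a dyadic block -/
theorem dual' (hD : DUALStmt) {R : ℕ} (R1 : 1 ≤ R) {z : Ch} (h1 : 1 < z.1) (h2 : z.1 ≤ 2 * R)
    (h3 : z.2.IsPrimitive) (h4 : R ≤ z.1) (y : ℕ) :
    ‖wz z y‖ ≤ 60 * (y / (R * √R)) *
      ∑ a ∈ Icc 1 (2 * R), min (y : ℝ) (2 * R / a) ^ 2 * ‖pp (cv z) a‖ := by
  have r0 : (0 : ℝ) < R := by exact_mod_cast R1
  have q1 : (R : ℝ) ≤ z.1 := by exact_mod_cast h4
  have q2 : (z.1 : ℝ) ≤ 2 * R := by exact_mod_cast h2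
  refine (hD z h1 h3 y).trans (mul_le_mul (by gcongr) ?_ (by positivity) (by positivity))
  refine le_trans (sum_le_sum fun a _ => ?_) (sum_le_sum_of_subset_of_nonneg
    (Icc_subset_Icc_right h2) fun _ _ _ => by positivity)
  gcongr

end Blk2

theorem blk2 : FAMStmt → IIStmt → VAUStmt → DUALStmt → BLK2Stmt := by
  intro hF hI hV hU V L hW η h0 h9
  obtain ⟨C, C1, hC⟩ := divisor_bound (η := η / 40) (by linarith)
  have L0 : 0 ≤ L := by linarith [hW.one]
  refine ⟨100 * L * (36 + 4320 * C), by positivity, (eventually_ge_atTop 4).mono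
    fun X hX h Q y R S hA hy R1 hRQ hS hS' => ?_⟩
  have x2 : (4 : ℝ) ≤ X := by exact_mod_cast hX
  have x0 : (0 : ℝ) < X := by linarith
  have r1 : (1 : ℝ) ≤ R := by exact_mod_cast R1
  have h1 : (1 : ℝ) ≤ h := by exact_mod_cast hA.h1
  have l1 := ell_one (X := X) (by omega)
  set l := ell X with hl
  set σ := (X : ℝ) ^ (-(η / 20)) with hσ
  set ρ := 1 / √(R : ℝ) + σ with hρ
  have s0 : 0 < σ := by positivity
  have s1 : σ ≤ 1 := Real.rpow_le_one_of_one_le_of_nonpos (by linarith) (by linarith)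
  have sρ : σ ≤ ρ := le_add_of_nonneg_left (by positivity)
  have ρ0 : 0 ≤ ρ := s0.le.trans sρ
  have rρ : 1 ≤ R * ρ ^ 2 := by
    calc (1 : ℝ) = R * (1 / √(R : ℝ)) ^ 2 := by
          rw [div_pow, Real.sq_sqrt (by positivity)]; field_simp
      _ ≤ _ := by gcongr; exact le_add_of_nonneg_right s0.le
  obtain ⟨U, U1, U3, u1, u3, u4, u2⟩ := Blk2.par h0 h9 (by omega) hA hRQ hσ
  have u5 : (R : ℝ) ^ 2 ≤ X * σ ^ 6 := (le_mul_of_one_le_left (by positivity) h1).trans u4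
  have rx : (R : ℝ) ≤ X := ((le_self_pow₀ r1 two_ne_zero).trans u5).trans
    (mul_le_of_le_one_right x0.le (pow_le_one₀ s0.le s1))
  have hfam := hF (2 * R) S (by omega) hS
  push_cast at hfam
  have lg0 : 0 ≤ Real.log (2 * R) := Real.log_nonneg (by linarith)
  have lg : 1 + Real.log (2 * R) ≤ l := by
    have := Real.log_le_log (by linarith : (0 : ℝ) < 2 * R) (by linarith : 2 * (R : ℝ) ≤ 2 * X)
    rw [hl, ell]; linarith
  set K := √(2 * R : ℝ) * (1 + Real.log (2 * R))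
  set D := 1 + (2 * R : ℝ) ^ 2 * (1 + 2 * Real.log (2 * R))
  have K0 := hfam.K0
  have hK : K ^ 2 ≤ 2 * R * l ^ 2 := by
    rw [mul_pow, Real.sq_sqrt (by positivity)]; gcongr
  have D0 : 0 ≤ D := by positivity
  have hD : D ≤ 9 * R ^ 2 * l := by
    have a1 : 1 ≤ (R : ℝ) ^ 2 * l := one_le_mul_of_one_le_of_one_le (one_le_pow₀ r1) l1
    have a2 : (2 * R : ℝ) ^ 2 * (1 + 2 * Real.log (2 * R)) ≤ (2 * R) ^ 2 * (2 * l) := by
      gcongr; linarith
    have a3 : (2 * R : ℝ) ^ 2 * (2 * l) = 8 * (R ^ 2 * l) := by ring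
    rw [mul_assoc]
    linarith
  have hw : ∀ i ∈ S, ‖wz i y‖ ≤ 2 * (y * K) := fun i hi => wz_le i y (hfam.pv i hi)
  have hB : ∀ (M N : ℕ) (a b : ℕ → ℂ), M * N ≤ 4 * X → M * U ≤ 4 * X → N * U ≤ 4 * X →
      (∀ m, ‖a m‖ ≤ 1) → (∀ n, ‖b n‖ ≤ 1) → M ≤ N →
      ∑ i ∈ S, ‖wz i y‖ * (‖lf a (cv i) M‖ * ‖lf b (cv i) N‖) ≤
        4320 * C * (y * (R * X * l ^ 2 * ρ)) := by
    intro M N a b m1 m2 m3 ha hb hMN
    have m1' : (M : ℝ) * N ≤ 4 * X := by exact_mod_cast m1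
    rcases u2 with ⟨c1, c2⟩ | c1
    · have f := Blk.first x0.le (by positivity) l1 ρ0 hK D0 hD (by positivity)
        (by positivity) m1' m2 m3 c1 c2 rρ (by gcongr)
      calc _ ≤ ∑ i ∈ S, 2 * (y * K) * (‖lf a (cv i) M‖ * ‖lf b (cv i) N‖) :=
            sum_le_sum fun i hi => mul_le_mul_of_nonneg_right (hw i hi) (by positivity)
        _ ≤ 2 * (y * K) * √((M + D) * M * ((N + D) * N)) := by
            rw [← mul_sum]
            exact mul_le_mul_of_nonneg_left (Blk2.cs hfam D0 M N a b ha hb) (by positivity)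
        _ = 2 * y * (K * √((M + D) * M * ((N + D) * N))) := by ring
        _ ≤ 2 * y * (36 * (R * X * l ^ 2 * ρ)) := mul_le_mul_of_nonneg_left f (by positivity)
        _ = 72 * (y * (R * X * l ^ 2 * ρ)) := by ring
        _ ≤ _ := mul_le_mul_of_nonneg_right (by linarith) (by positivity)
    have mm : (M : ℝ) ^ 2 ≤ 4 * X := by
      have : (M : ℝ) ≤ N := by exact_mod_cast hMN
      rw [sq]
      exact le_trans (by gcongr) m1'
    have yh : (y : ℝ) ≤ h := by exact_mod_cast hy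
    have hM : (R : ℝ) * M ≤ 2 * X * σ ^ 3 := by
      refine (abs_le_of_sq_le_sq' ?_ (by positivity)).2
      calc ((R : ℝ) * M) ^ 2 = R ^ 2 * M ^ 2 := by ring
        _ ≤ X * σ ^ 6 * (4 * X) := by gcongr
        _ = _ := by ring
    have sr : 0 < √(R : ℝ) := by positivity
    have one : ∀ e ∈ Icc 1 (2 * R), min (y : ℝ) (2 * R / e) ^ 2 *
        ∑ i ∈ S, ‖pp (cv i) e‖ * (‖lf a (cv i) M‖ * ‖lf b (cv i) N‖) ≤
        72 * C * (R ^ 2 * √(R : ℝ) * X * l * σ) * (1 / e) := by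
      intro e he
      obtain ⟨e1, e2⟩ := mem_Icc.1 he
      have e0 : (0 : ℝ) < e := by exact_mod_cast e1
      refine (mul_le_mul_of_nonneg_left ((hI _ S cv K D hfam e M N a b ha hb).2
        (C * (X : ℝ) ^ (η / 20)) fun k hk => (hC k).trans ?_) (sq_nonneg _)).trans
        (Blk2.third x0.le sr.le (Real.sq_sqrt (by positivity)) l1 s0.le D0 hD (by positivity)
          (by positivity) e0 (by positivity) ((min_le_left _ _).trans yh)
          ((le_div_iff₀ e0).1 (min_le_right _ _)) (by positivity) (le_of_eq ?_) C1 m1' m3 c1 hM u3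
          (u4.trans (mul_le_mul_of_nonneg_left (pow_le_pow_of_le_one s0.le s1 (by norm_num))
            x0.le)))
      · have a1 : (k : ℝ) ≤ (X : ℝ) ^ (2 : ℝ) := by
          have a2 : (k : ℝ) ≤ 2 * R * M := by
            exact_mod_cast hk.trans (Nat.mul_le_mul_right _ e2)
          have a4 : 4 * X * σ ^ 3 ≤ X * X * 1 := by gcongr; exact pow_le_one₀ s0.le s1
          rw [Real.rpow_two, sq]
          linarith
        refine mul_le_mul_of_nonneg_left ((Real.rpow_le_rpow (by positivity) a1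
          (by linarith)).trans_eq ?_) (by linarith)
        rw [← Real.rpow_mul x0.le]
        congr 1; ring
      · rw [mul_assoc, hσ, ← Real.rpow_add x0, add_neg_cancel, Real.rpow_zero, mul_one]
    have hh := harm (2 * R)
    push_cast at hh
    calc _ ≤ ∑ i ∈ S, 60 * (y / (R * √R)) * (∑ e ∈ Icc 1 (2 * R),
          min (y : ℝ) (2 * R / e) ^ 2 * ‖pp (cv i) e‖) * (‖lf a (cv i) M‖ * ‖lf b (cv i) N‖) :=
          sum_le_sum fun i hi => mul_le_mul_of_nonneg_right (Blk2.dual' hU R1 (hS i hi).1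
            (hS i hi).2.1 (hS i hi).2.2 (hS' i hi) y) (by positivity)
      _ = 60 * (y / (R * √R)) * ∑ e ∈ Icc 1 (2 * R), min (y : ℝ) (2 * R / e) ^ 2 *
          ∑ i ∈ S, ‖pp (cv i) e‖ * (‖lf a (cv i) M‖ * ‖lf b (cv i) N‖) := by
          simp only [mul_sum, sum_mul]
          rw [sum_comm]
          exact sum_congr rfl fun _ _ => sum_congr rfl fun _ _ => by ring
      _ ≤ 60 * (y / (R * √R)) * (72 * C * (R ^ 2 * √(R : ℝ) * X * l * σ) * l) := by
          refine mul_le_mul_of_nonneg_left ((sum_le_sum one).trans ?_) (by positivity)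
          rw [← mul_sum]
          exact mul_le_mul_of_nonneg_left (hh.trans lg) (by positivity)
      _ = 4320 * C * (y * (R * X * l ^ 2 * σ)) := by field_simp; ring
      _ ≤ _ := by gcongr
  refine (hV V L hW _ S cv K D (fun i => ‖wz i y‖) X U (4320 * C * (y * (R * X * l ^ 2 * ρ))) hfam
    (fun _ _ => norm_nonneg _) U1 U3 (by positivity) fun M N a b m1 m2 m3 ha hb => ?_).trans ?_
  · rcases le_total M N with c | c
    · exact hB M N a b m1 m2 m3 ha hb c
    · simpa only [mul_comm ‖lf b _ N‖] using hB N M b a (by rwa [mul_comm]) m3 m2 hb ha c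
  have w1 : ∑ i ∈ S, ‖wz i y‖ ≤ D * (2 * (y * K)) :=
    (sum_le_card_nsmul _ _ _ hw).trans
      (by rw [nsmul_eq_mul]; exact mul_le_mul_of_nonneg_right hfam.card (by positivity))
  have w3 : l ^ 3 ≤ l ^ 4 := pow_le_pow_right₀ l1 (by norm_num)
  have w4 : l ^ 2 ≤ l ^ 4 := pow_le_pow_right₀ l1 (by norm_num)
  have w2 : K * U * ∑ i ∈ S, ‖wz i y‖ ≤ 36 * (y * (R * X * l ^ 4 * ρ)) := by
    calc K * U * ∑ i ∈ S, ‖wz i y‖ ≤ K * U * (D * (2 * (y * K))) := by gcongr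
      _ = 2 * y * (K ^ 2 * D * U) := by ring
      _ ≤ 2 * y * (2 * R * l ^ 2 * (9 * R ^ 2 * l) * U) := by gcongr
      _ = 36 * y * R * l ^ 3 * (R ^ 2 * U) := by ring
      _ ≤ 36 * y * R * l ^ 4 * (X * ρ) := mul_le_mul (by gcongr)
          (u1.trans (mul_le_mul_of_nonneg_left sρ x0.le)) (by positivity) (by positivity)
      _ = _ := by ring
  calc _ ≤ 100 * L * l ^ 3 * (36 * (y * (R * X * l ^ 4 * ρ)) +
        4320 * C * (y * (R * X * l ^ 4 * ρ))) := by gcongr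
    _ = _ := by ring

end Pool.Agent.MP_678834_nt.gy

end Piece14

-- ======== piece 15: Sww
section Piece15

/-! Project GY: the Siegel-Walfisz theorem and the prime number theorem with the smooth weight. -/

set_option autoImplicit false

namespace Pool.Agent.MP_678834_nt.gy

open Finset Filter ComplexConjugate ArithmeticFunction
open scoped ArithmeticFunction.Moebius

namespace Sww

theorem log_ev (c : ℝ) : ∀ᶠ X : ℕ in atTop, c ≤ Real.log X :=
  (Real.tendsto_log_atTop.comp tendsto_natCast_atTop_atTop).eventually_ge_atTop c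

open Classical in
theorem blk (h : SW0Stmt) (A B : ℕ) : ∃ C : ℝ, 0 ≤ C ∧ ∀ᶠ X : ℕ in atTop,
    ∀ (y q : ℕ) (χ : DirichletCharacter ℂ q), X ≤ y → y ≤ 2 * X → 1 ≤ q →
      (q : ℝ) ≤ Real.log X ^ B →
      ‖∑ n ∈ Icc 1 y, ((Λ n : ℂ) * χ n - if χ = 1 then 1 else 0)‖ ≤ C * X / Real.log X ^ A := by
  obtain ⟨C, y₀, h⟩ := h A B
  refine ⟨|C| * 2, by positivity, ?_⟩
  filter_upwards [log_ev 1, tendsto_natCast_atTop_atTop.eventually_ge_atTop y₀,
    eventually_ge_atTop 1] with X h1 h2 h3 y q χ a b c d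
  have a' : (X : ℝ) ≤ y := by exact_mod_cast a
  have b' : (y : ℝ) ≤ 2 * X := by exact_mod_cast b
  have x0 : (0 : ℝ) < X := by exact_mod_cast h3
  have l : Real.log X ≤ Real.log y := Real.log_le_log x0 a'
  have l0 : 0 < Real.log X := by linarith
  refine (h y q χ (h2.trans a') c (d.trans (pow_le_pow_left₀ l0.le l _))).trans ?_
  refine div_le_div₀ (by positivity) ?_ (by positivity) (pow_le_pow_left₀ l0.le l _)
  have := mul_le_mul (le_abs_self C) b' (by positivity) (abs_nonneg C)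
  linarith

theorem split {M : Type} [AddCommGroup M] (f : ℕ → M) {a b : ℕ} (h : a ≤ b) :
    ∑ n ∈ Ioc a b, f n = ∑ n ∈ Icc 1 b, f n - ∑ n ∈ Icc 1 a, f n := by
  have e : ∀ y : ℕ, Icc 1 y = Ioc 0 y := fun y => by
    ext n
    simp only [mem_Icc, mem_Ioc]
    omega
  rw [eq_sub_iff_add_eq', e, e, sum_Ioc_consecutive f (Nat.zero_le a) h]

end Sww

open Sww

theorem sww : SW0Stmt → SWWStmt := by
  intro h V L hV A B
  obtain ⟨C, C0, h⟩ := blk h (A + 2) B
  filter_upwards [h, log_ev 1, log_ev (6 * C * L), eventually_ge_atTop 1] with X h h1 h2 h3 z a b c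
  have x0 : (0 : ℝ) < X := by exact_mod_cast h3
  have l0 : 0 < Real.log X := by linarith
  have hS : ∀ y, X ≤ y → y ≤ 2 * X → ‖∑ n ∈ Icc 1 y, (Λ n : ℂ) * cv z n‖ ≤
      C * X / Real.log X ^ (A + 2) := fun y u v => by
    have := h y z.1 z.2 u v a b
    simpa only [if_neg c, sub_zero, cv] using this
  have k := hV.abel_om (fun n => if X < n then (Λ n : ℂ) * cv z n else 0) X (2 * X) le_rfl
    (K := 2 * (C * X / Real.log X ^ (A + 2))) fun y hy => by
      rcases le_or_gt y X with u | u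
      · rw [sum_eq_zero fun n hn => if_neg (by have := (mem_Icc.1 hn).2; omega), norm_zero]
        positivity
      · have e : (Icc 1 y).filter (X < ·) = Ioc X y := by
          ext n
          simp only [mem_filter, mem_Icc, mem_Ioc]
          omega
        rw [← sum_filter, e, split _ u.le]
        refine (norm_sub_le _ _).trans ?_
        linarith [hS y u.le hy, hS X le_rfl (by omega)]
  have e : psw V X (cv z) = ∑ k ∈ Icc 1 (2 * X),
      (if X < k then (Λ k : ℂ) * cv z k else 0) * (om V X (1 * k) : ℝ) := by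
    refine sum_congr rfl fun n _ => ?_
    rw [one_mul]
    split_ifs with u
    · push_cast; ring
    · have : om V X n = 0 := by_contra fun v => u (hV.om_supp h3 v).1
      simp [this]
  rw [e]
  refine k.trans ?_
  have l2 : 1 + Real.log ((2 * X : ℕ) : ℝ) ≤ 3 * Real.log X := by
    push_cast
    rw [Real.log_mul two_ne_zero x0.ne']
    linarith [Real.log_two_lt_d9]
  have L0 : 0 ≤ L := by linarith [hV.one]
  calc 2 * (C * X / Real.log X ^ (A + 2)) * (L * (1 + Real.log ((2 * X : ℕ) : ℝ)))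
      ≤ 2 * (C * X / Real.log X ^ (A + 2)) * (L * (3 * Real.log X)) := by gcongr
    _ = 6 * C * L * (X / Real.log X ^ (A + 1)) := by field_simp; ring
    _ ≤ Real.log X * (X / Real.log X ^ (A + 1)) := by gcongr
    _ = X / Real.log X ^ A := by field_simp; ring

theorem pnw : SW0Stmt → PNWStmt := by
  intro h ε hε
  obtain ⟨C, C0, h⟩ := blk h 1 0
  obtain ⟨δ, d0, d1, d2⟩ : ∃ δ : ℝ, 0 < δ ∧ δ ≤ ε / 8 ∧ δ ≤ 1 / 10 :=
    ⟨min (ε / 8) (1 / 10), by positivity, min_le_left _ _, min_le_right _ _⟩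
  refine ⟨δ, d0, fun V L hV hV1 => ?_⟩
  filter_upwards [h, log_ev 1, log_ev (8 * C / ε),
    tendsto_natCast_atTop_atTop.eventually_ge_atTop (8 / ε),
    tendsto_natCast_atTop_atTop.eventually_ge_atTop (10 : ℝ)] with X h h1 h2 h3 h4
  have x0 : (0 : ℝ) < X := by linarith
  have l0 : 0 < Real.log X := by linarith
  have hS : ∀ y, X ≤ y → y ≤ 2 * X → |∑ n ∈ Icc 1 y, Λ n - y| ≤ ε / 8 * X := fun y u v => by
    have k := h y 1 1 u v le_rfl (by simp)
    have e : ∑ n ∈ Icc 1 y, ((Λ n : ℂ) * (1 : DirichletCharacter ℂ 1) n - 1) =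
        ((∑ n ∈ Icc 1 y, Λ n - y : ℝ) : ℂ) := by
      have : ∀ n : ℕ, (1 : DirichletCharacter ℂ 1) n = 1 := fun n => by
        rw [Subsingleton.elim (n : ZMod 1) 1, map_one]
      simp [this]
    rw [if_pos rfl, e, Complex.norm_real, Real.norm_eq_abs, pow_one] at k
    refine k.trans ?_
    rw [div_le_iff₀ hε] at h2
    rw [div_le_iff₀ l0]
    nlinarith
  have a1 : (1 + 2 * δ) * X ≤ ⌈(1 + 2 * δ) * X⌉₊ := Nat.le_ceil _
  have a2 : (⌈(1 + 2 * δ) * X⌉₊ : ℝ) < (1 + 2 * δ) * X + 1 := Nat.ceil_lt_add_one (by positivity)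
  have b1 : (⌊2 * (1 - δ) * X⌋₊ : ℝ) ≤ 2 * (1 - δ) * X := Nat.floor_le (by nlinarith)
  have b2 : 2 * (1 - δ) * X < ⌊2 * (1 - δ) * X⌋₊ + 1 := Nat.lt_floor_add_one _
  generalize ⌈(1 + 2 * δ) * X⌉₊ = a at a1 a2
  generalize ⌊2 * (1 - δ) * X⌋₊ = b at b1 b2
  have dx : 0 < δ * X := by positivity
  have c1 : X ≤ a := by exact_mod_cast (by linarith : (X : ℝ) ≤ a)
  have c2 : a ≤ b := by exact_mod_cast (by nlinarith : (a : ℝ) ≤ b)
  have c3 : b ≤ 2 * X := by exact_mod_cast (by linarith : (b : ℝ) ≤ 2 * X)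
  have k : ∑ n ∈ Ioc a b, Λ n ≤ ps1 V X := by
    refine le_trans (le_of_eq (sum_congr rfl fun n hn => ?_)) (sum_le_sum_of_subset_of_nonneg
      (s := Ioc a b) (fun n hn => ?_) fun n _ _ => mul_nonneg vonMangoldt_nonneg (hV.nn _))
    · have n1 : (a : ℝ) < n := by exact_mod_cast (mem_Ioc.1 hn).1
      have n2 : (n : ℝ) ≤ b := by exact_mod_cast (mem_Ioc.1 hn).2
      have n0 : (0 : ℝ) < n := by nlinarith
      rw [om, hV1, mul_one]
      · have u := Real.log_le_log (by positivity) (a1.trans n1.le)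
        have v := Real.one_sub_inv_le_log_of_pos (show 0 < 1 + 2 * δ by positivity)
        have w : (1 + 2 * δ)⁻¹ ≤ 1 - δ := by
          rw [inv_le_iff_one_le_mul₀ (by positivity)]
          nlinarith
        rw [Real.log_mul (by positivity) x0.ne'] at u
        linarith
      · have u := Real.log_le_log n0 (n2.trans b1)
        have p : 0 < 1 - δ := by linarith
        rw [Real.log_mul (by positivity) x0.ne', Real.log_mul two_ne_zero p.ne'] at u
        linarith [Real.log_le_sub_one_of_pos p]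
    · have := mem_Ioc.1 hn
      exact mem_Icc.2 (by omega)
  rw [split _ c2] at k
  have s1 := abs_le.1 (hS a c1 (c2.trans c3))
  have s2 := abs_le.1 (hS b (c1.trans c2) c3)
  rw [div_le_iff₀ hε] at h3
  nlinarith [mul_le_mul_of_nonneg_right d1 x0.le]

end Pool.Agent.MP_678834_nt.gy

end Piece15

-- ======== piece 16: Mv
section Piece16

/-! Project GY: the mean value over all primitive characters. -/

set_option autoImplicit false

namespace Pool.Agent.MP_678834_nt.gy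

open Finset Filter ComplexConjugate ArithmeticFunction
open scoped ArithmeticFunction.Moebius

noncomputable section

namespace Mv

theorem log_big (c : ℝ) : ∀ᶠ X : ℕ in atTop, c ≤ Real.log X :=
  (Real.tendsto_log_atTop.comp tendsto_natCast_atTop_atTop).eventually_ge_atTop c

theorem pow_small {δ : ℝ} (hδ : 0 < δ) (m : ℕ) :
    ∀ᶠ X : ℕ in atTop, (X : ℝ) ^ (-δ) ≤ 1 / Real.log X ^ m := by
  have h := (isLittleO_log_rpow_rpow_atTop (m : ℝ) hδ).bound one_pos
  filter_upwards [tendsto_natCast_atTop_atTop.eventually h, log_big 1, eventually_ge_atTop 1]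
    with X h1 h2 h3
  have hX : (0 : ℝ) < X := by exact_mod_cast h3
  have hp : 0 < Real.log X ^ m := by positivity
  rw [Real.rpow_natCast, Real.norm_of_nonneg hp.le, Real.norm_of_nonneg (by positivity),
    one_mul] at h1
  rw [Real.rpow_neg hX.le, ← one_div]
  exact one_div_le_one_div_of_le hp h1

theorem ne_one {z : Ch} (h1 : 1 < z.1) (hp : z.2.IsPrimitive) : z.2 ≠ 1 := by
  intro h
  have : NeZero z.1 := ⟨by omega⟩
  have h2 : z.2.conductor = z.1 := hp
  rw [h, DirichletCharacter.conductor_one] at h2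
  omega

theorem nlog_le {X : ℕ} (hX : 1 ≤ X) (h : 1 ≤ Real.log X) :
    ((Nat.log 2 X + 1 : ℕ) : ℝ) ≤ 3 * Real.log X := by
  have h1 : ((2 ^ Nat.log 2 X : ℕ) : ℝ) ≤ X := by
    exact_mod_cast Nat.pow_log_le_self 2 (by omega)
  have h2 := Real.log_le_log (by positivity) h1
  rw [Nat.cast_pow, Real.log_pow] at h2
  have h3 := Real.log_two_gt_d9
  have h4 : (0 : ℝ) ≤ Nat.log 2 X := Nat.cast_nonneg _
  push_cast at h2 ⊢
  nlinarith

end Mv

end

end Pool.Agent.MP_678834_nt.gy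

end Piece16

-- ======== piece 17: Mv2
section Piece17

/-! Project GY, second stage: the mean value over all primitive characters. -/

set_option autoImplicit false

namespace Pool.Agent.MP_678834_nt.gy

open Finset Filter ComplexConjugate ArithmeticFunction
open scoped ArithmeticFunction.Moebius

noncomputable section

namespace Mv2

theorem Q_le {η : ℝ} {X h Q : ℕ} (hη : 0 < η) (hX : 1 ≤ X) (hA : Adm2 η X h Q) : Q ≤ X := by
  have h1 : (1 : ℝ) ≤ h := by exact_mod_cast hA.h1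
  have h2 : (1 : ℝ) ≤ Q := by exact_mod_cast hA.Q1
  have h3 : (1 : ℝ) ≤ X := by exact_mod_cast hX
  have h4 : (X : ℝ) ^ (1 - η) ≤ X := by
    conv_rhs => rw [← Real.rpow_one X]
    exact Real.rpow_le_rpow_of_exponent_le h3 (by linarith)
  have h5 := hA.hQQ
  have : (Q : ℝ) ≤ X := by nlinarith
  exact_mod_cast this

/-- the small moduli -/
theorem small (hF : FAMStmt) {R y : ℕ} {S : Finset Ch} (hR : 1 ≤ R) (hS : Prim S R)
    (g : Ch → ℝ) {T : ℝ} (hT : 0 ≤ T) (g0 : ∀ z ∈ S, 0 ≤ g z) (hg : ∀ z ∈ S, g z ≤ T) :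
    ∑ z ∈ S, 1 / (z.1 : ℝ) * (‖wz z y‖ * g z) ≤ y * (4 * (R : ℝ) ^ 5 * T) := by
  have F := hF R S hR hS
  have r1 : (1 : ℝ) ≤ R := by exact_mod_cast hR
  have l1 : Real.log R ≤ R - 1 := Real.log_le_sub_one_of_pos (by linarith)
  have l0 : 0 ≤ Real.log R := Real.log_nonneg r1
  have s1 : √(R : ℝ) ≤ R := by
    rw [Real.sqrt_le_left (by linarith)]; nlinarith
  have hK : √(R : ℝ) * (1 + Real.log R) ≤ (R : ℝ) ^ 2 := by
    rw [sq]; exact mul_le_mul s1 (by linarith) (by linarith) (by linarith)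
  have hD : (S.card : ℝ) ≤ 2 * (R : ℝ) ^ 3 := by
    refine F.card.trans ?_
    have : (R : ℝ) ^ 2 * (1 + 2 * Real.log R) ≤ (R : ℝ) ^ 2 * (2 * R - 1) :=
      mul_le_mul_of_nonneg_left (by linarith) (by positivity)
    nlinarith
  calc ∑ z ∈ S, 1 / (z.1 : ℝ) * (‖wz z y‖ * g z) ≤ ∑ _z ∈ S, 2 * (y * (R : ℝ) ^ 2) * T := by
        refine sum_le_sum fun z hz => ?_
        have q1 : (1 : ℝ) ≤ z.1 := by exact_mod_cast (hS z hz).1.le
        have a1 : 1 / (z.1 : ℝ) ≤ 1 := by rw [div_le_one (by linarith)]; exact q1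
        have a2 : ‖wz z y‖ * g z ≤ 2 * (y * (R : ℝ) ^ 2) * T :=
          mul_le_mul (wz_le z y fun j => (F.pv z hz j).trans hK) (hg z hz) (g0 z hz)
            (by positivity)
        calc _ ≤ 1 * (2 * (y * (R : ℝ) ^ 2) * T) :=
              mul_le_mul a1 a2 (mul_nonneg (norm_nonneg _) (g0 z hz)) zero_le_one
          _ = _ := one_mul _
    _ = S.card * (2 * (y * (R : ℝ) ^ 2) * T) := by rw [sum_const, nsmul_eq_mul]
    _ ≤ 2 * (R : ℝ) ^ 3 * (2 * (y * (R : ℝ) ^ 2) * T) :=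
        mul_le_mul_of_nonneg_right hD (by positivity)
    _ = _ := by ring

/-- the large moduli, by dyadic blocks -/
theorem large {Q X : ℕ} {S : Finset Ch} (hS : Prim S Q) (hQ : Q ≤ X) (f : Ch → ℝ)
    (f0 : ∀ z, 0 ≤ f z) {P W : ℝ} (hW : 0 ≤ W) (hP : ∀ z ∈ S, P ≤ z.1)
    (hb : ∀ (R : ℕ) (S' : Finset Ch), 1 ≤ R → R ≤ Q → P ≤ 2 * R → Prim S' (2 * R) →
      (∀ z ∈ S', R ≤ z.1) → ∑ z ∈ S', f z ≤ R * W) :
    ∑ z ∈ S, 1 / (z.1 : ℝ) * f z ≤ (Nat.log 2 X + 1 : ℕ) * W := by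
  classical
  have hm : ∀ z ∈ S, Nat.log 2 (z.1 - 1) ∈ range (Nat.log 2 X + 1) := fun z hz =>
    mem_range.2 (Nat.lt_succ_of_le (Nat.log_mono_right (by have := (hS z hz).2.1; omega)))
  rw [← sum_fiberwise_of_maps_to hm]
  refine (sum_le_card_nsmul _ _ W fun j _ => ?_).trans (by rw [card_range, nsmul_eq_mul])
  have hj : ∀ z ∈ S.filter (fun z => Nat.log 2 (z.1 - 1) = j), 2 ^ j < z.1 ∧ z.1 ≤ 2 * 2 ^ j := by
    intro z hz
    obtain ⟨h1, h2⟩ := mem_filter.1 hz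
    have h3 := (hS z h1).1
    have h4 := Nat.pow_log_le_self 2 (x := z.1 - 1) (by omega)
    have h5 := Nat.lt_pow_succ_log_self (b := 2) (by norm_num) (z.1 - 1)
    rw [h2] at h4 h5
    rw [Nat.succ_eq_add_one, pow_succ] at h5
    omega
  rcases (S.filter (fun z => Nat.log 2 (z.1 - 1) = j)).eq_empty_or_nonempty with he | ⟨z0, hz0⟩
  · rw [he, sum_empty]; exact hW
  obtain ⟨R, hR⟩ : ∃ R, R = 2 ^ j := ⟨_, rfl⟩
  rw [← hR] at hj
  have R1 : 1 ≤ R := by rw [hR]; exact Nat.one_le_two_pow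
  have R0 : (0 : ℝ) < R := by exact_mod_cast R1
  have z1 := hj z0 hz0
  have z2 := hS z0 (mem_filter.1 hz0).1
  have z3 : P ≤ 2 * R := (hP z0 (mem_filter.1 hz0).1).trans (by exact_mod_cast z1.2)
  have key := hb R _ R1 (by omega) z3 (fun z hz =>
    ⟨(hS z (mem_filter.1 hz).1).1, (hj z hz).2, (hS z (mem_filter.1 hz).1).2.2⟩)
    fun z hz => (hj z hz).1.le
  calc _ ≤ ∑ z ∈ S.filter (fun z => Nat.log 2 (z.1 - 1) = j), 1 / (R : ℝ) * f z :=
        sum_le_sum fun z hz => mul_le_mul_of_nonneg_right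
          (one_div_le_one_div_of_le R0 (by exact_mod_cast (hj z hz).1.le)) (f0 z)
    _ ≤ 1 / (R : ℝ) * (R * W) := by
        rw [← mul_sum]; exact mul_le_mul_of_nonneg_left key (by positivity)
    _ = W := by field_simp

end Mv2

theorem mv2 : FAMStmt → BLK2Stmt → SWWStmt → MV2Stmt := by
  classical
  intro hF hB hS V L hV η hη hη' A
  obtain ⟨C, C0, hC⟩ := hB V L hV η hη hη'
  filter_upwards [hC, hS V L hV (A + 1 + 5 * (2 * (A + 9))) (2 * (A + 9)), Mv.log_big 8,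
    Mv.log_big (2304 * C), Mv.pow_small (by positivity : 0 < η / 20) (A + 9),
    eventually_ge_atTop 1] with X h1 h2 h3 h4 h5 hX h Q y S hA hy hP
  have hQ := Mv2.Q_le hη hX hA
  have hnl := Mv.nlog_le hX (by linarith)
  have X0 : (0 : ℝ) < X := by exact_mod_cast hX
  have hell : ell X ≤ 2 * Real.log X := by
    have := Real.log_two_lt_d9
    rw [ell, Real.log_mul (by norm_num) X0.ne']; linarith
  have hell0 : 0 ≤ ell X := zero_le_one.trans (ell_one hX)
  obtain ⟨l, hl⟩ : ∃ l, l = Real.log X := ⟨_, rfl⟩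
  rw [← hl] at h2 h3 h4 h5 hnl hell ⊢
  have l0 : 0 < l := by linarith
  obtain ⟨u, hu⟩ : ∃ u, u = l ^ (A + 9) := ⟨_, rfl⟩
  have u1 : 1 ≤ u := by rw [hu]; exact one_le_pow₀ (by linarith)
  have huu : l ^ (2 * (A + 9)) = u ^ 2 := by rw [hu, ← pow_mul, mul_comm]
  rw [huu] at h2
  rw [← hu] at h5
  obtain ⟨R₀, hR₀⟩ : ∃ R₀, R₀ = ⌊u ^ 2⌋₊ := ⟨_, rfl⟩
  have r1 : 1 ≤ R₀ := by rw [hR₀]; exact Nat.le_floor (by push_cast; nlinarith)
  have r2 : (R₀ : ℝ) ≤ u ^ 2 := by rw [hR₀]; exact Nat.floor_le (by positivity)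
  have r3 : u ^ 2 < R₀ + 1 := by rw [hR₀]; exact Nat.lt_floor_add_one _
  rw [← sum_filter_add_sum_filter_not S fun z => z.1 ≤ R₀]
  have s1 := Mv2.small hF (y := y) (S := S.filter fun z => z.1 ≤ R₀) r1
    (fun z hz => ⟨(hP z (mem_filter.1 hz).1).1, (mem_filter.1 hz).2,
      (hP z (mem_filter.1 hz).1).2.2⟩) (fun z => ‖psw V X (cv z)‖)
    (T := X / l ^ (A + 1 + 5 * (2 * (A + 9)))) (by positivity) (fun _ _ => norm_nonneg _)
    fun z hz => h2 z (hP z (mem_filter.1 hz).1).1.le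
      (le_trans (by exact_mod_cast (mem_filter.1 hz).2) r2)
      (Mv.ne_one (hP z (mem_filter.1 hz).1).1 (hP z (mem_filter.1 hz).1).2.2)
  have s2 := Mv2.large (S := S.filter fun z => ¬ z.1 ≤ R₀)
    (fun z hz => hP z (mem_filter.1 hz).1) hQ
    (fun z => ‖wz z y‖ * ‖psw V X (cv z)‖) (fun _ => by positivity) (P := u ^ 2)
    (W := y * (C * X * (2 * l) ^ 7 * (3 / u))) (by positivity)
    (fun z hz => r3.le.trans (by exact_mod_cast not_le.1 (mem_filter.1 hz).2))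
    fun R S' R1 RQ hu2 hS' hR' => (h1 h Q y R S' hA hy R1 RQ hS' hR').trans (by
      have a1 : u / 2 ≤ √(R : ℝ) := Real.le_sqrt_of_sq_le (by nlinarith)
      have a2 : 1 / √(R : ℝ) ≤ 2 / u :=
        (one_div_le_one_div_of_le (by positivity) a1).trans (le_of_eq (one_div_div _ _))
      have a3 : 1 / √(R : ℝ) + (X : ℝ) ^ (-(η / 20)) ≤ 3 / u :=
        (add_le_add a2 h5).trans (le_of_eq (by ring))
      have a4 : ell X ^ 7 ≤ (2 * l) ^ 7 := pow_le_pow_left₀ hell0 hell 7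
      calc _ ≤ C * y * R * X * (2 * l) ^ 7 * (3 / u) := by gcongr
        _ = _ := by ring)
  have t1 : 4 * (R₀ : ℝ) ^ 5 * (X / l ^ (A + 1 + 5 * (2 * (A + 9)))) ≤ X / l ^ A / 2 := by
    have e : l ^ (A + 1 + 5 * (2 * (A + 9))) = l ^ A * l * (u ^ 2) ^ 5 := by
      rw [← huu, ← pow_mul, pow_add, pow_succ, mul_comm 5]
    rw [e]
    calc _ ≤ 4 * (u ^ 2) ^ 5 * (X / (l ^ A * l * (u ^ 2) ^ 5)) := by gcongr
      _ = X / l ^ A * (4 / l) := by field_simp
      _ ≤ X / l ^ A * (1 / 2) := by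
          refine mul_le_mul_of_nonneg_left ?_ (by positivity)
          rw [div_le_iff₀ l0]; linarith
      _ = _ := by ring
  have t2 : ((Nat.log 2 X + 1 : ℕ) : ℝ) * (C * X * (2 * l) ^ 7 * (3 / u)) ≤ X / l ^ A / 2 := by
    calc _ ≤ 3 * l * (C * X * (2 * l) ^ 7 * (3 / u)) := by gcongr
      _ = X / l ^ A * (1152 * C / l) := by rw [hu]; field_simp; ring
      _ ≤ X / l ^ A * (1 / 2) := by
          refine mul_le_mul_of_nonneg_left ?_ (by positivity)
          rw [div_le_iff₀ l0]; linarith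
      _ = _ := by ring
  have y0 : (0 : ℝ) ≤ y := Nat.cast_nonneg y
  have t3 := mul_le_mul_of_nonneg_left t1 y0
  have t4 := mul_le_mul_of_nonneg_left t2 y0
  rw [mul_left_comm] at s2
  linarith

end

end Pool.Agent.MP_678834_nt.gy

end Piece17

-- ======== piece 18: Red
section Piece18

/-! Project GY: reduction to primitive characters. -/

set_option autoImplicit false

namespace Pool.Agent.MP_678834_nt.gy

open Finset Filter ComplexConjugate ArithmeticFunction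
open scoped ArithmeticFunction.Moebius

noncomputable section

namespace RedL

theorem sum_dvd {M : Type} [AddCommMonoid M] (g : ℕ → M) {f : ℕ} (hf : 1 ≤ f) (j : ℕ) :
    ∑ d ∈ Icc 1 j, (if f ∣ d then g d else 0) = ∑ k ∈ Icc 1 (j / f), g (f * k) := by
  rw [← sum_filter]
  refine sum_nbij' (fun d => d / f) (fun k => f * k) (fun d hd => ?_) (fun k hk => ?_)
    (fun d hd => ?_) (fun k _ => Nat.mul_div_cancel_left k hf) fun d hd => ?_
  · obtain ⟨h1, h2⟩ := mem_filter.1 hd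
    obtain ⟨h3, h4⟩ := mem_Icc.1 h1
    exact mem_Icc.2 ⟨Nat.div_pos (Nat.le_of_dvd h3 h2) hf, Nat.div_le_div_right h4⟩
  · obtain ⟨h3, h4⟩ := mem_Icc.1 hk
    exact mem_filter.2 ⟨mem_Icc.2 ⟨Nat.mul_pos hf h3,
      by rw [mul_comm]; exact (Nat.le_div_iff_mul_le hf).1 h4⟩, dvd_mul_right _ _⟩
  · exact Nat.mul_div_cancel' (mem_filter.1 hd).2
  · rw [Nat.mul_div_cancel' (mem_filter.1 hd).2]

/-- the primitive character -/
def pr {e : ℕ} (χ : DirichletCharacter ℂ e) : Ch := ⟨χ.conductor, χ.primitiveCharacter⟩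

theorem cv_eq {e : ℕ} (he : 1 ≤ e) (χ : DirichletCharacter ℂ e) (d : ℕ) :
    cv ⟨e, χ⟩ d = ∑ f ∈ e.divisors, if f ∣ d then (μ f : ℂ) * cv (pr χ) d else 0 := by
  have h1 : e.divisors.filter (· ∣ d) = (Nat.gcd d e).divisors := by
    ext f
    simp only [mem_filter, Nat.mem_divisors, Nat.dvd_gcd_iff, ne_eq, Nat.gcd_eq_zero_iff]
    exact ⟨fun h => ⟨⟨h.2, h.1.1⟩, by omega⟩, fun h => ⟨⟨h.1.2, by omega⟩, h.1.1⟩⟩
  rw [← sum_filter, ← sum_mul, h1, sum_mu]
  split_ifs with h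
  · have := χ.primitiveCharacter_apply_of_isCoprime (a := d) (Nat.isCoprime_iff_coprime.2 h)
    rw [Int.cast_natCast, Int.cast_natCast] at this
    rw [one_mul]
    exact this.symm
  · rw [zero_mul]
    exact χ.map_nonunit fun hu => h ((ZMod.isUnit_iff_coprime d e).1 hu)

theorem pr_inj {e : ℕ} (he : 1 ≤ e) {χ χ' : DirichletCharacter ℂ e} (h : pr χ = pr χ') :
    χ = χ' := by
  have : NeZero e := ⟨by omega⟩
  refine MulChar.ext' fun a => ?_
  have h1 := cv_eq he χ a.val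
  rw [h, ← cv_eq he χ'] at h1
  simpa [cv] using h1

theorem pp_le {e Q : ℕ} (he : e ∈ Icc 1 Q) (χ : DirichletCharacter ℂ e) (j : ℕ) :
    ‖pp (cv ⟨e, χ⟩) j‖ ≤
      ∑ f ∈ Icc 1 Q, if (pr χ).1 * f ∣ e then ‖pp (cv (pr χ)) (j / f)‖ else 0 := by
  obtain ⟨h1, h2⟩ := mem_Icc.1 he
  unfold pp
  simp only [cv_eq h1 χ]
  rw [sum_comm]
  refine (norm_sum_le _ _).trans (sum_le_sum (fun f hf => ?_) |>.trans
    (sum_le_sum_of_subset_of_nonneg (s := e.divisors) (fun f hf => mem_Icc.2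
      ⟨Nat.pos_of_mem_divisors hf, (Nat.divisor_le hf).trans h2⟩) fun f _ _ => by positivity))
  have e1 : ∀ k, cv (pr χ) (f * k) = cv (pr χ) f * cv (pr χ) k := fun k => by simp [cv]
  rw [sum_dvd (fun d => (μ f : ℂ) * cv (pr χ) d) (Nat.pos_of_mem_divisors hf)]
  simp only [e1, ← mul_sum]
  split_ifs with h
  · rw [norm_mul, norm_mul]
    have a : ‖(μ f : ℂ)‖ ≤ 1 := by
      rw [Complex.norm_intCast]
      exact_mod_cast abs_moebius_le_one
    have b : ‖cv (pr χ) f‖ ≤ 1 := DirichletCharacter.norm_le_one _ _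
    exact (mul_le_of_le_one_left (by positivity) a).trans (mul_le_of_le_one_left (by positivity) b)
  · have : cv (pr χ) f = 0 := MulChar.map_nonunit _ fun hu => h
      (((ZMod.isUnit_iff_coprime _ _).1 hu).symm.mul_dvd_of_dvd_of_dvd χ.conductor_dvd_level
        (Nat.dvd_of_mem_divisors hf))
    simp [this]

theorem log_le {X n : ℕ} (h1 : 1 ≤ X) (h : n ≤ X) : 1 + Real.log n ≤ ell X := by
  have h2 : (1 : ℝ) ≤ X := by exact_mod_cast h1
  have h3 : (n : ℝ) ≤ X := by exact_mod_cast h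
  unfold ell
  rcases Nat.eq_zero_or_pos n with rfl | hn
  · simpa using Real.log_nonneg (by linarith)
  · have := Real.log_le_log (by exact_mod_cast hn) (by linarith : (n : ℝ) ≤ 2 * X)
    linarith

theorem sum_tot {X Q m : ℕ} (hX : 1 ≤ X) (hQ : Q ≤ X) (hm : 1 ≤ m) :
    ∑ e ∈ Icc 1 Q, (if m ∣ e then 1 / (e.totient : ℝ) else 0) ≤ 2 * ell X ^ 2 * (1 / m) := by
  have hl := ell_one hX
  rw [sum_dvd (fun e => 1 / (e.totient : ℝ)) hm]
  calc _ ≤ ∑ k ∈ Icc 1 (Q / m), 2 * ell X * (1 / m) * (1 / k) := by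
        refine sum_le_sum fun k hk => ?_
        obtain ⟨h3, h4⟩ := mem_Icc.1 hk
        have h5 : m * k ≤ X := le_trans
          (by rw [mul_comm]; exact (Nat.le_div_iff_mul_le hm).1 h4) hQ
        have h6 := tot_ge (m * k)
        have h7 := log_le hX h5
        have h8 : (0 : ℝ) < (m * k).totient := by
          exact_mod_cast Nat.totient_pos.2 (Nat.mul_pos hm h3)
        have h9 : (0 : ℝ) < m := by exact_mod_cast hm
        have h10 : (0 : ℝ) < k := by exact_mod_cast h3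
        rw [mul_one_div, mul_one_div, div_div, div_le_div_iff₀ h8 (by positivity), ← Nat.cast_mul]
        nlinarith
    _ ≤ 2 * ell X * (1 / m) * ell X := by
        rw [← mul_sum]
        exact mul_le_mul_of_nonneg_left ((harm _).trans
          (log_le hX ((Nat.div_le_self _ _).trans hQ))) (by positivity)
    _ = _ := by ring

end RedL

end

end Pool.Agent.MP_678834_nt.gy

end Piece18

-- ======== piece 19: Red2
section Piece19

/-! Project GY, second stage: reduction to primitive characters. -/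

set_option autoImplicit false

namespace Pool.Agent.MP_678834_nt.gy

open Finset Filter ComplexConjugate ArithmeticFunction
open scoped ArithmeticFunction.Moebius

noncomputable section

namespace Red2L

open RedL

theorem blk (G : ℕ → ℂ) {f : ℕ} (y : ℕ) {s : ℕ} (hf : 1 ≤ f) (hs : s ≤ f) :
    ∑ j ∈ range (f * y + s), G (j / f) = ∑ j ∈ range (f * y), G (j / f) + s * G y := by
  rw [sum_range_add]
  congr 1
  rw [sum_congr rfl (g := fun _ => G y) fun i hi => ?_]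
  · simp
  · rw [Nat.mul_add_div hf, Nat.div_eq_of_lt (lt_of_lt_of_le (mem_range.1 hi) hs), add_zero]

theorem full (G : ℕ → ℂ) {f : ℕ} (hf : 1 ≤ f) (y : ℕ) :
    ∑ j ∈ range (f * y), G (j / f) = f * ∑ i ∈ range y, G i := by
  induction y with
  | zero => simp
  | succ y ih => rw [Nat.mul_succ, blk G y hf le_rfl, ih, sum_range_succ, mul_add]

theorem split (G : ℕ → ℂ) {f : ℕ} (hf : 1 ≤ f) (h : ℕ) :
    ∑ j ∈ range h, G (j / f) = ((f - h % f : ℕ) : ℂ) * ∑ i ∈ range (h / f), G i +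
      ((h % f : ℕ) : ℂ) * ∑ i ∈ range (h / f + 1), G i := by
  have h1 := (Nat.mod_lt h hf).le
  conv_lhs => rw [← Nat.div_add_mod h f]
  rw [blk G _ hf h1, full G hf, sum_range_succ, Nat.cast_sub h1]
  ring

/-- the bound for the part of the divisor `f` -/
def ww (h f : ℕ) (z : Ch) : ℝ :=
  ((f - h % f : ℕ) : ℝ) * ‖wz z (h / f)‖ + ((h % f : ℕ) : ℝ) * ‖wz z (h / f + 1)‖

theorem ww_nonneg (h f : ℕ) (z : Ch) : 0 ≤ ww h f z := by
  unfold ww; positivity

theorem neg_eq {e : ℕ} (χ : DirichletCharacter ℂ e) : (pr χ).2 (-1) = χ (-1) := by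
  have := χ.primitiveCharacter_apply_of_isCoprime (a := -1) (isCoprime_one_left.neg_left)
  rw [Int.cast_neg, Int.cast_neg, Int.cast_one, Int.cast_one] at this
  exact this

theorem wz_le' {e Q : ℕ} (he : e ∈ Icc 1 Q) (χ : DirichletCharacter ℂ e) (h : ℕ) :
    ‖wz ⟨e, χ⟩ h‖ ≤ ∑ f ∈ Icc 1 Q, if (pr χ).1 * f ∣ e then ww h f (pr χ) else 0 := by
  obtain ⟨h1, h2⟩ := mem_Icc.1 he
  have e1 : ∀ f k, cv (pr χ) (f * k) = cv (pr χ) f * cv (pr χ) k := fun f k => by simp [cv]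
  have e2 : ∀ j, pp (cv ⟨e, χ⟩) j =
      ∑ f ∈ e.divisors, (μ f : ℂ) * cv (pr χ) f * pp (cv (pr χ)) (j / f) := by
    intro j
    unfold pp
    simp only [cv_eq h1 χ]
    rw [sum_comm]
    refine sum_congr rfl fun f hf => ?_
    rw [sum_dvd (fun d => (μ f : ℂ) * cv (pr χ) d) (Nat.pos_of_mem_divisors hf)]
    simp only [e1, ← mul_sum, mul_assoc]
  have e3 : wz ⟨e, χ⟩ h = ∑ f ∈ e.divisors, (μ f : ℂ) * cv (pr χ) f *
      (((f - h % f : ℕ) : ℂ) * wz (pr χ) (h / f) +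
        ((h % f : ℕ) : ℂ) * wz (pr χ) (h / f + 1)) := by
    unfold wz
    simp only [e2]
    rw [sum_comm, mul_sum]
    refine sum_congr rfl fun f hf => ?_
    rw [← mul_sum, split (pp (cv (pr χ))) (Nat.pos_of_mem_divisors hf), neg_eq]
    ring
  rw [e3]
  refine (norm_sum_le _ _).trans (sum_le_sum (fun f hf => ?_) |>.trans
    (sum_le_sum_of_subset_of_nonneg (s := e.divisors) (fun f hf => mem_Icc.2
      ⟨Nat.pos_of_mem_divisors hf, (Nat.divisor_le hf).trans h2⟩) fun f _ _ => by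
        split_ifs
        · exact ww_nonneg _ _ _
        · exact le_rfl))
  split_ifs with hd
  · rw [norm_mul, norm_mul]
    have a : ‖(μ f : ℂ)‖ ≤ 1 := by
      rw [Complex.norm_intCast]
      exact_mod_cast abs_moebius_le_one
    have b : ‖cv (pr χ) f‖ ≤ 1 := DirichletCharacter.norm_le_one _ _
    refine (mul_le_of_le_one_left (norm_nonneg _) (mul_le_one₀ a (norm_nonneg _) b)).trans
      ((norm_add_le _ _).trans (le_of_eq ?_))
    rw [norm_mul, norm_mul, Complex.norm_natCast, Complex.norm_natCast, ww]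
  · have : cv (pr χ) f = 0 := MulChar.map_nonunit _ fun hu => hd
      (((ZMod.isUnit_iff_coprime _ _).1 hu).symm.mul_dvd_of_dvd_of_dvd χ.conductor_dvd_level
        (Nat.dvd_of_mem_divisors hf))
    simp [this]

theorem ww_sum {h f : ℕ} (hf : 1 ≤ f) (S : Finset Ch) (P : Ch → ℝ) {T : ℝ}
    (H : ∀ y, y ≤ h → ∑ z ∈ S, 1 / (z.1 : ℝ) * (‖wz z y‖ * P z) ≤ y * T) :
    ∑ z ∈ S, 1 / (z.1 : ℝ) * (ww h f z * P z) ≤ h * T := by
  have h1 := (Nat.mod_lt h hf).le
  have h2 := Nat.div_add_mod h f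
  have e1 : ∑ z ∈ S, 1 / (z.1 : ℝ) * (ww h f z * P z) =
      ((f - h % f : ℕ) : ℝ) * ∑ z ∈ S, 1 / (z.1 : ℝ) * (‖wz z (h / f)‖ * P z) +
      ((h % f : ℕ) : ℝ) * ∑ z ∈ S, 1 / (z.1 : ℝ) * (‖wz z (h / f + 1)‖ * P z) := by
    rw [mul_sum, mul_sum, ← sum_add_distrib]
    refine sum_congr rfl fun z _ => ?_
    unfold ww
    ring
  have a := mul_le_mul_of_nonneg_left (H _ (Nat.div_le_self h f))
    (Nat.cast_nonneg (α := ℝ) (f - h % f))
  have b : ((h % f : ℕ) : ℝ) * ∑ z ∈ S, 1 / (z.1 : ℝ) * (‖wz z (h / f + 1)‖ * P z) ≤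
      ((h % f : ℕ) : ℝ) * (((h / f + 1 : ℕ) : ℝ) * T) := by
    rcases Nat.eq_zero_or_pos (h % f) with h0 | h0
    · simp [h0]
    · refine mul_le_mul_of_nonneg_left (H _ ?_) (Nat.cast_nonneg _)
      have := Nat.le_mul_of_pos_left (h / f) hf
      omega
  have c : (h : ℝ) = f * ((h / f : ℕ) : ℝ) + ((h % f : ℕ) : ℝ) := by exact_mod_cast h2.symm
  rw [e1]
  refine (add_le_add a b).trans (le_of_eq ?_)
  rw [Nat.cast_sub h1, Nat.cast_succ]
  conv_rhs => rw [c]
  ring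

end Red2L

open RedL Red2L in
theorem red2 : RDA2Stmt → RED2Stmt := by
  classical
  intro hR V L hV X h Q T hX hQ hT H
  have hl := ell_one hX
  obtain ⟨S, hS, hS'⟩ : ∃ S : Finset Ch, Prim S Q ∧
      ∀ e ∈ Icc 1 Q, ∀ χ : DirichletCharacter ℂ e, χ ≠ 1 → pr χ ∈ S := by
    refine ⟨(Icc 1 Q).biUnion fun e =>
      (univ.filter fun χ : DirichletCharacter ℂ e => χ ≠ 1).image pr, fun z hz => ?_,
      fun e he χ h1 => mem_biUnion.2 ⟨e, he, mem_image_of_mem _ (mem_filter.2 ⟨mem_univ _, h1⟩)⟩⟩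
    obtain ⟨e, he, hz⟩ := mem_biUnion.1 hz
    obtain ⟨χ, h1, rfl⟩ := mem_image.1 hz
    obtain ⟨h2, h3⟩ := mem_Icc.1 he
    have : NeZero e := ⟨by omega⟩
    have h4 := χ.conductor_ne_zero
    simp only [mem_filter] at h1
    have h5 : χ.conductor ≠ 1 := fun h =>
      h1.2 (DirichletCharacter.eq_one_iff_conductor_eq_one.2 h)
    exact ⟨show 1 < χ.conductor by omega, (Nat.le_of_dvd h2 χ.conductor_dvd_level).trans h3,
      χ.primitiveCharacter_isPrimitive⟩
  have h1 : ∀ e ∈ Icc 1 Q, |dsum V X h e| ≤ 2 * (h : ℝ) ^ 2 * Q * ell X +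
      ∑ f ∈ Icc 1 Q, ∑ z ∈ S, ww h f z * ‖psw V X (cv z)‖ *
        if z.1 * f ∣ e then 1 / (e.totient : ℝ) else 0 := by
    intro e he
    obtain ⟨h2, h3⟩ := mem_Icc.1 he
    refine (hR V L hV X h e hX h2).trans (add_le_add (by gcongr) ?_)
    have h4 : ∀ χ : DirichletCharacter ℂ e, ∀ x : ℝ, (if χ = 1 then 0 else x) =
        if χ ≠ 1 then x else 0 := fun χ x => (ite_not _ _ _).symm
    simp only [h4]
    rw [← sum_filter]
    refine (mul_le_mul_of_nonneg_left (sum_inj (t := S) pr (g := fun z =>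
      (∑ f ∈ Icc 1 Q, if z.1 * f ∣ e then ww h f z else 0) * ‖psw V X (cv z)‖)
      (fun a _ b _ => pr_inj h2) (fun χ hχ => hS' e he χ (mem_filter.1 hχ).2) (fun χ _ => ?_)
      fun z _ => ?_) (by positivity)).trans (le_of_eq ?_)
    · exact mul_le_mul_of_nonneg_right (wz_le' he χ h) (norm_nonneg _)
    · refine mul_nonneg (sum_nonneg fun f _ => ?_) (norm_nonneg _)
      split_ifs
      · exact ww_nonneg _ _ _
      · exact le_rfl
    · simp only [mul_sum, sum_mul]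
      rw [sum_comm]
      refine sum_congr rfl fun f _ => sum_congr rfl fun z _ => ?_
      split_ifs <;> ring
  have h2 : ∑ e ∈ Icc 1 Q, ∑ f ∈ Icc 1 Q, ∑ z ∈ S,
      ww h f z * ‖psw V X (cv z)‖ * (if z.1 * f ∣ e then 1 / (e.totient : ℝ) else 0) ≤
      2 * ell X ^ 2 * (h * T) * ell X := by
    rw [sum_comm]
    calc _ ≤ ∑ f ∈ Icc 1 Q, 2 * ell X ^ 2 * (h * T) * (1 / f) := by
          refine sum_le_sum fun f hf => ?_
          rw [sum_comm]
          calc _ ≤ ∑ z ∈ S, 2 * ell X ^ 2 * (1 / f) *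
                (1 / (z.1 : ℝ) * (ww h f z * ‖psw V X (cv z)‖)) := by
                refine sum_le_sum fun z hz => ?_
                rw [← mul_sum]
                refine (mul_le_mul_of_nonneg_left (sum_tot hX hQ (Nat.mul_pos
                  (by have := (hS z hz).1; omega) (mem_Icc.1 hf).1))
                  (mul_nonneg (ww_nonneg _ _ _) (norm_nonneg _))).trans (le_of_eq ?_)
                push_cast
                ring
            _ ≤ 2 * ell X ^ 2 * (1 / f) * (h * T) := by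
                rw [← mul_sum]
                exact mul_le_mul_of_nonneg_left (ww_sum (mem_Icc.1 hf).1 S _
                  fun y hy => H y S hy hS) (by positivity)
            _ = _ := by ring
      _ ≤ _ := by
          rw [← mul_sum]
          exact mul_le_mul_of_nonneg_left ((harm _).trans (log_le hX hQ)) (by positivity)
  refine (sum_le_sum h1).trans ?_
  rw [sum_add_distrib, sum_const, Nat.card_Icc, Nat.add_sub_cancel, nsmul_eq_mul]
  have h3 : ell X ≤ ell X ^ 3 := le_self_pow₀ hl (by norm_num)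
  have h4 := mul_le_mul_of_nonneg_left h3 (by positivity : 0 ≤ (h : ℝ) ^ 2 * (Q : ℝ) ^ 2)
  have h5 : 0 ≤ ell X ^ 3 * (h * T) := by positivity
  have h6 : 0 ≤ ell X ^ 3 * ((h : ℝ) ^ 2 * (Q : ℝ) ^ 2) := by positivity
  nlinarith

end

end Pool.Agent.MP_678834_nt.gy

end Piece19

-- ======== piece 20: Key
section Piece20

/-! Row Key: the cross term in terms of discrepancies. -/

set_option autoImplicit false

namespace Pool.Agent.MP_678834_nt.gy

open Finset Filter ComplexConjugate ArithmeticFunction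
open scoped ArithmeticFunction.Moebius

noncomputable section

namespace KeyL

/-- Ramanujan sums -/
def cR (r : ℕ) (m : ℤ) : ℝ := ∑ e ∈ r.divisors, (μ (r / e) : ℝ) * if (e : ℤ) ∣ m then (e : ℝ) else 0

theorem ram (m : ℤ) {r : ℕ} (hr : 1 ≤ r) :
    ∑ b ∈ (range r).filter (fun b => Nat.Coprime b r), ee (b * (m / r)) = cR r m := by
  rw [ram_formula m hr, cR, ← Nat.sum_div_divisors, Complex.ofReal_sum]
  refine sum_congr rfl fun e he => ?_
  rw [Nat.div_div_self (Nat.dvd_of_mem_divisors he) (by omega)]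
  split_ifs <;> simp

theorem sum_sqf {r : ℕ} (hr : Squarefree r) {f : ArithmeticFunction ℝ} (hf : f.IsMultiplicative) :
    ∑ e ∈ r.divisors, (μ (r / e) : ℝ) * f e = μ r * ∏ p ∈ r.primeFactors, (1 - f p) := by
  rw [hf.prodPrimeFactors_one_sub_of_squarefree _ hr, mul_sum]
  refine sum_congr rfl fun e he => ?_
  obtain ⟨c, rfl⟩ := Nat.dvd_of_mem_divisors he
  have e0 : 0 < e := Nat.pos_of_mem_divisors he
  have h1 : (μ e : ℝ) ^ 2 = 1 := by
    exact_mod_cast moebius_sq_eq_one_of_squarefree hr.of_mul_left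
  rw [Nat.mul_div_cancel_left _ e0,
    isMultiplicative_moebius.map_mul_of_coprime (Nat.coprime_of_squarefree_mul hr)]
  push_cast
  linear_combination -(μ c : ℝ) * f e * h1

theorem loc {r : ℕ} (hr : Squarefree r) (d : ℤ) : rho r * cR r d = ∑ e ∈ r.divisors,
    (μ (r / e) : ℝ) * (e * if d.natAbs.Coprime e then 1 / (e.totient : ℝ) else 0) := by
  let f : ArithmeticFunction ℝ := ⟨fun e => if (e : ℤ) ∣ d then (e : ℝ) else 0, by simp⟩
  let g : ArithmeticFunction ℝ :=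
    ⟨fun e => e * if d.natAbs.Coprime e then 1 / (e.totient : ℝ) else 0, by simp⟩
  let ρ : ArithmeticFunction ℝ := ⟨rho, by simp [rho]⟩
  have hf : f.IsMultiplicative := ⟨by simp [f], fun {m n} h => by
    have : ((m * n : ℕ) : ℤ) ∣ d ↔ (m : ℤ) ∣ d ∧ (n : ℤ) ∣ d := by
      push_cast
      exact ⟨fun q => ⟨dvd_of_mul_right_dvd q, dvd_of_mul_left_dvd q⟩,
        fun q => h.isCoprime.mul_dvd q.1 q.2⟩
    simp only [f, coe_mk, this]
    by_cases a : (m : ℤ) ∣ d <;> by_cases b : (n : ℤ) ∣ d <;> simp [a, b]⟩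
  have hg : g.IsMultiplicative := ⟨by simp [g], fun {m n} h => by
    simp only [g, coe_mk, Nat.coprime_mul_iff_right, Nat.totient_mul h]
    by_cases a : d.natAbs.Coprime m
    · by_cases b : d.natAbs.Coprime n
      · rw [if_pos ⟨a, b⟩, if_pos a, if_pos b]; push_cast; ring
      · rw [if_neg fun q => b q.2, if_neg b]; ring
    · rw [if_neg fun q => a q.1, if_neg a]; ring⟩
  have hρ : ρ.IsMultiplicative := ⟨by simp [ρ, rho], fun {m n} h => by
    simp only [ρ, coe_mk, rho, Nat.totient_mul h, isMultiplicative_moebius.map_mul_of_coprime h]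
    push_cast; ring⟩
  have e1 : cR r d = _ := sum_sqf hr hf
  have e2 : rho r = ∏ p ∈ r.primeFactors, rho p := (hρ.prod_primeFactors hr).symm
  rw [e1, e2, mul_left_comm, ← prod_mul_distrib]
  refine Eq.trans (congrArg _ (prod_congr rfl fun p hp => ?_)) (sum_sqf hr hg).symm
  have pp := Nat.prime_of_mem_primeFactors hp
  have p1 : (p : ℝ) - 1 ≠ 0 := sub_ne_zero.2 (by exact_mod_cast pp.ne_one)
  have c : d.natAbs.Coprime p ↔ ¬ (p : ℤ) ∣ d := by
    rw [Nat.coprime_comm, pp.coprime_iff_not_dvd, Int.natCast_dvd]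
  simp only [f, g, coe_mk, rho, c, moebius_apply_prime pp, Nat.totient_prime pp,
    Nat.cast_pred pp.pos]
  by_cases a : (p : ℤ) ∣ d <;> simp only [a, if_true, if_false, not_true, not_false_iff] <;>
    push_cast <;> field_simp <;> ring

theorem one (V : ℝ → ℝ) (X r : ℕ) (d : ℤ) :
    ∑ n ∈ Icc 1 (2 * X), Λ n * om V X n * (rho r * cR r (n + d) - rho r ^ 2 * cR r d) =
      rho r * ∑ e ∈ r.divisors, (μ (r / e) : ℝ) * e * disc V X e d := by
  by_cases hr : Squarefree r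
  · simp only [disc, mul_sum]
    rw [sum_comm]
    refine sum_congr rfl fun n _ => ?_
    rw [sq, mul_assoc (rho r), loc hr d, cR, ← mul_sub, ← sum_sub_distrib, mul_sum, mul_sum]
    refine sum_congr rfl fun e _ => ?_
    split_ifs <;> ring
  · simp [rho, moebius_eq_zero_of_not_squarefree hr]

theorem ident (V : ℝ → ℝ) (X h R Q : ℕ) :
    psw V X (HH h R Q) - ((ps1 V X * Phi h R Q : ℝ) : ℂ) = ((∑ r ∈ Ioc R Q,
      rho r * ∑ e ∈ r.divisors, (μ (r / e) : ℝ) * e * dsum V X h e : ℝ) : ℂ) := by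
  have a : ∀ n : ℕ, HH h R Q n = ((∑ r ∈ Ioc R Q, ∑ j ∈ Icc 1 h, ∑ k ∈ Icc 1 h,
      rho r * cR r (n + ((k : ℤ) - j)) : ℝ) : ℂ) := fun n => by
    rw [HH, sum_FF, Complex.ofReal_sum]
    refine sum_congr rfl fun r hr => ?_
    have r1 : 1 ≤ r := by have := (mem_Ioc.1 hr).1; omega
    simp only [Complex.ofReal_mul, Complex.ofReal_sum, DD_sq, ← ram _ r1, mul_sum, sum_mul]
    rw [sum_comm]
    refine sum_congr rfl fun j _ => ?_
    rw [sum_comm]
    refine sum_congr rfl fun k _ => sum_congr rfl fun b _ => ?_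
    rw [mul_assoc, ← ee_add, fr]
    congr 2; push_cast; ring
  have b : Phi h R Q = ∑ r ∈ Ioc R Q, ∑ j ∈ Icc 1 h, ∑ k ∈ Icc 1 h,
      rho r ^ 2 * cR r ((k : ℤ) - j) := by
    refine Complex.ofReal_injective ?_
    rw [Phi, sum_FF, Complex.ofReal_sum, Complex.ofReal_sum]
    refine sum_congr rfl fun r hr => ?_
    have r1 : 1 ≤ r := by have := (mem_Ioc.1 hr).1; omega
    simp only [Complex.ofReal_mul, Complex.ofReal_sum, DD_sq, ← ram _ r1, mul_sum]
    rw [sum_comm]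
    refine sum_congr rfl fun j _ => ?_
    rw [sum_comm]
    refine sum_congr rfl fun k _ => sum_congr rfl fun b _ => ?_
    rw [fr]
    congr 2; ring
  simp only [psw, a, ← Complex.ofReal_mul]
  rw [← Complex.ofReal_sum, ← Complex.ofReal_sub, b, ps1, sum_mul, ← sum_sub_distrib]
  congr 1
  calc _ = ∑ n ∈ Icc 1 (2 * X), ∑ r ∈ Ioc R Q, ∑ j ∈ Icc 1 h, ∑ k ∈ Icc 1 h, Λ n * om V X n *
        (rho r * cR r (n + ((k : ℤ) - j)) - rho r ^ 2 * cR r ((k : ℤ) - j)) :=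
        sum_congr rfl fun n _ => by
          simp only [← mul_sum, sum_sub_distrib, mul_sub]; ring
    _ = _ := by
      rw [sum_comm]
      refine sum_congr rfl fun r _ => ?_
      rw [sum_comm]
      simp only [dsum, mul_sum]
      rw [sum_comm (s := r.divisors)]
      refine sum_congr rfl fun j _ => ?_
      rw [sum_comm, sum_comm (s := r.divisors)]
      refine sum_congr rfl fun k _ => ?_
      rw [one, mul_sum]

theorem wt {X Q e : ℕ} (hQ : Q ≤ X) (he : 1 ≤ e) :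
    ∑ r ∈ (Icc 1 Q).filter (fun r => e ∣ r), (e : ℝ) / r.totient ≤ 2 * ell X ^ 2 := by
  rcases Nat.eq_zero_or_pos Q with rfl | Q0
  · simp; positivity
  have l : ∀ r : ℕ, 1 ≤ r → r ≤ Q → 1 + Real.log r ≤ ell X := fun r r1 r2 => by
    have : (r : ℝ) ≤ 2 * X := by exact_mod_cast (by omega : r ≤ 2 * X)
    have := Real.log_le_log (by exact_mod_cast r1) this
    unfold ell; linarith
  have l1 := ell_one (Q0.trans_le hQ)
  calc _ ≤ ∑ m ∈ Icc 1 Q, 2 * ell X * (1 / (m : ℝ)) := by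
        refine sum_inj (fun r => r / e) (fun a ha b hb q => ?_) (fun a ha => ?_) (fun a ha => ?_)
          fun b _ => by positivity
        · rw [← Nat.mul_div_cancel' (mem_filter.1 ha).2, ← Nat.mul_div_cancel' (mem_filter.1 hb).2,
            q]
        · obtain ⟨a1, a2⟩ := mem_filter.1 ha
          rw [mem_Icc] at a1 ⊢
          exact ⟨Nat.div_pos (Nat.le_of_dvd a1.1 a2) he, (Nat.div_le_self _ _).trans a1.2⟩
        · obtain ⟨a1, m, rfl⟩ := mem_filter.1 ha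
          rw [mem_Icc] at a1
          have m0 : (0 : ℝ) < m := by exact_mod_cast Nat.pos_of_mul_pos_left a1.1
          have t0 : (0 : ℝ) < (e * m).totient := by exact_mod_cast Nat.totient_pos.2 a1.1
          have t := tot_ge (e * m)
          have := l _ a1.1 a1.2
          rw [Nat.mul_div_cancel_left _ he, mul_one_div, div_le_div_iff₀ t0 m0]
          rw [Nat.cast_mul e m] at t this
          nlinarith
    _ ≤ _ := by
      rw [← mul_sum, sq, ← mul_assoc]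
      exact mul_le_mul_of_nonneg_left ((harm Q).trans (l Q Q0 le_rfl)) (by positivity)

end KeyL

theorem key : KEYStmt := by
  intro V X h R Q hQ
  rw [KeyL.ident, Complex.norm_real, Real.norm_eq_abs]
  calc _ ≤ ∑ r ∈ Ioc R Q, ∑ e ∈ r.divisors, (e : ℝ) / r.totient * |dsum V X h e| := by
        refine (abs_sum_le_sum_abs _ _).trans (sum_le_sum fun r _ => ?_)
        rw [mul_sum]
        refine (abs_sum_le_sum_abs _ _).trans (sum_le_sum fun e _ => ?_)
        have a : |(μ (r / e) : ℝ)| ≤ 1 := by exact_mod_cast abs_moebius_le_one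
        rw [abs_mul, abs_mul, abs_mul, Nat.abs_cast, ← mul_assoc, ← mul_assoc, div_eq_inv_mul,
          ← one_div]
        gcongr
        exact (mul_le_of_le_one_right (abs_nonneg _) a).trans (rho_abs r)
    _ ≤ ∑ r ∈ Icc 1 Q, ∑ e ∈ r.divisors, (e : ℝ) / r.totient * |dsum V X h e| :=
        sum_le_sum_of_subset_of_nonneg (fun r hr => by rw [mem_Ioc] at hr; rw [mem_Icc]; omega)
          fun _ _ _ => by positivity
    _ = ∑ e ∈ Icc 1 Q, ∑ r ∈ (Icc 1 Q).filter (fun r => e ∣ r),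
          (e : ℝ) / r.totient * |dsum V X h e| := by
        refine sum_comm' fun r e => ?_
        simp only [mem_Icc, Nat.mem_divisors, mem_filter]
        exact ⟨fun q => ⟨⟨q.1, q.2.1⟩, Nat.pos_of_dvd_of_pos q.2.1 q.1.1,
          (Nat.le_of_dvd q.1.1 q.2.1).trans q.1.2⟩, fun q => ⟨q.1.1, q.1.2, by omega⟩⟩
    _ ≤ _ := by
      rw [mul_sum]
      refine sum_le_sum fun e he => ?_
      rw [← sum_mul]
      exact mul_le_mul_of_nonneg_right (KeyL.wt hQ (mem_Icc.1 he).1) (abs_nonneg _)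

end

end Pool.Agent.MP_678834_nt.gy

end Piece20

-- ======== piece 21: Phi
section Piece21

/-! Project GY: the diagonal. -/

set_option autoImplicit false

namespace Pool.Agent.MP_678834_nt.gy

open Finset Filter ComplexConjugate ArithmeticFunction
open scoped ArithmeticFunction.Moebius

namespace PhiL

theorem ram_le {r h : ℕ} (hr : 1 ≤ r) {a : ℤ} (h0 : a ≠ 0) (ha : |a| ≤ h) :
    ‖∑ b ∈ (range r).filter (fun b => Nat.Coprime b r), ee (b * (a / r))‖ ≤
      ∑ e ∈ (Icc 1 h).filter (· ∣ r), if (e : ℤ) ∣ a then (e : ℝ) else 0 := by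
  rw [ram_formula a hr]
  refine (norm_sum_le _ _).trans ?_
  have h1 : ∀ d ∈ r.divisors, ‖(μ d : ℂ) * if ((r / d : ℕ) : ℤ) ∣ a then ((r / d : ℕ) : ℂ) else 0‖ ≤
      if ((r / d : ℕ) : ℤ) ∣ a then ((r / d : ℕ) : ℝ) else 0 := fun d _ => by
    split_ifs
    · rw [norm_mul, Complex.norm_natCast, Complex.norm_intCast]
      exact mul_le_of_le_one_left (Nat.cast_nonneg _) (by exact_mod_cast abs_moebius_le_one)
    · simp
  refine (sum_le_sum h1).trans ?_
  rw [Nat.sum_div_divisors r fun e => if (e : ℤ) ∣ a then (e : ℝ) else 0, ← sum_filter,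
    ← sum_filter]
  refine sum_le_sum_of_subset_of_nonneg (fun e he => ?_) fun _ _ _ => Nat.cast_nonneg _
  simp only [mem_filter, mem_Icc] at he ⊢
  have h2 := Int.le_of_dvd (abs_pos.2 h0) ((dvd_abs _ _).2 he.2)
  exact ⟨⟨⟨Nat.pos_of_mem_divisors he.1, by omega⟩, Nat.dvd_of_mem_divisors he.1⟩, he.2⟩

theorem cnt {h e j : ℕ} (he : 1 ≤ e) (hj : j ∈ Icc 1 h) :
    ∑ k ∈ (Icc 1 h).erase j, (if (e : ℤ) ∣ (k : ℤ) - j then (e : ℝ) else 0) ≤ 2 * h := by
  rw [← sum_filter, sum_const, nsmul_eq_mul]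
  have h1 : #(((Icc 1 h).erase j).filter fun k : ℕ => (e : ℤ) ∣ (k : ℤ) - j) ≤
      #((Icc (-((h / e : ℕ) : ℤ)) (h / e : ℕ)).erase 0) := by
    refine card_le_card_of_injOn (fun k : ℕ => ((k : ℤ) - j) / e) (fun k hk => ?_)
      fun k hk l hl hkl => ?_
    · simp only [mem_coe, mem_filter, mem_erase, mem_Icc] at hk hj ⊢
      obtain ⟨⟨h2, h3, h4⟩, c, hc⟩ := hk
      have h5 : ((k : ℤ) - j) / e = c := by rw [hc, Int.mul_ediv_cancel_left _ (by omega)]
      have h6 : c.natAbs ≤ h / e := (Nat.le_div_iff_mul_le he).2 (by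
        have := congrArg Int.natAbs hc
        rw [Int.natAbs_mul, Int.natAbs_natCast, mul_comm] at this
        omega)
      have h7 : c ≠ 0 := by
        rintro rfl
        omega
      rw [h5]
      generalize h / e = m at *
      omega
    · simp only [mem_coe, mem_filter] at hk hl
      have h2 := Int.ediv_mul_cancel hk.2
      have h3 := Int.ediv_mul_cancel hl.2
      simp only at hkl
      rw [hkl, h3] at h2
      omega
  rw [card_erase_of_mem (mem_Icc.2 ⟨neg_nonpos.2 (Nat.cast_nonneg _), Nat.cast_nonneg _⟩),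
    Int.card_Icc] at h1
  have h2 := Nat.div_mul_le_self h e
  have h3 : #(((Icc 1 h).erase j).filter fun k : ℕ => (e : ℤ) ∣ (k : ℤ) - j) * e ≤ 2 * h := by
    refine (Nat.mul_le_mul_right e (h1.trans (?_ : _ ≤ 2 * (h / e)))).trans (by nlinarith)
    generalize h / e = m
    omega
  exact_mod_cast h3

theorem one_mod {r : ℕ} (h : ℕ) (hr : 1 ≤ r) :
    (h : ℝ) * r.totient - ∑ _e ∈ (Icc 1 h).filter (· ∣ r), 2 * (h : ℝ) ^ 2 ≤
      ∑ b ∈ (range r).filter (fun b => Nat.Coprime b r), ‖DD h (fr (r, b))‖ ^ 2 := by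
  set c : ℤ → ℂ := fun a => ∑ b ∈ (range r).filter (fun b => Nat.Coprime b r), ee (b * (a / r))
    with hc
  have h1 : ((∑ b ∈ (range r).filter (fun b => Nat.Coprime b r), ‖DD h (fr (r, b))‖ ^ 2 : ℝ) : ℂ) =
      ∑ j ∈ Icc 1 h, ∑ k ∈ Icc 1 h, c ((k : ℤ) - j) := by
    rw [Complex.ofReal_sum]
    simp only [DD_sq, hc]
    rw [sum_comm]
    refine sum_congr rfl fun j _ => ?_
    rw [sum_comm]
    refine sum_congr rfl fun k _ => sum_congr rfl fun b _ => ?_
    congr 1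
    unfold fr
    ring
  have h2 := congrArg Complex.re h1
  rw [Complex.ofReal_re, Complex.re_sum] at h2
  have h3 : ∀ j ∈ Icc 1 h, (r.totient : ℝ) - ∑ _e ∈ (Icc 1 h).filter (· ∣ r), 2 * (h : ℝ) ≤
      (∑ k ∈ Icc 1 h, c ((k : ℤ) - j)).re := fun j hj => by
    rw [← add_sum_erase _ _ hj, Complex.add_re, sub_self, sub_eq_add_neg]
    refine add_le_add (le_of_eq ?_) (neg_le_of_abs_le ((Complex.abs_re_le_norm _).trans
      ((norm_sum_le _ _).trans ?_)))
    · simp [hc, ee_zero, Nat.totient, Nat.coprime_comm]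
    · refine (sum_le_sum fun k hk => ram_le (h := h) hr ?_ ?_).trans ?_
      · have := (mem_erase.1 hk).1
        omega
      · have := mem_Icc.1 (mem_erase.1 hk).2
        have := mem_Icc.1 hj
        rw [abs_le]
        omega
      · rw [sum_comm]
        exact sum_le_sum fun e he => cnt (mem_Icc.1 (mem_filter.1 he).1).1 hj
  rw [h2]
  refine le_trans (le_of_eq ?_) (sum_le_sum h3)
  simp only [sum_const, Nat.card_Icc, Nat.add_sub_cancel, nsmul_eq_mul]
  ring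

theorem tail {e R Q : ℕ} (he : 1 ≤ e) (hR : e ≤ R) (hQ : R ≤ Q) :
    ∑ r ∈ (Ioc R Q).filter (e ∣ ·), 1 / (r : ℝ) ^ 2 ≤ 2 / (R : ℝ) * (1 / (e : ℝ)) := by
  have h1 : 0 < R / e := Nat.div_pos hR he
  have h2 := sum_Ioc_inv_sq_le_sub (α := ℝ) h1.ne' ((Nat.div_le_self R e).trans hQ)
  have e0 : (0 : ℝ) < e := by exact_mod_cast he
  have R0 : (0 : ℝ) < R := by exact_mod_cast he.trans hR
  have m0 : (0 : ℝ) < (R / e : ℕ) := by exact_mod_cast h1
  have h3 : (R : ℝ) ≤ 2 * e * (R / e : ℕ) := by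
    have := Nat.lt_mul_div_succ R he
    exact_mod_cast (by nlinarith : R ≤ 2 * e * (R / e))
  refine (sum_inj (t := Ioc (R / e) Q) (g := fun s : ℕ => 1 / (e : ℝ) ^ 2 * ((s : ℝ) ^ 2)⁻¹)
    (· / e) (fun a ha b hb hab => ?_) (fun a ha => ?_) (fun a ha => ?_)
    fun _ _ => by positivity).trans ?_
  · rw [← Nat.div_mul_cancel (mem_filter.1 ha).2, ← Nat.div_mul_cancel (mem_filter.1 hb).2]
    exact congrArg (· * e) hab
  · obtain ⟨h4, c, rfl⟩ := mem_filter.1 ha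
    rw [mem_Ioc] at h4 ⊢
    rw [Nat.mul_div_cancel_left _ he]
    exact ⟨Nat.div_lt_of_lt_mul h4.1, (Nat.le_mul_of_pos_left _ he).trans h4.2⟩
  · obtain ⟨h4, c, rfl⟩ := mem_filter.1 ha
    simp only [Nat.mul_div_cancel_left _ he, Nat.cast_mul, mul_pow, one_div, mul_inv, le_refl]
  · rw [← mul_sum]
    refine (mul_le_mul_of_nonneg_left (h2.trans (sub_le_self _ (by positivity)))
      (by positivity)).trans ?_
    rw [← div_eq_mul_inv, div_div, div_mul_div_comm, div_le_div_iff₀ (by positivity)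
      (by positivity)]
    nlinarith

end PhiL

open PhiL in
theorem phi : PHIStmt := by
  intro h R Q h1 hR hQ
  set l : ℝ := 1 + Real.log Q with hl
  have R0 : (0 : ℝ) < R := by exact_mod_cast h1.trans hR
  have l0 : 0 ≤ Real.log Q := Real.log_natCast_nonneg Q
  have h2 : ∀ r ∈ Ioc R Q, h * ((μ r : ℝ) ^ 2 / (r.totient : ℝ)) -
      ∑ _e ∈ (Icc 1 h).filter (· ∣ r), 8 * (h : ℝ) ^ 2 * l ^ 2 * (1 / (r : ℝ) ^ 2) ≤
      ∑ b ∈ (range r).filter (fun b => Nat.Coprime b r),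
        rho (r, b).1 ^ 2 * ‖DD h (fr (r, b))‖ ^ 2 := fun r hr => by
    obtain ⟨h3, h4⟩ := mem_Ioc.1 hr
    have r1 : 1 ≤ r := by omega
    have r0 : (0 : ℝ) < r := by exact_mod_cast r1
    have t0 : (0 : ℝ) < r.totient := by exact_mod_cast Nat.totient_pos.2 r1
    have h5 : Real.log r ≤ Real.log Q := Real.log_le_log r0 (by exact_mod_cast h4)
    have h6 : |rho r| ≤ 2 * l / r := (rho_abs r).trans (by
      rw [div_le_div_iff₀ t0 r0]
      nlinarith [tot_ge r])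
    have h7 : rho r ^ 2 ≤ (2 * l / r) ^ 2 := by
      rw [← sq_abs]
      exact pow_le_pow_left₀ (abs_nonneg _) h6 2
    simp only
    rw [← mul_sum _ _ (rho r ^ 2)]
    refine le_trans ?_ (mul_le_mul_of_nonneg_left (one_mod h r1) (sq_nonneg _))
    rw [mul_sub, mul_sum]
    refine sub_le_sub (le_of_eq ?_) (sum_le_sum fun e _ => ?_)
    · unfold rho
      field_simp
    · refine (mul_le_mul_of_nonneg_right h7 (by positivity)).trans (le_of_eq ?_)
      ring
  rw [Phi, sum_FF]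
  refine le_trans ?_ (sum_le_sum h2)
  rw [sum_sub_distrib, ← mul_sum]
  refine sub_le_sub_left ?_ _
  simp only [sum_filter]
  rw [sum_comm]
  have h3 : ∀ e ∈ Icc 1 h, ∑ r ∈ Ioc R Q,
      (if e ∣ r then 8 * (h : ℝ) ^ 2 * l ^ 2 * (1 / (r : ℝ) ^ 2) else 0) ≤
      8 * (h : ℝ) ^ 2 * l ^ 2 * (2 / R) * (1 / e) := fun e he => by
    rw [← sum_filter, ← mul_sum, mul_assoc _ (2 / R : ℝ)]
    exact mul_le_mul_of_nonneg_left (tail (mem_Icc.1 he).1 ((mem_Icc.1 he).2.trans hR) hQ)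
      (by positivity)
  refine (sum_le_sum h3).trans ?_
  rw [← mul_sum]
  have h4 : ∑ e ∈ Icc 1 h, (1 : ℝ) / e ≤ l := (harm h).trans (by
    have := Real.log_le_log (by exact_mod_cast h1 : (0 : ℝ) < h) (by exact_mod_cast hR.trans hQ :
      (h : ℝ) ≤ Q)
    linarith)
  refine (mul_le_mul_of_nonneg_left h4 (by positivity)).trans ?_
  have h5 : 0 ≤ (h : ℝ) ^ 2 * l ^ 3 / R := by positivity
  calc _ = 16 * ((h : ℝ) ^ 2 * l ^ 3 / R) := by ring
    _ ≤ 20 * ((h : ℝ) ^ 2 * l ^ 3 / R) := by linarith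
    _ = _ := by ring

end Pool.Agent.MP_678834_nt.gy

end Piece21

-- ======== piece 22: Sqf
section Piece22

/-! Project GY: the sum of `μ(r)^2 / φ(r)` over an interval. -/

set_option autoImplicit false

namespace Pool.Agent.MP_678834_nt.gy

open Finset Filter ComplexConjugate ArithmeticFunction
open scoped ArithmeticFunction.Moebius

namespace SqfL

open UniqueFactorizationMonoid

theorem euler {r : ℕ} (hr : r ≠ 0) (t : Finset ℕ)
    (ht : ∀ m ∈ t, m ∈ Nat.factoredNumbers r.primeFactors) :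
    ∑ m ∈ t, (m : ℝ)⁻¹ ≤ r / r.totient := by
  let f : ℕ →* ℝ := ⟨⟨fun n => (n : ℝ)⁻¹, by simp⟩, fun a b => by simp [mul_comm]⟩
  have h := (EulerProduct.summable_and_hasSum_factoredNumbers_prod_filter_prime_geometric
    (f := f) (fun {p} hp => by
      have : (1 : ℝ) < p := by exact_mod_cast hp.one_lt
      change ‖(p : ℝ)⁻¹‖ < 1
      rw [Real.norm_of_nonneg (by positivity)]
      exact inv_lt_one_of_one_lt₀ this) r.primeFactors).2
  have h1 := sum_le_hasSum t (fun m _ => Set.indicator_nonneg (fun a _ => by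
    change 0 ≤ (a : ℝ)⁻¹
    positivity) m) (hasSum_subtype_iff_indicator.1 h)
  rw [sum_congr rfl fun m hm => Set.indicator_of_mem (ht m hm) _,
    filter_true_of_mem fun p hp => Nat.prime_of_mem_primeFactors hp, prod_inv_distrib] at h1
  refine h1.trans_eq ?_
  have h2 : (r.totient : ℝ) = r * ∏ p ∈ r.primeFactors, (1 - (p : ℝ)⁻¹) := by
    have := congrArg (fun q : ℚ => (q : ℝ)) (Nat.totient_eq_mul_prod_factors r)
    simpa using this
  have h3 : (r : ℝ) ≠ 0 := by exact_mod_cast hr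
  rw [h2, div_mul_cancel_left₀ h3]
  rfl

theorem fibre (r : ℕ) (s : Finset ℕ) (hs : ∀ n ∈ s, n ≠ 0 ∧ radical n = r) :
    ∑ n ∈ s, (1 : ℝ) / n ≤ (μ r : ℝ) ^ 2 / r.totient := by
  rcases s.eq_empty_or_nonempty with rfl | ⟨n₀, h₀⟩
  · rw [sum_empty]
    positivity
  have sq : Squarefree r := (hs n₀ h₀).2 ▸ squarefree_radical
  have r0 : (r : ℝ) ≠ 0 := by exact_mod_cast sq.ne_zero
  have dv : ∀ n ∈ s, r ∣ n := fun n hn => (hs n hn).2 ▸ radical_dvd_self
  have e : (μ r : ℝ) ^ 2 = 1 := by exact_mod_cast moebius_sq_eq_one_of_squarefree sq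
  have h := euler sq.ne_zero (s.image (· / r)) fun m hm => by
    obtain ⟨n, hn, rfl⟩ := mem_image.1 hm
    refine Nat.mem_factoredNumbers'.2 fun p hp hd => Nat.mem_primeFactors.2 ⟨hp, ?_, sq.ne_zero⟩
    rw [← (hs n hn).2]
    exact (dvd_radical_iff_of_irreducible hp.prime.irreducible (hs n hn).1).2
      (hd.trans (Nat.div_dvd_of_dvd (dv n hn)))
  rw [sum_image fun a ha b hb e => (Nat.div_left_inj (dv a ha) (dv b hb)).1 e] at h
  have h1 : ∑ n ∈ s, (1 : ℝ) / n = (r : ℝ)⁻¹ * ∑ n ∈ s, ((n / r : ℕ) : ℝ)⁻¹ := by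
    rw [mul_sum]
    refine sum_congr rfl fun n hn => ?_
    rw [Nat.cast_div (dv n hn) r0]
    field_simp
  rw [h1, e]
  refine (mul_le_mul_of_nonneg_left h (by positivity)).trans_eq ?_
  field_simp

theorem low (M Q : ℕ) (hQ : 1 ≤ Q) :
    Real.log Q - Real.log M - 1 ≤ ∑ n ∈ Ioc M Q, (1 : ℝ) / n := by
  have h1 : Real.log Q ≤ ∑ n ∈ Icc 1 Q, (1 : ℝ) / n := by
    refine le_trans (Real.log_le_log (by exact_mod_cast hQ) (by simp))
      ((log_add_one_le_harmonic Q).trans_eq ?_)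
    simp [harmonic_eq_sum_Icc]
  have h2 : ∑ n ∈ Icc 1 Q, (1 : ℝ) / n ≤ ∑ n ∈ Icc 1 M ∪ Ioc M Q, (1 : ℝ) / n :=
    sum_le_sum_of_subset_of_nonneg (fun n hn => by
      simp only [mem_union, mem_Icc, mem_Ioc] at hn ⊢
      omega) fun _ _ _ => by positivity
  rw [sum_union (disjoint_left.2 fun n a b => by
    simp only [mem_Icc, mem_Ioc] at a b
    omega)] at h2
  linarith [harm M]

theorem tail (T Q : ℕ) (hT : 1 ≤ T) (s : Finset ℕ) (a b : ℕ → ℕ)
    (hs : ∀ n ∈ s, n ≤ Q ∧ 0 < a n ∧ T < b n ∧ b n ^ 2 * a n = n) :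
    ∑ n ∈ s, (1 : ℝ) / n ≤ (1 + Real.log Q) / T := by
  have h1 := sum_inj (s := s) (t := Ioc T (T + Q) ×ˢ Icc 1 Q) (fun n => (b n, a n))
    (f := fun n => (1 : ℝ) / n) (g := fun x => ((x.1 : ℝ) ^ 2)⁻¹ * (1 / x.2))
    (fun n hn m hm e => by
      rw [← (hs n hn).2.2.2, ← (hs m hm).2.2.2, (Prod.mk.inj e).1, (Prod.mk.inj e).2])
    (fun n hn => by
      obtain ⟨h1, h2, h3, h4⟩ := hs n hn
      simp only [mem_product, mem_Ioc, mem_Icc]
      exact ⟨⟨h3, by nlinarith⟩, h2, (Nat.le_of_dvd (h4 ▸ Nat.mul_pos (pow_pos (by omega) 2) h2)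
        (Dvd.intro_left _ h4)).trans h1⟩)
    (fun n hn => by
      have : ((b n : ℝ)) ^ 2 * a n = n := by exact_mod_cast (hs n hn).2.2.2
      rw [← this]
      exact le_of_eq (by ring)) fun _ _ => by positivity
  rw [sum_product] at h1
  simp only at h1
  rw [← sum_mul_sum] at h1
  have h2 := sum_Ioc_inv_sq_le_sub (α := ℝ) (k := T) (n := T + Q) (by omega) (by omega)
  refine h1.trans ?_
  rw [div_eq_inv_mul]
  exact mul_le_mul (h2.trans (sub_le_self _ (by positivity))) (harm Q)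
    (sum_nonneg fun _ _ => by positivity) (by positivity)

end SqfL

open SqfL UniqueFactorizationMonoid in
theorem sqf : SQFStmt := by
  intro R Q T hR hT hQ
  have hc : ∀ n : ℕ, ∃ a b : ℕ, 0 < n → 0 < a ∧ b ^ 2 * a = n ∧ Squarefree a := fun n => by
    rcases Nat.eq_zero_or_pos n with rfl | hn
    · exact ⟨0, 0, fun h => absurd h (lt_irrefl _)⟩
    · obtain ⟨a, b, h1, -, h2⟩ := Nat.sq_mul_squarefree_of_pos hn
      exact ⟨a, b, fun _ => ⟨h1, h2⟩⟩
  choose a b hab using hc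
  have h1 := low (R * T ^ 2) Q hQ
  rw [← sum_filter_add_sum_filter_not _ fun n => T < b n] at h1
  have h2 := tail T Q hT {n ∈ Ioc (R * T ^ 2) Q | T < b n} a b fun n hn => by
    obtain ⟨h, h'⟩ := mem_filter.1 hn
    obtain ⟨e1, e2⟩ := mem_Ioc.1 h
    obtain ⟨e3, e4, -⟩ := hab n (by omega)
    exact ⟨e2, e3, h', e4⟩
  have h3 : ∑ n ∈ Ioc (R * T ^ 2) Q with ¬T < b n, (1 : ℝ) / n ≤
      ∑ r ∈ Ioc R Q, (μ r : ℝ) ^ 2 / r.totient := by
    rw [← sum_fiberwise_of_maps_to (t := Ioc R Q) (g := fun n => radical n) fun n hn => ?_]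
    · refine sum_le_sum fun r _ => fibre r _ fun n hn => ⟨?_, (mem_filter.1 hn).2⟩
      have := (mem_Ioc.1 (mem_filter.1 (mem_filter.1 hn).1).1).1
      omega
    · obtain ⟨h, h'⟩ := mem_filter.1 hn
      obtain ⟨e1, e2⟩ := mem_Ioc.1 h
      obtain ⟨e3, e4, e5⟩ := hab n (by omega)
      have e6 : a n ∣ radical n :=
        (dvd_radical_iff e5.isRadical (by omega)).2 (Dvd.intro_left _ e4)
      have e7 : b n ^ 2 * a n ≤ T ^ 2 * a n := by gcongr; omega
      have e8 : R < a n := lt_of_mul_lt_mul_left (a := T ^ 2) (by nlinarith) (Nat.zero_le _)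
      exact mem_Ioc.2 ⟨e8.trans_le (Nat.le_of_dvd (Nat.pos_of_ne_zero radical_ne_zero) e6),
        (Nat.le_of_dvd (by omega) radical_dvd_self).trans e2⟩
  have h4 : Real.log ((R * T ^ 2 : ℕ) : ℝ) = Real.log R + 2 * Real.log T := by
    push_cast
    rw [Real.log_mul (by positivity) (by positivity), Real.log_pow]
    norm_num
  have h5 : 0 ≤ (1 + Real.log Q) / T := by positivity
  rw [mul_div_assoc]
  linarith

end Pool.Agent.MP_678834_nt.gy

end Piece22

-- ======== piece 23: Cs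
section Piece23

/-! Project GY: Cauchy-Schwarz with the dual large sieve. -/

set_option autoImplicit false

namespace Pool.Agent.MP_678834_nt.gy

open Finset Filter ComplexConjugate ArithmeticFunction
open scoped ArithmeticFunction.Moebius

noncomputable section

namespace CsL

/-- the dual sum -/
def GG (h R Q : ℕ) (t : ℝ) : ℂ := ∑ z ∈ FF R Q, (rho z.1 : ℂ) * DD h (fr z) * ee (t * fr z)

theorem sum_rho (R Q : ℕ) : ∑ z ∈ FF R Q, |rho z.1| ≤ Q := by
  rw [sum_FF]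
  calc _ ≤ ∑ _r ∈ Ioc R Q, (1 : ℝ) := sum_le_sum fun r hr => by
        have h0 : 0 < r.totient := Nat.totient_pos.2 (by have := (mem_Ioc.1 hr).1; omega)
        have h1 : ((range r).filter fun b => Nat.Coprime b r).card = r.totient := by
          rw [Nat.totient_eq_card_coprime]
          exact congrArg card (filter_congr fun b _ => Nat.coprime_comm)
        simp only [sum_const, h1, nsmul_eq_mul]
        refine (mul_le_mul_of_nonneg_left (rho_abs r) (Nat.cast_nonneg _)).trans (le_of_eq ?_)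
        have : (r.totient : ℝ) ≠ 0 := by positivity
        field_simp
    _ ≤ Q := by simp

theorem sum_le (h R Q : ℕ) (f : ℕ × ℕ → ℂ) {K : ℝ} (hK : 0 ≤ K) (hf : ∀ z ∈ FF R Q, ‖f z‖ ≤ K) :
    ‖∑ z ∈ FF R Q, (rho z.1 : ℂ) * DD h (fr z) * f z‖ ≤ Q * (h * K) := by
  refine (norm_sum_le _ _).trans (le_trans (sum_le_sum fun z hz => ?_)
    ((sum_mul _ _ _).symm.trans_le (mul_le_mul_of_nonneg_right (sum_rho R Q) (by positivity))))
  rw [norm_mul, norm_mul, Complex.norm_real, Real.norm_eq_abs, mul_assoc]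
  exact mul_le_mul_of_nonneg_left
    (mul_le_mul (DD_le _ _) (hf z hz) (norm_nonneg _) (Nat.cast_nonneg _)) (abs_nonneg _)

theorem GG_le (h R Q : ℕ) (t : ℝ) : ‖GG h R Q t‖ ≤ Q * h := by
  simpa only [mul_one, GG] using sum_le h R Q _ zero_le_one fun z _ => (norm_ee (t * fr z)).le

theorem HH_eq (h R Q n : ℕ) : HH h R Q n = ∑ j ∈ Icc 1 h, GG h R Q ((n : ℝ) - j) := by
  unfold HH GG
  rw [sum_comm]
  refine sum_congr rfl fun z _ => ?_
  push_cast
  rw [← Complex.mul_conj', ← mul_sum, mul_assoc, mul_assoc, mul_assoc]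
  congr 2
  rw [DD, map_sum, sum_mul]
  refine sum_congr rfl fun j _ => ?_
  rw [conj_ee, ← ee_add]
  congr 1; ring

theorem GG_sq (X h R Q : ℕ) (hQ : 1 ≤ Q) : ∑ n ∈ Ioc X (2 * X), ‖GG h R Q n‖ ^ 2 ≤
    (X + (Q : ℝ) ^ 2 * (1 + 2 * Real.log Q)) * Phi h R Q := by
  have := ls_far_dual hQ (FF R Q) (filter_subset _ _) X
    fun z => (rho z.1 : ℂ) * DD h (fr z) * ee ((X + 1 : ℕ) * fr z)
  refine le_trans (le_of_eq ?_) (this.trans (le_of_eq ?_))
  · rw [← Ico_add_one_add_one_eq_Ioc, sum_Ico_eq_sum_range,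
      show 2 * X + 1 - (X + 1) = X by omega]
    refine sum_congr rfl fun i _ => ?_
    rw [GG]
    congr 2
    refine sum_congr rfl fun z _ => ?_
    rw [mul_assoc _ (ee _), ← ee_add, fr]
    congr 2; push_cast; ring
  · rw [Phi]
    congr 1
    refine sum_congr rfl fun z _ => ?_
    rw [norm_mul, norm_mul, norm_ee, mul_one, mul_pow, Complex.norm_real, Real.norm_eq_abs, sq_abs]

theorem geo {R Q : ℕ} (hR : 1 ≤ R) {z : ℕ × ℕ} (hz : z ∈ FF R Q) (y : ℕ) :
    ‖∑ k ∈ Icc 1 y, ee (k * fr z)‖ ≤ Q := by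
  obtain ⟨q, b⟩ := z
  simp only [FF, Far, mem_filter, mem_product, mem_Icc, mem_range] at hz
  obtain ⟨⟨⟨⟨-, h1⟩, -⟩, h2, h3⟩, h4⟩ := hz
  have b0 : b ≠ 0 := by
    rintro rfl
    rw [Nat.coprime_zero_left] at h3
    omega
  have q0 : (0 : ℝ) < q := by exact_mod_cast (by omega : 0 < q)
  obtain ⟨r, hr⟩ : ∃ r : ℤ, |fr (q, b) - r| ≤ 1 / 2 := ⟨_, abs_sub_round _⟩
  have e : fr (q, b) - r = (((b : ℤ) - r * q : ℤ) : ℝ) / q := by
    rw [fr]; push_cast; field_simp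
  have n0 : (b : ℤ) - r * q ≠ 0 := fun k => by
    have : (q : ℤ) ∣ b := ⟨r, by linarith⟩
    exact absurd (Nat.le_of_dvd (by omega) (Int.natCast_dvd_natCast.1 this)) (by omega)
  have l : 1 / (q : ℝ) ≤ |fr (q, b) - r| := by
    rw [e, abs_div, abs_of_pos q0, ← Int.cast_abs]
    exact div_le_div_of_nonneg_right (by exact_mod_cast Int.one_le_abs n0) q0.le
  have p : 0 < |fr (q, b) - r| := (one_div_pos.2 q0).trans_le l
  rw [← Ico_add_one_right_eq_Icc]
  refine (geo_le _ _ _ r (abs_pos.1 p) hr).trans ?_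
  have : (q : ℝ) ≤ Q := by exact_mod_cast h1
  rw [div_le_iff₀ q0] at l
  rw [div_le_iff₀ (by positivity)]
  nlinarith

variable {V : ℝ → ℝ} {L : ℝ} (hV : Wt V L)
include hV

theorem shift {X j : ℕ} (hX : 1 ≤ X) (hj : j ≤ X) (f : ℕ → ℂ) :
    ∑ n ∈ Icc 1 (2 * X), f n * ((Λ n * om V X n : ℝ) : ℂ) =
      ∑ n ∈ Icc 1 (2 * X), f (n + j) * ((Λ (n + j) * om V X (n + j) : ℝ) : ℂ) := by
  have z : ∀ n, n ∉ Ioo X (2 * X) → f n * ((Λ n * om V X n : ℝ) : ℂ) = 0 := fun n hn => by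
    rw [show om V X n = 0 from by_contra fun k => hn (mem_Ioo.2 (hV.om_supp hX k))]; simp
  rw [← sum_subset (s₁ := Ioo X (2 * X)) (fun n hn => ?_) fun n _ hn => z n hn,
    sum_subset (s₂ := Icc (1 + j) (2 * X + j)) (fun n hn => ?_) fun n _ hn => z n hn,
    ← map_add_right_Icc, sum_map]
  · rfl
  all_goals rw [mem_Ioo] at hn; rw [mem_Icc]; omega

theorem om_diff {X h n j : ℕ} (hX : 1 ≤ X) (hh : 2 * h ≤ X) (hj : j ≤ h) :
    |om V X (n + j) - om V X n| ≤ L * (2 * h / X) := by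
  have X0 : (0 : ℝ) < X := by exact_mod_cast hX
  have L0 : 0 ≤ L := zero_le_one.trans hV.one
  by_cases hn : X ≤ 2 * n
  · have n0 : (0 : ℝ) < n := by exact_mod_cast (by omega : 0 < n)
    have a : (X : ℝ) ≤ 2 * n := by exact_mod_cast hn
    have b : (j : ℝ) ≤ h := by exact_mod_cast hj
    refine (hV.lip _ _).trans (mul_le_mul_of_nonneg_left ?_ L0)
    push_cast
    rw [sub_sub_sub_cancel_right, abs_of_nonneg (sub_nonneg.2 (Real.log_le_log n0 (by simp))),
      ← Real.log_div (by positivity) n0.ne']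
    refine (Real.log_le_sub_one_of_pos (by positivity)).trans ?_
    rw [add_div, div_self n0.ne', add_sub_cancel_left, div_le_div_iff₀ n0 X0]
    nlinarith [mul_le_mul b a X0.le (Nat.cast_nonneg h)]
  · rw [show om V X (n + j) = 0 from by_contra fun k => by have := hV.om_supp hX k; omega,
      show om V X n = 0 from by_contra fun k => by have := hV.om_supp hX k; omega]
    simp only [sub_self, abs_zero]
    positivity

omit hV in
theorem lam_le {X n : ℕ} (hX : 1 ≤ X) (hn : n ≤ 4 * X) : Λ n ≤ ell X := by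
  rcases n.eq_zero_or_pos with rfl | n0
  · simpa using zero_le_one.trans (ell_one hX)
  have X0 : (0 : ℝ) < X := by exact_mod_cast hX
  have n1 : (0 : ℝ) < n := by exact_mod_cast n0
  have a : (n : ℝ) ≤ 4 * X := by exact_mod_cast hn
  have b := Real.log_le_sub_one_of_pos (show 0 < (n : ℝ) / (2 * X) by positivity)
  rw [Real.log_div n1.ne' (by positivity)] at b
  have c : (n : ℝ) / (2 * X) ≤ 2 := by rw [div_le_iff₀ (by positivity)]; linarith
  have := vonMangoldt_le_log (n := n)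
  unfold ell; linarith

end CsL

open CsL in
theorem cs : CSStmt := by
  intro V L hV X h R Q m hh hX hR hQ
  have X0 : (0 : ℝ) < X := by exact_mod_cast hX
  have L0 : 0 ≤ L := zero_le_one.trans hV.one
  have l0 : 0 ≤ ell X := zero_le_one.trans (ell_one hX)
  have e : psw V X (HH h R Q) =
      ∑ n ∈ Icc 1 (2 * X), GG h R Q n * ((om V X n * (∑ j ∈ Icc 1 h, Λ (n + j) - m) : ℝ) : ℂ) +
      (∑ j ∈ Icc 1 h, ∑ n ∈ Icc 1 (2 * X),
        GG h R Q n * ((Λ (n + j) * (om V X (n + j) - om V X n) : ℝ) : ℂ) +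
      m * ∑ n ∈ Icc 1 (2 * X), GG h R Q n * (om V X n : ℝ)) := by
    simp only [psw, HH_eq, sum_mul]
    rw [sum_comm, sum_congr rfl fun j hj => shift hV hX
      (show j ≤ X by have := (mem_Icc.1 hj).2; omega) fun n => GG h R Q ((n : ℝ) - j),
      sum_comm, sum_comm (s := Icc 1 h), mul_sum, ← sum_add_distrib, ← sum_add_distrib]
    refine sum_congr rfl fun n _ => ?_
    push_cast
    simp only [add_sub_cancel_right, mul_sub, sum_sub_distrib, ← mul_sum, ← sum_mul]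
    ring
  have h1 : ‖∑ n ∈ Icc 1 (2 * X),
      GG h R Q n * ((om V X n * (∑ j ∈ Icc 1 h, Λ (n + j) - m) : ℝ) : ℂ)‖ ≤
      √(Var X h m * ((X + (Q : ℝ) ^ 2 * (1 + 2 * Real.log Q)) * Phi h R Q)) := by
    rw [← sum_subset (s₁ := Ioc X (2 * X)) (fun n hn => by
      rw [mem_Ioc] at hn; rw [mem_Icc]; omega) fun n _ hn => by
        rw [show om V X n = 0 from by_contra fun k => hn
          (mem_Ioc.2 ⟨(hV.om_supp hX k).1, (hV.om_supp hX k).2.le⟩)]; simp]
    refine (norm_sum_le _ _).trans (le_trans (sum_le_sum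
      (g := fun n => |∑ j ∈ Icc 1 h, Λ (n + j) - m| * ‖GG h R Q n‖) fun n _ => ?_)
      (Real.le_sqrt_of_sq_le ((sum_mul_sq_le_sq_mul_sq _ _ _).trans ?_)))
    · rw [norm_mul, Complex.norm_real, Real.norm_eq_abs, abs_mul, mul_comm]
      exact mul_le_mul_of_nonneg_right (mul_le_of_le_one_left (abs_nonneg _) (hV.om_abs X n))
        (norm_nonneg _)
    · simp only [sq_abs]
      exact mul_le_mul_of_nonneg_left (GG_sq X h R Q hQ) (sum_nonneg fun _ _ => sq_nonneg _)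
  have h2 : ‖∑ j ∈ Icc 1 h, ∑ n ∈ Icc 1 (2 * X),
      GG h R Q n * ((Λ (n + j) * (om V X (n + j) - om V X n) : ℝ) : ℂ)‖ ≤
      4 * L * ell X * ((h : ℝ) ^ 3 * Q) := by
    refine (norm_sum_le _ _).trans (le_trans (sum_le_sum fun j hj => (norm_sum_le _ _).trans
      (sum_le_sum (g := fun _ => Q * h * (ell X * (L * (2 * h / X)))) fun n hn => ?_))
      (le_of_eq ?_))
    · have a := (mem_Icc.1 hj).2
      have b := (mem_Icc.1 hn).2
      rw [norm_mul, Complex.norm_real, Real.norm_eq_abs, abs_mul, abs_of_nonneg vonMangoldt_nonneg]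
      exact mul_le_mul (GG_le _ _ _ _) (mul_le_mul (lam_le hX (by omega)) (om_diff hV hX hh a)
        (abs_nonneg _) l0) (mul_nonneg vonMangoldt_nonneg (abs_nonneg _)) (by positivity)
    · simp only [sum_const, Nat.card_Icc, add_tsub_cancel_right, nsmul_eq_mul]
      push_cast
      field_simp
      ring
  have h3 : ‖∑ n ∈ Icc 1 (2 * X), GG h R Q n * (om V X n : ℝ)‖ ≤ Q * (h * (Q * (L * ell X))) := by
    simp only [GG, sum_mul]
    rw [sum_comm]
    simp only [mul_assoc _ (ee _), ← mul_sum]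
    refine sum_le h R Q _ (by positivity) fun z hz => ?_
    simpa only [one_mul, Nat.cast_mul, Nat.cast_ofNat, ell] using
      hV.abel_om (fun k => ee (k * fr z)) X (2 * X) le_rfl fun y _ => geo hR hz y
  rw [e]
  refine (norm_add_le _ _).trans (add_le_add h1 ((norm_add_le _ _).trans ?_))
  rw [norm_mul, Complex.norm_real, Real.norm_eq_abs]
  have a := mul_le_mul_of_nonneg_left h3 (abs_nonneg m)
  have b : 0 ≤ L * ell X * ((h : ℝ) ^ 3 * Q) := by positivity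
  have c : 0 ≤ L * ell X * (|m| * h * (Q : ℝ) ^ 2) := by positivity
  linarith

end

end Pool.Agent.MP_678834_nt.gy

end Piece23

-- ======== piece 24: Cor
section Piece24

/-! Project GY: from the variance to prime pairs. -/

set_option autoImplicit false

namespace Pool.Agent.MP_678834_nt.gy

open Finset Filter ComplexConjugate ArithmeticFunction
open scoped ArithmeticFunction.Moebius

namespace CorRow

theorem step (g : ℕ → ℝ) {a b : ℕ} (h : a ≤ b) :
    ∑ n ∈ Ioc a b, g (n + 1) = ∑ n ∈ Ioc a b, g n + g (b + 1) - g (a + 1) := by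
  induction b, h using Nat.le_induction with
  | base => simp
  | succ b hb ih =>
    rw [sum_Ioc_succ_top hb, sum_Ioc_succ_top hb, ih]
    ring

theorem shift (f : ℕ → ℝ) (M : ℝ) {a b : ℕ} (h : a ≤ b) (h0 : ∀ n, 0 ≤ f n) (j : ℕ)
    (hM : ∀ n ≤ b + j, f n ≤ M) :
    ∑ n ∈ Ioc a b, f (n + j) ≤ ∑ n ∈ Ioc a b, f n + j * M ∧
      ∑ n ∈ Ioc a b, f n - j * M ≤ ∑ n ∈ Ioc a b, f (n + j) := by
  induction j with
  | zero => simp
  | succ j ih =>
    obtain ⟨i1, i2⟩ := ih fun n hn => hM n (by omega)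
    have e := step (fun n => f (n + j)) h
    have e1 : ∑ n ∈ Ioc a b, f (n + (j + 1)) = ∑ n ∈ Ioc a b, f (n + 1 + j) :=
      sum_congr rfl fun n _ => by rw [add_assoc, add_comm 1 j]
    have a1 := h0 (b + 1 + j)
    have a2 := h0 (a + 1 + j)
    have a3 := hM (b + 1 + j) (by omega)
    have a4 := hM (a + 1 + j) (by omega)
    rw [e1, e]
    push_cast
    constructor <;> linarith

theorem dbl (T : ℕ → ℕ → ℝ) (P : ℕ → ℝ) (E : ℝ) (hs : ∀ j k, T j k = T k j) (h : ℕ)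
    (hT : ∀ j k, j ≤ k → k ≤ h → T j k ≤ P (k - j) + E) :
    ∑ j ∈ Icc 1 h, ∑ k ∈ Icc 1 h, T j k ≤
      h * P 0 + 2 * ∑ d ∈ Icc 1 h, ((h : ℝ) - d) * P d + (h : ℝ) ^ 2 * E := by
  induction h with
  | zero => simp
  | succ h ih =>
    have i1 := ih fun j k hj hk => hT j k hj (by omega)
    have e1 : ∑ j ∈ Icc 1 (h + 1), ∑ k ∈ Icc 1 (h + 1), T j k =
        ∑ j ∈ Icc 1 h, ∑ k ∈ Icc 1 h, T j k + 2 * ∑ j ∈ Icc 1 h, T j (h + 1) +
          T (h + 1) (h + 1) := by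
      rw [sum_Icc_succ_top (by omega), sum_Icc_succ_top (by omega),
        sum_congr rfl fun j _ => sum_Icc_succ_top (by omega) (T j), sum_add_distrib,
        sum_congr rfl fun k _ => hs (h + 1) k]
      ring
    have e2 : ∑ j ∈ Icc 1 h, P (h + 1 - j) = ∑ d ∈ Icc 1 h, P d := by
      refine sum_nbij' (fun j => h + 1 - j) (fun j => h + 1 - j) ?_ ?_ ?_ ?_ fun _ _ => rfl
      all_goals
        intro j hj
        simp only [mem_Icc] at hj ⊢
        omega
    have i2 : ∑ j ∈ Icc 1 h, T j (h + 1) ≤ ∑ d ∈ Icc 1 h, P d + h * E := by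
      rw [← e2]
      refine (sum_le_sum fun j hj => hT j (h + 1) (by have := mem_Icc.1 hj; omega) le_rfl).trans_eq ?_
      rw [sum_add_distrib, sum_const, Nat.card_Icc, nsmul_eq_mul]
      simp
    have i3 := hT (h + 1) (h + 1) le_rfl le_rfl
    have e3 : ∑ d ∈ Icc 1 (h + 1), (((h + 1 : ℕ) : ℝ) - d) * P d =
        ∑ d ∈ Icc 1 h, ((h : ℝ) - d) * P d + ∑ d ∈ Icc 1 h, P d := by
      rw [sum_Icc_succ_top (by omega), sub_self, zero_mul, add_zero, ← sum_add_distrib]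
      refine sum_congr rfl fun d _ => ?_
      push_cast
      ring
    rw [Nat.sub_self] at i3
    rw [e1, e3]
    push_cast
    nlinarith

theorem lam_le {n m : ℕ} (h : n ≤ m) : Λ n ≤ Real.log m := by
  refine vonMangoldt_le_log.trans ?_
  rcases Nat.eq_zero_or_pos n with rfl | h0
  · simpa using Real.log_natCast_nonneg m
  · exact Real.log_le_log (by exact_mod_cast h0) (by exact_mod_cast h)

theorem lam_ell {X n : ℕ} (hX : 1 ≤ X) (h : n ≤ 3 * X) : Λ n ≤ ell X := by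
  have hX' : (1 : ℝ) ≤ X := by exact_mod_cast hX
  refine (lam_le h).trans ?_
  have e : ((3 * X : ℕ) : ℝ) = 3 / 2 * (2 * X) := by push_cast; ring
  rw [e, Real.log_mul (by norm_num) (by positivity), ell]
  have := Real.log_le_sub_one_of_pos (show (0 : ℝ) < 3 / 2 by norm_num)
  linarith

theorem psi_bound (hS : SW0Stmt) : ∃ C y₀ : ℝ, ∀ y : ℕ, y₀ ≤ y →
    |∑ n ∈ Ioc 0 y, Λ n - y| ≤ C * y / Real.log y := by
  obtain ⟨C, y₀, h⟩ := hS 1 0
  refine ⟨C, y₀, fun y hy => ?_⟩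
  have h1 := h y 1 1 hy le_rfl (by simp)
  have e : ∑ n ∈ Icc 1 y, ((Λ n : ℂ) * (1 : DirichletCharacter ℂ 1) n - 1) =
      ((∑ n ∈ Ioc 0 y, Λ n - y : ℝ) : ℂ) := by
    rw [sum_congr rfl fun n _ => by
      rw [MulChar.one_apply (isUnit_of_subsingleton _), mul_one], sum_sub_distrib]
    have : Icc 1 y = Ioc 0 y := by
      ext n
      simp only [mem_Icc, mem_Ioc]
      omega
    simp [this]
  rw [if_pos rfl, e, Complex.norm_real, pow_one] at h1
  exact h1

end CorRow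

open CorRow

theorem cor : CORStmt := by
  intro X h W hX hh hW
  have hX' : (0 : ℝ) < X := by exact_mod_cast hX
  have hh0 : (0 : ℝ) ≤ h := Nat.cast_nonneg h
  have hXX : X ≤ 2 * X := by omega
  have hl : 0 ≤ ell X := vonMangoldt_nonneg.trans (lam_ell hX (Nat.zero_le _))
  have hc : ((Ioc X (2 * X)).card : ℝ) = X := by
    rw [Nat.card_Ioc]
    congr 1
    omega
  have t0 : 0 ≤ th X := sum_nonneg fun _ _ => vonMangoldt_nonneg
  have t1 : th X ≤ X * ell X := by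
    refine (sum_le_card_nsmul _ _ _ fun n hn => lam_ell hX (n := n) ?_).trans_eq ?_
    · have := mem_Ioc.1 hn
      omega
    · rw [nsmul_eq_mul, hc]
  have s1 : (h : ℝ) * (th X - h * ell X) ≤ ∑ n ∈ Ioc X (2 * X), ∑ j ∈ Icc 1 h, Λ (n + j) := by
    rw [sum_comm]
    refine le_trans ?_ (card_nsmul_le_sum (Icc 1 h) _ (th X - h * ell X) fun j hj => ?_)
    · simp
    · have hj' := mem_Icc.1 hj
      have h1 := (shift (fun n => Λ n) (ell X) hXX (fun _ => vonMangoldt_nonneg) j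
        fun n hn => lam_ell hX (by omega)).2
      have h2 : (j : ℝ) * ell X ≤ h * ell X :=
        mul_le_mul_of_nonneg_right (by exact_mod_cast hj'.2) hl
      unfold th
      linarith
  have s2 := dbl (fun j k => ∑ n ∈ Ioc X (2 * X), Λ (n + j) * Λ (n + k))
    (fun d => ∑ n ∈ Ioc X (2 * X), Λ n * Λ (n + d)) (h * ell X ^ 2)
    (fun j k => sum_congr rfl fun n _ => mul_comm _ _) h (by
      intro j k hj hk
      have h1 := (shift (fun n => Λ n * Λ (n + (k - j))) (ell X ^ 2) hXX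
        (fun _ => mul_nonneg vonMangoldt_nonneg vonMangoldt_nonneg) j fun n hn => by
          rw [sq]
          exact mul_le_mul (lam_ell hX (by omega)) (lam_ell hX (by omega)) vonMangoldt_nonneg hl).1
      have h2 : (j : ℝ) * ell X ^ 2 ≤ h * ell X ^ 2 :=
        mul_le_mul_of_nonneg_right (by exact_mod_cast hj.trans hk) (sq_nonneg _)
      have e : ∑ n ∈ Ioc X (2 * X), Λ (n + j) * Λ (n + k) =
          ∑ n ∈ Ioc X (2 * X), Λ (n + j) * Λ (n + j + (k - j)) :=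
        sum_congr rfl fun n _ => by rw [show n + j + (k - j) = n + k by omega]
      rw [e]
      linarith)
  have s3 : ∑ n ∈ Ioc X (2 * X), (∑ j ∈ Icc 1 h, Λ (n + j)) ^ 2 =
      ∑ j ∈ Icc 1 h, ∑ k ∈ Icc 1 h, ∑ n ∈ Ioc X (2 * X), Λ (n + j) * Λ (n + k) := by
    simp only [sq, sum_mul_sum]
    rw [sum_comm]
    exact sum_congr rfl fun j _ => sum_comm
  have s4 : ∑ n ∈ Ioc X (2 * X), Λ n * Λ (n + 0) ≤ Real.log (2 * X) * th X := by
    rw [th, mul_sum]
    refine sum_le_sum fun n hn => mul_le_mul ?_ le_rfl vonMangoldt_nonneg ?_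
    · exact_mod_cast lam_le (mem_Ioc.1 hn).2
    · exact_mod_cast Real.log_natCast_nonneg (2 * X)
  set m : ℝ := h * th X / X with hm
  have hm0 : 0 ≤ m := by positivity
  have hm1 : m ≤ h * ell X := by
    rw [hm, div_le_iff₀ hX']
    nlinarith
  have hm2 : m * X = h * th X := div_mul_cancel₀ _ hX'.ne'
  have hm3 : (h : ℝ) ^ 2 * th X ^ 2 / X = m * (h * th X) := by
    rw [hm]
    ring
  have s5 : Var X h m = ∑ n ∈ Ioc X (2 * X), (∑ j ∈ Icc 1 h, Λ (n + j)) ^ 2 -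
      2 * m * ∑ n ∈ Ioc X (2 * X), ∑ j ∈ Icc 1 h, Λ (n + j) + X * m ^ 2 := by
    rw [Var, ← hc, mul_sum, ← nsmul_eq_mul, ← sum_const, ← sum_sub_distrib, ← sum_add_distrib]
    exact sum_congr rfl fun n _ => by ring
  have s6 := hW m
  have s7 := mul_le_mul_of_nonneg_left s1 hm0
  have s8 := mul_le_mul_of_nonneg_left s4 hh0
  have s9 : m * (h * (h * ell X)) ≤ h * ell X * (h * (h * ell X)) :=
    mul_le_mul_of_nonneg_right hm1 (by positivity)
  have s10 : 0 ≤ (h : ℝ) ^ 3 * ell X ^ 2 := by positivity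
  have s11 : X * m ^ 2 = m * (h * th X) := by rw [← hm2]; ring
  rw [s5, s3, s11] at s6
  rw [hm3]
  beta_reduce at s2
  nlinarith

theorem thu (hS : SW0Stmt) : THStmt := by
  intro ε hε
  obtain ⟨C, y₀, h⟩ := psi_bound hS
  have h1 : ∀ᶠ X : ℕ in atTop, y₀ ≤ X := tendsto_natCast_atTop_atTop.eventually_ge_atTop y₀
  have h2 : ∀ᶠ X : ℕ in atTop, 3 * |C| / ε + 1 ≤ Real.log X :=
    (Real.tendsto_log_atTop.comp tendsto_natCast_atTop_atTop).eventually_ge_atTop _
  filter_upwards [h1, h2, eventually_ge_atTop 1] with X a1 a2 a3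
  have hX : (1 : ℝ) ≤ X := by exact_mod_cast a3
  have c0 : 0 ≤ 3 * |C| / ε := by positivity
  have l0 : 0 < Real.log X := by linarith
  have l1 : Real.log X ≤ Real.log ((2 * X : ℕ) : ℝ) :=
    Real.log_le_log (by linarith) (by push_cast; linarith)
  have key : ∀ y : ℕ, Real.log X ≤ Real.log y → C * y / Real.log y ≤ ε / 3 * y := by
    intro y hy
    rw [div_le_iff₀ (by linarith)]
    have b1 : 3 * |C| ≤ Real.log y * ε := (div_le_iff₀ hε).1 (by linarith)
    have b2 := le_abs_self C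
    have b3 : (0 : ℝ) ≤ y := Nat.cast_nonneg y
    nlinarith
  have b1 := (abs_le.1 ((h X a1).trans (key X le_rfl))).1
  have b2 := (abs_le.1 ((h (2 * X) (by push_cast; linarith)).trans (key _ l1))).2
  have e := sum_Ioc_consecutive (fun n => Λ n) (Nat.zero_le X) (show X ≤ 2 * X by omega)
  push_cast at b2
  unfold th
  linarith

end Pool.Agent.MP_678834_nt.gy

end Piece24

-- ======== piece 25: Main
section Piece25

/-! Project GY: the lower bound for admissible parameters. -/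

set_option autoImplicit false

namespace Pool.Agent.MP_678834_nt.gy

open Finset Filter ComplexConjugate ArithmeticFunction
open scoped ArithmeticFunction.Moebius

noncomputable section

def MAIN2Stmt : Prop := ∀ ε η : ℝ, 0 < ε → 0 < η → η ≤ 1 / 100 → ∀ᶠ X : ℕ in atTop,
  ∀ (h Q : ℕ) (m : ℝ), Adm2 η X h Q →
    h * X * ((1 - ε) * (Real.log Q - Real.log h) - ε * Real.log X) ≤ Var X h m

namespace mn

theorem ev_log (c : ℝ) : ∀ᶠ X : ℕ in atTop, c ≤ Real.log X :=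
  (Real.tendsto_log_atTop.comp tendsto_natCast_atTop_atTop).eventually_ge_atTop c

/-- powers of the logarithm against a power -/
theorem ev_pow {η : ℝ} (hη : 0 < η) (c : ℝ) (k : ℕ) :
    ∀ᶠ X : ℕ in atTop, c * Real.log X ^ k ≤ (X : ℝ) ^ η := by
  have h := (isLittleO_log_rpow_rpow_atTop (k : ℝ) hη).bound (c := 1 / (|c| + 1)) (by positivity)
  filter_upwards [tendsto_natCast_atTop_atTop.eventually h, ev_log 0] with X h1 h2
  rw [Real.rpow_natCast, Real.norm_of_nonneg (by positivity),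
    Real.norm_of_nonneg (by positivity), one_div, ← div_eq_inv_mul,
    le_div_iff₀ (by positivity)] at h1
  have h3 : 0 ≤ Real.log X ^ k := by positivity
  nlinarith [le_abs_self c]

theorem ev_loglog {ε : ℝ} (hε : 0 < ε) :
    ∀ᶠ X : ℕ in atTop, 7 + 2 * Real.log (2 * Real.log X) ≤ ε * Real.log X := by
  have h := Real.isLittleO_log_id_atTop.bound (c := ε / 8) (by positivity)
  have ht : Tendsto (fun X : ℕ => 2 * Real.log X) atTop atTop :=
    (Real.tendsto_log_atTop.comp tendsto_natCast_atTop_atTop).const_mul_atTop two_pos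
  filter_upwards [ht.eventually h, ev_log (14 / ε), ev_log 0] with X h1 h2 h3
  rw [id, Real.norm_eq_abs, Real.norm_of_nonneg (by positivity)] at h1
  rw [div_le_iff₀ hε] at h2
  nlinarith [le_abs_self (Real.log (2 * Real.log X))]

theorem log3 {X n : ℕ} (hX : 1 ≤ X) (hn : n ≤ 3 * X) : Λ n ≤ ell X := by
  have hX' : (1 : ℝ) ≤ X := by exact_mod_cast hX
  refine vonMangoldt_le_log.trans ?_
  rcases Nat.eq_zero_or_pos n with rfl | h0
  · simpa using (ell_one hX).trans' zero_le_one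
  have h1 : (n : ℝ) ≤ 2 * (2 * X) := by
    have : (n : ℝ) ≤ 3 * X := by exact_mod_cast hn
    linarith
  have h2 := Real.log_le_log (by exact_mod_cast h0) h1
  rw [Real.log_mul (by norm_num) (by positivity)] at h2
  unfold ell
  linarith [Real.log_two_lt_d9]

theorem Var_nonneg (X h : ℕ) (m : ℝ) : 0 ≤ Var X h m := sum_nonneg fun _ _ => sq_nonneg _

/-- centres far from the mean -/
theorem Var_far {X h : ℕ} (hX : 1 ≤ X) (h1 : 1 ≤ h) (hh : h ≤ X) {m : ℝ}
    (hm : 2 * h * ell X ≤ |m|) : h * X * ell X ≤ Var X h m := by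
  have hl := ell_one hX
  have h1' : (1 : ℝ) ≤ h := by exact_mod_cast h1
  have key : ∀ n ∈ Ioc X (2 * X), h * ell X ≤ ((∑ j ∈ Icc 1 h, Λ (n + j)) - m) ^ 2 := by
    intro n hn
    have a0 : 0 ≤ ∑ j ∈ Icc 1 h, Λ (n + j) := sum_nonneg fun _ _ => vonMangoldt_nonneg
    have a1 : ∑ j ∈ Icc 1 h, Λ (n + j) ≤ h * ell X := by
      have := sum_le_card_nsmul (Icc 1 h) (fun j => Λ (n + j)) (ell X) fun j hj =>
        log3 hX (by have := (mem_Ioc.1 hn).2; have := (mem_Icc.1 hj).2; omega)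
      simpa using this
    have a2 : h * ell X ≤ |(∑ j ∈ Icc 1 h, Λ (n + j)) - m| := by
      have := abs_sub_abs_le_abs_sub m (∑ j ∈ Icc 1 h, Λ (n + j))
      rw [abs_sub_comm m, abs_of_nonneg a0] at this
      linarith
    have a3 : 1 ≤ h * ell X := by nlinarith
    rw [← sq_abs]
    nlinarith
  have := card_nsmul_le_sum _ _ _ key
  rw [Nat.card_Ioc, show 2 * X - X = X by omega, nsmul_eq_mul] at this
  unfold Var
  linarith

/-- the last step -/
theorem fin {ε X Φ N p E W a : ℝ} (hε : 0 < ε) (hε1 : ε ≤ 1 / 2) (hX : 0 < X) (hΦ : 0 < Φ)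
    (hW : 0 ≤ W) (hN : N ≤ (1 + ε / 10) * X) (hp : (1 - ε / 10) * X ≤ p)
    (hE : E ≤ ε / 10 * X * Φ) (h1 : p * Φ - E ≤ √(W * (N * Φ))) (ha : a ≤ Φ) :
    (1 - ε) * X * a ≤ W := by
  have h2 : (1 - ε / 5) * X * Φ ≤ √(W * (N * Φ)) := by nlinarith
  have h3 : ((1 - ε / 5) * X * Φ) ^ 2 ≤ W * (N * Φ) := by
    have h0 : 0 < (1 - ε / 5) * X * Φ := by
      have : 0 < 1 - ε / 5 := by linarith
      positivity
    exact (Real.le_sqrt' h0).1 h2
  have h4 : W * (N * Φ) ≤ W * ((1 + ε / 10) * X * Φ) :=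
    mul_le_mul_of_nonneg_left (mul_le_mul_of_nonneg_right hN hΦ.le) hW
  have h5 : (1 - ε) * X * Φ * ((1 + ε / 10) * X * Φ) ≤ ((1 - ε / 5) * X * Φ) ^ 2 := by
    have : (1 - ε) * (1 + ε / 10) ≤ (1 - ε / 5) ^ 2 := by nlinarith
    have h6 := mul_le_mul_of_nonneg_right this (sq_nonneg (X * Φ))
    nlinarith
  have h7 : (1 - ε) * X * Φ ≤ W :=
    le_of_mul_le_mul_right (h5.trans (h3.trans h4)) (by positivity)
  have h8 : 0 ≤ (1 - ε) * X := mul_nonneg (by linarith) hX.le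
  exact (mul_le_mul_of_nonneg_left ha h8).trans h7

/-- the lower bound for the diagonal -/
theorem phi_ge (hP : PHIStmt) (hS : SQFStmt) {ε : ℝ} (hε : 0 < ε) : ∀ᶠ X : ℕ in atTop,
    ∀ h Q : ℕ, 1 ≤ h → 1 ≤ Q → Q ≤ X → ε * Real.log X ≤ Real.log Q - Real.log h →
      ∃ R : ℕ, 1 ≤ R ∧ h * (Real.log Q - Real.log h - ε / 4 * Real.log X) ≤ Phi h R Q := by
  filter_upwards [ev_log 1, ev_pow (η := ε / 8) (by positivity) 160 3,
    ev_loglog (ε := ε / 8) (by positivity), eventually_ge_atTop 1] with X hL h1 h2 hX1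
  intro h Q hh hQ hQX hD
  have hX : (1 : ℝ) ≤ X := by exact_mod_cast hX1
  have hh' : (1 : ℝ) ≤ h := by exact_mod_cast hh
  have hQ' : (1 : ℝ) ≤ Q := by exact_mod_cast hQ
  set l := Real.log X with hl
  set s := (X : ℝ) ^ (ε / 8) with hs
  have hs1 : 1 ≤ s := Real.one_le_rpow hX (by positivity)
  have hls : Real.log s = ε / 8 * l := Real.log_rpow (by linarith) _
  have hlQ : Real.log Q ≤ l := Real.log_le_log (by linarith) (by exact_mod_cast hQX)
  have hlQ0 : 0 ≤ Real.log Q := Real.log_natCast_nonneg Q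
  set R := ⌈h * s⌉₊ with hR
  have r1 : h * s ≤ R := Nat.le_ceil _
  have r0 : (1 : ℝ) ≤ h * s := by nlinarith
  have r2 : (R : ℝ) ≤ 2 * (h * s) := by
    have := (Nat.ceil_lt_add_one (by linarith : (0 : ℝ) ≤ h * s)).le
    linarith
  have r3 : R ≤ Q := Nat.ceil_le.2 ((Real.log_le_log_iff (by linarith) (by linarith)).1 (by
    rw [Real.log_mul (by linarith) (by linarith), hls]; nlinarith))
  have r4 : h ≤ R := by
    have : (h : ℝ) ≤ R := by nlinarith
    exact_mod_cast this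
  have r5 : Real.log R ≤ 1 + Real.log h + ε / 8 * l := by
    have := Real.log_le_log (by linarith) r2
    rw [Real.log_mul (by norm_num) (by linarith), Real.log_mul (by linarith) (by linarith),
      hls] at this
    linarith [Real.log_two_lt_d9]
  set T := ⌈l⌉₊ with hT
  have t1 : l ≤ T := Nat.le_ceil _
  have t2 : (T : ℝ) ≤ 2 * l := by
    have := (Nat.ceil_lt_add_one (by linarith : (0 : ℝ) ≤ l)).le
    linarith
  have t3 : 1 ≤ T := by
    have : (1 : ℝ) ≤ T := by linarith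
    exact_mod_cast this
  have t4 : Real.log T ≤ Real.log (2 * l) := Real.log_le_log (by linarith) t2
  have t5 : 2 * (1 + Real.log Q) / T ≤ 4 := by
    rw [div_le_iff₀ (by linarith)]; linarith
  have p1 := hP h R Q hh r4 r3
  have p2 := hS R Q T (hh.trans r4) t3 hQ
  have p3 : 20 * (h : ℝ) ^ 2 * (1 + Real.log Q) ^ 3 / R ≤ h := by
    rw [div_le_iff₀ (by linarith)]
    have a1 : (1 + Real.log Q) ^ 3 ≤ (2 * l) ^ 3 := pow_le_pow_left₀ (by linarith) (by linarith) 3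
    have a2 : 20 * (1 + Real.log Q) ^ 3 ≤ s := by nlinarith
    have a3 := mul_le_mul_of_nonneg_left a2 (sq_nonneg (h : ℝ))
    have a4 := mul_le_mul_of_nonneg_left r1 (by linarith : (0 : ℝ) ≤ h)
    nlinarith
  refine ⟨R, hh.trans r4, ?_⟩
  have p4 : Real.log Q - Real.log h - ε / 4 * l + 1 ≤
      ∑ r ∈ Ioc R Q, (μ r : ℝ) ^ 2 / (r.totient : ℝ) := by linarith
  have p5 := mul_le_mul_of_nonneg_left p4 (by linarith : (0 : ℝ) ≤ h)
  nlinarith

theorem small (hB : BumpStmt) (hN : PNWStmt) (hM : MV2Stmt) (hR : RED2Stmt) (hK : KEYStmt)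
    (hP : PHIStmt) (hS : SQFStmt) (hC : CSStmt) {ε η : ℝ} (hε : 0 < ε) (hε1 : ε ≤ 1 / 2)
    (hη : 0 < η) (hη1 : η ≤ 1 / 100) : ∀ᶠ X : ℕ in atTop,
    ∀ (h Q : ℕ) (m : ℝ), Adm2 η X h Q →
      h * X * ((1 - ε) * (Real.log Q - Real.log h) - ε * Real.log X) ≤ Var X h m := by
  obtain ⟨δ, hδ, hδ'⟩ := hN (ε / 10) (by positivity)
  obtain ⟨V, L, hV, hV1⟩ := hB δ hδ
  have hL := hV.one
  filter_upwards [hδ' V L hV hV1, hM V L hV η hη hη1 7, phi_ge hP hS hε, ev_log 50,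
    ev_log (20 / ε ^ 2), ev_pow hη 1920 5, ev_pow hη (360 * L) 2, ev_pow hη (30 / ε) 1,
    eventually_ge_atTop 4] with X e1 e2 e3 e4 e5 e6 e7 e8 hX4
  intro h Q m hA
  have hX : (4 : ℝ) ≤ X := by exact_mod_cast hX4
  have hh : (1 : ℝ) ≤ h := by exact_mod_cast hA.h1
  have hQ : (1 : ℝ) ≤ Q := by exact_mod_cast hA.Q1
  set l := Real.log X with hl
  set s := (X : ℝ) ^ (1 - η) with hs
  set t := (X : ℝ) ^ η with ht
  have hst : s * t = X := by
    rw [hs, ht, ← Real.rpow_add (by linarith)]; simp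
  have hs0 : 0 < s := Real.rpow_pos_of_pos (by linarith) _
  have ht1 : 1 ≤ t := Real.one_le_rpow (by linarith) hη.le
  have hsX : s ≤ X := hst ▸ le_mul_of_one_le_right hs0.le ht1
  have a1 := hA.hQQ
  have a2 := hA.hhQ
  rw [← hs] at a1 a2
  have hQ2 : (Q : ℝ) ^ 2 ≤ s := (le_mul_of_one_le_left (sq_nonneg _) hh).trans a1
  have hQX : Q ≤ X := by
    have : (Q : ℝ) ≤ X := (le_self_pow₀ hQ two_ne_zero).trans (hQ2.trans hsX)
    exact_mod_cast this
  have hhX : 2 * h ≤ X := by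
    have b1 : (h : ℝ) ^ 2 ≤ X := (le_mul_of_one_le_right (sq_nonneg _) hQ).trans (a2.trans hsX)
    have : 2 * (h : ℝ) ≤ X := by linarith only [sq_nonneg ((h : ℝ) - 2), b1, hX]
    exact_mod_cast this
  have hlQ : Real.log Q ≤ l := Real.log_le_log (by linarith) (by exact_mod_cast hQX)
  have hlQ0 : 0 ≤ Real.log Q := Real.log_natCast_nonneg Q
  have hlh : 0 ≤ Real.log h := Real.log_natCast_nonneg h
  have hell : ell X = 1 + Real.log 2 + l := by
    rw [ell, Real.log_mul (by norm_num) (by linarith)]; ring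
  have l1 : l ≤ ell X := by linarith [Real.log_two_gt_d9]
  have l2 : ell X ≤ 2 * l := by linarith [Real.log_two_lt_d9]
  have hhx : 0 ≤ (h : ℝ) * X := by positivity
  rcases le_total (Real.log Q - Real.log h) (ε * l) with hD | hD
  · refine le_trans (mul_nonpos_of_nonneg_of_nonpos hhx ?_) (Var_nonneg _ _ _)
    have h0 : 0 ≤ ε * l := by positivity
    have h1 := mul_le_mul_of_nonneg_left hD (by linarith only [hε1] : 0 ≤ 1 - ε)
    have h2 := mul_nonneg hε.le h0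
    linarith only [h1, h2]
  rcases le_total (2 * h * ell X) |m| with hm | hm
  · refine le_trans (mul_le_mul_of_nonneg_left ?_ hhx)
      (Var_far (by omega) hA.h1 (by omega) hm)
    have h0 : 0 ≤ ε * l := by positivity
    have h1 := mul_nonneg hε.le (h0.trans hD)
    linarith only [h0, h1, hlQ, hlh, l1]
  obtain ⟨R, hR1, hΦ⟩ := e3 h Q hA.h1 hA.Q1 hQX hD
  have c1 := hC V L hV X h R Q m hhX (by omega) hR1 hA.Q1
  have c2 := hK V X h R Q hQX
  have c3 := hR V L hV X h Q (X / l ^ 7) (by omega) hQX (by positivity)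
    fun y S hy hS => e2 h Q y S hA hy hS
  have hΦ1 : h * (3 / 4 * ε * l) ≤ Phi h R Q :=
    le_trans (mul_le_mul_of_nonneg_left (by linarith) (by linarith)) hΦ
  have hΦ0 : 0 < Phi h R Q := lt_of_lt_of_le (by positivity) hΦ1
  have hl0 : 0 < ell X := by linarith
  have d1 : 2 * ell X ^ 2 * (10 * ell X ^ 3 * (h * (X / l ^ 7) + (h : ℝ) ^ 2 * (Q : ℝ) ^ 2)) ≤
      2 / 3 * (h * X) := by
    have b1 : ell X ^ 5 ≤ (2 * l) ^ 5 := pow_le_pow_left₀ hl0.le l2 5
    have b2 : (h : ℝ) ^ 2 * (Q : ℝ) ^ 2 ≤ h * s := by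
      linarith only [mul_le_mul_of_nonneg_left a1 (Nat.cast_nonneg h)]
    have b3 : 640 * l ^ 5 * (X / l ^ 7) ≤ X / 3 := by
      rw [show 640 * l ^ 5 * (X / l ^ 7) = X * (640 / l ^ 2) by field_simp,
        div_eq_mul_one_div (X : ℝ) 3]
      refine mul_le_mul_of_nonneg_left ?_ (by linarith)
      rw [div_le_iff₀ (by positivity)]; nlinarith only [e4]
    have b4 : 640 * l ^ 5 * s ≤ X / 3 := by
      linarith only [mul_le_mul_of_nonneg_left e6 hs0.le, hst]
    calc _ = 20 * ell X ^ 5 * (h * (X / l ^ 7) + (h : ℝ) ^ 2 * (Q : ℝ) ^ 2) := by ring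
      _ ≤ 20 * (2 * l) ^ 5 * (h * (X / l ^ 7) + h * s) := by gcongr
      _ = h * (640 * l ^ 5 * (X / l ^ 7) + 640 * l ^ 5 * s) := by ring
      _ ≤ h * (X / 3 + X / 3) := by gcongr
      _ = _ := by ring
  have d2 : 10 * L * ell X * ((h : ℝ) ^ 3 * Q + |m| * h * (Q : ℝ) ^ 2) ≤ 1 / 3 * (h * X) := by
    have b1 : (h : ℝ) ^ 3 * Q ≤ h * s * (2 * l) := by
      have h1 : (h : ℝ) ^ 3 * Q ≤ h * s := by
        linarith only [mul_le_mul_of_nonneg_left a2 (Nat.cast_nonneg h)]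
      exact h1.trans (le_mul_of_one_le_right (by positivity) (by linarith only [e4]))
    have b2 : |m| * h * (Q : ℝ) ^ 2 ≤ 2 * h * (2 * l) * s := by
      rw [mul_assoc]
      refine mul_le_mul (hm.trans (by gcongr)) a1 (by positivity) (by positivity)
    have b3 : 120 * L * l ^ 2 * s ≤ X / 3 := by
      linarith only [mul_le_mul_of_nonneg_left e7 hs0.le, hst]
    calc _ ≤ 10 * L * (2 * l) * (h * s * (2 * l) + 2 * h * (2 * l) * s) := by gcongr
      _ = h * (120 * L * l ^ 2 * s) := by ring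
      _ ≤ h * (X / 3) := by gcongr
      _ = _ := by ring
  have d3 : ps1 V X * Phi h R Q - h * X ≤
      √(Var X h m * ((X + (Q : ℝ) ^ 2 * (1 + 2 * Real.log Q)) * Phi h R Q)) := by
    have b1 := norm_sub_norm_le ((ps1 V X * Phi h R Q : ℝ) : ℂ) (psw V X (HH h R Q))
    rw [norm_sub_rev, Complex.norm_real, Real.norm_eq_abs] at b1
    have b2 := mul_le_mul_of_nonneg_left c3 (by positivity : 0 ≤ 2 * ell X ^ 2)
    linarith [le_abs_self (ps1 V X * Phi h R Q)]
  have d4 : X + (Q : ℝ) ^ 2 * (1 + 2 * Real.log Q) ≤ (1 + ε / 10) * X := by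
    have b1 : (Q : ℝ) ^ 2 * (1 + 2 * Real.log Q) ≤ s * (3 * l) :=
      mul_le_mul hQ2 (by linarith) (by linarith) hs0.le
    rw [pow_one, div_mul_eq_mul_div, div_le_iff₀ hε] at e8
    have b2 := mul_le_mul_of_nonneg_left e8 hs0.le
    rw [← mul_assoc s t, hst] at b2
    linarith only [b1, b2]
  have d5 : (h : ℝ) * X ≤ ε / 10 * X * Phi h R Q := by
    rw [div_le_iff₀ (by positivity)] at e5
    have b1 : (h : ℝ) ≤ ε / 10 * (h * (3 / 4 * ε * l)) := by
      linarith only [mul_le_mul_of_nonneg_left e5 (Nat.cast_nonneg h), hh]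
    have b2 := mul_le_mul_of_nonneg_left hΦ1 (by positivity : 0 ≤ ε / 10)
    linarith only [mul_le_mul_of_nonneg_left (b1.trans b2) (Nat.cast_nonneg X)]
  refine le_trans ?_ (fin hε hε1 (by linarith) hΦ0 (Var_nonneg _ _ _) d4 e1 d5 d3 hΦ)
  have b1 : (1 - ε) * (Real.log Q - Real.log h) - ε * l ≤
      (1 - ε) * (Real.log Q - Real.log h - ε / 4 * l) := by
    have h0 : 0 ≤ ε * l := by positivity
    linarith only [h0, mul_nonneg hε.le h0]
  linarith only [mul_le_mul_of_nonneg_left b1 hhx]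

end mn

theorem main (hB : BumpStmt) (hN : PNWStmt) (hM : MV2Stmt) (hR : RED2Stmt) (hK : KEYStmt)
    (hP : PHIStmt) (hS : SQFStmt) (hC : CSStmt) : MAIN2Stmt := by
  intro ε η hε hη hη1
  filter_upwards [mn.small hB hN hM hR hK hP hS hC (lt_min hε one_half_pos) (min_le_right _ _)
    hη hη1, eventually_ge_atTop 1] with X hX hX1 h Q m hA
  refine le_trans (mul_le_mul_of_nonneg_left ?_ (by positivity)) (hX h Q m hA)
  have hX' : (1 : ℝ) ≤ X := by exact_mod_cast hX1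
  have hh : (1 : ℝ) ≤ h := by exact_mod_cast hA.h1
  have hQ : (1 : ℝ) ≤ Q := by exact_mod_cast hA.Q1
  have h1 : (X : ℝ) ^ (1 - η) ≤ X := by
    simpa using Real.rpow_le_rpow_of_exponent_le hX' (by linarith : 1 - η ≤ 1)
  have h2 : (h : ℝ) ≤ X := by nlinarith [hA.hQQ, sq_nonneg ((Q : ℝ) - 1)]
  have h3 := Real.log_le_log (by linarith) h2
  have h4 := Real.log_natCast_nonneg Q
  nlinarith [min_le_left ε (1 / 2)]

end

end Pool.Agent.MP_678834_nt.gy

end Piece25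

-- ======== piece 26: Fin
section Piece26

/-! Project GY: choice of the level, and the final form. -/

set_option autoImplicit false

namespace Pool.Agent.MP_678834_nt.gy

open Finset Filter ComplexConjugate ArithmeticFunction
open scoped ArithmeticFunction.Moebius

noncomputable section

namespace fn

theorem floor_log {w : ℝ} (hw : 1 ≤ w) :
    1 ≤ ⌊w⌋₊ ∧ (⌊w⌋₊ : ℝ) ≤ w ∧ Real.log w - 1 ≤ Real.log (⌊w⌋₊ : ℕ) := by
  have h1 : 1 ≤ ⌊w⌋₊ := Nat.le_floor (by simpa using hw)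
  have h2 : (1 : ℝ) ≤ (⌊w⌋₊ : ℕ) := by exact_mod_cast h1
  refine ⟨h1, Nat.floor_le (by linarith), ?_⟩
  have h3 : w ≤ 2 * (⌊w⌋₊ : ℕ) := by linarith [Nat.lt_floor_add_one w]
  have h4 := Real.log_le_log (by linarith) h3
  rw [Real.log_mul (by norm_num) (by linarith)] at h4
  linarith [Real.log_two_lt_d9]

theorem mono {ε ε' : ℝ} {X h : ℕ} (hX : 1 ≤ X) (he : ε' ≤ ε)
    (hR : (h : ℝ) ≤ (X : ℝ) ^ (1 / 3 - ε)) : (h : ℝ) ≤ (X : ℝ) ^ (1 / 3 - ε') :=
  hR.trans (Real.rpow_le_rpow_of_exponent_le (by exact_mod_cast hX) (by linarith))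

theorem log_le {ε : ℝ} {X h : ℕ} (hX : 1 ≤ X) (hh : 1 ≤ h)
    (hR : (h : ℝ) ≤ (X : ℝ) ^ (1 / 3 - ε)) : Real.log h ≤ (1 / 3 - ε) * Real.log X := by
  rw [← Real.log_rpow (by exact_mod_cast hX)]
  exact Real.log_le_log (by exact_mod_cast hh) hR

theorem log_eq {X h : ℕ} (hX : 1 ≤ X) (hh : 1 ≤ h) :
    Real.log (X / (h : ℝ) ^ 3) = Real.log X - 3 * Real.log h := by
  rw [Real.log_div (by positivity) (by positivity), Real.log_pow]; norm_num

/-- the choice of the level -/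
theorem level {ε η : ℝ} {X h : ℕ} (hη : 0 < η) (hηε : η ≤ ε) (hX : 1 ≤ X)
    (hh : 1 ≤ h) (h2 : (h : ℝ) ≤ (X : ℝ) ^ (1 / 3 - ε)) : ∃ Q : ℕ, Adm2 η X h Q ∧
      1 / 2 * (Real.log X - 3 * Real.log h) - η * Real.log X - 1 ≤ Real.log Q - Real.log h := by
  have hX' : (1 : ℝ) ≤ X := by exact_mod_cast hX
  have hh' : (1 : ℝ) ≤ h := by exact_mod_cast hh
  have hl := Real.log_natCast_nonneg X
  set s := (X : ℝ) ^ (1 - η) with hs
  have hs0 : 0 < s := Real.rpow_pos_of_pos (by linarith) _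
  have h3 : (h : ℝ) ^ 3 ≤ s := by
    refine (pow_le_pow_left₀ (by linarith) h2 3).trans ?_
    rw [← Real.rpow_natCast, ← Real.rpow_mul (by linarith)]
    exact Real.rpow_le_rpow_of_exponent_le hX' (by push_cast; linarith)
  have h4 : (h : ℝ) ≤ s := (le_self_pow₀ hh' (by norm_num)).trans h3
  have h5 : 1 ≤ s / h := (one_le_div (by linarith)).2 h4
  have h6 : 1 ≤ √(s / h) := Real.one_le_sqrt.2 h5
  have h7 : √(s / h) ^ 2 = s / h := Real.sq_sqrt (by linarith)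
  obtain ⟨q1, q2, q3⟩ := floor_log h6
  have q4 : (h : ℝ) * (⌊√(s / h)⌋₊ : ℝ) ^ 2 ≤ s := by
    have := pow_le_pow_left₀ (Nat.cast_nonneg _) q2 2
    rw [h7, le_div_iff₀ (by linarith)] at this
    linarith
  refine ⟨_, ⟨hh, q1, q4, ?_, mono hX hηε h2⟩, ?_⟩
  · refine (pow_le_pow_iff_left₀ (by positivity) hs0.le two_ne_zero).1 ?_
    calc ((h : ℝ) ^ 2 * (⌊√(s / h)⌋₊ : ℝ)) ^ 2 = h ^ 3 * (h * (⌊√(s / h)⌋₊ : ℝ) ^ 2) := by ring
      _ ≤ s * s := by gcongr
      _ = s ^ 2 := by ring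
  · rw [Real.log_sqrt (by linarith), Real.log_div hs0.ne' (by linarith), hs,
      Real.log_rpow (by linarith)] at q3
    nlinarith

theorem var_small (hM : MAIN2Stmt) {ε : ℝ} (hε : 0 < ε) (hε1 : ε ≤ 1 / 100) :
    ∀ᶠ X : ℕ in atTop, ∀ h : ℕ, 1 ≤ h → (h : ℝ) ≤ (X : ℝ) ^ (1 / 3 - ε) → ∀ m : ℝ,
      (1 / 2 - ε) * h * X * Real.log (X / (h : ℝ) ^ 3) ≤ Var X h m := by
  have h0 : 0 < ε ^ 2 / 2 := by positivity
  have h1 : ε ^ 2 / 2 ≤ ε := by nlinarith
  filter_upwards [hM _ _ h0 h0 (h1.trans hε1), mn.ev_log (1 / ε ^ 2), eventually_ge_atTop 1]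
    with X e1 e2 hX h hh hR m
  obtain ⟨Q, hA, hQ⟩ := level h0 h1 hX hh hR
  refine le_trans ?_ (e1 h Q m hA)
  have hl := Real.log_natCast_nonneg X
  have hlh := Real.log_natCast_nonneg h
  have h2 := log_le hX hh hR
  rw [div_le_iff₀ (by positivity)] at e2
  rw [log_eq hX hh]
  set l := Real.log X
  set Y := l - 3 * Real.log h with hY
  have y1 : 3 * ε * l ≤ Y := by linarith
  have y3 : 1 / 2 * Y ≤ l := by linarith
  have y4 := mul_le_mul_of_nonneg_left hQ (by linarith : 0 ≤ 1 - ε ^ 2 / 2)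
  have y5 := mul_le_mul_of_nonneg_left y1 hε.le
  have y6 := mul_le_mul_of_nonneg_left y3 h0.le
  have y7 : 0 ≤ ε ^ 2 / 2 * (ε ^ 2 / 2 * l + 1) := by positivity
  have y8 : (1 / 2 - ε) * Y ≤ (1 - ε ^ 2 / 2) * (Real.log Q - Real.log h) - ε ^ 2 / 2 * l := by
    nlinarith
  have := mul_le_mul_of_nonneg_left y8 (by positivity : 0 ≤ (h : ℝ) * X)
  linarith

theorem var_all (hM : MAIN2Stmt) {ε : ℝ} (hε : 0 < ε) :
    ∀ᶠ X : ℕ in atTop, ∀ h : ℕ, 1 ≤ h → (h : ℝ) ≤ (X : ℝ) ^ (1 / 3 - ε) → ∀ m : ℝ,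
      (1 / 2 - ε) * h * X * Real.log (X / (h : ℝ) ^ 3) ≤ Var X h m := by
  filter_upwards [var_small hM (lt_min hε (by norm_num : (0 : ℝ) < 1 / 100)) (min_le_right _ _),
    eventually_ge_atTop 1] with X e1 hX h hh hR m
  refine le_trans ?_ (e1 h hh (mono hX (min_le_left _ _) hR) m)
  have h2 := log_le hX hh hR
  have hl := Real.log_natCast_nonneg X
  have h3 : 0 ≤ Real.log (X / (h : ℝ) ^ 3) := by rw [log_eq hX hh]; nlinarith
  have := min_le_left ε (1 / 100)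
  gcongr

end fn

theorem final (hM : MAIN2Stmt) (hC : CORStmt) (hT : THStmt) {ε : ℝ} (hε : 0 < ε) :
    ∀ᶠ X : ℕ in atTop, ∀ h : ℕ, 1 ≤ h → (h : ℝ) ≤ (X : ℝ) ^ (1 / 3 - ε) →
      (∀ m : ℝ, (1 / 2 - ε) * h * X * Real.log (X / (h : ℝ) ^ 3) ≤ Var X h m) ∧
      (h : ℝ) ^ 2 * th X ^ 2 / X - (1 / 2 + ε) * h * X * Real.log (X * (h : ℝ) ^ 3) ≤
        2 * ∑ d ∈ Icc 1 h, ((h : ℝ) - d) * ∑ n ∈ Ioc X (2 * X), Λ n * Λ (n + d) := by
  have h4 : 0 < ε / 4 := by positivity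
  filter_upwards [fn.var_all hM hε, fn.var_all hM h4, hT _ h4, mn.ev_log (4 / ε * (2 + ε / 4)),
    mn.ev_log 2, mn.ev_pow (η := 1 / 3) (by norm_num) 20 2, eventually_ge_atTop 1]
    with X e1 e2 e3 e4 e5 e6 hX h hh hR
  refine ⟨e1 h hh hR, ?_⟩
  have hX' : (1 : ℝ) ≤ X := by exact_mod_cast hX
  have hh' : (1 : ℝ) ≤ h := by exact_mod_cast hh
  have hlh := Real.log_natCast_nonneg h
  have h3 : (h : ℝ) ≤ (X : ℝ) ^ (1 / 3 : ℝ) := by simpa using fn.mono hX hε.le hR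
  have h5 : ((X : ℝ) ^ (1 / 3 : ℝ)) ^ 3 = X := by
    rw [← Real.rpow_natCast, ← Real.rpow_mul (by linarith)]; norm_num
  have h6 : h ≤ X := by
    have : (h : ℝ) ≤ X := h3.trans (by
      simpa using Real.rpow_le_rpow_of_exponent_le hX' (by norm_num : (1 / 3 : ℝ) ≤ 1))
    exact_mod_cast this
  refine le_trans ?_ (hC X h _ hX h6 (e2 h hh (fn.mono hX (by linarith) hR)))
  have hlog : Real.log (2 * X) = Real.log 2 + Real.log X := Real.log_mul (by norm_num) (by linarith)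
  rw [fn.log_eq hX hh, ell, hlog, Real.log_mul (by linarith) (by positivity), Real.log_pow]
  set l := Real.log X
  set u := (X : ℝ) ^ (1 / 3 : ℝ)
  have l2 := Real.log_two_lt_d9
  have l3 := Real.log_two_gt_d9
  have a1 : 5 * (h : ℝ) ^ 3 * (1 + (Real.log 2 + l)) ^ 2 ≤ h * X := by
    have b1 : (1 + (Real.log 2 + l)) ^ 2 ≤ (2 * l) ^ 2 :=
      pow_le_pow_left₀ (by linarith) (by linarith) 2
    calc _ = h * (h ^ 2 * (5 * (1 + (Real.log 2 + l)) ^ 2)) := by ring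
      _ ≤ h * (u ^ 2 * u) := by gcongr; linarith
      _ = h * X := by rw [← h5]; ring
  have a2 : h * (Real.log 2 + l) * th X ≤ h * (1 + l) * ((1 + ε / 4) * X) := by
    have : 0 ≤ th X := sum_nonneg fun _ _ => vonMangoldt_nonneg
    gcongr; linarith
  rw [div_mul_eq_mul_div, div_le_iff₀ hε] at e4
  have a5 := mul_nonneg hε.le hlh
  have a3 : -((1 / 2 + ε) * (l + 3 * Real.log h)) ≤
      (1 / 2 - ε / 4) * (l - 3 * Real.log h) - (1 + l) * (1 + ε / 4) - 1 := by nlinarith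
  have a4 := mul_le_mul_of_nonneg_left a3 (by positivity : 0 ≤ (h : ℝ) * X)
  push_cast
  nlinarith

theorem psi_sub (n h : ℕ) :
    Chebyshev.psi ((n : ℝ) + h) - Chebyshev.psi n = ∑ j ∈ Icc 1 h, Λ (n + j) := by
  rw [← Nat.cast_add, Chebyshev.psi, Chebyshev.psi, Nat.floor_natCast, Nat.floor_natCast]
  induction h with
  | zero => simp
  | succ h ih =>
    rw [sum_Icc_succ_top (by omega), ← ih, ← add_assoc, sum_Ioc_succ_top (by omega)]
    ring

theorem psi_th (X : ℕ) : Chebyshev.psi (2 * X) - Chebyshev.psi X = th X := by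
  rw [show (2 * X : ℝ) = ((2 * X : ℕ) : ℝ) by push_cast; ring, Chebyshev.psi, Chebyshev.psi,
    Nat.floor_natCast, Nat.floor_natCast, th,
    ← sum_Ioc_consecutive _ (Nat.zero_le X) (by omega : X ≤ 2 * X)]
  ring

end

end Pool.Agent.MP_678834_nt.gy

end Piece26

-- ======== piece 27: Int
section Piece27

/-! Project GY: from the discrete variance to the integral. -/

set_option autoImplicit false

namespace Pool.Agent.MP_678834_nt.gy

open Finset Filter ArithmeticFunction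

namespace IntAux

theorem ev_log (c : ℝ) : ∀ᶠ X : ℕ in atTop, c ≤ Real.log X :=
  (Real.tendsto_log_atTop.comp tendsto_natCast_atTop_atTop).eventually_ge_atTop c

theorem ev_pow {η : ℝ} (hη : 0 < η) (c : ℝ) (k : ℕ) :
    ∀ᶠ X : ℕ in atTop, c * Real.log X ^ k ≤ (X : ℝ) ^ η := by
  have h := (isLittleO_log_rpow_rpow_atTop (k : ℝ) hη).bound (c := 1 / (|c| + 1)) (by positivity)
  filter_upwards [tendsto_natCast_atTop_atTop.eventually h, ev_log 0] with X h1 h2
  rw [Real.rpow_natCast, Real.norm_of_nonneg (by positivity),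
    Real.norm_of_nonneg (by positivity), one_div, ← div_eq_inv_mul,
    le_div_iff₀ (by positivity)] at h1
  have h3 : 0 ≤ Real.log X ^ k := by positivity
  nlinarith [le_abs_self c]

theorem log3 {X n : ℕ} (hX : 1 ≤ X) (hn : n ≤ 3 * X) : Λ n ≤ ell X := by
  have hX' : (1 : ℝ) ≤ X := by exact_mod_cast hX
  refine vonMangoldt_le_log.trans ?_
  rcases Nat.eq_zero_or_pos n with rfl | h0
  · simpa using (ell_one hX).trans' zero_le_one
  have h1 : (n : ℝ) ≤ 2 * (2 * X) := by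
    have : (n : ℝ) ≤ 3 * X := by exact_mod_cast hn
    linarith
  have h2 := Real.log_le_log (by exact_mod_cast h0) h1
  rw [Real.log_mul (by norm_num) (by positivity)] at h2
  unfold ell
  linarith [Real.log_two_lt_d9]

theorem psi_sub (n h : ℕ) :
    Chebyshev.psi ((n + h : ℕ) : ℝ) - Chebyshev.psi n = ∑ j ∈ Icc 1 h, Λ (n + j) := by
  rw [Chebyshev.psi, Chebyshev.psi, Nat.floor_natCast, Nat.floor_natCast]
  induction h with
  | zero => simp
  | succ h ih =>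
    rw [sum_Icc_succ_top (by omega), ← ih, ← add_assoc, sum_Ioc_succ_top (by omega)]
    ring

theorem psi_fl {y : ℝ} {n : ℕ} (h1 : (n : ℝ) ≤ y) (h2 : y < n + 1) :
    Chebyshev.psi y = Chebyshev.psi n := by
  rw [Chebyshev.psi, Chebyshev.psi, Nat.floor_natCast,
    (Nat.floor_eq_iff ((Nat.cast_nonneg n).trans h1)).2 ⟨h1, h2⟩]

/-- the integrand -/
noncomputable def ff (h y : ℝ) : ℝ := (Chebyshev.psi (y + h) - Chebyshev.psi y - h) ^ 2

/-- one term of the variance -/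
noncomputable def tt (k n : ℕ) (m : ℝ) : ℝ := ((∑ j ∈ Icc 1 k, Λ (n + j)) - m) ^ 2

theorem ii (h : ℝ) {a b : ℝ} (hab : a ≤ b) :
    IntervalIntegrable (ff h) MeasureTheory.volume a b := by
  have m1 : Measurable Chebyshev.psi := Chebyshev.psi_mono.measurable
  have m2 : Measurable (ff h) :=
    (((m1.comp (measurable_id.add_const h)).sub m1).sub_const h).pow_const 2
  rw [intervalIntegrable_iff_integrableOn_Ioc_of_le hab]
  refine MeasureTheory.Measure.integrableOn_of_bounded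
    (M := (Chebyshev.psi (b + h) + Chebyshev.psi b + |h|) ^ 2) (by simp) m2.aestronglyMeasurable ?_
  refine (MeasureTheory.ae_restrict_iff' measurableSet_Ioc).2 (.of_forall fun y hy => ?_)
  rw [ff, Real.norm_of_nonneg (sq_nonneg _)]
  have k1 := Chebyshev.psi_mono (show y + h ≤ b + h by linarith [hy.2])
  have k2 := Chebyshev.psi_mono hy.2
  have k3 := Chebyshev.psi_nonneg (y + h)
  have k4 := Chebyshev.psi_nonneg y
  exact sq_le_sq' (by linarith [le_abs_self h]) (by linarith [neg_abs_le h])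

theorem cst {f : ℝ → ℝ} {a b c : ℝ} (hab : a ≤ b) (h : ∀ y, a < y → y < b → f y = c) :
    ∫ y in a..b, f y = (b - a) * c := by
  rw [intervalIntegral.integral_of_le hab, MeasureTheory.integral_Ioc_eq_integral_Ioo,
    MeasureTheory.setIntegral_congr_fun measurableSet_Ioo (g := fun _ => c)
      fun y hy => h y hy.1 hy.2]
  simp [hab]

theorem unit {h : ℝ} {H : ℕ} (h1 : (H : ℝ) ≤ h) (h2 : h < H + 1) (n : ℕ) :
    ∫ y in (n : ℝ)..((n + 1 : ℕ) : ℝ), ff h y =
      (1 - (h - H)) * tt H n h + (h - H) * tt (H + 1) n h := by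
  have a1 : (n : ℝ) ≤ n + 1 - (h - H) := by linarith
  have a2 : (n : ℝ) + 1 - (h - H) ≤ ((n + 1 : ℕ) : ℝ) := by push_cast; linarith
  rw [← intervalIntegral.integral_add_adjacent_intervals (ii h a1) (ii h a2),
    cst (c := tt H n h) a1 fun y y1 y2 => ?_, cst (c := tt (H + 1) n h) a2 fun y y1 y2 => ?_]
  · push_cast; ring
  · push_cast at y2
    rw [ff, tt, ← psi_sub, psi_fl (y := y) (n := n) (by linarith) y2,
      psi_fl (y := y + h) (n := n + (H + 1)) (by push_cast; linarith) (by push_cast; linarith)]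
  · rw [ff, tt, ← psi_sub, psi_fl (y := y) (n := n) y1.le (by linarith),
      psi_fl (y := y + h) (n := n + H) (by push_cast; linarith) (by push_cast; linarith)]

theorem last {X k : ℕ} {h : ℝ} (hX : 1 ≤ X) (hk : k ≤ X) (h0 : 0 ≤ h) (h1 : (k : ℝ) ≤ 2 * h) :
    Var X k h ≤ ∑ n ∈ Ico (X + 1) (2 * X), tt k n h + (2 * h * ell X) ^ 2 := by
  have e : Ioc X (2 * X) = Ico (X + 1) (2 * X + 1) := (Ico_add_one_add_one_eq_Ioc _ _).symm
  rw [Var, e, sum_Ico_succ_top (by omega)]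
  refine add_le_add le_rfl ?_
  have l1 := ell_one hX
  have s0 : 0 ≤ ∑ j ∈ Icc 1 k, Λ (2 * X + j) := sum_nonneg fun _ _ => vonMangoldt_nonneg
  have s1 : ∑ j ∈ Icc 1 k, Λ (2 * X + j) ≤ k * ell X := by
    simpa using sum_le_card_nsmul (Icc 1 k) _ (ell X) fun j hj =>
      log3 (n := 2 * X + j) hX (by have := (mem_Icc.1 hj).2; omega)
  exact sq_le_sq' (by nlinarith) (by nlinarith)

theorem lower {x h : ℝ} {X H : ℕ} (hX : 1 ≤ X) (x1 : (X : ℝ) ≤ x) (x2 : x ≤ X + 1)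
    (h1 : (H : ℝ) ≤ h) (h2 : h < H + 1) (H1 : 1 ≤ H) (HX : H + 1 ≤ X) :
    (1 - (h - H)) * Var X H h + (h - H) * Var X (H + 1) h - (2 * h * ell X) ^ 2 ≤
      ∫ y in x..2 * x, ff h y := by
  have X1 : (1 : ℝ) ≤ X := by exact_mod_cast hX
  have H1' : (1 : ℝ) ≤ H := by exact_mod_cast H1
  have k := intervalIntegral.integral_mono_interval (f := ff h) (μ := MeasureTheory.volume)
    (a := ((X + 1 : ℕ) : ℝ)) (b := ((2 * X : ℕ) : ℝ)) (c := x) (d := 2 * x)
    (by push_cast; linarith) (by push_cast; linarith) (by push_cast; linarith)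
    (.of_forall fun _ => sq_nonneg _) (ii h (by linarith))
  refine le_trans ?_ k
  rw [← intervalIntegral.sum_integral_adjacent_intervals_Ico (a := fun n : ℕ => (n : ℝ))
    (by omega) fun n _ => ii h (by push_cast; linarith), sum_congr rfl fun n _ => unit h1 h2 n,
    sum_add_distrib, ← mul_sum, ← mul_sum]
  have k1 := mul_le_mul_of_nonneg_left (last (k := H) (h := h) hX (by omega) (by linarith)
    (by linarith)) (show 0 ≤ 1 - (h - H) by linarith)
  have k2 := mul_le_mul_of_nonneg_left (last (k := H + 1) (h := h) hX HX (by linarith)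
    (by push_cast; linarith)) (show 0 ≤ h - H by linarith)
  linarith

theorem small (hV : VARStmt) {ε : ℝ} (hε : 0 < ε) (hε1 : ε ≤ 1 / 100) :
    ∀ᶠ x : ℝ in atTop, ∀ h : ℝ, 1 ≤ h → h ≤ x ^ (1 / 3 - ε) →
      (1 / 2 - ε) * h * x * Real.log (x / h ^ 3) ≤ ∫ y in x..2 * x, ff h y := by
  have h2 : 0 < ε / 2 := by positivity
  filter_upwards [tendsto_nat_floor_atTop.eventually ((hV _ h2).and ((ev_log (3 / ε ^ 2)).and
    ((ev_log 2).and ((ev_pow h2 4 0).and (ev_pow (η := 1 / 2) (by norm_num) 16 2))))),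
    eventually_ge_atTop 1] with x ⟨e1, e2, e3, e4, e5⟩ hx h hh hR
  have x1 := Nat.floor_le (show 0 ≤ x by linarith)
  have x2 := (Nat.lt_floor_add_one x).le
  have hX : 1 ≤ ⌊x⌋₊ := Nat.le_floor (by simpa using hx)
  have g1 := Nat.floor_le (show 0 ≤ h by linarith)
  have g2 := Nat.lt_floor_add_one h
  have H1 : 1 ≤ ⌊h⌋₊ := Nat.le_floor (by simpa using hh)
  generalize ⌊x⌋₊ = X at *
  generalize ⌊h⌋₊ = H at *
  have X1 : (1 : ℝ) ≤ X := by exact_mod_cast hX
  have H1' : (1 : ℝ) ≤ H := by exact_mod_cast H1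
  have a1 : 2 * h ≤ (X : ℝ) ^ (1 / 3 - ε / 2) := by
    have b1 : x ^ (1 / 3 - ε) ≤ (2 * X : ℝ) ^ (1 / 3 - ε) :=
      Real.rpow_le_rpow (by linarith) (by linarith) (by linarith)
    have b2 : (2 : ℝ) ^ (1 / 3 - ε) ≤ 2 := by
      simpa using Real.rpow_le_rpow_of_exponent_le (x := 2) (by norm_num)
        (show 1 / 3 - ε ≤ 1 by linarith)
    have b3 : 0 ≤ (X : ℝ) ^ (1 / 3 - ε) := by positivity
    rw [Real.mul_rpow (by norm_num) (by linarith)] at b1
    rw [show 1 / 3 - ε / 2 = ε / 2 + (1 / 3 - ε) by ring, Real.rpow_add (by linarith)]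
    rw [pow_zero, mul_one] at e4
    nlinarith
  have a2 : (X : ℝ) ^ (1 / 3 - ε / 2) ≤ (X : ℝ) ^ (1 / 2 : ℝ) :=
    Real.rpow_le_rpow_of_exponent_le X1 (by linarith)
  have a3 : (X : ℝ) ^ (1 / 2 : ℝ) * (X : ℝ) ^ (1 / 2 : ℝ) = X := by
    rw [← Real.rpow_add (by linarith)]; norm_num
  have a4 : (X : ℝ) ^ (1 / 2 : ℝ) ≤ X := by
    simpa using Real.rpow_le_rpow_of_exponent_le X1 (show (1 / 2 : ℝ) ≤ 1 by norm_num)
  have HX : H + 1 ≤ X := by
    have : ((H + 1 : ℕ) : ℝ) ≤ X := by push_cast; linarith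
    exact_mod_cast this
  refine le_trans ?_ (lower hX x1 x2 g1 g2 H1 HX)
  have l2 := Real.log_two_lt_d9
  have eL : Real.log (x / h ^ 3) = Real.log x - 3 * Real.log h := by
    rw [Real.log_div (by positivity) (by positivity), Real.log_pow]; norm_num
  have lx : Real.log X ≤ Real.log x := Real.log_le_log (by linarith) x1
  have lx2 : Real.log x ≤ Real.log 2 + Real.log X := by
    rw [← Real.log_mul (by norm_num) (by linarith)]
    exact Real.log_le_log (by linarith) (by linarith)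
  have lh : Real.log h ≤ (1 / 3 - ε) * Real.log x := by
    rw [← Real.log_rpow (by linarith)]
    exact Real.log_le_log (by linarith) hR
  have lh0 := Real.log_nonneg hh
  have lx3 := Real.log_le_sub_one_of_pos (show 0 < x by linarith)
  rw [eL]
  set L := Real.log x - 3 * Real.log h with hL
  have V : ∀ k : ℕ, 1 ≤ k → (k : ℝ) ≤ 2 * h → k * ((1 / 2 - ε / 2) * X * (L - 3)) ≤ Var X k h := by
    intro k k1 k2
    refine le_trans ?_ (e1 k k1 (k2.trans a1) h)
    have k3 : (1 : ℝ) ≤ k := by exact_mod_cast k1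
    have k4 := Real.log_le_log (by linarith) k2
    rw [Real.log_mul (by norm_num) (by linarith)] at k4
    rw [Real.log_div (by positivity) (by positivity), Real.log_pow]
    have k5 : L - 3 ≤ Real.log X - (3 : ℕ) * Real.log k := by push_cast; linarith
    have := mul_le_mul_of_nonneg_left k5
      (show 0 ≤ (1 / 2 - ε / 2) * k * X by have : 0 ≤ 1 / 2 - ε / 2 := by linarith
                                           positivity)
    linarith
  have v1 := mul_le_mul_of_nonneg_left (V H H1 (by linarith)) (show 0 ≤ 1 - (h - H) by linarith)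
  have v2 := mul_le_mul_of_nonneg_left (V (H + 1) (by omega) (by push_cast; linarith))
    (show 0 ≤ h - H by linarith)
  have c1 : ell X ≤ 2 * Real.log X := by
    rw [ell, Real.log_mul (by norm_num) (by linarith)]; linarith
  have c2 : (2 * h * ell X) ^ 2 ≤ h * X := by
    have d1 : ell X ^ 2 ≤ (2 * Real.log X) ^ 2 :=
      pow_le_pow_left₀ (by linarith [ell_one hX]) c1 2
    have d2 : h * (4 * ell X ^ 2) ≤ (X : ℝ) ^ (1 / 2 : ℝ) * (X : ℝ) ^ (1 / 2 : ℝ) :=
      mul_le_mul (by linarith) (by linarith) (by positivity) (by positivity)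
    have := mul_le_mul_of_nonneg_left d2 (show 0 ≤ h by linarith)
    nlinarith
  rw [div_le_iff₀ (by positivity)] at e2
  have c3 : 3 * ε * Real.log X ≤ L := by nlinarith
  have c4 : 9 ≤ ε * L := by nlinarith
  have L0 : 0 ≤ L := by nlinarith
  have c5 : (1 / 2 - ε) * x * L ≤ (1 / 2 - ε / 2) * X * (L - 3) - X := by
    have d1 := mul_le_mul_of_nonneg_right (mul_le_mul_of_nonneg_left x2
      (show 0 ≤ 1 / 2 - ε by linarith)) L0
    have d2 := mul_le_mul_of_nonneg_left c4 (show (0 : ℝ) ≤ X by linarith)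
    have d3 : L ≤ X := by linarith
    have d4 := mul_nonneg hε.le L0
    have d5 := mul_nonneg hε.le (show (0 : ℝ) ≤ X by linarith)
    nlinarith
  have c6 := mul_le_mul_of_nonneg_left c5 (show 0 ≤ h by linarith)
  push_cast at v2
  linarith

end IntAux

theorem int_of : VARStmt → INTStmt := by
  intro hV ε hε
  filter_upwards [IntAux.small hV (lt_min hε (by norm_num : (0 : ℝ) < 1 / 100)) (min_le_right _ _),
    eventually_ge_atTop 1] with x e hx h hh hR
  have m := min_le_left ε (1 / 100)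
  refine le_trans ?_ (e h hh (hR.trans (Real.rpow_le_rpow_of_exponent_le hx (by linarith))))
  have lh : Real.log h ≤ (1 / 3 - ε) * Real.log x := by
    rw [← Real.log_rpow (by linarith)]
    exact Real.log_le_log (by linarith) hR
  have l0 := Real.log_nonneg hx
  have h3 : 0 ≤ Real.log (x / h ^ 3) := by
    rw [Real.log_div (by positivity) (by positivity), Real.log_pow]
    push_cast
    nlinarith
  gcongr

end Pool.Agent.MP_678834_nt.gy

end Piece27

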