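import Mathlib
import Pool.Agent.MP_678834_nt.gy.Spec

/-! Project GY: the diagonal. -/

set_option autoImplicit false

namespace Pool.Agent.MP_678834_nt.gy

open Finset Filter ComplexConjugate ArithmeticFunction
open scoped ArithmeticFunction.Moebius

namespace PhiL

theorem ram_le {r h : ℕ} (hr : 1 ≤ r) {a : ℤ} (h0 : a ≠ 0) (ha : |a| ≤ h) :
    ‖∑ b ∈ (range r).filter (fun b => Nat.Coprime b r), ee (b * (a / r))‖ ≤
      ∑ e ∈ (Icc 1 h).filter (· ∣ r), if (e : ℤ) ∣ a then (e : ℝ) else 0 := by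
  rw [ram_formula a hr]
  refine (norm_sum_le _ _).trans ?_
  have h1 : ∀ d ∈ r.divisors, ‖(μ d : ℂ) * if ((r / d : ℕ) : ℤ) ∣ a then ((r / d : ℕ) : ℂ) else 0‖ ≤
      if ((r / d : ℕ) : ℤ) ∣ a then ((r / d : ℕ) : ℝ) else 0 := fun d _ => by
    split_ifs
    · rw [norm_mul, Complex.norm_natCast, Complex.norm_intCast]
      exact mul_le_of_le_one_left (Nat.cast_nonneg _) (by exact_mod_cast abs_moebius_le_one)
    · simp
  refine (sum_le_sum h1).trans ?_
  rw [Nat.sum_div_divisors r fun e => if (e : ℤ) ∣ a then (e : ℝ) else 0, ← sum_filter,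
    ← sum_filter]
  refine sum_le_sum_of_subset_of_nonneg (fun e he => ?_) fun _ _ _ => Nat.cast_nonneg _
  simp only [mem_filter, mem_Icc] at he ⊢
  have h2 := Int.le_of_dvd (abs_pos.2 h0) ((dvd_abs _ _).2 he.2)
  exact ⟨⟨⟨Nat.pos_of_mem_divisors he.1, by omega⟩, Nat.dvd_of_mem_divisors he.1⟩, he.2⟩

theorem cnt {h e j : ℕ} (he : 1 ≤ e) (hj : j ∈ Icc 1 h) :
    ∑ k ∈ (Icc 1 h).erase j, (if (e : ℤ) ∣ (k : ℤ) - j then (e : ℝ) else 0) ≤ 2 * h := by
  rw [← sum_filter, sum_const, nsmul_eq_mul]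
  have h1 : #(((Icc 1 h).erase j).filter fun k : ℕ => (e : ℤ) ∣ (k : ℤ) - j) ≤
      #((Icc (-((h / e : ℕ) : ℤ)) (h / e : ℕ)).erase 0) := by
    refine card_le_card_of_injOn (fun k : ℕ => ((k : ℤ) - j) / e) (fun k hk => ?_)
      fun k hk l hl hkl => ?_
    · simp only [mem_coe, mem_filter, mem_erase, mem_Icc] at hk hj ⊢
      obtain ⟨⟨h2, h3, h4⟩, c, hc⟩ := hk
      have h5 : ((k : ℤ) - j) / e = c := by rw [hc, Int.mul_ediv_cancel_left _ (by omega)]
      have h6 : c.natAbs ≤ h / e := (Nat.le_div_iff_mul_le he).2 (by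
        have := congrArg Int.natAbs hc
        rw [Int.natAbs_mul, Int.natAbs_natCast, mul_comm] at this
        omega)
      have h7 : c ≠ 0 := by
        rintro rfl
        omega
      rw [h5]
      generalize h / e = m at *
      omega
    · simp only [mem_coe, mem_filter] at hk hl
      have h2 := Int.ediv_mul_cancel hk.2
      have h3 := Int.ediv_mul_cancel hl.2
      simp only at hkl
      rw [hkl, h3] at h2
      omega
  rw [card_erase_of_mem (mem_Icc.2 ⟨neg_nonpos.2 (Nat.cast_nonneg _), Nat.cast_nonneg _⟩),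
    Int.card_Icc] at h1
  have h2 := Nat.div_mul_le_self h e
  have h3 : #(((Icc 1 h).erase j).filter fun k : ℕ => (e : ℤ) ∣ (k : ℤ) - j) * e ≤ 2 * h := by
    refine (Nat.mul_le_mul_right e (h1.trans (?_ : _ ≤ 2 * (h / e)))).trans (by nlinarith)
    generalize h / e = m
    omega
  exact_mod_cast h3

theorem one_mod {r : ℕ} (h : ℕ) (hr : 1 ≤ r) :
    (h : ℝ) * r.totient - ∑ _e ∈ (Icc 1 h).filter (· ∣ r), 2 * (h : ℝ) ^ 2 ≤
      ∑ b ∈ (range r).filter (fun b => Nat.Coprime b r), ‖DD h (fr (r, b))‖ ^ 2 := by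
  set c : ℤ → ℂ := fun a => ∑ b ∈ (range r).filter (fun b => Nat.Coprime b r), ee (b * (a / r))
    with hc
  have h1 : ((∑ b ∈ (range r).filter (fun b => Nat.Coprime b r), ‖DD h (fr (r, b))‖ ^ 2 : ℝ) : ℂ) =
      ∑ j ∈ Icc 1 h, ∑ k ∈ Icc 1 h, c ((k : ℤ) - j) := by
    rw [Complex.ofReal_sum]
    simp only [DD_sq, hc]
    rw [sum_comm]
    refine sum_congr rfl fun j _ => ?_
    rw [sum_comm]
    refine sum_congr rfl fun k _ => sum_congr rfl fun b _ => ?_
    congr 1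
    unfold fr
    ring
  have h2 := congrArg Complex.re h1
  rw [Complex.ofReal_re, Complex.re_sum] at h2
  have h3 : ∀ j ∈ Icc 1 h, (r.totient : ℝ) - ∑ _e ∈ (Icc 1 h).filter (· ∣ r), 2 * (h : ℝ) ≤
      (∑ k ∈ Icc 1 h, c ((k : ℤ) - j)).re := fun j hj => by
    rw [← add_sum_erase _ _ hj, Complex.add_re, sub_self, sub_eq_add_neg]
    refine add_le_add (le_of_eq ?_) (neg_le_of_abs_le ((Complex.abs_re_le_norm _).trans
      ((norm_sum_le _ _).trans ?_)))
    · simp [hc, ee_zero, Nat.totient, Nat.coprime_comm]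
    · refine (sum_le_sum fun k hk => ram_le (h := h) hr ?_ ?_).trans ?_
      · have := (mem_erase.1 hk).1
        omega
      · have := mem_Icc.1 (mem_erase.1 hk).2
        have := mem_Icc.1 hj
        rw [abs_le]
        omega
      · rw [sum_comm]
        exact sum_le_sum fun e he => cnt (mem_Icc.1 (mem_filter.1 he).1).1 hj
  rw [h2]
  refine le_trans (le_of_eq ?_) (sum_le_sum h3)
  simp only [sum_const, Nat.card_Icc, Nat.add_sub_cancel, nsmul_eq_mul]
  ring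

theorem tail {e R Q : ℕ} (he : 1 ≤ e) (hR : e ≤ R) (hQ : R ≤ Q) :
    ∑ r ∈ (Ioc R Q).filter (e ∣ ·), 1 / (r : ℝ) ^ 2 ≤ 2 / (R : ℝ) * (1 / (e : ℝ)) := by
  have h1 : 0 < R / e := Nat.div_pos hR he
  have h2 := sum_Ioc_inv_sq_le_sub (α := ℝ) h1.ne' ((Nat.div_le_self R e).trans hQ)
  have e0 : (0 : ℝ) < e := by exact_mod_cast he
  have R0 : (0 : ℝ) < R := by exact_mod_cast he.trans hR
  have m0 : (0 : ℝ) < (R / e : ℕ) := by exact_mod_cast h1
  have h3 : (R : ℝ) ≤ 2 * e * (R / e : ℕ) := by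
    have := Nat.lt_mul_div_succ R he
    exact_mod_cast (by nlinarith : R ≤ 2 * e * (R / e))
  refine (sum_inj (t := Ioc (R / e) Q) (g := fun s : ℕ => 1 / (e : ℝ) ^ 2 * ((s : ℝ) ^ 2)⁻¹)
    (· / e) (fun a ha b hb hab => ?_) (fun a ha => ?_) (fun a ha => ?_)
    fun _ _ => by positivity).trans ?_
  · rw [← Nat.div_mul_cancel (mem_filter.1 ha).2, ← Nat.div_mul_cancel (mem_filter.1 hb).2]
    exact congrArg (· * e) hab
  · obtain ⟨h4, c, rfl⟩ := mem_filter.1 ha
    rw [mem_Ioc] at h4 ⊢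
    rw [Nat.mul_div_cancel_left _ he]
    exact ⟨Nat.div_lt_of_lt_mul h4.1, (Nat.le_mul_of_pos_left _ he).trans h4.2⟩
  · obtain ⟨h4, c, rfl⟩ := mem_filter.1 ha
    simp only [Nat.mul_div_cancel_left _ he, Nat.cast_mul, mul_pow, one_div, mul_inv, le_refl]
  · rw [← mul_sum]
    refine (mul_le_mul_of_nonneg_left (h2.trans (sub_le_self _ (by positivity)))
      (by positivity)).trans ?_
    rw [← div_eq_mul_inv, div_div, div_mul_div_comm, div_le_div_iff₀ (by positivity)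
      (by positivity)]
    nlinarith

end PhiL

open PhiL in
theorem phi : PHIStmt := by
  intro h R Q h1 hR hQ
  set l : ℝ := 1 + Real.log Q with hl
  have R0 : (0 : ℝ) < R := by exact_mod_cast h1.trans hR
  have l0 : 0 ≤ Real.log Q := Real.log_natCast_nonneg Q
  have h2 : ∀ r ∈ Ioc R Q, h * ((μ r : ℝ) ^ 2 / (r.totient : ℝ)) -
      ∑ _e ∈ (Icc 1 h).filter (· ∣ r), 8 * (h : ℝ) ^ 2 * l ^ 2 * (1 / (r : ℝ) ^ 2) ≤
      ∑ b ∈ (range r).filter (fun b => Nat.Coprime b r),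
        rho (r, b).1 ^ 2 * ‖DD h (fr (r, b))‖ ^ 2 := fun r hr => by
    obtain ⟨h3, h4⟩ := mem_Ioc.1 hr
    have r1 : 1 ≤ r := by omega
    have r0 : (0 : ℝ) < r := by exact_mod_cast r1
    have t0 : (0 : ℝ) < r.totient := by exact_mod_cast Nat.totient_pos.2 r1
    have h5 : Real.log r ≤ Real.log Q := Real.log_le_log r0 (by exact_mod_cast h4)
    have h6 : |rho r| ≤ 2 * l / r := (rho_abs r).trans (by
      rw [div_le_div_iff₀ t0 r0]
      nlinarith [tot_ge r])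
    have h7 : rho r ^ 2 ≤ (2 * l / r) ^ 2 := by
      rw [← sq_abs]
      exact pow_le_pow_left₀ (abs_nonneg _) h6 2
    simp only
    rw [← mul_sum _ _ (rho r ^ 2)]
    refine le_trans ?_ (mul_le_mul_of_nonneg_left (one_mod h r1) (sq_nonneg _))
    rw [mul_sub, mul_sum]
    refine sub_le_sub (le_of_eq ?_) (sum_le_sum fun e _ => ?_)
    · unfold rho
      field_simp
    · refine (mul_le_mul_of_nonneg_right h7 (by positivity)).trans (le_of_eq ?_)
      ring
  rw [Phi, sum_FF]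
  refine le_trans ?_ (sum_le_sum h2)
  rw [sum_sub_distrib, ← mul_sum]
  refine sub_le_sub_left ?_ _
  simp only [sum_filter]
  rw [sum_comm]
  have h3 : ∀ e ∈ Icc 1 h, ∑ r ∈ Ioc R Q,
      (if e ∣ r then 8 * (h : ℝ) ^ 2 * l ^ 2 * (1 / (r : ℝ) ^ 2) else 0) ≤
      8 * (h : ℝ) ^ 2 * l ^ 2 * (2 / R) * (1 / e) := fun e he => by
    rw [← sum_filter, ← mul_sum, mul_assoc _ (2 / R : ℝ)]
    exact mul_le_mul_of_nonneg_left (tail (mem_Icc.1 he).1 ((mem_Icc.1 he).2.trans hR) hQ)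
      (by positivity)
  refine (sum_le_sum h3).trans ?_
  rw [← mul_sum]
  have h4 : ∑ e ∈ Icc 1 h, (1 : ℝ) / e ≤ l := (harm h).trans (by
    have := Real.log_le_log (by exact_mod_cast h1 : (0 : ℝ) < h) (by exact_mod_cast hR.trans hQ :
      (h : ℝ) ≤ Q)
    linarith)
  refine (mul_le_mul_of_nonneg_left h4 (by positivity)).trans ?_
  have h5 : 0 ≤ (h : ℝ) ^ 2 * l ^ 3 / R := by positivity
  calc _ = 16 * ((h : ℝ) ^ 2 * l ^ 3 / R) := by ring
    _ ≤ 20 * ((h : ℝ) ^ 2 * l ^ 3 / R) := by linarith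
    _ = _ := by ring

end Pool.Agent.MP_678834_nt.gy
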