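import Pool.Agent.MP_678834_nt.gy.Spec3
import Pool.Agent.MP_678834_nt.gy.Rda

/-! Project GY, second stage: expansion in characters with the Fejer sum kept whole. -/

set_option autoImplicit false

namespace Pool.Agent.MP_678834_nt.gy

open Finset Filter ComplexConjugate ArithmeticFunction
open scoped ArithmeticFunction.Moebius

theorem rda2 : RDA2Stmt := by
  classical
  intro V L hV X h e _ he
  have hφ : (1 : ℝ) ≤ e.totient := by exact_mod_cast Nat.totient_pos.2 he
  let P : DirichletCharacter ℂ e → ℂ := fun χ => psw V X (cv ⟨χ.conductor, χ.primitiveCharacter⟩)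
  let M : ℤ → ℂ := fun d => 1 / (e.totient : ℂ) * ∑ χ : DirichletCharacter ℂ e,
    if χ = 1 then 0 else conj (P χ) * χ ((-d : ℤ) : ZMod e)
  have h1 : ‖(dsum V X h e : ℂ) - ∑ j ∈ Icc 1 h, ∑ k ∈ Icc 1 h, M ((k : ℤ) - j)‖ ≤
      2 * (h : ℝ) ^ 2 * e * ell X := by
    rw [dsum]
    push_cast
    simp only [← sum_sub_distrib]
    refine (norm_sum_le_of_le (n := fun _ => (h : ℝ) * (2 * (e * ell X))) _ fun j _ =>
      (norm_sum_le_of_le (n := fun _ => 2 * (e * ell X)) _ fun k _ => Rda.one_disc hV he _).trans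
        (by simp)).trans (le_of_eq ?_)
    simp only [sum_const, Nat.card_Icc, add_tsub_cancel_right, nsmul_eq_mul]
    ring
  have h2 : ∑ j ∈ Icc 1 h, ∑ k ∈ Icc 1 h, M ((k : ℤ) - j) = 1 / (e.totient : ℂ) *
      ∑ χ : DirichletCharacter ℂ e, if χ = 1 then 0 else conj (P χ) *
        ∑ j ∈ Icc 1 h, ∑ k ∈ Icc 1 h, χ ((-((k : ℤ) - j) : ℤ) : ZMod e) := by
    simp only [M, ← mul_sum]
    congr 1
    simp only [sum_comm (t := (univ : Finset (DirichletCharacter ℂ e)))]
    refine sum_congr rfl fun χ _ => ?_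
    split_ifs
    · simp
    · simp only [mul_sum]
  have h3 : ‖∑ j ∈ Icc 1 h, ∑ k ∈ Icc 1 h, M ((k : ℤ) - j)‖ ≤ 1 / (e.totient : ℝ) *
      ∑ χ : DirichletCharacter ℂ e, if χ = 1 then 0 else
        ‖wz ⟨e, χ⟩ h‖ * ‖P χ‖ := by
    rw [h2, norm_mul, norm_div, norm_one, Complex.norm_natCast]
    refine mul_le_mul_of_nonneg_left (norm_sum_le_of_le _ fun χ _ => ?_) (by positivity)
    split_ifs with hχ
    · simp
    · have hne : e ≠ 1 := by
        rintro rfl
        exact hχ (DirichletCharacter.level_one χ)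
      have : Fact (1 < e) := ⟨by omega⟩
      rw [Rda.shifts (fun m => χ (m : ZMod e)) (χ (-1)) (by simpa using χ.map_zero)
        (fun m => by rw [← map_mul]; simp) h, norm_mul, Complex.norm_conj, mul_comm]
      refine le_of_eq ?_
      simp [wz, pp, cv]
  rw [← Real.norm_eq_abs, ← Complex.norm_real]
  exact (norm_le_norm_sub_add _ _).trans (add_le_add h1 h3)

end Pool.Agent.MP_678834_nt.gy
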