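import Pool.Agent.MP_678834_nt.gy.Spec

/-! Project GY: reduction to primitive characters. -/

set_option autoImplicit false

namespace Pool.Agent.MP_678834_nt.gy

open Finset Filter ComplexConjugate ArithmeticFunction
open scoped ArithmeticFunction.Moebius

noncomputable section

namespace RedL

theorem sum_dvd {M : Type} [AddCommMonoid M] (g : ℕ → M) {f : ℕ} (hf : 1 ≤ f) (j : ℕ) :
    ∑ d ∈ Icc 1 j, (if f ∣ d then g d else 0) = ∑ k ∈ Icc 1 (j / f), g (f * k) := by
  rw [← sum_filter]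
  refine sum_nbij' (fun d => d / f) (fun k => f * k) (fun d hd => ?_) (fun k hk => ?_)
    (fun d hd => ?_) (fun k _ => Nat.mul_div_cancel_left k hf) fun d hd => ?_
  · obtain ⟨h1, h2⟩ := mem_filter.1 hd
    obtain ⟨h3, h4⟩ := mem_Icc.1 h1
    exact mem_Icc.2 ⟨Nat.div_pos (Nat.le_of_dvd h3 h2) hf, Nat.div_le_div_right h4⟩
  · obtain ⟨h3, h4⟩ := mem_Icc.1 hk
    exact mem_filter.2 ⟨mem_Icc.2 ⟨Nat.mul_pos hf h3,
      by rw [mul_comm]; exact (Nat.le_div_iff_mul_le hf).1 h4⟩, dvd_mul_right _ _⟩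
  · exact Nat.mul_div_cancel' (mem_filter.1 hd).2
  · rw [Nat.mul_div_cancel' (mem_filter.1 hd).2]

/-- the primitive character -/
def pr {e : ℕ} (χ : DirichletCharacter ℂ e) : Ch := ⟨χ.conductor, χ.primitiveCharacter⟩

theorem cv_eq {e : ℕ} (he : 1 ≤ e) (χ : DirichletCharacter ℂ e) (d : ℕ) :
    cv ⟨e, χ⟩ d = ∑ f ∈ e.divisors, if f ∣ d then (μ f : ℂ) * cv (pr χ) d else 0 := by
  have h1 : e.divisors.filter (· ∣ d) = (Nat.gcd d e).divisors := by
    ext f
    simp only [mem_filter, Nat.mem_divisors, Nat.dvd_gcd_iff, ne_eq, Nat.gcd_eq_zero_iff]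
    exact ⟨fun h => ⟨⟨h.2, h.1.1⟩, by omega⟩, fun h => ⟨⟨h.1.2, by omega⟩, h.1.1⟩⟩
  rw [← sum_filter, ← sum_mul, h1, sum_mu]
  split_ifs with h
  · have := χ.primitiveCharacter_apply_of_isCoprime (a := d) (Nat.isCoprime_iff_coprime.2 h)
    rw [Int.cast_natCast, Int.cast_natCast] at this
    rw [one_mul]
    exact this.symm
  · rw [zero_mul]
    exact χ.map_nonunit fun hu => h ((ZMod.isUnit_iff_coprime d e).1 hu)

theorem pr_inj {e : ℕ} (he : 1 ≤ e) {χ χ' : DirichletCharacter ℂ e} (h : pr χ = pr χ') :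
    χ = χ' := by
  have : NeZero e := ⟨by omega⟩
  refine MulChar.ext' fun a => ?_
  have h1 := cv_eq he χ a.val
  rw [h, ← cv_eq he χ'] at h1
  simpa [cv] using h1

theorem pp_le {e Q : ℕ} (he : e ∈ Icc 1 Q) (χ : DirichletCharacter ℂ e) (j : ℕ) :
    ‖pp (cv ⟨e, χ⟩) j‖ ≤
      ∑ f ∈ Icc 1 Q, if (pr χ).1 * f ∣ e then ‖pp (cv (pr χ)) (j / f)‖ else 0 := by
  obtain ⟨h1, h2⟩ := mem_Icc.1 he
  unfold pp
  simp only [cv_eq h1 χ]
  rw [sum_comm]
  refine (norm_sum_le _ _).trans (sum_le_sum (fun f hf => ?_) |>.trans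
    (sum_le_sum_of_subset_of_nonneg (s := e.divisors) (fun f hf => mem_Icc.2
      ⟨Nat.pos_of_mem_divisors hf, (Nat.divisor_le hf).trans h2⟩) fun f _ _ => by positivity))
  have e1 : ∀ k, cv (pr χ) (f * k) = cv (pr χ) f * cv (pr χ) k := fun k => by simp [cv]
  rw [sum_dvd (fun d => (μ f : ℂ) * cv (pr χ) d) (Nat.pos_of_mem_divisors hf)]
  simp only [e1, ← mul_sum]
  split_ifs with h
  · rw [norm_mul, norm_mul]
    have a : ‖(μ f : ℂ)‖ ≤ 1 := by
      rw [Complex.norm_intCast]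
      exact_mod_cast abs_moebius_le_one
    have b : ‖cv (pr χ) f‖ ≤ 1 := DirichletCharacter.norm_le_one _ _
    exact (mul_le_of_le_one_left (by positivity) a).trans (mul_le_of_le_one_left (by positivity) b)
  · have : cv (pr χ) f = 0 := MulChar.map_nonunit _ fun hu => h
      (((ZMod.isUnit_iff_coprime _ _).1 hu).symm.mul_dvd_of_dvd_of_dvd χ.conductor_dvd_level
        (Nat.dvd_of_mem_divisors hf))
    simp [this]

theorem log_le {X n : ℕ} (h1 : 1 ≤ X) (h : n ≤ X) : 1 + Real.log n ≤ ell X := by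
  have h2 : (1 : ℝ) ≤ X := by exact_mod_cast h1
  have h3 : (n : ℝ) ≤ X := by exact_mod_cast h
  unfold ell
  rcases Nat.eq_zero_or_pos n with rfl | hn
  · simpa using Real.log_nonneg (by linarith)
  · have := Real.log_le_log (by exact_mod_cast hn) (by linarith : (n : ℝ) ≤ 2 * X)
    linarith

theorem sum_tot {X Q m : ℕ} (hX : 1 ≤ X) (hQ : Q ≤ X) (hm : 1 ≤ m) :
    ∑ e ∈ Icc 1 Q, (if m ∣ e then 1 / (e.totient : ℝ) else 0) ≤ 2 * ell X ^ 2 * (1 / m) := by
  have hl := ell_one hX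
  rw [sum_dvd (fun e => 1 / (e.totient : ℝ)) hm]
  calc _ ≤ ∑ k ∈ Icc 1 (Q / m), 2 * ell X * (1 / m) * (1 / k) := by
        refine sum_le_sum fun k hk => ?_
        obtain ⟨h3, h4⟩ := mem_Icc.1 hk
        have h5 : m * k ≤ X := le_trans
          (by rw [mul_comm]; exact (Nat.le_div_iff_mul_le hm).1 h4) hQ
        have h6 := tot_ge (m * k)
        have h7 := log_le hX h5
        have h8 : (0 : ℝ) < (m * k).totient := by
          exact_mod_cast Nat.totient_pos.2 (Nat.mul_pos hm h3)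
        have h9 : (0 : ℝ) < m := by exact_mod_cast hm
        have h10 : (0 : ℝ) < k := by exact_mod_cast h3
        rw [mul_one_div, mul_one_div, div_div, div_le_div_iff₀ h8 (by positivity), ← Nat.cast_mul]
        nlinarith
    _ ≤ 2 * ell X * (1 / m) * ell X := by
        rw [← mul_sum]
        exact mul_le_mul_of_nonneg_left ((harm _).trans
          (log_le hX ((Nat.div_le_self _ _).trans hQ))) (by positivity)
    _ = _ := by ring

end RedL

open RedL in
theorem red : RDAStmt → REDStmt := by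
  classical
  intro hR V L hV X h Q T hX hQ hT H
  have hl := ell_one hX
  obtain ⟨S, hS, hS'⟩ : ∃ S : Finset Ch, Prim S Q ∧
      ∀ e ∈ Icc 1 Q, ∀ χ : DirichletCharacter ℂ e, χ ≠ 1 → pr χ ∈ S := by
    refine ⟨(Icc 1 Q).biUnion fun e =>
      (univ.filter fun χ : DirichletCharacter ℂ e => χ ≠ 1).image pr, fun z hz => ?_,
      fun e he χ h1 => mem_biUnion.2 ⟨e, he, mem_image_of_mem _ (mem_filter.2 ⟨mem_univ _, h1⟩)⟩⟩
    obtain ⟨e, he, hz⟩ := mem_biUnion.1 hz
    obtain ⟨χ, h1, rfl⟩ := mem_image.1 hz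
    obtain ⟨h2, h3⟩ := mem_Icc.1 he
    have : NeZero e := ⟨by omega⟩
    have h4 := χ.conductor_ne_zero
    simp only [mem_filter] at h1
    have h5 : χ.conductor ≠ 1 := fun h =>
      h1.2 (DirichletCharacter.eq_one_iff_conductor_eq_one.2 h)
    exact ⟨show 1 < χ.conductor by omega, (Nat.le_of_dvd h2 χ.conductor_dvd_level).trans h3,
      χ.primitiveCharacter_isPrimitive⟩
  have h1 : ∀ e ∈ Icc 1 Q, |dsum V X h e| ≤ 2 * (h : ℝ) ^ 2 * Q * ell X +
      2 * ∑ j ∈ range h, ∑ f ∈ Icc 1 Q, ∑ z ∈ S, ‖pp (cv z) (j / f)‖ * ‖psw V X (cv z)‖ *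
        if z.1 * f ∣ e then 1 / (e.totient : ℝ) else 0 := by
    intro e he
    obtain ⟨h2, h3⟩ := mem_Icc.1 he
    refine (hR V L hV X h e hX h2).trans (add_le_add (by gcongr) ?_)
    have h4 : ∀ χ : DirichletCharacter ℂ e, ∀ x : ℝ, (if χ = 1 then 0 else x) =
        if χ ≠ 1 then x else 0 := fun χ x => (ite_not _ _ _).symm
    simp only [h4]
    rw [← sum_filter]
    refine (mul_le_mul_of_nonneg_left (sum_inj (t := S) pr (g := fun z => 2 * (∑ j ∈ range h,
      ∑ f ∈ Icc 1 Q, if z.1 * f ∣ e then ‖pp (cv z) (j / f)‖ else 0) * ‖psw V X (cv z)‖)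
      (fun a _ b _ => pr_inj h2) (fun χ hχ => hS' e he χ (mem_filter.1 hχ).2) (fun χ _ => ?_)
      fun z _ => by positivity) (by positivity)).trans (le_of_eq ?_)
    · exact mul_le_mul_of_nonneg_right (mul_le_mul_of_nonneg_left
        (sum_le_sum fun j _ => pp_le he χ j) (by norm_num)) (norm_nonneg _)
    · simp only [mul_sum, sum_mul]
      rw [sum_comm]
      refine sum_congr rfl fun j _ => ?_
      rw [sum_comm]
      refine sum_congr rfl fun f _ => sum_congr rfl fun z _ => ?_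
      split_ifs <;> ring
  have h2 : ∑ e ∈ Icc 1 Q, ∑ j ∈ range h, ∑ f ∈ Icc 1 Q, ∑ z ∈ S,
      ‖pp (cv z) (j / f)‖ * ‖psw V X (cv z)‖ * (if z.1 * f ∣ e then 1 / (e.totient : ℝ) else 0) ≤
      h * (2 * ell X ^ 2 * T * ell X) := by
    rw [sum_comm]
    refine (sum_le_card_nsmul _ _ _ fun j hj => ?_).trans
      (by rw [card_range, nsmul_eq_mul])
    rw [sum_comm]
    calc _ ≤ ∑ f ∈ Icc 1 Q, 2 * ell X ^ 2 * T * (1 / f) := by
          refine sum_le_sum fun f hf => ?_
          rw [sum_comm]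
          calc _ ≤ ∑ z ∈ S, 2 * ell X ^ 2 * (1 / f) *
                (1 / (z.1 : ℝ) * (‖pp (cv z) (j / f)‖ * ‖psw V X (cv z)‖)) := by
                refine sum_le_sum fun z hz => ?_
                rw [← mul_sum]
                refine (mul_le_mul_of_nonneg_left (sum_tot hX hQ (Nat.mul_pos
                  (by have := (hS z hz).1; omega) (mem_Icc.1 hf).1)) (by positivity)).trans
                  (le_of_eq ?_)
                push_cast
                ring
            _ ≤ 2 * ell X ^ 2 * (1 / f) * T := by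
                rw [← mul_sum]
                exact mul_le_mul_of_nonneg_left (H _ S ((Nat.div_le_self _ _).trans
                  (mem_range.1 hj).le) hS) (by positivity)
            _ = _ := by ring
      _ ≤ _ := by
          rw [← mul_sum]
          exact mul_le_mul_of_nonneg_left ((harm _).trans (log_le hX hQ)) (by positivity)
  refine (sum_le_sum h1).trans ?_
  rw [sum_add_distrib, sum_const, ← mul_sum, Nat.card_Icc, Nat.add_sub_cancel, nsmul_eq_mul]
  have h3 : ell X ≤ ell X ^ 3 := le_self_pow₀ hl (by norm_num)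
  have h4 := mul_le_mul_of_nonneg_left h3 (by positivity : 0 ≤ (h : ℝ) ^ 2 * (Q : ℝ) ^ 2)
  have h5 : 0 ≤ ell X ^ 3 * (h * T) := by positivity
  have h6 : 0 ≤ ell X ^ 3 * ((h : ℝ) ^ 2 * (Q : ℝ) ^ 2) := by positivity
  nlinarith

end

end Pool.Agent.MP_678834_nt.gy
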