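import Pool.Agent.MP_678834_nt.gy.Spec3
import Pool.Agent.MP_678834_nt.gy.Red

/-! Project GY, second stage: reduction to primitive characters. -/

set_option autoImplicit false

namespace Pool.Agent.MP_678834_nt.gy

open Finset Filter ComplexConjugate ArithmeticFunction
open scoped ArithmeticFunction.Moebius

noncomputable section

namespace Red2L

open RedL

theorem blk (G : ℕ → ℂ) {f : ℕ} (y : ℕ) {s : ℕ} (hf : 1 ≤ f) (hs : s ≤ f) :
    ∑ j ∈ range (f * y + s), G (j / f) = ∑ j ∈ range (f * y), G (j / f) + s * G y := by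
  rw [sum_range_add]
  congr 1
  rw [sum_congr rfl (g := fun _ => G y) fun i hi => ?_]
  · simp
  · rw [Nat.mul_add_div hf, Nat.div_eq_of_lt (lt_of_lt_of_le (mem_range.1 hi) hs), add_zero]

theorem full (G : ℕ → ℂ) {f : ℕ} (hf : 1 ≤ f) (y : ℕ) :
    ∑ j ∈ range (f * y), G (j / f) = f * ∑ i ∈ range y, G i := by
  induction y with
  | zero => simp
  | succ y ih => rw [Nat.mul_succ, blk G y hf le_rfl, ih, sum_range_succ, mul_add]

theorem split (G : ℕ → ℂ) {f : ℕ} (hf : 1 ≤ f) (h : ℕ) :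
    ∑ j ∈ range h, G (j / f) = ((f - h % f : ℕ) : ℂ) * ∑ i ∈ range (h / f), G i +
      ((h % f : ℕ) : ℂ) * ∑ i ∈ range (h / f + 1), G i := by
  have h1 := (Nat.mod_lt h hf).le
  conv_lhs => rw [← Nat.div_add_mod h f]
  rw [blk G _ hf h1, full G hf, sum_range_succ, Nat.cast_sub h1]
  ring

/-- the bound for the part of the divisor `f` -/
def ww (h f : ℕ) (z : Ch) : ℝ :=
  ((f - h % f : ℕ) : ℝ) * ‖wz z (h / f)‖ + ((h % f : ℕ) : ℝ) * ‖wz z (h / f + 1)‖

theorem ww_nonneg (h f : ℕ) (z : Ch) : 0 ≤ ww h f z := by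
  unfold ww; positivity

theorem neg_eq {e : ℕ} (χ : DirichletCharacter ℂ e) : (pr χ).2 (-1) = χ (-1) := by
  have := χ.primitiveCharacter_apply_of_isCoprime (a := -1) (isCoprime_one_left.neg_left)
  rw [Int.cast_neg, Int.cast_neg, Int.cast_one, Int.cast_one] at this
  exact this

theorem wz_le' {e Q : ℕ} (he : e ∈ Icc 1 Q) (χ : DirichletCharacter ℂ e) (h : ℕ) :
    ‖wz ⟨e, χ⟩ h‖ ≤ ∑ f ∈ Icc 1 Q, if (pr χ).1 * f ∣ e then ww h f (pr χ) else 0 := by
  obtain ⟨h1, h2⟩ := mem_Icc.1 he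
  have e1 : ∀ f k, cv (pr χ) (f * k) = cv (pr χ) f * cv (pr χ) k := fun f k => by simp [cv]
  have e2 : ∀ j, pp (cv ⟨e, χ⟩) j =
      ∑ f ∈ e.divisors, (μ f : ℂ) * cv (pr χ) f * pp (cv (pr χ)) (j / f) := by
    intro j
    unfold pp
    simp only [cv_eq h1 χ]
    rw [sum_comm]
    refine sum_congr rfl fun f hf => ?_
    rw [sum_dvd (fun d => (μ f : ℂ) * cv (pr χ) d) (Nat.pos_of_mem_divisors hf)]
    simp only [e1, ← mul_sum, mul_assoc]
  have e3 : wz ⟨e, χ⟩ h = ∑ f ∈ e.divisors, (μ f : ℂ) * cv (pr χ) f *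
      (((f - h % f : ℕ) : ℂ) * wz (pr χ) (h / f) +
        ((h % f : ℕ) : ℂ) * wz (pr χ) (h / f + 1)) := by
    unfold wz
    simp only [e2]
    rw [sum_comm, mul_sum]
    refine sum_congr rfl fun f hf => ?_
    rw [← mul_sum, split (pp (cv (pr χ))) (Nat.pos_of_mem_divisors hf), neg_eq]
    ring
  rw [e3]
  refine (norm_sum_le _ _).trans (sum_le_sum (fun f hf => ?_) |>.trans
    (sum_le_sum_of_subset_of_nonneg (s := e.divisors) (fun f hf => mem_Icc.2
      ⟨Nat.pos_of_mem_divisors hf, (Nat.divisor_le hf).trans h2⟩) fun f _ _ => by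
        split_ifs
        · exact ww_nonneg _ _ _
        · exact le_rfl))
  split_ifs with hd
  · rw [norm_mul, norm_mul]
    have a : ‖(μ f : ℂ)‖ ≤ 1 := by
      rw [Complex.norm_intCast]
      exact_mod_cast abs_moebius_le_one
    have b : ‖cv (pr χ) f‖ ≤ 1 := DirichletCharacter.norm_le_one _ _
    refine (mul_le_of_le_one_left (norm_nonneg _) (mul_le_one₀ a (norm_nonneg _) b)).trans
      ((norm_add_le _ _).trans (le_of_eq ?_))
    rw [norm_mul, norm_mul, Complex.norm_natCast, Complex.norm_natCast, ww]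
  · have : cv (pr χ) f = 0 := MulChar.map_nonunit _ fun hu => hd
      (((ZMod.isUnit_iff_coprime _ _).1 hu).symm.mul_dvd_of_dvd_of_dvd χ.conductor_dvd_level
        (Nat.dvd_of_mem_divisors hf))
    simp [this]

theorem ww_sum {h f : ℕ} (hf : 1 ≤ f) (S : Finset Ch) (P : Ch → ℝ) {T : ℝ}
    (H : ∀ y, y ≤ h → ∑ z ∈ S, 1 / (z.1 : ℝ) * (‖wz z y‖ * P z) ≤ y * T) :
    ∑ z ∈ S, 1 / (z.1 : ℝ) * (ww h f z * P z) ≤ h * T := by
  have h1 := (Nat.mod_lt h hf).le
  have h2 := Nat.div_add_mod h f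
  have e1 : ∑ z ∈ S, 1 / (z.1 : ℝ) * (ww h f z * P z) =
      ((f - h % f : ℕ) : ℝ) * ∑ z ∈ S, 1 / (z.1 : ℝ) * (‖wz z (h / f)‖ * P z) +
      ((h % f : ℕ) : ℝ) * ∑ z ∈ S, 1 / (z.1 : ℝ) * (‖wz z (h / f + 1)‖ * P z) := by
    rw [mul_sum, mul_sum, ← sum_add_distrib]
    refine sum_congr rfl fun z _ => ?_
    unfold ww
    ring
  have a := mul_le_mul_of_nonneg_left (H _ (Nat.div_le_self h f))
    (Nat.cast_nonneg (α := ℝ) (f - h % f))
  have b : ((h % f : ℕ) : ℝ) * ∑ z ∈ S, 1 / (z.1 : ℝ) * (‖wz z (h / f + 1)‖ * P z) ≤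
      ((h % f : ℕ) : ℝ) * (((h / f + 1 : ℕ) : ℝ) * T) := by
    rcases Nat.eq_zero_or_pos (h % f) with h0 | h0
    · simp [h0]
    · refine mul_le_mul_of_nonneg_left (H _ ?_) (Nat.cast_nonneg _)
      have := Nat.le_mul_of_pos_left (h / f) hf
      omega
  have c : (h : ℝ) = f * ((h / f : ℕ) : ℝ) + ((h % f : ℕ) : ℝ) := by exact_mod_cast h2.symm
  rw [e1]
  refine (add_le_add a b).trans (le_of_eq ?_)
  rw [Nat.cast_sub h1, Nat.cast_succ]
  conv_rhs => rw [c]
  ring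

end Red2L

open RedL Red2L in
theorem red2 : RDA2Stmt → RED2Stmt := by
  classical
  intro hR V L hV X h Q T hX hQ hT H
  have hl := ell_one hX
  obtain ⟨S, hS, hS'⟩ : ∃ S : Finset Ch, Prim S Q ∧
      ∀ e ∈ Icc 1 Q, ∀ χ : DirichletCharacter ℂ e, χ ≠ 1 → pr χ ∈ S := by
    refine ⟨(Icc 1 Q).biUnion fun e =>
      (univ.filter fun χ : DirichletCharacter ℂ e => χ ≠ 1).image pr, fun z hz => ?_,
      fun e he χ h1 => mem_biUnion.2 ⟨e, he, mem_image_of_mem _ (mem_filter.2 ⟨mem_univ _, h1⟩)⟩⟩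
    obtain ⟨e, he, hz⟩ := mem_biUnion.1 hz
    obtain ⟨χ, h1, rfl⟩ := mem_image.1 hz
    obtain ⟨h2, h3⟩ := mem_Icc.1 he
    have : NeZero e := ⟨by omega⟩
    have h4 := χ.conductor_ne_zero
    simp only [mem_filter] at h1
    have h5 : χ.conductor ≠ 1 := fun h =>
      h1.2 (DirichletCharacter.eq_one_iff_conductor_eq_one.2 h)
    exact ⟨show 1 < χ.conductor by omega, (Nat.le_of_dvd h2 χ.conductor_dvd_level).trans h3,
      χ.primitiveCharacter_isPrimitive⟩
  have h1 : ∀ e ∈ Icc 1 Q, |dsum V X h e| ≤ 2 * (h : ℝ) ^ 2 * Q * ell X +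
      ∑ f ∈ Icc 1 Q, ∑ z ∈ S, ww h f z * ‖psw V X (cv z)‖ *
        if z.1 * f ∣ e then 1 / (e.totient : ℝ) else 0 := by
    intro e he
    obtain ⟨h2, h3⟩ := mem_Icc.1 he
    refine (hR V L hV X h e hX h2).trans (add_le_add (by gcongr) ?_)
    have h4 : ∀ χ : DirichletCharacter ℂ e, ∀ x : ℝ, (if χ = 1 then 0 else x) =
        if χ ≠ 1 then x else 0 := fun χ x => (ite_not _ _ _).symm
    simp only [h4]
    rw [← sum_filter]
    refine (mul_le_mul_of_nonneg_left (sum_inj (t := S) pr (g := fun z =>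
      (∑ f ∈ Icc 1 Q, if z.1 * f ∣ e then ww h f z else 0) * ‖psw V X (cv z)‖)
      (fun a _ b _ => pr_inj h2) (fun χ hχ => hS' e he χ (mem_filter.1 hχ).2) (fun χ _ => ?_)
      fun z _ => ?_) (by positivity)).trans (le_of_eq ?_)
    · exact mul_le_mul_of_nonneg_right (wz_le' he χ h) (norm_nonneg _)
    · refine mul_nonneg (sum_nonneg fun f _ => ?_) (norm_nonneg _)
      split_ifs
      · exact ww_nonneg _ _ _
      · exact le_rfl
    · simp only [mul_sum, sum_mul]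
      rw [sum_comm]
      refine sum_congr rfl fun f _ => sum_congr rfl fun z _ => ?_
      split_ifs <;> ring
  have h2 : ∑ e ∈ Icc 1 Q, ∑ f ∈ Icc 1 Q, ∑ z ∈ S,
      ww h f z * ‖psw V X (cv z)‖ * (if z.1 * f ∣ e then 1 / (e.totient : ℝ) else 0) ≤
      2 * ell X ^ 2 * (h * T) * ell X := by
    rw [sum_comm]
    calc _ ≤ ∑ f ∈ Icc 1 Q, 2 * ell X ^ 2 * (h * T) * (1 / f) := by
          refine sum_le_sum fun f hf => ?_
          rw [sum_comm]
          calc _ ≤ ∑ z ∈ S, 2 * ell X ^ 2 * (1 / f) *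
                (1 / (z.1 : ℝ) * (ww h f z * ‖psw V X (cv z)‖)) := by
                refine sum_le_sum fun z hz => ?_
                rw [← mul_sum]
                refine (mul_le_mul_of_nonneg_left (sum_tot hX hQ (Nat.mul_pos
                  (by have := (hS z hz).1; omega) (mem_Icc.1 hf).1))
                  (mul_nonneg (ww_nonneg _ _ _) (norm_nonneg _))).trans (le_of_eq ?_)
                push_cast
                ring
            _ ≤ 2 * ell X ^ 2 * (1 / f) * (h * T) := by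
                rw [← mul_sum]
                exact mul_le_mul_of_nonneg_left (ww_sum (mem_Icc.1 hf).1 S _
                  fun y hy => H y S hy hS) (by positivity)
            _ = _ := by ring
      _ ≤ _ := by
          rw [← mul_sum]
          exact mul_le_mul_of_nonneg_left ((harm _).trans (log_le hX hQ)) (by positivity)
  refine (sum_le_sum h1).trans ?_
  rw [sum_add_distrib, sum_const, Nat.card_Icc, Nat.add_sub_cancel, nsmul_eq_mul]
  have h3 : ell X ≤ ell X ^ 3 := le_self_pow₀ hl (by norm_num)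
  have h4 := mul_le_mul_of_nonneg_left h3 (by positivity : 0 ≤ (h : ℝ) ^ 2 * (Q : ℝ) ^ 2)
  have h5 : 0 ≤ ell X ^ 3 * (h * T) := by positivity
  have h6 : 0 ≤ ell X ^ 3 * ((h : ℝ) ^ 2 * (Q : ℝ) ^ 2) := by positivity
  nlinarith

end

end Pool.Agent.MP_678834_nt.gy
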