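import Pool.Agent.MP_678834_nt.gy.Spec

/-! Project GY: the smooth weight exists, and separation of variables. -/

set_option autoImplicit false

namespace Pool.Agent.MP_678834_nt.gy

open Finset Filter ComplexConjugate ArithmeticFunction MeasureTheory
open scoped FourierTransform

noncomputable section

namespace SepL

theorem key {V : ℝ → ℝ} {L : ℝ} (hV : Wt V L) {τ : Type} (T : Finset τ) (c : τ → ℂ) (y : τ → ℝ)
    {B : ℝ} (h : ∀ u : ℝ, ‖∑ t ∈ T, c t * Complex.exp ((u * y t : ℝ) * Complex.I)‖ ≤ B) :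
    ‖∑ t ∈ T, c t * (V (y t) : ℝ)‖ ≤ 4 * L * B := by
  obtain ⟨κ, k1, k2, k3⟩ := hV.four
  have hB := (norm_nonneg _).trans (h 0)
  have hL := hV.one
  have hi : ∀ t ∈ T, Integrable fun u : ℝ =>
      c t * (κ u * Complex.exp ((u * y t : ℝ) * Complex.I)) := fun t _ =>
    ((integrable_inv_one_add_sq.const_mul L).mono' (Continuous.aestronglyMeasurable (by fun_prop))
      (.of_forall fun u => by
        rw [norm_mul, Complex.norm_exp_ofReal_mul_I, mul_one]
        exact k2 u)).const_mul _
  simp only [k3, ← integral_const_mul]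
  rw [← integral_finsetSum _ hi]
  refine (norm_integral_le_of_norm_le (integrable_inv_one_add_sq.const_mul (L * B))
    (.of_forall fun u => ?_)).trans ?_
  · simp only [mul_left_comm _ (κ u), ← mul_sum]
    rw [norm_mul, mul_right_comm]
    exact mul_le_mul (k2 u) (h u) (norm_nonneg _) (by positivity)
  · rw [integral_const_mul, integral_univ_inv_one_add_sq]
    nlinarith [Real.pi_le_four, mul_nonneg (zero_le_one.trans hL) hB]

theorem four {V : ℝ → ℝ} (hc : HasCompactSupport V) (hd : ContDiff ℝ (⊤ : ℕ∞) V) :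
    ∃ (κ : ℝ → ℂ) (C : ℝ), Continuous κ ∧ (∀ u, ‖κ u‖ ≤ C / (1 + u ^ 2)) ∧
      ∀ y : ℝ, (V y : ℂ) = ∫ u : ℝ, κ u * Complex.exp ((u * y : ℝ) * Complex.I) := by
  have hp : 2 * Real.pi ≠ 0 := by positivity
  have hc' : HasCompactSupport fun x => (V (2 * Real.pi * x) : ℂ) :=
    (hc.comp_homeomorph (Homeomorph.mulLeft₀ _ hp)).comp_left (g := fun x : ℝ => (x : ℂ))
      Complex.ofReal_zero
  have hd' : ContDiff ℝ (⊤ : ℕ∞) fun x => (V (2 * Real.pi * x) : ℂ) :=
    Complex.ofRealCLM.contDiff.comp (hd.comp (by fun_prop))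
  set f : SchwartzMap ℝ ℂ := hc'.toSchwartzMap hd' with hf
  have hfc : ∀ x, f x = (V (2 * Real.pi * x) : ℂ) := fun x => rfl
  set g : SchwartzMap ℝ ℂ := 𝓕 f with hg
  obtain ⟨C0, -, h0⟩ := g.decay 0 0
  obtain ⟨C2, -, h2⟩ := g.decay 2 0
  simp only [pow_zero, one_mul, norm_iteratedFDeriv_zero] at h0 h2
  refine ⟨g, C0 + C2, g.continuous, fun w => ?_, fun y => ?_⟩
  · have h3 := h0 w
    have h4 := h2 w
    rw [Real.norm_eq_abs, sq_abs] at h4
    rw [le_div_iff₀ (by positivity)]
    linarith
  · have h := congrFun (f.continuous.fourierInv_fourier_eq f.integrable g.integrable)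
      (y / (2 * Real.pi))
    rw [Real.fourierInv_eq', hfc, mul_div_cancel₀ _ hp] at h
    rw [← h]
    congr 1
    ext w
    rw [smul_eq_mul, mul_comm]
    simp only [RCLike.inner_apply, conj_trivial]
    congr 4
    field_simp

end SepL

theorem sep : SEPStmt := by
  intro V L hV ι S χ w X M N a b B hχ hw hB
  choose ph h1 h2 using fun i => Complex.exists_norm_eq_mul_self (∑ m ∈ Icc 1 M, ∑ n ∈ Icc 1 N,
    a m * b n * (χ i (m * n) * (om V X (m * n) : ℝ)))
  have h := SepL.key hV (S ×ˢ Icc 1 M ×ˢ Icc 1 N)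
    (fun t => w t.1 * ph t.1 * (a t.2.1 * b t.2.2 * χ t.1 (t.2.1 * t.2.2)))
    (fun t => Real.log (t.2.1 * t.2.2 : ℕ) - Real.log X) (B := B) fun u => by
      refine le_trans ?_ (hB (fun m => a m * Complex.exp ((u * Real.log m : ℝ) * Complex.I))
        (fun n => b n * Complex.exp ((u * Real.log n : ℝ) * Complex.I))
        (fun m => by rw [norm_mul, Complex.norm_exp_ofReal_mul_I, mul_one])
        fun m => by rw [norm_mul, Complex.norm_exp_ofReal_mul_I, mul_one])
      rw [sum_product]
      refine (norm_sum_le _ _).trans (sum_le_sum fun i hi => le_of_eq ?_)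
      have e : ∀ x y : ℂ, w i * (‖x‖ * ‖y‖) = ‖w i * ph i * (x * y) *
          Complex.exp ((-(u * Real.log X) : ℝ) * Complex.I)‖ := fun x y => by
        rw [norm_mul, norm_mul, norm_mul, norm_mul, Complex.norm_exp_ofReal_mul_I, h1,
          Complex.norm_real, Real.norm_of_nonneg (hw i hi), mul_one, mul_one]
      rw [e, lf, lf, sum_mul_sum, sum_product]
      simp only [mul_sum, sum_mul]
      refine congrArg _ (sum_congr rfl fun m hm => sum_congr rfl fun n hn => ?_)
      have m0 : (m : ℝ) ≠ 0 := by have := (mem_Icc.1 hm).1; positivity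
      have n0 : (n : ℝ) ≠ 0 := by have := (mem_Icc.1 hn).1; positivity
      rw [hχ i hi, Nat.cast_mul, Real.log_mul m0 n0, show u * (Real.log m + Real.log n - Real.log X) =
        u * Real.log m + u * Real.log n + -(u * Real.log X) by ring, Complex.ofReal_add,
        Complex.ofReal_add, add_mul, add_mul, Complex.exp_add, Complex.exp_add]
      ring
  refine le_trans ((le_abs_self _).trans (le_of_eq ?_)) h
  rw [← Real.norm_eq_abs, ← Complex.norm_real, Complex.ofReal_sum, sum_product]
  refine congrArg _ (sum_congr rfl fun i _ => ?_)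
  rw [Complex.ofReal_mul, h2, sum_product]
  simp only [mul_sum, om, mul_assoc]

theorem bump : BumpStmt := by
  intro δ hδ
  have hl := Real.log_pos one_lt_two
  let f : ContDiffBump (Real.log 2 / 2) := ⟨max (Real.log 2 / 2 - δ) (Real.log 2 / 4),
    Real.log 2 / 2, lt_max_of_lt_right (by positivity), max_lt (by linarith) (by linarith)⟩
  obtain ⟨κ, C, k1, k2, k3⟩ := SepL.four f.hasCompactSupport f.contDiff
  obtain ⟨K, hK⟩ := (f.contDiff (n := 1)).lipschitzWith_of_hasCompactSupport f.hasCompactSupport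
    (by simp)
  refine ⟨f, max 1 (max K C), ⟨le_max_left _ _, fun t => f.nonneg, fun t => f.le_one,
    fun t ht => ?_, fun s t => (hK.dist_le_mul s t).trans (mul_le_mul_of_nonneg_right
      (le_max_of_le_right (le_max_left _ _)) (abs_nonneg _)), κ, k1, fun u => (k2 u).trans
      (div_le_div_of_nonneg_right (le_max_of_le_right (le_max_right _ _)) (by positivity)), k3⟩,
    fun t h1 h2 => f.one_of_mem_closedBall (Metric.mem_closedBall.2
      (le_max_of_le_left (abs_le.2 ⟨?_, ?_⟩)))⟩
  · have h : |t - Real.log 2 / 2| < Real.log 2 / 2 := (Set.ext_iff.1 f.support_eq t).1 ht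
    constructor <;> linarith [abs_lt.1 h]
  all_goals linarith

end

end Pool.Agent.MP_678834_nt.gy
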