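import Mathlib
import Pool.Agent.MP_678834_nt.gy.Spec

/-! Project GY: the integral form. -/

set_option autoImplicit false

namespace Pool.Agent.MP_678834_nt.gy

open Finset Filter

def VARStmt : Prop := ∀ ε : ℝ, 0 < ε → ∀ᶠ X : ℕ in atTop, ∀ h : ℕ, 1 ≤ h →
  (h : ℝ) ≤ (X : ℝ) ^ (1 / 3 - ε) → ∀ m : ℝ,
    (1 / 2 - ε) * h * X * Real.log (X / (h : ℝ) ^ 3) ≤ Var X h m

def INTStmt : Prop := ∀ ε : ℝ, 0 < ε → ∀ᶠ x : ℝ in atTop, ∀ h : ℝ, 1 ≤ h →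
  h ≤ x ^ (1 / 3 - ε) → (1 / 2 - ε) * h * x * Real.log (x / h ^ 3) ≤
    ∫ y in x..2 * x, (Chebyshev.psi (y + h) - Chebyshev.psi y - h) ^ 2

end Pool.Agent.MP_678834_nt.gy
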