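import Mathlib
import Pool.Agent.MP_678834_nt.gy.Spec

/-! Project GY: the sum of `μ(r)^2 / φ(r)` over an interval. -/

set_option autoImplicit false

namespace Pool.Agent.MP_678834_nt.gy

open Finset Filter ComplexConjugate ArithmeticFunction
open scoped ArithmeticFunction.Moebius

namespace SqfL

open UniqueFactorizationMonoid

theorem euler {r : ℕ} (hr : r ≠ 0) (t : Finset ℕ)
    (ht : ∀ m ∈ t, m ∈ Nat.factoredNumbers r.primeFactors) :
    ∑ m ∈ t, (m : ℝ)⁻¹ ≤ r / r.totient := by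
  let f : ℕ →* ℝ := ⟨⟨fun n => (n : ℝ)⁻¹, by simp⟩, fun a b => by simp [mul_comm]⟩
  have h := (EulerProduct.summable_and_hasSum_factoredNumbers_prod_filter_prime_geometric
    (f := f) (fun {p} hp => by
      have : (1 : ℝ) < p := by exact_mod_cast hp.one_lt
      change ‖(p : ℝ)⁻¹‖ < 1
      rw [Real.norm_of_nonneg (by positivity)]
      exact inv_lt_one_of_one_lt₀ this) r.primeFactors).2
  have h1 := sum_le_hasSum t (fun m _ => Set.indicator_nonneg (fun a _ => by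
    change 0 ≤ (a : ℝ)⁻¹
    positivity) m) (hasSum_subtype_iff_indicator.1 h)
  rw [sum_congr rfl fun m hm => Set.indicator_of_mem (ht m hm) _,
    filter_true_of_mem fun p hp => Nat.prime_of_mem_primeFactors hp, prod_inv_distrib] at h1
  refine h1.trans_eq ?_
  have h2 : (r.totient : ℝ) = r * ∏ p ∈ r.primeFactors, (1 - (p : ℝ)⁻¹) := by
    have := congrArg (fun q : ℚ => (q : ℝ)) (Nat.totient_eq_mul_prod_factors r)
    simpa using this
  have h3 : (r : ℝ) ≠ 0 := by exact_mod_cast hr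
  rw [h2, div_mul_cancel_left₀ h3]
  rfl

theorem fibre (r : ℕ) (s : Finset ℕ) (hs : ∀ n ∈ s, n ≠ 0 ∧ radical n = r) :
    ∑ n ∈ s, (1 : ℝ) / n ≤ (μ r : ℝ) ^ 2 / r.totient := by
  rcases s.eq_empty_or_nonempty with rfl | ⟨n₀, h₀⟩
  · rw [sum_empty]
    positivity
  have sq : Squarefree r := (hs n₀ h₀).2 ▸ squarefree_radical
  have r0 : (r : ℝ) ≠ 0 := by exact_mod_cast sq.ne_zero
  have dv : ∀ n ∈ s, r ∣ n := fun n hn => (hs n hn).2 ▸ radical_dvd_self
  have e : (μ r : ℝ) ^ 2 = 1 := by exact_mod_cast moebius_sq_eq_one_of_squarefree sq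
  have h := euler sq.ne_zero (s.image (· / r)) fun m hm => by
    obtain ⟨n, hn, rfl⟩ := mem_image.1 hm
    refine Nat.mem_factoredNumbers'.2 fun p hp hd => Nat.mem_primeFactors.2 ⟨hp, ?_, sq.ne_zero⟩
    rw [← (hs n hn).2]
    exact (dvd_radical_iff_of_irreducible hp.prime.irreducible (hs n hn).1).2
      (hd.trans (Nat.div_dvd_of_dvd (dv n hn)))
  rw [sum_image fun a ha b hb e => (Nat.div_left_inj (dv a ha) (dv b hb)).1 e] at h
  have h1 : ∑ n ∈ s, (1 : ℝ) / n = (r : ℝ)⁻¹ * ∑ n ∈ s, ((n / r : ℕ) : ℝ)⁻¹ := by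
    rw [mul_sum]
    refine sum_congr rfl fun n hn => ?_
    rw [Nat.cast_div (dv n hn) r0]
    field_simp
  rw [h1, e]
  refine (mul_le_mul_of_nonneg_left h (by positivity)).trans_eq ?_
  field_simp

theorem low (M Q : ℕ) (hQ : 1 ≤ Q) :
    Real.log Q - Real.log M - 1 ≤ ∑ n ∈ Ioc M Q, (1 : ℝ) / n := by
  have h1 : Real.log Q ≤ ∑ n ∈ Icc 1 Q, (1 : ℝ) / n := by
    refine le_trans (Real.log_le_log (by exact_mod_cast hQ) (by simp))
      ((log_add_one_le_harmonic Q).trans_eq ?_)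
    simp [harmonic_eq_sum_Icc]
  have h2 : ∑ n ∈ Icc 1 Q, (1 : ℝ) / n ≤ ∑ n ∈ Icc 1 M ∪ Ioc M Q, (1 : ℝ) / n :=
    sum_le_sum_of_subset_of_nonneg (fun n hn => by
      simp only [mem_union, mem_Icc, mem_Ioc] at hn ⊢
      omega) fun _ _ _ => by positivity
  rw [sum_union (disjoint_left.2 fun n a b => by
    simp only [mem_Icc, mem_Ioc] at a b
    omega)] at h2
  linarith [harm M]

theorem tail (T Q : ℕ) (hT : 1 ≤ T) (s : Finset ℕ) (a b : ℕ → ℕ)
    (hs : ∀ n ∈ s, n ≤ Q ∧ 0 < a n ∧ T < b n ∧ b n ^ 2 * a n = n) :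
    ∑ n ∈ s, (1 : ℝ) / n ≤ (1 + Real.log Q) / T := by
  have h1 := sum_inj (s := s) (t := Ioc T (T + Q) ×ˢ Icc 1 Q) (fun n => (b n, a n))
    (f := fun n => (1 : ℝ) / n) (g := fun x => ((x.1 : ℝ) ^ 2)⁻¹ * (1 / x.2))
    (fun n hn m hm e => by
      rw [← (hs n hn).2.2.2, ← (hs m hm).2.2.2, (Prod.mk.inj e).1, (Prod.mk.inj e).2])
    (fun n hn => by
      obtain ⟨h1, h2, h3, h4⟩ := hs n hn
      simp only [mem_product, mem_Ioc, mem_Icc]
      exact ⟨⟨h3, by nlinarith⟩, h2, (Nat.le_of_dvd (h4 ▸ Nat.mul_pos (pow_pos (by omega) 2) h2)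
        (Dvd.intro_left _ h4)).trans h1⟩)
    (fun n hn => by
      have : ((b n : ℝ)) ^ 2 * a n = n := by exact_mod_cast (hs n hn).2.2.2
      rw [← this]
      exact le_of_eq (by ring)) fun _ _ => by positivity
  rw [sum_product] at h1
  simp only at h1
  rw [← sum_mul_sum] at h1
  have h2 := sum_Ioc_inv_sq_le_sub (α := ℝ) (k := T) (n := T + Q) (by omega) (by omega)
  refine h1.trans ?_
  rw [div_eq_inv_mul]
  exact mul_le_mul (h2.trans (sub_le_self _ (by positivity))) (harm Q)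
    (sum_nonneg fun _ _ => by positivity) (by positivity)

end SqfL

open SqfL UniqueFactorizationMonoid in
theorem sqf : SQFStmt := by
  intro R Q T hR hT hQ
  have hc : ∀ n : ℕ, ∃ a b : ℕ, 0 < n → 0 < a ∧ b ^ 2 * a = n ∧ Squarefree a := fun n => by
    rcases Nat.eq_zero_or_pos n with rfl | hn
    · exact ⟨0, 0, fun h => absurd h (lt_irrefl _)⟩
    · obtain ⟨a, b, h1, -, h2⟩ := Nat.sq_mul_squarefree_of_pos hn
      exact ⟨a, b, fun _ => ⟨h1, h2⟩⟩
  choose a b hab using hc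
  have h1 := low (R * T ^ 2) Q hQ
  rw [← sum_filter_add_sum_filter_not _ fun n => T < b n] at h1
  have h2 := tail T Q hT {n ∈ Ioc (R * T ^ 2) Q | T < b n} a b fun n hn => by
    obtain ⟨h, h'⟩ := mem_filter.1 hn
    obtain ⟨e1, e2⟩ := mem_Ioc.1 h
    obtain ⟨e3, e4, -⟩ := hab n (by omega)
    exact ⟨e2, e3, h', e4⟩
  have h3 : ∑ n ∈ Ioc (R * T ^ 2) Q with ¬T < b n, (1 : ℝ) / n ≤
      ∑ r ∈ Ioc R Q, (μ r : ℝ) ^ 2 / r.totient := by
    rw [← sum_fiberwise_of_maps_to (t := Ioc R Q) (g := fun n => radical n) fun n hn => ?_]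
    · refine sum_le_sum fun r _ => fibre r _ fun n hn => ⟨?_, (mem_filter.1 hn).2⟩
      have := (mem_Ioc.1 (mem_filter.1 (mem_filter.1 hn).1).1).1
      omega
    · obtain ⟨h, h'⟩ := mem_filter.1 hn
      obtain ⟨e1, e2⟩ := mem_Ioc.1 h
      obtain ⟨e3, e4, e5⟩ := hab n (by omega)
      have e6 : a n ∣ radical n :=
        (dvd_radical_iff e5.isRadical (by omega)).2 (Dvd.intro_left _ e4)
      have e7 : b n ^ 2 * a n ≤ T ^ 2 * a n := by gcongr; omega
      have e8 : R < a n := lt_of_mul_lt_mul_left (a := T ^ 2) (by nlinarith) (Nat.zero_le _)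
      exact mem_Ioc.2 ⟨e8.trans_le (Nat.le_of_dvd (Nat.pos_of_ne_zero radical_ne_zero) e6),
        (Nat.le_of_dvd (by omega) radical_dvd_self).trans e2⟩
  have h4 : Real.log ((R * T ^ 2 : ℕ) : ℝ) = Real.log R + 2 * Real.log T := by
    push_cast
    rw [Real.log_mul (by positivity) (by positivity), Real.log_pow]
    norm_num
  have h5 : 0 ≤ (1 + Real.log Q) / T := by positivity
  rw [mul_div_assoc]
  linarith

end Pool.Agent.MP_678834_nt.gy
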