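import Pool.Agent.MP_678834_nt.gy.Spec

/-! Project GY: the Siegel-Walfisz theorem and the prime number theorem with the smooth weight. -/

set_option autoImplicit false

namespace Pool.Agent.MP_678834_nt.gy

open Finset Filter ComplexConjugate ArithmeticFunction
open scoped ArithmeticFunction.Moebius

namespace Sww

theorem log_ev (c : ℝ) : ∀ᶠ X : ℕ in atTop, c ≤ Real.log X :=
  (Real.tendsto_log_atTop.comp tendsto_natCast_atTop_atTop).eventually_ge_atTop c

open Classical in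
theorem blk (h : SW0Stmt) (A B : ℕ) : ∃ C : ℝ, 0 ≤ C ∧ ∀ᶠ X : ℕ in atTop,
    ∀ (y q : ℕ) (χ : DirichletCharacter ℂ q), X ≤ y → y ≤ 2 * X → 1 ≤ q →
      (q : ℝ) ≤ Real.log X ^ B →
      ‖∑ n ∈ Icc 1 y, ((Λ n : ℂ) * χ n - if χ = 1 then 1 else 0)‖ ≤ C * X / Real.log X ^ A := by
  obtain ⟨C, y₀, h⟩ := h A B
  refine ⟨|C| * 2, by positivity, ?_⟩
  filter_upwards [log_ev 1, tendsto_natCast_atTop_atTop.eventually_ge_atTop y₀,
    eventually_ge_atTop 1] with X h1 h2 h3 y q χ a b c d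
  have a' : (X : ℝ) ≤ y := by exact_mod_cast a
  have b' : (y : ℝ) ≤ 2 * X := by exact_mod_cast b
  have x0 : (0 : ℝ) < X := by exact_mod_cast h3
  have l : Real.log X ≤ Real.log y := Real.log_le_log x0 a'
  have l0 : 0 < Real.log X := by linarith
  refine (h y q χ (h2.trans a') c (d.trans (pow_le_pow_left₀ l0.le l _))).trans ?_
  refine div_le_div₀ (by positivity) ?_ (by positivity) (pow_le_pow_left₀ l0.le l _)
  have := mul_le_mul (le_abs_self C) b' (by positivity) (abs_nonneg C)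
  linarith

theorem split {M : Type} [AddCommGroup M] (f : ℕ → M) {a b : ℕ} (h : a ≤ b) :
    ∑ n ∈ Ioc a b, f n = ∑ n ∈ Icc 1 b, f n - ∑ n ∈ Icc 1 a, f n := by
  have e : ∀ y : ℕ, Icc 1 y = Ioc 0 y := fun y => by
    ext n
    simp only [mem_Icc, mem_Ioc]
    omega
  rw [eq_sub_iff_add_eq', e, e, sum_Ioc_consecutive f (Nat.zero_le a) h]

end Sww

open Sww

theorem sww : SW0Stmt → SWWStmt := by
  intro h V L hV A B
  obtain ⟨C, C0, h⟩ := blk h (A + 2) B
  filter_upwards [h, log_ev 1, log_ev (6 * C * L), eventually_ge_atTop 1] with X h h1 h2 h3 z a b c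
  have x0 : (0 : ℝ) < X := by exact_mod_cast h3
  have l0 : 0 < Real.log X := by linarith
  have hS : ∀ y, X ≤ y → y ≤ 2 * X → ‖∑ n ∈ Icc 1 y, (Λ n : ℂ) * cv z n‖ ≤
      C * X / Real.log X ^ (A + 2) := fun y u v => by
    have := h y z.1 z.2 u v a b
    simpa only [if_neg c, sub_zero, cv] using this
  have k := hV.abel_om (fun n => if X < n then (Λ n : ℂ) * cv z n else 0) X (2 * X) le_rfl
    (K := 2 * (C * X / Real.log X ^ (A + 2))) fun y hy => by
      rcases le_or_gt y X with u | u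
      · rw [sum_eq_zero fun n hn => if_neg (by have := (mem_Icc.1 hn).2; omega), norm_zero]
        positivity
      · have e : (Icc 1 y).filter (X < ·) = Ioc X y := by
          ext n
          simp only [mem_filter, mem_Icc, mem_Ioc]
          omega
        rw [← sum_filter, e, split _ u.le]
        refine (norm_sub_le _ _).trans ?_
        linarith [hS y u.le hy, hS X le_rfl (by omega)]
  have e : psw V X (cv z) = ∑ k ∈ Icc 1 (2 * X),
      (if X < k then (Λ k : ℂ) * cv z k else 0) * (om V X (1 * k) : ℝ) := by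
    refine sum_congr rfl fun n _ => ?_
    rw [one_mul]
    split_ifs with u
    · push_cast; ring
    · have : om V X n = 0 := by_contra fun v => u (hV.om_supp h3 v).1
      simp [this]
  rw [e]
  refine k.trans ?_
  have l2 : 1 + Real.log ((2 * X : ℕ) : ℝ) ≤ 3 * Real.log X := by
    push_cast
    rw [Real.log_mul two_ne_zero x0.ne']
    linarith [Real.log_two_lt_d9]
  have L0 : 0 ≤ L := by linarith [hV.one]
  calc 2 * (C * X / Real.log X ^ (A + 2)) * (L * (1 + Real.log ((2 * X : ℕ) : ℝ)))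
      ≤ 2 * (C * X / Real.log X ^ (A + 2)) * (L * (3 * Real.log X)) := by gcongr
    _ = 6 * C * L * (X / Real.log X ^ (A + 1)) := by field_simp; ring
    _ ≤ Real.log X * (X / Real.log X ^ (A + 1)) := by gcongr
    _ = X / Real.log X ^ A := by field_simp; ring

theorem pnw : SW0Stmt → PNWStmt := by
  intro h ε hε
  obtain ⟨C, C0, h⟩ := blk h 1 0
  obtain ⟨δ, d0, d1, d2⟩ : ∃ δ : ℝ, 0 < δ ∧ δ ≤ ε / 8 ∧ δ ≤ 1 / 10 :=
    ⟨min (ε / 8) (1 / 10), by positivity, min_le_left _ _, min_le_right _ _⟩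
  refine ⟨δ, d0, fun V L hV hV1 => ?_⟩
  filter_upwards [h, log_ev 1, log_ev (8 * C / ε),
    tendsto_natCast_atTop_atTop.eventually_ge_atTop (8 / ε),
    tendsto_natCast_atTop_atTop.eventually_ge_atTop (10 : ℝ)] with X h h1 h2 h3 h4
  have x0 : (0 : ℝ) < X := by linarith
  have l0 : 0 < Real.log X := by linarith
  have hS : ∀ y, X ≤ y → y ≤ 2 * X → |∑ n ∈ Icc 1 y, Λ n - y| ≤ ε / 8 * X := fun y u v => by
    have k := h y 1 1 u v le_rfl (by simp)
    have e : ∑ n ∈ Icc 1 y, ((Λ n : ℂ) * (1 : DirichletCharacter ℂ 1) n - 1) =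
        ((∑ n ∈ Icc 1 y, Λ n - y : ℝ) : ℂ) := by
      have : ∀ n : ℕ, (1 : DirichletCharacter ℂ 1) n = 1 := fun n => by
        rw [Subsingleton.elim (n : ZMod 1) 1, map_one]
      simp [this]
    rw [if_pos rfl, e, Complex.norm_real, Real.norm_eq_abs, pow_one] at k
    refine k.trans ?_
    rw [div_le_iff₀ hε] at h2
    rw [div_le_iff₀ l0]
    nlinarith
  have a1 : (1 + 2 * δ) * X ≤ ⌈(1 + 2 * δ) * X⌉₊ := Nat.le_ceil _
  have a2 : (⌈(1 + 2 * δ) * X⌉₊ : ℝ) < (1 + 2 * δ) * X + 1 := Nat.ceil_lt_add_one (by positivity)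
  have b1 : (⌊2 * (1 - δ) * X⌋₊ : ℝ) ≤ 2 * (1 - δ) * X := Nat.floor_le (by nlinarith)
  have b2 : 2 * (1 - δ) * X < ⌊2 * (1 - δ) * X⌋₊ + 1 := Nat.lt_floor_add_one _
  generalize ⌈(1 + 2 * δ) * X⌉₊ = a at a1 a2
  generalize ⌊2 * (1 - δ) * X⌋₊ = b at b1 b2
  have dx : 0 < δ * X := by positivity
  have c1 : X ≤ a := by exact_mod_cast (by linarith : (X : ℝ) ≤ a)
  have c2 : a ≤ b := by exact_mod_cast (by nlinarith : (a : ℝ) ≤ b)
  have c3 : b ≤ 2 * X := by exact_mod_cast (by linarith : (b : ℝ) ≤ 2 * X)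
  have k : ∑ n ∈ Ioc a b, Λ n ≤ ps1 V X := by
    refine le_trans (le_of_eq (sum_congr rfl fun n hn => ?_)) (sum_le_sum_of_subset_of_nonneg
      (s := Ioc a b) (fun n hn => ?_) fun n _ _ => mul_nonneg vonMangoldt_nonneg (hV.nn _))
    · have n1 : (a : ℝ) < n := by exact_mod_cast (mem_Ioc.1 hn).1
      have n2 : (n : ℝ) ≤ b := by exact_mod_cast (mem_Ioc.1 hn).2
      have n0 : (0 : ℝ) < n := by nlinarith
      rw [om, hV1, mul_one]
      · have u := Real.log_le_log (by positivity) (a1.trans n1.le)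
        have v := Real.one_sub_inv_le_log_of_pos (show 0 < 1 + 2 * δ by positivity)
        have w : (1 + 2 * δ)⁻¹ ≤ 1 - δ := by
          rw [inv_le_iff_one_le_mul₀ (by positivity)]
          nlinarith
        rw [Real.log_mul (by positivity) x0.ne'] at u
        linarith
      · have u := Real.log_le_log n0 (n2.trans b1)
        have p : 0 < 1 - δ := by linarith
        rw [Real.log_mul (by positivity) x0.ne', Real.log_mul two_ne_zero p.ne'] at u
        linarith [Real.log_le_sub_one_of_pos p]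
    · have := mem_Ioc.1 hn
      exact mem_Icc.2 (by omega)
  rw [split _ c2] at k
  have s1 := abs_le.1 (hS a c1 (c2.trans c3))
  have s2 := abs_le.1 (hS b (c1.trans c2) c3)
  rw [div_le_iff₀ hε] at h3
  nlinarith [mul_le_mul_of_nonneg_right d1 x0.le]

end Pool.Agent.MP_678834_nt.gy
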