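import Pool.Agent.MP_678834_nt.gy.Pack
import Pool.Agent.MP_678834_nt.PW.Top

/-! Project GY: the Siegel-Walfisz theorem from project PW, and the assembly. -/

set_option autoImplicit false

namespace Pool.Agent.MP_678834_nt.gy

theorem sw0 : SW0Stmt := fun A B => by
  obtain ⟨C, y₀, h⟩ := PW.pw A B
  refine ⟨C, y₀, fun y q χ hy hq hqB => ?_⟩
  have h1 := h y 0 q χ hy hq hqB (by simp)
  simpa [MP_db1c88_nt.z94.DP, MP_db1c88_nt.z94.ei, HL9.lc] using h1

theorem main2 : MAIN2Stmt :=
  main bump (pnw sw0) (mv2 fam (blk2 fam ii (vau (dya sep)) dual) (sww sw0)) (red2 rda2) key phi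
    sqf cs

theorem var_ge : VARStmt := fun _ hε => fn.var_all main2 hε

end Pool.Agent.MP_678834_nt.gy
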