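import Pool.Agent.MP_678834_nt.gy.Spec

/-! The Vaughan decomposition. -/

set_option autoImplicit false

namespace Pool.Agent.MP_678834_nt.gy

open Finset Filter ComplexConjugate ArithmeticFunction
open scoped ArithmeticFunction.Moebius ArithmeticFunction.zeta

noncomputable section

namespace Vau

/-- the part above `U` -/
def hi (U : ℝ) (f : ArithmeticFunction ℝ) : ArithmeticFunction ℝ :=
  ⟨fun n => if U < n then f n else 0, by simp⟩

/-- the part up to `U` -/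
def lo (U : ℝ) (f : ArithmeticFunction ℝ) : ArithmeticFunction ℝ :=
  ⟨fun n => if U < n then 0 else f n, by simp⟩

variable {U : ℝ} {f g : ArithmeticFunction ℝ}

theorem lo_hi (U : ℝ) (f : ArithmeticFunction ℝ) : lo U f + hi U f = f := by
  ext n
  simp only [lo, hi, ArithmeticFunction.add_apply, coe_mk]
  split_ifs <;> simp

theorem hi_abs (n : ℕ) : |hi U f n| ≤ |f n| := by
  simp only [hi, coe_mk]
  split_ifs <;> simp

theorem lo_abs (n : ℕ) : |lo U f n| ≤ |f n| := by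
  simp only [lo, coe_mk]
  split_ifs <;> simp

theorem hi_ne {n : ℕ} (h : hi U f n ≠ 0) : U < n ∧ f n ≠ 0 := by
  simpa [hi] using h

theorem lo_ne {n : ℕ} (h : lo U f n ≠ 0) : (n : ℝ) ≤ U := by
  by_contra hc
  exact h (if_pos (not_le.1 hc))

theorem mul_ne {n : ℕ} (h : (f * g) n ≠ 0) : ∃ t e, t * e = n ∧ n ≠ 0 ∧ f t ≠ 0 ∧ g e ≠ 0 := by
  rw [ArithmeticFunction.mul_apply] at h
  obtain ⟨p, hp, h1⟩ := exists_ne_zero_of_sum_ne_zero h
  rw [Nat.mem_divisorsAntidiagonal] at hp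
  exact ⟨p.1, p.2, hp.1, hp.2, left_ne_zero_of_mul h1, right_ne_zero_of_mul h1⟩

theorem mul_abs (hf : ∀ t, |f t| ≤ 1) (hg : ∀ e, |g e| ≤ |Λ e|) (n : ℕ) :
    |(f * g) n| ≤ Real.log n := by
  rw [mul_apply, ← vonMangoldt_sum, ← Nat.sum_divisorsAntidiagonal' fun _ e => Λ e]
  refine (abs_sum_le_sum_abs _ _).trans (sum_le_sum fun p _ => ?_)
  rw [abs_mul, ← abs_of_nonneg (vonMangoldt_nonneg (n := p.2))]
  exact (mul_le_of_le_one_left (abs_nonneg _) (hf _)).trans (hg _)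

theorem ident (U : ℝ) : hi U Λ = hi U μ * ((ζ : ArithmeticFunction ℝ) * hi U Λ) + lo U μ * log -
    lo U (lo U μ * lo U Λ) * ζ - hi U (lo U μ * lo U Λ) * ζ := by
  have h1 : (lo U μ + hi U μ) * (ζ : ArithmeticFunction ℝ) = 1 := by
    rw [lo_hi, coe_moebius_mul_coe_zeta]
  have h2 : (lo U Λ + hi U Λ) * (ζ : ArithmeticFunction ℝ) = log := by
    rw [lo_hi, vonMangoldt_mul_zeta]
  have h3 := lo_hi U (lo U μ * lo U Λ)
  linear_combination (-hi U Λ) * h1 + lo U μ * h2 + (ζ : ArithmeticFunction ℝ) * h3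

/-- bilinear sums -/
def Bl (f g : ArithmeticFunction ℝ) (F : ℕ → ℂ) (N : ℕ) : ℂ :=
  ∑ t ∈ Icc 1 N, ∑ k ∈ Icc 1 N, (f t : ℂ) * g k * F (t * k)

theorem conv (f g : ArithmeticFunction ℝ) {F : ℕ → ℂ} {N : ℕ} (hF : ∀ n, N < n → F n = 0) :
    ∑ n ∈ Icc 1 N, ((f * g) n : ℂ) * F n = Bl f g F N := by
  rw [Bl, ← sum_product', ← sum_filter_add_sum_filter_not _ fun p : ℕ × ℕ => p.1 * p.2 ≤ N,
    sum_eq_zero (s := filter (fun p : ℕ × ℕ => ¬p.1 * p.2 ≤ N) _)
      fun p hp => by rw [hF _ (not_le.1 (mem_filter.1 hp).2), mul_zero], add_zero,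
    ← sum_fiberwise_of_maps_to (t := Icc 1 N) (g := fun p : ℕ × ℕ => p.1 * p.2)]
  · refine sum_congr rfl fun n hn => ?_
    rw [mul_apply, Complex.ofReal_sum, sum_mul]
    rw [mem_Icc] at hn
    refine sum_congr ?_ fun p hp => by rw [(mem_filter.1 hp).2, Complex.ofReal_mul]
    ext p
    simp only [Nat.mem_divisorsAntidiagonal, mem_filter, mem_product, mem_Icc]
    refine ⟨fun h => ?_, fun h => ⟨h.2, by omega⟩⟩
    have h1 : 0 < p.1 := Nat.pos_of_mul_pos_right (by omega : 0 < p.1 * p.2)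
    have h2 : 0 < p.2 := Nat.pos_of_mul_pos_left (by omega : 0 < p.1 * p.2)
    have h3 := Nat.le_mul_of_pos_right p.1 h2
    have h4 := Nat.le_mul_of_pos_left p.2 h1
    omega
  · intro p hp
    simp only [mem_filter, mem_product, mem_Icc] at hp ⊢
    exact ⟨Nat.mul_pos hp.1.1.1 hp.1.2.1, hp.2⟩

theorem log_le {X n : ℕ} (h : n ≤ 2 * X) (hX : 1 ≤ X) : Real.log n ≤ ell X := by
  rcases Nat.eq_zero_or_pos n with rfl | hn
  · simpa using zero_le_one.trans (ell_one hX)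
  · have := Real.log_le_log (by exact_mod_cast hn) (by exact_mod_cast h : (n : ℝ) ≤ 2 * X)
    unfold ell; linarith

theorem one {V : ℝ → ℝ} {L K c : ℝ} (hV : Wt V L) {X : ℕ} {χ : ℕ → ℂ} (hU : 0 ≤ U) (hc : 0 ≤ c)
    (hm : ∀ m n, χ (m * n) = χ m * χ n) (hl : ∀ n, ‖χ n‖ ≤ 1)
    (hf : ∀ t ≤ 2 * X, |f t| ≤ c)
    (hg : ∀ y, y ≤ 2 * X → ‖∑ k ∈ Icc 1 y, χ k * (g k : ℝ)‖ ≤ K) :
    ‖Bl (lo U f) g (fun n => χ n * (om V X n : ℝ)) (2 * X)‖ ≤ U * (c * (K * (L * ell X))) := by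
  have hK : 0 ≤ K := (norm_nonneg _).trans (hg 0 (Nat.zero_le _))
  have h0 : 0 ≤ K * (L * ell X) := by
    have := hV.abel_om _ X (2 * X) le_rfl hg
    push_cast at this
    exact (norm_nonneg _).trans this
  have h1 : ∀ t ∈ Icc 1 (2 * X), ‖∑ k ∈ Icc 1 (2 * X),
      (lo U f t : ℂ) * g k * (χ (t * k) * (om V X (t * k) : ℝ))‖ ≤
      if t ∈ Icc 1 ⌊U⌋₊ then c * (K * (L * ell X)) else 0 := fun t ht => by
    rw [mem_Icc] at ht
    split_ifs with h
    · have := hV.abel_om _ X (2 * X) ht.1 hg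
      push_cast at this
      rw [sum_congr rfl (g := fun k => (lo U f t : ℂ) * (χ t * (χ k * g k * (om V X (t * k) : ℝ))))
        fun k _ => by rw [hm]; ring, ← mul_sum, ← mul_sum, norm_mul, norm_mul, Complex.norm_real]
      exact mul_le_mul ((lo_abs t).trans (hf t ht.2))
        ((mul_le_of_le_one_left (norm_nonneg _) (hl t)).trans this) (by positivity) hc
    · have : lo U f t = 0 := by
        by_contra h2
        exact h (mem_Icc.2 ⟨ht.1, Nat.le_floor (lo_ne h2)⟩)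
      simp [this]
  refine (norm_sum_le _ _).trans ((sum_le_sum h1).trans ?_)
  rw [← sum_filter, sum_const, nsmul_eq_mul]
  refine mul_le_mul_of_nonneg_right (le_trans ?_ (Nat.floor_le hU)) (mul_nonneg hc h0)
  exact_mod_cast (card_le_card fun t ht => (mem_filter.1 ht).2).trans (by simp)

theorem two {ι : Type} {S : Finset ι} {w : ι → ℝ} {F : ι → ℕ → ℂ} {N : ℕ} {c B : ℝ} {P : ℕ → Prop}
    (hc : 0 < c) (hw : ∀ i ∈ S, 0 ≤ w i)
    (H : ∀ a b : ℕ → ℂ, (∀ m, ‖a m‖ ≤ 1) → (∀ n, ‖b n‖ ≤ 1) → (∀ t : ℕ, a t ≠ 0 → P t) →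
      ∑ i ∈ S, w i * ‖∑ t ∈ Icc 1 N, ∑ k ∈ Icc 1 N, a t * b k * F i (t * k)‖ ≤ B)
    (hf : ∀ t ≤ N, |f t| ≤ c) (hg : ∀ k ≤ N, |g k| ≤ c)
    (hP : ∀ i t k, f t ≠ 0 → g k ≠ 0 → F i (t * k) ≠ 0 → P t) :
    ∑ i ∈ S, w i * ‖Bl f g (F i) N‖ ≤ c ^ 2 * B := by
  classical
  have n1 : ∀ x : ℝ, |x| ≤ c → ‖((x / c : ℝ) : ℂ)‖ ≤ 1 := fun x hx => by
    rwa [Complex.norm_real, Real.norm_eq_abs, abs_div, abs_of_pos hc, div_le_one hc]
  have h := H (fun t => if t ≤ N ∧ P t then ((f t / c : ℝ) : ℂ) else 0)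
    (fun k => if k ≤ N then ((g k / c : ℝ) : ℂ) else 0)
    (fun t => by split_ifs with h; exacts [n1 _ (hf t h.1), by simp])
    (fun k => by split_ifs with h; exacts [n1 _ (hg k h), by simp])
    (fun t ht => by by_contra h; exact ht (if_neg fun e => h e.2))
  refine le_trans (le_of_eq ?_) (mul_le_mul_of_nonneg_left h (sq_nonneg c))
  rw [mul_sum]
  refine sum_congr rfl fun i _ => ?_
  rw [mul_left_comm, ← abs_of_nonneg (sq_nonneg c), ← Real.norm_eq_abs, ← Complex.norm_real,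
    ← norm_mul, mul_sum, Bl]
  congr 2
  refine sum_congr rfl fun t ht => ?_
  rw [mul_sum]
  refine sum_congr rfl fun k hk => ?_
  have c0 : (c : ℂ) ≠ 0 := by exact_mod_cast hc.ne'
  rw [if_pos (mem_Icc.1 hk).2]
  split_ifs with h1
  · push_cast
    field_simp
  · by_contra h2
    simp only [zero_mul, mul_zero, mul_eq_zero, not_or, Complex.ofReal_eq_zero] at h2
    exact h1 ⟨(mem_Icc.1 ht).2, hP i t k h2.1.1 h2.1.2 h2.2⟩

end Vau

open Vau in
theorem vau : DYAStmt → VAUStmt := by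
  intro dya V L hV ι S χ K D w X U B hF hw hU hX hB H
  have hU3 : U ≤ U ^ 3 := le_self_pow₀ hU three_ne_zero
  have X1 : 1 ≤ X := by exact_mod_cast hU.trans (hU3.trans hX)
  have e1 := ell_one X1
  have K0 := hF.K0
  have L1 := hV.one
  have D := dya V L hV ι S χ w X U B X1 hF.mul hw (by linarith) hB H
  have mu : ∀ t, |(μ : ArithmeticFunction ℝ) t| ≤ 1 := fun t => by
    rw [intCoe_apply]
    exact_mod_cast abs_moebius_le_one
  have ze : ∀ t, |(ζ : ArithmeticFunction ℝ) t| ≤ 1 := fun t => by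
    rw [natCoe_apply, zeta_apply]
    split_ifs <;> simp
  have al : ∀ t ≤ 2 * X, |(lo U μ * lo U Λ) t| ≤ ell X := fun t ht =>
    (mul_abs (fun t => (lo_abs t).trans (mu t)) lo_abs t).trans (log_le ht X1)
  have sp : ∀ i n, χ i n * (om V X n : ℝ) ≠ 0 → X < n ∧ n < 2 * X := fun i n h =>
    hV.om_supp X1 (Complex.ofReal_ne_zero.1 (right_ne_zero_of_mul h))
  have t1 := two (f := hi U μ) (g := (ζ : ArithmeticFunction ℝ) * hi U Λ)
    (F := fun i n => χ i n * (om V X n : ℝ)) (zero_lt_one.trans_le e1) hw D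
    (fun t _ => (hi_abs t).trans ((mu t).trans e1))
    (fun k hk => (mul_abs ze hi_abs k).trans (log_le hk X1)) fun i t k h1 h2 h3 => by
      obtain ⟨a, e, rfl, h4, -, h5⟩ := mul_ne h2
      have h6 : (e : ℝ) ≤ (a * e : ℕ) := by
        exact_mod_cast Nat.le_mul_of_pos_left e (Nat.pos_of_ne_zero (left_ne_zero_of_mul h4))
      have h7 : (t : ℝ) * (a * e : ℕ) ≤ 2 * X := by exact_mod_cast (sp i _ h3).2.le
      exact ⟨(hi_ne h1).1, (mul_le_mul_of_nonneg_left ((hi_ne h5).1.le.trans h6)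
        (Nat.cast_nonneg _)).trans h7⟩
  have t2 := two (f := hi U (lo U μ * lo U Λ)) (g := (ζ : ArithmeticFunction ℝ))
    (F := fun i n => χ i n * (om V X n : ℝ)) (zero_lt_one.trans_le e1) hw D
    (fun t ht => (hi_abs t).trans (al t ht)) (fun k _ => (ze k).trans e1) fun i t k h1 _ _ => by
      obtain ⟨a, e, rfl, -, h4, h5⟩ := mul_ne (hi_ne h1).2
      refine ⟨(hi_ne h1).1, ?_⟩
      have h6 := mul_le_mul (lo_ne h4) (lo_ne h5) (Nat.cast_nonneg _) (by linarith)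
      push_cast
      nlinarith [Nat.cast_nonneg (α := ℝ) X]
  have key : ∀ i ∈ S, ‖psw V X (χ i)‖ ≤
      ‖Bl (hi U μ) ((ζ : ArithmeticFunction ℝ) * hi U Λ) (fun n => χ i n * (om V X n : ℝ)) (2 * X)‖ +
      ‖Bl (hi U (lo U μ * lo U Λ)) ζ (fun n => χ i n * (om V X n : ℝ)) (2 * X)‖ +
      (U * (1 * (2 * K * ell X * (L * ell X))) + U * (ell X * (K * (L * ell X)))) := fun i hi' => by
    have z : ∀ n, 2 * X < n → χ i n * (om V X n : ℝ) = 0 := fun n hn => by
      by_contra h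
      have := sp i n h
      omega
    have s1 := one (f := μ) (g := log) (K := 2 * K * ell X) hV (zero_le_one.trans hU) zero_le_one
      (hF.mul i hi') (hF.le i hi') (fun t _ => mu t) fun y hy =>
        (abel_log (χ i) (2 * X) (fun y _ => hF.pv i hi' y) y hy).trans
          (mul_le_mul_of_nonneg_left (log_le le_rfl X1) (by positivity))
    have s2 := one (g := ζ) (K := K) hV (zero_le_one.trans hU) (zero_le_one.trans e1)
      (hF.mul i hi') (hF.le i hi') al fun y _ => le_trans (le_of_eq (congrArg _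
        (sum_congr rfl fun k hk => by
          have : k ≠ 0 := by have := (mem_Icc.1 hk).1; omega
          simp [natCoe_apply, zeta_apply, this]))) (hF.pv i hi' y)
    have e : psw V X (χ i) = ∑ n ∈ Icc 1 (2 * X), (hi U Λ n : ℂ) * (χ i n * (om V X n : ℝ)) :=
      sum_congr rfl fun n _ => by
        by_cases h : χ i n * (om V X n : ℝ) = 0
        · rw [h, Complex.ofReal_mul, mul_left_comm, h, mul_zero, mul_zero]
        · have h1 : (X : ℝ) < n := by exact_mod_cast (sp i n h).1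
          rw [show hi U Λ n = Λ n from if_pos (by linarith), Complex.ofReal_mul, mul_left_comm]
    rw [e]
    conv_lhs => rw [ident U]
    simp only [sub_eq_add_neg, ArithmeticFunction.add_apply, ArithmeticFunction.neg_apply,
      Complex.ofReal_add, Complex.ofReal_neg, add_mul, neg_mul, sum_add_distrib, sum_neg_distrib,
      conv _ _ z]
    refine (norm_add_le _ _).trans ?_
    rw [norm_neg]
    refine (add_le_add ((norm_add_le _ _).trans (add_le_add (norm_add_le _ _) le_rfl)) le_rfl).trans ?_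
    rw [norm_neg]
    linarith
  refine (sum_le_sum fun i hi' => mul_le_mul_of_nonneg_left (key i hi') (hw i hi')).trans ?_
  simp only [mul_add (w _), sum_add_distrib, ← sum_mul]
  have W : 0 ≤ ∑ i ∈ S, w i := sum_nonneg hw
  generalize ∑ i ∈ S, w i = W' at *
  generalize ell X = l at *
  have p1 : 0 ≤ L * l ^ 2 * (K * U * W') := by positivity
  have p2 : 0 ≤ L * l ^ 3 * B := by positivity
  have p3 := mul_le_mul_of_nonneg_left e1 p1
  nlinarith

end

end Pool.Agent.MP_678834_nt.gy
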